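import Pool.Agent.GB.Use
import Pool.Agent.GG.Fam3
import Pool.Agent.H62.FC.Special

/-!
# GV Defs: abelian varieties, the exponential map, flat maps (PROJECT GV, note 4648)

* `Hl Φ F q`: `F` is a holomorphic representative of the map `Φ` to `ℙ^N` near `q`.
* `vv e t = ∑ t_j e_j`.
* `IsExp θ x e E`: `E : ℂ^d → ℙ^N` is the exponential map at `x` for the tangent vectors `vv e t`: `z ↦ E (z t)` is the arc with the initial vector `(x, vv e t)`.
* `IsFlat θ c E`: `E` is holomorphic and `θ_k (dE_t (w)) = c w k` for all `t`, `w`, with `c w ≠ 0` for `w ≠ 0`.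
* `AlgDim d E`: any `d + 2` homogeneous coordinates of `E` satisfy a nontrivial homogeneous equation.
* `AbelianMap N`: a morphism from an abelian variety `ℂ^g / Λ` to `ℙ^N`.
-/

set_option autoImplicit false

open MvPolynomial Topology Filter Metric
open Pool.Agent.H13.SM (conTan cone)
open Pool.Agent.H17 (PN VanishesAt)
open Pool.Agent.H17EF (projVar)
open Pool.Agent.H66.Lang (HolomorphicIntoPN)
open Pool.Agent.H62.FC (closureIn)
open Pool.Agent.GG

noncomputable section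

namespace Pool.Agent.GV

variable {N : ℕ}

/-! ## holomorphic maps to `ℙ^N` -/

section

variable {V : Type*} [NormedAddCommGroup V] [NormedSpace ℂ V]

/-- `F` is a holomorphic representative of `Φ` near `q` -/
def Hl (Φ : V → PN N) (F : V → Fin (N + 1) → ℂ) (q : V) : Prop :=
  AnalyticAt ℂ F q ∧ ∀ᶠ p in 𝓝 q, ∃ h : F p ≠ 0, Φ p = Projectivization.mk ℂ (F p) h

end

/-- the polar form `m θ (v, …, v, w)` -/
def pol {P : Ideal (MvPolynomial (Fin (N + 1)) ℂ)} {m : ℕ} (s : SymSec P m) (x v w : Fin (N + 1) → ℂ) : ℂ := deriv (fun t : ℂ => s.toFun x (v + t • w)) 0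

/-- the tangent vector with the coordinates `t` -/
def vv {d : ℕ} (e : Fin d → Fin (N + 1) → ℂ) (t : Fin d → ℂ) : Fin (N + 1) → ℂ := ∑ j, t j • e j

variable {P Q : Ideal (MvPolynomial (Fin (N + 1)) ℂ)} {J : ℕ} {m : Fin J → ℕ} {d : ℕ}

/-- `E` is the exponential map at `x`, in the coordinates given by the tangent vectors `e`. -/
structure IsExp (θ : ∀ k, SymSec P (m k)) (x : Fin (N + 1) → ℂ) (e : Fin d → Fin (N + 1) → ℂ) (E : (Fin d → ℂ) → PN N) : Prop where
  zero : ∃ h : x ≠ 0, E 0 = Projectivization.mk ℂ x h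
  arc : ∀ t : Fin d → ℂ, t ≠ 0 → ∀ z, ArcAt θ (fun k => (θ k).toFun x (vv e t)) (fun w => E (w • t)) z
  hol : ∀ t : Fin d → ℂ, t ≠ 0 → ∃ F, Hl E F t
  init : ∀ t : Fin d → ℂ, t ≠ 0 → ∃ F : ℂ × (Fin d → ℂ) → Fin (N + 1) → ℂ, Hl (fun p : ℂ × (Fin d → ℂ) => E (p.1 • p.2)) F ((0 : ℂ), t) ∧
    ∀ᶠ s in 𝓝 t, F (0, s) = x ∧ fderiv ℂ F (0, s) (1, 0) = vv e s

/-- `E` is a flat map: the symmetric forms `E^* θ_k` have constant coefficients. -/
structure IsFlat (θ : ∀ k, SymSec P (m k)) (c : (Fin d → ℂ) → Fin J → ℂ) (E : (Fin d → ℂ) → PN N) : Prop where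
  hol : ∀ t, ∃ F, Hl E F t
  mem : ∀ t, E t ∈ projVar P
  flat : ∀ t w F, Hl E F t → ∀ k, (θ k).toFun (F t) (fderiv ℂ F t w) = c w k
  ne : ∀ w, w ≠ 0 → c w ≠ 0

/-- Any `d + 2` homogeneous coordinates of `E` satisfy a nontrivial homogeneous equation. -/
def AlgDim (d : ℕ) {V : Type*} (E : V → PN N) : Prop :=
  ∀ I : Fin (d + 2) → Fin (N + 1), ∃ (H : MvPolynomial (Fin (d + 2)) ℂ) (n : ℕ), H ≠ 0 ∧ H.IsHomogeneous n ∧ ∀ t, VanishesAt (rename I H) (E t)

/-- the periods of `E` -/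
def periods (E : (Fin d → ℂ) → PN N) : AddSubgroup (Fin d → ℂ) where
  carrier := {τ | ∀ t, E (t + τ) = E t}
  zero_mem' := fun t => by rw [add_zero]
  add_mem' := fun {a b} ha hb t => by rw [← add_assoc, hb, ha]
  neg_mem' := fun {a} ha t => by
    have h := ha (t + -a)
    rw [neg_add_cancel_right] at h
    exact h.symm

/-- `a` and `b` give the same frame of `E` at the same point -/
def SameFrame (E : (Fin d → ℂ) → PN N) (a b : Fin d → ℂ) : Prop :=
  ∃ F G, Hl E F a ∧ Hl E G b ∧ F a = G b ∧ ∀ w, fderiv ℂ F a w - fderiv ℂ G b w ∈ Submodule.span ℂ {F a}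

/-! ## abelian varieties -/

/-- The quotient `ℂ^g / Λ` is an abelian variety of dimension `g ≥ 1`: `Λ` is a lattice (a discrete subgroup such that `ℂ^g / Λ` is compact), and `ℂ^g / Λ` has a
holomorphic embedding into a projective space. -/
structure IsAbelianVariety (g : ℕ) (Λ : AddSubgroup (Fin g → ℂ)) : Prop where
  one_le : 1 ≤ g
  discrete : DiscreteTopology Λ
  compact : ∃ R : ℝ, ∀ t : Fin g → ℂ, ∃ τ ∈ Λ, ‖t - τ‖ ≤ R
  projective : ∃ (M : ℕ) (Ψ : (Fin g → ℂ) → PN M), HolomorphicIntoPN Ψ Set.univ ∧ (∀ t t', Ψ t = Ψ t' ↔ t - t' ∈ Λ) ∧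
    ∀ t (F : (Fin g → ℂ) → Fin (M + 1) → ℂ), Hl Ψ F t → ∀ w, fderiv ℂ F t w ∈ Submodule.span ℂ {F t} → w = 0

/-- The nonconstant morphisms from abelian varieties to `ℙ^N` (as `Λ`-periodic holomorphic maps on `ℂ^g`) -/
structure AbelianMap (N : ℕ) where
  /-- the dimension of the abelian variety -/
  g : ℕ
  /-- the lattice -/
  Λ : AddSubgroup (Fin g → ℂ)
  abelian : IsAbelianVariety g Λ
  /-- the map -/
  f : (Fin g → ℂ) → PN N
  holomorphic : HolomorphicIntoPN f Set.univ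
  periodic : ∀ t, ∀ τ ∈ Λ, f (t + τ) = f t
  nonconstant : ∃ t t', f t ≠ f t'

/-- The Zariski closure in `X` of the union of the images of all nonconstant morphisms from abelian varieties to `X`. -/
def abelianSet (X : Set (PN N)) : Set (PN N) := closureIn X {x | ∃ A : AbelianMap N, (∀ t, A.f t ∈ X) ∧ x ∈ Set.range A.f}

end Pool.Agent.GV
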