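import Pool.Agent.GV.PolA
import Pool.Agent.GG.Row
import Pool.Agent.GG.Bd

/-!
# GV Cmp: comparison of the polar forms and the lengths

PROOFS.  `pol` is linear in `w`, homogeneous of degree `m - 1` in `v`, invariant under `v ↦ v + a x`, `w ↦ w + a x` and under `(x, v, w) ↦ c (x, v, w)`
(`SymSec`, `pol_add`); the same for `wl x v ^ (m - 1) * wl x w`.  So one may assume that `x_a = 1 ≥ |x_b|`, `v_a = w_a = 0`, `‖v‖ = ‖w‖ = 1`: a compact set, on
which (chart polynomials `f.A a k`) the polar forms are continuous, and one of them is `≠ 0` (`Polar`).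
-/

set_option autoImplicit false

open MvPolynomial Topology Filter Metric
open Pool.Agent.H13.SM (conTan cone)
open Pool.Agent.H17 (PN VanishesAt)
open Pool.Agent.H17EF (projVar)
open Pool.Agent.H17LG.Variety (FunField ratio IsLogGeneralType)
open Pool.Agent.H62.FC (Homog closureIn)
open Pool.Agent.H66.Lang (HolomorphicIntoPN)
open Pool.Agent.GG Pool.Agent.GB

namespace Pool.Agent.GV

variable {N : ℕ} {P Q : Ideal (MvPolynomial (Fin (N + 1)) ℂ)} {J m : ℕ} {θ : Fin J → SymSec P m} {d : ℕ}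

/-! ## the normal form -/

/-- in the chart `x_a = 1`, `‖x‖ = 1`, `v_a = 0` the lengths are comparable -/
private theorem Cmp_wl {x v : Fin (N + 1) → ℂ} {a : Fin (N + 1)} (hx : ‖x‖ = 1) (hxa : x a = 1) (hva : v a = 0) : ‖v‖ ≤ wl x v ∧ wl x v ≤ 2 * ‖v‖ := by
  have hxb : ∀ b, ‖x b‖ ≤ 1 := fun b => (norm_le_pi_norm x b).trans hx.le
  rw [wl, hx, one_pow, div_one]
  constructor
  · refine (pi_norm_le_iff_of_nonneg (norm_nonneg _)).2 fun b => ?_
    have h1 := norm_le_pi_norm (fun p : Fin (N + 1) × Fin (N + 1) => x p.1 * v p.2 - x p.2 * v p.1) (a, b)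
    simp only [hxa, hva, one_mul, mul_zero, sub_zero] at h1
    exact h1
  · rw [pi_norm_le_iff_of_nonneg (by positivity)]
    rintro ⟨p, q⟩
    calc ‖x p * v q - x q * v p‖ ≤ ‖x p * v q‖ + ‖x q * v p‖ := norm_sub_le _ _
      _ ≤ 1 * ‖v‖ + 1 * ‖v‖ := by
          rw [norm_mul, norm_mul]
          exact add_le_add (mul_le_mul (hxb p) (norm_le_pi_norm v q) (norm_nonneg _) zero_le_one)
            (mul_le_mul (hxb q) (norm_le_pi_norm v p) (norm_nonneg _) zero_le_one)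
      _ = 2 * ‖v‖ := by ring

/-- the normal form of a point and its tangent vectors -/
private structure Nf (P : Ideal (MvPolynomial (Fin (N + 1)) ℂ)) (x : Fin (N + 1) → ℂ) (a : Fin (N + 1)) (x' : Fin (N + 1) → ℂ)
    (T : (Fin (N + 1) → ℂ) → (Fin (N + 1) → ℂ)) : Prop where
  mem : x' ∈ cone P
  xa : x' a = 1
  nx : ‖x'‖ = 1
  tan : ∀ v ∈ conTan P x, T v ∈ conTan P x'
  va : ∀ v, T v a = 0
  toFun : ∀ {m : ℕ} (s : SymSec P m), ∀ v ∈ conTan P x, s.toFun x v = s.toFun x' (T v)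
  pol : ∀ {m : ℕ} (s : SymSec P m), ∀ v ∈ conTan P x, ∀ w ∈ conTan P x, pol s x v w = pol s x' (T v) (T w)
  le : ∀ v, ‖T v‖ ≤ wl x v
  ge : ∀ v, wl x v ≤ 2 * ‖T v‖

private theorem exists_nf (hP : Homog P) {x : Fin (N + 1) → ℂ} (hx : x ∈ cone P) : ∃ a x' T, Nf P x a x' T := by
  obtain ⟨a, ha⟩ : ∃ a, ‖x a‖ = ‖x‖ := by
    obtain ⟨a, -, ha⟩ := Finset.exists_max_image (Finset.univ : Finset (Fin (N + 1))) (fun a => ‖x a‖) Finset.univ_nonempty
    refine ⟨a, le_antisymm (norm_le_pi_norm x a) ?_⟩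
    exact (pi_norm_le_iff_of_nonneg (norm_nonneg _)).2 fun b => ha b (Finset.mem_univ _)
  have hxn : ‖x‖ ≠ 0 := norm_ne_zero_iff.2 hx.1
  have hxa : x a ≠ 0 := norm_ne_zero_iff.1 (by rw [ha]; exact hxn)
  obtain ⟨c, hc⟩ : ∃ c : ℂ, c = (x a)⁻¹ := ⟨_, rfl⟩
  have hc0 : c ≠ 0 := by rw [hc]; exact inv_ne_zero hxa
  have hcn : ‖c‖ * ‖x‖ = 1 := by rw [hc, norm_inv, ha, inv_mul_cancel₀ hxn]
  obtain ⟨x', hx'⟩ : ∃ x' : Fin (N + 1) → ℂ, x' = c • x := ⟨_, rfl⟩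
  have hx'n : ‖x'‖ = 1 := by rw [hx', norm_smul, hcn]
  have hx'a : x' a = 1 := by rw [hx', Pi.smul_apply, smul_eq_mul, hc, inv_mul_cancel₀ hxa]
  have hx'c : x' ∈ cone P := by rw [hx']; exact Pool.Agent.AD.G.cone_smulC hP hx hc0
  have hx't : x' ∈ conTan P x' := Pool.Agent.AD.G.self_mem_conTan hP hx'c
  obtain ⟨T, hT⟩ : ∃ T : (Fin (N + 1) → ℂ) → (Fin (N + 1) → ℂ), ∀ v, T v = c • v + (-((c • v) a)) • x' := ⟨_, fun _ => rfl⟩
  have hcv : ∀ v ∈ conTan P x, c • v ∈ conTan P x' := fun v hv => by rw [hx']; exact Pool.Agent.AD.G.conTan_smulC hP hv c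
  have hTt : ∀ v ∈ conTan P x, T v ∈ conTan P x' := fun v hv => by
    rw [hT]
    exact (conTan P x').add_mem (hcv v hv) ((conTan P x').smul_mem _ hx't)
  have hTa : ∀ v, T v a = 0 := fun v => by
    rw [hT, Pi.add_apply, Pi.smul_apply (-((c • v) a)) x', hx'a, smul_eq_mul, mul_one, add_neg_cancel]
  have hTf : ∀ {m : ℕ} (s : SymSec P m), ∀ v ∈ conTan P x, s.toFun x v = s.toFun x' (T v) := fun s v hv => by
    rw [hT, s.add_smul x' hx'c _ (hcv v hv), hx', s.scale x hx v hv c hc0]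
  have hTw : ∀ v, wl x v = wl x' (T v) := fun v => by
    rw [hT, wl_add_smul, hx', wl_smul hc0]
  refine ⟨a, x', T, hx'c, hx'a, hx'n, hTt, hTa, hTf, fun s v hv w hw => ?_, fun v => ?_, fun v => ?_⟩
  · unfold pol
    congr 1
    funext t
    rw [hTf s _ ((conTan P x).add_mem hv ((conTan P x).smul_mem t hw))]
    have e : T (v + t • w) = T v + t • T w := by
      rw [hT, hT, hT]
      simp only [Pi.smul_apply, Pi.add_apply, smul_eq_mul]
      module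
    rw [e]
  · rw [hTw]
    exact (Cmp_wl hx'n hx'a (hTa v)).1
  · rw [hTw]
    exact (Cmp_wl hx'n hx'a (hTa v)).2

/-! ## the polar forms in the chart -/

private noncomputable def pf (f : Frame (m := fun _ => m) θ) (a : Fin (N + 1)) (k : Fin J) (x v w : Fin (N + 1) → ℂ) : ℂ :=
  ∑ b, eval (pt x v) (pderiv (Sum.inr b) (f.A a k)) * w b

private theorem pol_eq (f : Frame (m := fun _ => m) θ) {a : Fin (N + 1)} (k : Fin J) {x v w : Fin (N + 1) → ℂ} (hx : x ∈ cone P) (hxa : x a = 1)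
    (hv : v ∈ conTan P x) (hw : w ∈ conTan P x) : pol (θ k) x v w = pf f a k x v w := by
  unfold pol pf
  have h1 : (fun t : ℂ => (θ k).toFun x (v + t • w)) = fun t : ℂ => eval (pt x (v + t • w)) (f.A a k) := by
    funext t
    exact f.hA a k x hx hxa _ ((conTan P x).add_mem hv ((conTan P x).smul_mem t hw))
  rw [h1, (hasDerivAt_evalV (f.A a k) x v w).deriv]

private theorem continuous_pf (f : Frame (m := fun _ => m) θ) (a : Fin (N + 1)) (k : Fin J) :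
    Continuous fun p : (Fin (N + 1) → ℂ) × (Fin (N + 1) → ℂ) × (Fin (N + 1) → ℂ) => pf f a k p.1 p.2.1 p.2.2 := by
  unfold pf
  have h1 : Continuous fun p : (Fin (N + 1) → ℂ) × (Fin (N + 1) → ℂ) × (Fin (N + 1) → ℂ) => (pt p.1 p.2.1 : Ph N → ℂ) := by
    refine continuous_pi ?_
    rintro (b | b)
    · exact (continuous_apply b).comp continuous_fst
    · exact (continuous_apply b).comp (continuous_fst.comp continuous_snd)
  exact continuous_finsetSum _ fun b _ => ((MvPolynomial.continuous_eval _).comp h1).mul ((continuous_apply b).comp (continuous_snd.comp continuous_snd))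

/-- a bound on the unit ball -/
private theorem pf_le (f : Frame (m := fun _ => m) θ) (a : Fin (N + 1)) (k : Fin J) : ∃ C : ℝ, 0 ≤ C ∧ ∀ x v w : Fin (N + 1) → ℂ, ‖x‖ ≤ 1 → ‖v‖ ≤ 1 → ‖w‖ ≤ 1 →
    ‖pf f a k x v w‖ ≤ C := by
  obtain ⟨C, hC⟩ := (isCompact_closedBall (0 : (Fin (N + 1) → ℂ) × (Fin (N + 1) → ℂ) × (Fin (N + 1) → ℂ)) 1).exists_bound_of_continuousOn
    (continuous_pf f a k).continuousOn
  refine ⟨max C 0, le_max_right _ _, fun x v w hx hv hw => (hC (x, v, w) ?_).trans (le_max_left _ _)⟩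
  rw [mem_closedBall_zero_iff]
  exact max_le hx (max_le hv hw)

/-- `v = ‖v‖ • u` with `‖u‖ ≤ 1`, and `‖u‖ = 1` if `v ≠ 0` -/
private theorem exists_unit {x : Fin (N + 1) → ℂ} {v : Fin (N + 1) → ℂ} (hv : v ∈ conTan P x) : ∃ u ∈ conTan P x, ‖u‖ ≤ 1 ∧ v = ((‖v‖ : ℝ) : ℂ) • u ∧
    (v ≠ 0 → ‖u‖ = 1) ∧ ∀ a, v a = 0 → u a = 0 := by
  rcases eq_or_ne v 0 with rfl | h
  · exact ⟨0, (conTan P x).zero_mem, by simp, by simp, fun h => (h rfl).elim, fun a _ => rfl⟩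
  · have hn : ‖v‖ ≠ 0 := norm_ne_zero_iff.2 h
    have h1 : ‖((‖v‖⁻¹ : ℝ) : ℂ) • v‖ = 1 := by
      rw [norm_smul, Complex.norm_real, norm_inv, norm_norm, inv_mul_cancel₀ hn]
    refine ⟨((‖v‖⁻¹ : ℝ) : ℂ) • v, (conTan P x).smul_mem _ hv, h1.le, ?_, fun _ => h1, fun a ha => ?_⟩
    · rw [smul_smul, ← Complex.ofReal_mul, mul_inv_cancel₀ hn, Complex.ofReal_one, one_smul]
    · rw [Pi.smul_apply, ha, smul_zero]

private theorem pol_smul {s : SymSec P m} {x v w : Fin (N + 1) → ℂ} (hx : x ∈ cone P) (hv : v ∈ conTan P x) (hw : w ∈ conTan P x) (r t : ℝ) (hr : 0 ≤ r) (ht : 0 ≤ t) :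
    ‖pol s x ((r : ℂ) • v) ((t : ℂ) • w)‖ = r ^ (m - 1) * t * ‖pol s x v w‖ := by
  have h1 := (pol_add (s := s) hx hv ((conTan P x).smul_mem (t : ℂ) hw) hw (r : ℂ)).2.2.1
  have h2 := (pol_add (s := s) hx hv hw hw (t : ℂ)).2.1
  rw [h1, h2, norm_mul, norm_mul, norm_pow, Complex.norm_real, Complex.norm_real, Real.norm_of_nonneg hr, Real.norm_of_nonneg ht, mul_assoc]

theorem pol_le (hP : Homog P) (f : Frame (m := fun _ => m) θ) : ∃ C : ℝ, 0 ≤ C ∧ ∀ k, ∀ x ∈ cone P, ∀ v ∈ conTan P x, ∀ w ∈ conTan P x,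
    ‖pol (θ k) x v w‖ ≤ C * wl x v ^ (m - 1) * wl x w := by
  choose C hC0 hC using fun p : Fin (N + 1) × Fin J => pf_le f p.1 p.2
  refine ⟨∑ p, C p, Finset.sum_nonneg fun p _ => hC0 p, fun k x hx v hv w hw => ?_⟩
  obtain ⟨a, x', T, h⟩ := exists_nf hP hx
  obtain ⟨v₁, hv₁, hv₁n, hv₁e, -, -⟩ := exists_unit (h.tan v hv)
  obtain ⟨w₁, hw₁, hw₁n, hw₁e, -, -⟩ := exists_unit (h.tan w hw)
  have h1 : ‖pol (θ k) x v w‖ = ‖T v‖ ^ (m - 1) * ‖T w‖ * ‖pol (θ k) x' v₁ w₁‖ := by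
    rw [h.pol (θ k) v hv w hw]
    conv_lhs => rw [hv₁e, hw₁e]
    exact pol_smul h.mem hv₁ hw₁ _ _ (norm_nonneg _) (norm_nonneg _)
  have h2 : ‖pol (θ k) x' v₁ w₁‖ ≤ ∑ p, C p := by
    rw [pol_eq f k h.mem h.xa hv₁ hw₁]
    exact (hC (a, k) x' v₁ w₁ h.nx.le hv₁n hw₁n).trans (Finset.single_le_sum (fun p _ => hC0 p) (Finset.mem_univ (a, k)))
  have h3 : ‖T v‖ ^ (m - 1) ≤ wl x v ^ (m - 1) := pow_le_pow_left₀ (norm_nonneg _) (h.le v) _
  have h4 : ‖T w‖ ≤ wl x w := h.le w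
  have h5 : 0 ≤ ∑ p, C p := Finset.sum_nonneg fun p _ => hC0 p
  have h6 : 0 ≤ wl x v := wl_nonneg _ _
  have h7 : 0 ≤ wl x w := wl_nonneg _ _
  rw [h1]
  calc ‖T v‖ ^ (m - 1) * ‖T w‖ * ‖pol (θ k) x' v₁ w₁‖ ≤ wl x v ^ (m - 1) * wl x w * ∑ p, C p :=
        mul_le_mul (mul_le_mul h3 h4 (norm_nonneg _) (by positivity)) h2 (norm_nonneg _) (by positivity)
    _ = (∑ p, C p) * wl x v ^ (m - 1) * wl x w := by ring

theorem toFun_le (hP : Homog P) (hm : 1 ≤ m) (f : Frame (m := fun _ => m) θ) : ∃ C : ℝ, 0 ≤ C ∧ ∀ k, ∀ x ∈ cone P, ∀ v ∈ conTan P x, ‖(θ k).toFun x v‖ ≤ C * wl x v ^ m := by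
  obtain ⟨C, hC0, hC⟩ := pol_le hP f
  refine ⟨C, hC0, fun k x hx v hv => ?_⟩
  have h1 := hC k x hx v hv v hv
  rw [(pol_add (s := θ k) hx hv hv hv 0).2.2.2.1, norm_mul, Complex.norm_natCast, mul_assoc, ← pow_succ, Nat.sub_add_cancel hm] at h1
  have h2 : (1 : ℝ) ≤ m := by exact_mod_cast hm
  have h3 : 1 * ‖(θ k).toFun x v‖ ≤ m * ‖(θ k).toFun x v‖ := mul_le_mul_of_nonneg_right h2 (norm_nonneg _)
  rw [one_mul] at h3
  exact h3.trans h1

/-! ## compactness -/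

private def CmpS (P : Ideal (MvPolynomial (Fin (N + 1)) ℂ)) (a : Fin (N + 1)) : Set ((Fin (N + 1) → ℂ) × (Fin (N + 1) → ℂ) × (Fin (N + 1) → ℂ)) :=
  {p | p.1 a = 1 ∧ ‖p.1‖ ≤ 1 ∧ p.2.1 a = 0 ∧ ‖p.2.1‖ = 1 ∧ p.2.2 a = 0 ∧ ‖p.2.2‖ = 1 ∧ (∀ Q ∈ P, eval p.1 Q = 0) ∧
    (∀ Q ∈ P, ∑ i, p.2.1 i * eval p.1 (pderiv i Q) = 0) ∧ ∀ Q ∈ P, ∑ i, p.2.2 i * eval p.1 (pderiv i Q) = 0}

private theorem isCompact_CmpS (a : Fin (N + 1)) : IsCompact (CmpS P a) := by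
  have c1 : Continuous fun p : (Fin (N + 1) → ℂ) × (Fin (N + 1) → ℂ) × (Fin (N + 1) → ℂ) => p.1 := continuous_fst
  have c2 : Continuous fun p : (Fin (N + 1) → ℂ) × (Fin (N + 1) → ℂ) × (Fin (N + 1) → ℂ) => p.2.1 := continuous_fst.comp continuous_snd
  have c3 : Continuous fun p : (Fin (N + 1) → ℂ) × (Fin (N + 1) → ℂ) × (Fin (N + 1) → ℂ) => p.2.2 := continuous_snd.comp continuous_snd
  have cQ : ∀ Q : MvPolynomial (Fin (N + 1)) ℂ, Continuous fun p : (Fin (N + 1) → ℂ) × (Fin (N + 1) → ℂ) × (Fin (N + 1) → ℂ) => eval p.1 Q := fun Q =>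
    (MvPolynomial.continuous_eval Q).comp c1
  have h7 : IsClosed {p : (Fin (N + 1) → ℂ) × (Fin (N + 1) → ℂ) × (Fin (N + 1) → ℂ) | ∀ Q ∈ P, eval p.1 Q = 0} := by
    simp only [Set.ofPred_forall]
    exact isClosed_iInter fun Q => isClosed_iInter fun _ => isClosed_eq (cQ Q) continuous_const
  have h8 : IsClosed {p : (Fin (N + 1) → ℂ) × (Fin (N + 1) → ℂ) × (Fin (N + 1) → ℂ) | ∀ Q ∈ P, ∑ i, p.2.1 i * eval p.1 (pderiv i Q) = 0} := by
    simp only [Set.ofPred_forall]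
    refine isClosed_iInter fun Q => isClosed_iInter fun _ => isClosed_eq ?_ continuous_const
    exact continuous_finsetSum _ fun i _ => ((continuous_apply i).comp c2).mul (cQ _)
  have h9 : IsClosed {p : (Fin (N + 1) → ℂ) × (Fin (N + 1) → ℂ) × (Fin (N + 1) → ℂ) | ∀ Q ∈ P, ∑ i, p.2.2 i * eval p.1 (pderiv i Q) = 0} := by
    simp only [Set.ofPred_forall]
    refine isClosed_iInter fun Q => isClosed_iInter fun _ => isClosed_eq ?_ continuous_const
    exact continuous_finsetSum _ fun i _ => ((continuous_apply i).comp c3).mul (cQ _)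
  refine Metric.isCompact_of_isClosed_isBounded ?_ ?_
  · exact (isClosed_eq ((continuous_apply a).comp c1) continuous_const).inter ((isClosed_le c1.norm continuous_const).inter
      ((isClosed_eq ((continuous_apply a).comp c2) continuous_const).inter ((isClosed_eq c2.norm continuous_const).inter
      ((isClosed_eq ((continuous_apply a).comp c3) continuous_const).inter ((isClosed_eq c3.norm continuous_const).inter (h7.inter (h8.inter h9)))))))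
  · refine (isBounded_closedBall (x := (0 : (Fin (N + 1) → ℂ) × (Fin (N + 1) → ℂ) × (Fin (N + 1) → ℂ))) (r := 1)).subset ?_
    rintro p ⟨-, h2, -, h4, -, h6, -⟩
    rw [mem_closedBall_zero_iff]
    exact max_le h2 (max_le h4.le h6.le)

private theorem notMem_span {a : Fin (N + 1)} {x v : Fin (N + 1) → ℂ} (hx : x a = 1) (hv : v a = 0) (hn : ‖v‖ = 1) : v ∉ Submodule.span ℂ {x} := by
  intro h
  obtain ⟨c, rfl⟩ := Submodule.mem_span_singleton.1 h
  rw [Pi.smul_apply, hx, smul_eq_mul, mul_one] at hv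
  rw [hv, zero_smul, norm_zero] at hn
  exact zero_ne_one hn

private theorem exists_delta (hθ : Polar (m := fun _ => m) θ) (f : Frame (m := fun _ => m) θ) (a : Fin (N + 1)) :
    ∃ δ > 0, ∀ p ∈ CmpS P a, δ ≤ ∑ k, ‖pf f a k p.1 p.2.1 p.2.2‖ := by
  rcases (CmpS P a).eq_empty_or_nonempty with h0 | h0
  · exact ⟨1, one_pos, fun p hp => by rw [h0] at hp; exact hp.elim⟩
  · obtain ⟨p, hp, hmin⟩ := (isCompact_CmpS a).exists_isMinOn h0 (f := fun p => ∑ k, ‖pf f a k p.1 p.2.1 p.2.2‖)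
      (continuous_finsetSum _ fun k _ => (continuous_pf f a k).norm).continuousOn
    refine ⟨∑ k, ‖pf f a k p.1 p.2.1 p.2.2‖, ?_, fun q hq => hmin hq⟩
    obtain ⟨h1, h2, h3, h4, h5, h6, h7, h8, h9⟩ := hp
    have hc : p.1 ∈ cone P := by
      refine ⟨fun h => ?_, h7⟩
      rw [h, Pi.zero_apply] at h1
      exact zero_ne_one h1
    obtain ⟨k, hk⟩ := hθ p.1 hc p.2.1 h8 p.2.2 h9 (notMem_span h1 h3 h4) (notMem_span h1 h5 h6)
    refine lt_of_lt_of_le ?_ (Finset.single_le_sum (f := fun k => ‖pf f a k p.1 p.2.1 p.2.2‖) (fun k _ => norm_nonneg _) (Finset.mem_univ k))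
    rw [norm_pos_iff, ← pol_eq f k hc h1 h8 h9]
    exact hk

theorem le_pol (hP : Homog P) (hm : 1 ≤ m) (hθ : Polar (m := fun _ => m) θ) (f : Frame (m := fun _ => m) θ) : ∃ C : ℝ, 0 ≤ C ∧ ∀ x ∈ cone P, ∀ v ∈ conTan P x, ∀ w ∈ conTan P x, ∀ M : ℝ,
    (∀ k, ‖pol (θ k) x v w‖ ≤ M) → wl x v ^ (m - 1) * wl x w ≤ C * M := by
  choose δ hδ hδ1 using fun a : Fin (N + 1) => exists_delta hθ f a
  -- the constant
  obtain ⟨C, hC0, hC⟩ : ∃ C : ℝ, 0 ≤ C ∧ ∀ a, 2 ^ m * J / δ a ≤ C := by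
    refine ⟨∑ a, 2 ^ m * J / δ a, Finset.sum_nonneg fun a _ => div_nonneg (by positivity) (hδ a).le, fun a => ?_⟩
    exact Finset.single_le_sum (f := fun a => 2 ^ m * J / δ a) (fun a _ => div_nonneg (by positivity) (hδ a).le) (Finset.mem_univ a)
  -- the case of two nonzero vectors
  have key : ∀ x ∈ cone P, ∀ v ∈ conTan P x, ∀ w ∈ conTan P x, wl x v ≠ 0 → wl x w ≠ 0 → ∀ M : ℝ, (∀ k, ‖pol (θ k) x v w‖ ≤ M) →
      wl x v ^ (m - 1) * wl x w ≤ C * M := by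
    intro x hx v hv w hw hv0 hw0 M hM
    obtain ⟨a, x', T, h⟩ := exists_nf hP hx
    obtain ⟨v₁, hv₁, -, hv₁e, hv₁1, hv₁a⟩ := exists_unit (h.tan v hv)
    obtain ⟨w₁, hw₁, -, hw₁e, hw₁1, hw₁a⟩ := exists_unit (h.tan w hw)
    have hTv : T v ≠ 0 := fun e => hv0 (le_antisymm ((h.ge v).trans (by rw [e, norm_zero, mul_zero])) (wl_nonneg _ _))
    have hTw : T w ≠ 0 := fun e => hw0 (le_antisymm ((h.ge w).trans (by rw [e, norm_zero, mul_zero])) (wl_nonneg _ _))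
    have h1 : ∀ k, ‖pol (θ k) x v w‖ = ‖T v‖ ^ (m - 1) * ‖T w‖ * ‖pf f a k x' v₁ w₁‖ := by
      intro k
      rw [h.pol (θ k) v hv w hw, ← pol_eq f k h.mem h.xa hv₁ hw₁]
      conv_lhs => rw [hv₁e, hw₁e]
      exact pol_smul h.mem hv₁ hw₁ _ _ (norm_nonneg _) (norm_nonneg _)
    have h2 := hδ1 a (x', v₁, w₁) ⟨h.xa, h.nx.le, hv₁a a (h.va v), hv₁1 hTv, hw₁a a (h.va w), hw₁1 hTw, h.mem.2, hv₁, hw₁⟩
    have h3 : ‖T v‖ ^ (m - 1) * ‖T w‖ * δ a ≤ J * M := by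
      calc ‖T v‖ ^ (m - 1) * ‖T w‖ * δ a ≤ ‖T v‖ ^ (m - 1) * ‖T w‖ * ∑ k, ‖pf f a k x' v₁ w₁‖ := mul_le_mul_of_nonneg_left h2 (by positivity)
        _ = ∑ k, ‖pol (θ k) x v w‖ := by
            rw [Finset.mul_sum]
            exact Finset.sum_congr rfl fun k _ => (h1 k).symm
        _ ≤ ∑ _k : Fin J, M := Finset.sum_le_sum fun k _ => hM k
        _ = J * M := by rw [Finset.sum_const, Finset.card_univ, Fintype.card_fin, nsmul_eq_mul]
    have h4 : 0 ≤ (J : ℝ) * M := le_trans (mul_nonneg (by positivity) (hδ a).le) h3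
    have h5 : wl x v ^ (m - 1) * wl x w ≤ 2 ^ m * (‖T v‖ ^ (m - 1) * ‖T w‖) := by
      calc wl x v ^ (m - 1) * wl x w ≤ (2 * ‖T v‖) ^ (m - 1) * (2 * ‖T w‖) :=
            mul_le_mul (pow_le_pow_left₀ (wl_nonneg _ _) (h.ge v) _) (h.ge w) (wl_nonneg _ _) (by positivity)
        _ = 2 ^ (m - 1 + 1) * (‖T v‖ ^ (m - 1) * ‖T w‖) := by rw [mul_pow, pow_succ]; ring
        _ = _ := by rw [Nat.sub_add_cancel hm]
    have h6 : 2 ^ m * (‖T v‖ ^ (m - 1) * ‖T w‖) ≤ 2 ^ m * J / δ a * M := by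
      have h7 := (le_div_iff₀ (hδ a)).2 h3
      calc 2 ^ m * (‖T v‖ ^ (m - 1) * ‖T w‖) ≤ 2 ^ m * (J * M / δ a) := mul_le_mul_of_nonneg_left h7 (by positivity)
        _ = 2 ^ m * J / δ a * M := by ring
    refine h5.trans (h6.trans ?_)
    rcases Nat.eq_zero_or_pos J with h0 | h0
    · exfalso
      subst h0
      obtain ⟨k, -⟩ := hθ x' h.mem v₁ hv₁ w₁ hw₁ (notMem_span h.xa (hv₁a a (h.va v)) (hv₁1 hTv)) (notMem_span h.xa (hw₁a a (h.va w)) (hw₁1 hTw))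
      exact k.elim0
    · have h8 : 0 ≤ M := by
        have := (norm_nonneg _).trans (hM ⟨0, h0⟩)
        exact this
      exact mul_le_mul_of_nonneg_right (hC a) h8
  rcases Nat.eq_zero_or_pos J with h0 | h0
  · -- no forms: all tangent vectors are multiples of `x`
    refine ⟨0, le_rfl, fun x hx v hv w hw M hM => ?_⟩
    have hw0 : wl x w = 0 := by
      by_contra hne
      subst h0
      obtain ⟨a, x', T, h⟩ := exists_nf hP hx
      obtain ⟨w₁, hw₁, -, hw₁e, hw₁1, hw₁a⟩ := exists_unit (h.tan w hw)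
      have hTw : T w ≠ 0 := fun e => hne (le_antisymm ((h.ge w).trans (by rw [e, norm_zero, mul_zero])) (wl_nonneg _ _))
      have h1 := notMem_span h.xa (hw₁a a (h.va w)) (hw₁1 hTw)
      obtain ⟨k, -⟩ := hθ x' h.mem w₁ hw₁ w₁ hw₁ h1 h1
      exact k.elim0
    rw [hw0, mul_zero, zero_mul]
  · refine ⟨C, hC0, fun x hx v hv w hw M hM => ?_⟩
    have hM0 : 0 ≤ M := (norm_nonneg _).trans (hM ⟨0, h0⟩)
    have hR : 0 ≤ C * M := mul_nonneg hC0 hM0
    by_cases hw0 : wl x w = 0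
    · rw [hw0, mul_zero]
      exact hR
    by_cases hv0 : wl x v = 0
    · rcases Nat.eq_zero_or_pos (m - 1) with h1 | h1
      · -- `m = 1`: the polar form does not depend on `v`
        have h2 : ∀ k, ‖pol (θ k) x w w‖ ≤ M := by
          intro k
          have e1 := (pol_add (s := θ k) hx hv hw hw 0).2.2.1
          have e2 := (pol_add (s := θ k) hx hw hw hw 0).2.2.1
          rw [h1, pow_zero, one_mul, zero_smul] at e1 e2
          rw [← e2, e1]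
          exact hM k
        have h3 := key x hx w hw w hw hw0 hw0 M h2
        rw [h1, pow_zero, one_mul] at h3 ⊢
        exact h3
      · rw [hv0, zero_pow h1.ne', zero_mul]
        exact hR
    · exact key x hx v hv w hw hv0 hw0 M hM

theorem le_toFun (hP : Homog P) (hm : 1 ≤ m) (hθ : Polar (m := fun _ => m) θ) (f : Frame (m := fun _ => m) θ) : ∃ C : ℝ, 0 ≤ C ∧ ∀ x ∈ cone P, ∀ v ∈ conTan P x, ∀ M : ℝ,
    (∀ k, ‖(θ k).toFun x v‖ ≤ M) → wl x v ^ m ≤ C * M := by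
  obtain ⟨C, hC0, hC⟩ := le_pol hP hm hθ f
  refine ⟨C * m, mul_nonneg hC0 (Nat.cast_nonneg _), fun x hx v hv M hM => ?_⟩
  have h1 := hC x hx v hv v hv (m * M) fun k => by
    rw [(pol_add (s := θ k) hx hv hv hv 0).2.2.2.1, norm_mul, Complex.norm_natCast]
    exact mul_le_mul_of_nonneg_left (hM k) (Nat.cast_nonneg _)
  rw [← pow_succ, Nat.sub_add_cancel hm] at h1
  rw [mul_assoc]
  exact h1

end Pool.Agent.GV
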