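import Mathlib

/-!
# GV CovA: linear algebra and the quantitative inverse function theorem for `GV/Cov`

* `exists_minor`: a linear map `L : ℂ^d → ℂ^n` with `‖L w‖ ≥ c ‖w‖` has `d` coordinates `I` with `‖L_I w‖ ≥ c / (d + 1) ‖w‖` (maximal minor, Cramer's rule).
* `cover_ball`: a map whose derivative is `δ / 2`-close to a linear map `A` with `‖A w‖ ≥ δ ‖w‖` covers a ball.
-/

set_option autoImplicit false

open Topology Filter Metric Matrix

namespace Pool.Agent.GV

/-- some maximal minor of an injective matrix is not `0` -/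
private theorem exists_minor_ne {n d : ℕ} {M : Matrix (Fin n) (Fin d) ℂ} (h : ∀ w : Fin d → ℂ, M.mulVec w = 0 → w = 0) : ∃ I : Fin d → Fin n, (M.submatrix I id).det ≠ 0 := by
  have hrank : M.rank = d := by
    have h1 : Function.Injective M.mulVecLin := by
      rw [← LinearMap.ker_eq_bot, LinearMap.ker_eq_bot']
      exact fun w hw => h w (by simpa using hw)
    rw [Matrix.rank, LinearMap.finrank_range_of_inj h1]
    simp
  have hspan : Submodule.span ℂ (Set.range M) = ⊤ := by
    apply Submodule.eq_top_of_finrank_eq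
    have h2 := Matrix.rank_eq_finrank_span_row M
    rw [hrank] at h2
    have h3 : Module.finrank ℂ (Fin d → ℂ) = d := by simp
    rw [h3]
    exact h2.symm
  obtain ⟨ι, a, ha, hs, hli⟩ := exists_linearIndependent' ℂ M
  have hsp : ⊤ ≤ Submodule.span ℂ (Set.range (M ∘ a)) := by rw [hs, hspan]
  let b := Module.Basis.mk hli hsp
  have : Finite ι := Finite.of_injective a ha
  have : Fintype ι := Fintype.ofFinite ι
  have hcard : Fintype.card ι = d := by
    have := Module.finrank_eq_card_basis b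
    simpa using this.symm
  let e : Fin d ≃ ι := (Fintype.equivFinOfCardEq hcard).symm
  refine ⟨fun i => a (e i), ?_⟩
  have hli' : LinearIndependent ℂ fun i => M (a (e i)) := hli.comp e e.injective
  have h4 : LinearIndependent ℂ (M.submatrix (fun i => a (e i)) id).row := hli'
  rw [Matrix.linearIndependent_rows_iff_isUnit, Matrix.isUnit_iff_isUnit_det, isUnit_iff_ne_zero] at h4
  exact h4

theorem exists_minor {n d : ℕ} {c : ℝ} (hc : 0 < c) (L : (Fin d → ℂ) →L[ℂ] (Fin n → ℂ)) (hL : ∀ w, c * ‖w‖ ≤ ‖L w‖) :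
    ∃ I : Fin d → Fin n, ∀ w, c / (d + 1) * ‖w‖ ≤ ‖fun i => L w (I i)‖ := by
  classical
  set M : Matrix (Fin n) (Fin d) ℂ := Matrix.of fun b j => L (Pi.single j 1) b with hM
  have hLM : ∀ w b, L w b = ∑ j, M b j * w j := fun w b => by
    have h1 : w = ∑ j, w j • (Pi.single j (1 : ℂ) : Fin d → ℂ) := by
      funext i
      simp [Pi.single_apply]
    conv_lhs => rw [h1]
    rw [map_sum, Finset.sum_apply]
    refine Finset.sum_congr rfl fun j _ => ?_
    rw [map_smul, Pi.smul_apply, smul_eq_mul, mul_comm]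
    rfl
  have hinj : ∀ w : Fin d → ℂ, M.mulVec w = 0 → w = 0 := fun w hw => by
    have h1 : L w = 0 := by
      funext b
      rw [hLM]
      exact congrFun hw b
    have h2 := hL w
    rw [h1, norm_zero] at h2
    exact norm_le_zero_iff.1 (le_of_mul_le_mul_left (h2.trans_eq (mul_zero c).symm) hc)
  obtain ⟨I₀, hI₀⟩ := exists_minor_ne hinj
  have : Nonempty (Fin d → Fin n) := ⟨I₀⟩
  obtain ⟨I, hI⟩ := Finite.exists_max fun I : Fin d → Fin n => ‖(M.submatrix I id).det‖
  have hdet : 0 < ‖(M.submatrix I id).det‖ := (norm_pos_iff.2 hI₀).trans_le (hI I₀)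
  refine ⟨I, fun w => ?_⟩
  have key : ∀ b, ‖L w b‖ ≤ d * ‖fun i => L w (I i)‖ := fun b => by
    have h1 : (M.submatrix I id).det * L w b = ∑ i, ((M.submatrix I id).updateRow i (M b)).det * L w (I i) := by
      have h2 := Matrix.mulVec_cramer (M.submatrix I id)ᵀ (M b)
      have h3 : ∀ i, Matrix.cramer (M.submatrix I id)ᵀ (M b) i = ((M.submatrix I id).updateRow i (M b)).det := fun i => Matrix.cramer_transpose_apply _ _ _
      have h4 : ∀ j, ∑ i, M (I i) j * ((M.submatrix I id).updateRow i (M b)).det = (M.submatrix I id).det * M b j := fun j => by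
        have h5 := congrFun h2 j
        rw [Matrix.det_transpose] at h5
        simp only [Matrix.mulVec, dotProduct, Matrix.transpose_apply, Matrix.submatrix_apply, id, h3, Pi.smul_apply, smul_eq_mul] at h5
        exact h5
      rw [hLM, Finset.mul_sum]
      calc ∑ j, (M.submatrix I id).det * (M b j * w j) = ∑ j, (∑ i, M (I i) j * ((M.submatrix I id).updateRow i (M b)).det) * w j :=
            Finset.sum_congr rfl fun j _ => by rw [h4 j]; ring
        _ = ∑ j, ∑ i, M (I i) j * ((M.submatrix I id).updateRow i (M b)).det * w j := Finset.sum_congr rfl fun j _ => Finset.sum_mul _ _ _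
        _ = ∑ i, ∑ j, M (I i) j * ((M.submatrix I id).updateRow i (M b)).det * w j := Finset.sum_comm
        _ = _ := Finset.sum_congr rfl fun i _ => by
            rw [hLM, Finset.mul_sum]
            exact Finset.sum_congr rfl fun j _ => by ring
    have h6 : ∀ i, ‖((M.submatrix I id).updateRow i (M b)).det‖ ≤ ‖(M.submatrix I id).det‖ := fun i => by
      have h7 : (M.submatrix I id).updateRow i (M b) = M.submatrix (Function.update I i b) id := by
        ext x y
        by_cases hx : x = i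
        · subst hx
          simp
        · simp [Matrix.updateRow_ne hx, Function.update_of_ne hx]
      rw [h7]
      exact hI _
    have h8 : ‖(M.submatrix I id).det‖ * ‖L w b‖ ≤ ‖(M.submatrix I id).det‖ * (d * ‖fun i => L w (I i)‖) := by
      rw [← norm_mul, h1]
      have h11 : ∀ i ∈ Finset.univ, ‖((M.submatrix I id).updateRow i (M b)).det * L w (I i)‖ ≤ ‖(M.submatrix I id).det‖ * ‖fun i => L w (I i)‖ := fun i _ => by
        rw [norm_mul]
        exact mul_le_mul (h6 i) (norm_le_pi_norm (fun i => L w (I i)) i) (norm_nonneg _) (norm_nonneg _)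
      refine (norm_sum_le _ _).trans ((Finset.sum_le_sum h11).trans_eq ?_)
      rw [Finset.sum_const, Finset.card_univ, Fintype.card_fin, nsmul_eq_mul]
      ring
    exact le_of_mul_le_mul_left h8 hdet
  have h9 : ‖L w‖ ≤ (d + 1) * ‖fun i => L w (I i)‖ := by
    refine (pi_norm_le_iff_of_nonneg (by positivity)).2 fun b => (key b).trans ?_
    have := norm_nonneg fun i => L w (I i)
    nlinarith
  have h10 : (0 : ℝ) < d + 1 := by positivity
  rw [div_mul_eq_mul_div, div_le_iff₀ h10, mul_comm _ ((d : ℝ) + 1)]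
  exact (hL w).trans h9

/-- the quantitative inverse function theorem -/
theorem cover_ball {d : ℕ} {δ r : ℝ} (hδ : 0 < δ) (hr : 0 ≤ r) {g : (Fin d → ℂ) → Fin d → ℂ} {t : Fin d → ℂ} (A : (Fin d → ℂ) →L[ℂ] (Fin d → ℂ))
    (hA : ∀ w, δ * ‖w‖ ≤ ‖A w‖) (hg : ∀ s ∈ closedBall t r, DifferentiableAt ℂ g s) (hd : ∀ s ∈ closedBall t r, ‖fderiv ℂ g s - A‖ ≤ δ / 2) :
    ∀ ξ ∈ closedBall (g t) (δ / 2 * r), ∃ s ∈ closedBall t r, g s = ξ := by
  have hinj : Function.Injective A := by
    refine (injective_iff_map_eq_zero A).2 fun w hw => ?_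
    have h2 := hA w
    rw [hw, norm_zero] at h2
    exact norm_le_zero_iff.1 (le_of_mul_le_mul_left (h2.trans_eq (mul_zero δ).symm) hδ)
  have hsurj : Function.Surjective A := (LinearMap.injective_iff_surjective (f := (A : (Fin d → ℂ) →ₗ[ℂ] (Fin d → ℂ)))).1 hinj
  choose B hB using hsurj
  have hBn : ∀ y, ‖B y‖ ≤ (⟨δ⁻¹, (inv_pos.2 hδ).le⟩ : NNReal) * ‖y‖ := fun y => by
    have h3 := hA (B y)
    rw [hB] at h3
    change ‖B y‖ ≤ δ⁻¹ * ‖y‖
    rw [inv_mul_eq_div, le_div_iff₀ hδ, mul_comm]
    exact h3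
  have hap : ApproximatesLinearOn g A (closedBall t r) ⟨δ / 2, by positivity⟩ := by
    intro x hx y hy
    exact (convex_closedBall t r).norm_image_sub_le_of_norm_hasFDerivWithin_le' (fun s hs => (hg s hs).hasFDerivAt.hasFDerivWithinAt) hd hy hx
  have h4 := hap.surjOn_closedBall_of_nonlinearRightInverse (f' := A) { toFun := B, nnnorm := ⟨δ⁻¹, (inv_pos.2 hδ).le⟩, bound' := hBn, right_inv' := hB } hr
    (b := t) subset_rfl
  intro ξ hξ
  have h5 : δ / 2 * r = ((((⟨δ⁻¹, (inv_pos.2 hδ).le⟩ : NNReal) : ℝ))⁻¹ - ((⟨δ / 2, by positivity⟩ : NNReal) : ℝ)) * r := by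
    change δ / 2 * r = ((δ⁻¹)⁻¹ - δ / 2) * r
    rw [inv_inv]
    ring
  rw [h5] at hξ
  exact h4 hξ

end Pool.Agent.GV
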