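import Pool.Agent.GV.Defs
import Pool.Agent.GG.Bd

/-!
# GV CovB: the affine coordinates of a map to `ℙ^N`, and their domain

`aff a E s = x / x_a` for `E s = [x]`; `kap a E s = |x_a| / |x|`.  If `‖d (aff a E)‖ ≤ K` where `|aff a E| ≤ 2`, and `|aff a E t| ≤ 1`, then `|aff a E| ≤ 2` on `ball t (1 / K)` (continuation along segments), and the derivative is Lipschitz there (Schwarz).
-/

set_option autoImplicit false

open MvPolynomial Topology Filter Metric
open Pool.Agent.H17 (PN)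
open Pool.Agent.GG

noncomputable section

namespace Pool.Agent.GV

variable {N : ℕ} {V : Type*} [NormedAddCommGroup V] [NormedSpace ℂ V]

/-- the affine coordinates -/
def aff (a : Fin (N + 1)) (E : V → PN N) (s : V) : Fin (N + 1) → ℂ := fun b => (E s).rep b / (E s).rep a

/-- the relative size of the coordinate `a` -/
def kap (a : Fin (N + 1)) (E : V → PN N) (s : V) : ℝ := ‖(E s).rep a‖ / ‖(E s).rep‖

variable {E : V → PN N} {F : V → Fin (N + 1) → ℂ} {a : Fin (N + 1)} {s t : V}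

private theorem rep_eq {x : Fin (N + 1) → ℂ} {p : PN N} (h : x ≠ 0) (hp : p = Projectivization.mk ℂ x h) : ∃ c : ℂ, c ≠ 0 ∧ p.rep = c • x := by
  subst hp
  obtain ⟨c, hc⟩ := Projectivization.exists_smul_eq_mk_rep ℂ x h
  exact ⟨c, c.ne_zero, by rw [← hc]; rfl⟩

private theorem aff_eq (h : ∃ h : F s ≠ 0, E s = Projectivization.mk ℂ (F s) h) : aff a E s = fun b => F s b / F s a := by
  obtain ⟨h1, h2⟩ := h
  obtain ⟨c, hc, h3⟩ := rep_eq h1 h2
  funext b
  rw [aff, h3, Pi.smul_apply, Pi.smul_apply, smul_eq_mul, smul_eq_mul, mul_div_mul_left _ _ hc]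

private theorem kap_eq (h : ∃ h : F s ≠ 0, E s = Projectivization.mk ℂ (F s) h) : kap a E s = ‖F s a‖ / ‖F s‖ := by
  obtain ⟨h1, h2⟩ := h
  obtain ⟨c, hc, h3⟩ := rep_eq h1 h2
  rw [kap, h3, Pi.smul_apply, smul_eq_mul, norm_mul, norm_smul, mul_div_mul_left _ _ (norm_ne_zero_iff.2 hc)]

/-- the coordinate `a` is not `0` where `kap` is positive, and `‖aff‖ = 1 / kap` -/
theorem norm_aff (h : kap a E s ≠ 0) : ‖aff a E s‖ = (kap a E s)⁻¹ ∧ aff a E s a = 1 := by
  have h1 : (E s).rep a ≠ 0 := fun h2 => h (by rw [kap, h2, norm_zero, zero_div])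
  have h2 : aff a E s = ((E s).rep a)⁻¹ • (E s).rep := by
    funext b
    rw [aff, Pi.smul_apply, smul_eq_mul, inv_mul_eq_div]
  refine ⟨?_, ?_⟩
  · rw [h2, norm_smul, norm_inv, kap, inv_div, inv_mul_eq_div]
  · rw [aff, div_self h1]

theorem kap_continuous (hE : ∀ t, ∃ F, Hl E F t) (a : Fin (N + 1)) : Continuous (kap a E) := by
  refine continuous_iff_continuousAt.2 fun s => ?_
  obtain ⟨F, hF, hr⟩ := hE s
  have h1 : kap a E =ᶠ[𝓝 s] fun p => ‖F p a‖ / ‖F p‖ := hr.mono fun p hp => kap_eq hp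
  have h2 : F s ≠ 0 := hr.self_of_nhds.1
  refine ContinuousAt.congr ?_ h1.symm
  have h3 : ContinuousAt (fun p => F p a) s := (continuous_apply a).continuousAt.comp hF.continuousAt
  exact h3.norm.div hF.continuousAt.norm (norm_ne_zero_iff.2 h2)

/-- the affine coordinates are a representative -/
theorem hl_aff (hE : ∀ t, ∃ F, Hl E F t) (h : kap a E s ≠ 0) : Hl E (aff a E) s := by
  obtain ⟨F, hF, hr⟩ := hE s
  have h1 : aff a E =ᶠ[𝓝 s] fun p b => F p b / F p a := hr.mono fun p hp => aff_eq hp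
  have h2 : F s a ≠ 0 := fun h3 => h (by rw [kap_eq hr.self_of_nhds, h3, norm_zero, zero_div])
  have h4 : ∀ b, AnalyticAt ℂ (fun p => F p b) s := fun b => (analyticAt_pi_iff.1 hF) b
  refine ⟨?_, ?_⟩
  · refine AnalyticAt.congr ?_ h1.symm
    exact analyticAt_pi_iff.2 fun b => (h4 b).div (h4 a) h2
  · have h5 : ∀ᶠ p in 𝓝 s, F p a ≠ 0 := (h4 a).continuousAt.eventually_ne h2
    filter_upwards [hr, h5, h1] with p hp hp' hpe
    obtain ⟨h6, h7⟩ := hp
    have h8 : aff a E p = (F p a)⁻¹ • F p := by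
      rw [hpe]
      funext b
      rw [Pi.smul_apply, smul_eq_mul, inv_mul_eq_div]
    have h9 : aff a E p ≠ 0 := by
      rw [h8]
      exact smul_ne_zero (inv_ne_zero hp') h6
    refine ⟨h9, ?_⟩
    rw [h7, Projectivization.mk_eq_mk_iff']
    exact ⟨F p a, by rw [h8, smul_smul, mul_inv_cancel₀ hp', one_smul]⟩

/-- continuation along a segment -/
theorem kap_ball (hE : ∀ t, ∃ F, Hl E F t) {K : ℝ} (hK : 0 < K) (hd : ∀ s, 1 / 2 < kap a E s → ∀ w, ‖fderiv ℂ (aff a E) s w‖ ≤ K * ‖w‖)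
    (ht : 1 ≤ kap a E t) : ∀ s ∈ ball t (1 / K), 1 / 2 < kap a E s := by
  intro s hs
  set u := s - t with hu
  set L := K * ‖u‖ with hL
  have hL0 : 0 ≤ L := by positivity
  have hL1 : L < 1 := by
    rw [mem_ball, dist_eq_norm] at hs
    rw [hL]
    have := (lt_div_iff₀ hK).1 hs
    linarith [mul_comm ‖s - t‖ K]
  set γ : ℝ → V := fun r => t + (r : ℂ) • u with hγ
  have hγc : Continuous γ := by fun_prop
  have hγd : ∀ r r' : ℝ, γ r' - γ r = ((r' - r : ℝ) : ℂ) • u := fun r r' => by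
    simp only [hγ]
    rw [add_sub_add_left_eq_sub, ← sub_smul]
    push_cast
    rfl
  set S : Set ℝ := {r | 1 ≤ (1 + L * r) * kap a E (γ r)} with hS
  have hSc : IsClosed S := isClosed_le continuous_const ((continuous_const.add (continuous_const.mul continuous_id)).mul ((kap_continuous hE a).comp hγc))
  have h0 : (0 : ℝ) ∈ S := by
    simp only [hS, Set.mem_setOf_eq, hγ, mul_zero, add_zero, one_mul, Complex.ofReal_zero, zero_smul]
    exact ht
  have hkey : ∀ r ∈ S, 0 ≤ r → r ≤ 1 → 1 / 2 < kap a E (γ r) := fun r hr h1 h2 => by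
    by_contra h3
    rw [not_lt] at h3
    have h4 : (1 + L * r) * kap a E (γ r) ≤ (1 + L * r) * (1 / 2) := mul_le_mul_of_nonneg_left h3 (by positivity)
    have h5 : L * r ≤ L := mul_le_of_le_one_right hL0 h2
    have h6 : (1 : ℝ) ≤ _ := hr
    linarith
  have hIcc : Set.Icc (0 : ℝ) 1 ⊆ S := by
    refine (hSc.inter isClosed_Icc).Icc_subset_of_forall_mem_nhdsWithin h0 fun r hr => ?_
    obtain ⟨hrS, hr0, hr1⟩ := hr
    have h1 := hkey r hrS hr0 hr1.le
    have h2 : ∀ᶠ p in 𝓝 (γ r), 1 / 2 < kap a E p := (kap_continuous hE a).continuousAt.eventually_const_lt h1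
    obtain ⟨ρ, hρ, hρ'⟩ := Metric.eventually_nhds_iff_ball.1 h2
    have h3 : ∀ᶠ r' in 𝓝 r, γ r' ∈ ball (γ r) ρ := hγc.continuousAt.eventually (ball_mem_nhds _ hρ)
    have h4 : ∀ᶠ r' in 𝓝[>] r, r < r' := eventually_mem_nhdsWithin
    filter_upwards [h3.filter_mono nhdsWithin_le_nhds, h4] with r' hr' hlt
    have hne : kap a E (γ r) ≠ 0 := (by norm_num : (0 : ℝ) < 1 / 2).trans h1 |>.ne'
    have h5 := hρ' _ hr'
    have hne' : kap a E (γ r') ≠ 0 := (by norm_num : (0 : ℝ) < 1 / 2).trans h5 |>.ne'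
    have h6 : ‖aff a E (γ r') - aff a E (γ r)‖ ≤ K * ‖γ r' - γ r‖ := by
      refine (convex_ball (γ r) ρ).norm_image_sub_le_of_norm_fderiv_le (𝕜 := ℂ) (fun p hp => ?_) (fun p hp => ?_) (mem_ball_self hρ) hr'
      · exact (hl_aff hE ((by norm_num : (0 : ℝ) < 1 / 2).trans (hρ' p hp)).ne').1.differentiableAt
      · exact ContinuousLinearMap.opNorm_le_bound _ hK.le (hd p (hρ' p hp))
    have h7 : ‖γ r' - γ r‖ = (r' - r) * ‖u‖ := by
      rw [hγd, norm_smul, Complex.norm_real, Real.norm_of_nonneg (sub_nonneg.2 hlt.le)]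
    have h8 : ‖aff a E (γ r)‖ ≤ 1 + L * r := by
      rw [(norm_aff hne).1, inv_le_iff_one_le_mul₀ ((by norm_num : (0 : ℝ) < 1 / 2).trans h1)]
      exact hrS
    have h9 : ‖aff a E (γ r')‖ ≤ 1 + L * r' := by
      have h10 := norm_le_norm_add_norm_sub' (aff a E (γ r')) (aff a E (γ r))
      rw [h7] at h6
      have h11 : K * ((r' - r) * ‖u‖) = L * r' - L * r := by rw [hL]; ring
      linarith
    rw [(norm_aff hne').1, inv_le_iff_one_le_mul₀ ((by norm_num : (0 : ℝ) < 1 / 2).trans h5)] at h9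
    exact h9
  have h12 := hkey 1 (hIcc (Set.right_mem_Icc.2 zero_le_one)) zero_le_one le_rfl
  have h13 : γ 1 = s := by
    simp only [hγ, hu, Complex.ofReal_one, one_smul, add_sub_cancel]
  rwa [h13] at h12

/-- a bounded derivative is Lipschitz (Schwarz) -/
theorem fderiv_lip {W : Type*} [NormedAddCommGroup W] [NormedSpace ℂ W] [CompleteSpace W] {f : V → W} {K R : ℝ} (hK : 0 ≤ K) (hR : 0 < R) (hf : ∀ s ∈ ball t R, AnalyticAt ℂ f s)
    (hd : ∀ s ∈ ball t R, ∀ w, ‖fderiv ℂ f s w‖ ≤ K * ‖w‖) : ∀ s ∈ ball t R, ‖fderiv ℂ f s - fderiv ℂ f t‖ ≤ 2 * K / R * ‖s - t‖ := by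
  intro s hs
  have h1 : DifferentiableOn ℂ (fderiv ℂ f) (ball t R) := fun p hp => (hf p hp).fderiv.differentiableAt.differentiableWithinAt
  have h2 : ∀ p ∈ ball t R, ‖fderiv ℂ f p‖ ≤ K := fun p hp => ContinuousLinearMap.opNorm_le_bound _ hK (hd p hp)
  have h3 : Set.MapsTo (fderiv ℂ f) (ball t R) (closedBall (fderiv ℂ f t) (2 * K)) := fun p hp => by
    rw [mem_closedBall, dist_eq_norm]
    refine (norm_sub_le _ _).trans ?_
    have h4 := h2 p hp
    have h5 := h2 t (mem_ball_self hR)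
    linarith
  have h6 := Complex.dist_le_div_mul_dist_of_mapsTo_ball h1 h3 hs
  rwa [dist_eq_norm, dist_eq_norm] at h6

end Pool.Agent.GV
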