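import Pool.Agent.GV.PolA
import Pool.Agent.GG.Row
import Pool.Agent.GG.Bd

/-!
# GV PolB: the polar forms along holomorphic maps are well defined and analytic

PROOF.  `hl_factor`: `G = g F`, `dG (u) = g dF (u) + dg (u) F`; `SymSec.add_smul`, `scale`.  Analytic: `SymSec.regular` in a chart (`F_i ≠ 0`), `pol` = a directional
derivative of a polynomial in `v`: on `conTan P x` the function `v ↦ F_i ^ e toFun x v` is the polynomial `A (x, ·)`.
-/

set_option autoImplicit false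

open MvPolynomial Topology Filter Metric
open Pool.Agent.H13.SM (conTan cone)
open Pool.Agent.H17 (PN VanishesAt)
open Pool.Agent.H17EF (projVar)
open Pool.Agent.H17LG.Variety (FunField ratio IsLogGeneralType)
open Pool.Agent.H62.FC (Homog closureIn)
open Pool.Agent.H66.Lang (HolomorphicIntoPN)
open Pool.Agent.GG Pool.Agent.GB

namespace Pool.Agent.GV

variable {N : ℕ} {P Q : Ideal (MvPolynomial (Fin (N + 1)) ℂ)} {J m : ℕ} {θ : Fin J → SymSec P m} {d : ℕ}

variable {V : Type*} [NormedAddCommGroup V] [NormedSpace ℂ V]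

/-- the value at another representative of the same tangent vector -/
private theorem toFun_change (hP : Homog P) (s : SymSec P m) {x a : Fin (N + 1) → ℂ} (hx : x ∈ cone P) (ha : a ∈ conTan P x) {c : ℂ} (hc : c ≠ 0) (α : ℂ) :
    s.toFun (c • x) (c • a + α • x) = s.toFun x a := by
  have hx' : c • x ∈ cone P := Pool.Agent.AD.G.cone_smulC hP hx hc
  have ha' : c • a ∈ conTan P (c • x) := by
    rw [Pool.Agent.H39.SY.conTan_smul hP hc]
    exact (conTan P x).smul_mem _ ha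
  have h1 : α • x = (α * c⁻¹) • (c • x) := by
    rw [smul_smul, mul_assoc, inv_mul_cancel₀ hc, mul_one]
  rw [h1, s.add_smul _ hx' _ ha', s.scale x hx a ha c hc]

theorem pol_hl (hP : Homog P) {s : SymSec P m} {Φ : V → PN N} {F G : V → Fin (N + 1) → ℂ} {q : V} (hF : Hl Φ F q) (hG : Hl Φ G q) (hm : ∀ p, Φ p ∈ projVar P) (u v : V) :
    pol s (F q) (fderiv ℂ F q u) (fderiv ℂ F q v) = pol s (G q) (fderiv ℂ G q u) (fderiv ℂ G q v) ∧
    s.toFun (F q) (fderiv ℂ F q u) = s.toFun (G q) (fderiv ℂ G q u) ∧ wl (F q) (fderiv ℂ F q u) = wl (G q) (fderiv ℂ G q u) := by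
  obtain ⟨g, hg, hg0, hgF⟩ := hl_factor hF hG
  obtain ⟨hx, hT⟩ := (hl_cone hP hF hm).self_of_nhds
  have hGq : G q = g q • F q := hgF.self_of_nhds
  have hdG : ∀ w, fderiv ℂ G q w = g q • fderiv ℂ F q w + (fderiv ℂ g q w) • F q := by
    intro w
    have h1 : fderiv ℂ G q = fderiv ℂ (fun p => g p • F p) q := Filter.EventuallyEq.fderiv_eq hgF
    rw [h1, fderiv_fun_smul hg.differentiableAt hF.1.differentiableAt]
    simp
  refine ⟨?_, ?_, ?_⟩
  · unfold pol
    congr 1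
    funext t
    rw [hGq, hdG u, hdG v]
    have h2 : g q • fderiv ℂ F q u + (fderiv ℂ g q u) • F q + t • (g q • fderiv ℂ F q v + (fderiv ℂ g q v) • F q) =
        g q • (fderiv ℂ F q u + t • fderiv ℂ F q v) + (fderiv ℂ g q u + t * fderiv ℂ g q v) • F q := by
      module
    rw [h2, toFun_change hP s hx ((conTan P _).add_mem (hT u) ((conTan P _).smul_mem _ (hT v))) hg0]
  · rw [hGq, hdG u, toFun_change hP s hx (hT u) hg0]
  · rw [hGq, hdG u]
    have h1 : (fderiv ℂ g q u) • F q = (fderiv ℂ g q u * (g q)⁻¹) • (g q • F q) := by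
      rw [smul_smul, mul_assoc, inv_mul_cancel₀ hg0, mul_one]
    rw [h1, wl_add_smul, wl_smul hg0]

theorem pol_an (hP : Homog P) {s : SymSec P m} {Φ : V → PN N} {F : V → Fin (N + 1) → ℂ} {q : V} (hF : Hl Φ F q) (hm : ∀ p, Φ p ∈ projVar P) (u v : V) :
    AnalyticAt ℂ (fun p => pol s (F p) (fderiv ℂ F p u) (fderiv ℂ F p v)) q ∧ AnalyticAt ℂ (fun p => s.toFun (F p) (fderiv ℂ F p u)) q := by
  have hcone := hl_cone hP hF hm
  have hx0 : F q ≠ 0 := hcone.self_of_nhds.1.1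
  obtain ⟨i, hi⟩ : ∃ i, F q i ≠ 0 := Function.ne_iff.1 hx0
  obtain ⟨e, A, hA⟩ := s.regular i
  have hFi : ∀ b, AnalyticAt ℂ (fun p => F p b) q := fun b => (analyticAt_pi_iff.1 hF.1) b
  have hdF : ∀ w, AnalyticAt ℂ (fun p => fderiv ℂ F p w) q := fun w =>
    ((ContinuousLinearMap.apply ℂ (Fin (N + 1) → ℂ) w).analyticAt (fderiv ℂ F q)).comp hF.1.fderiv
  have hdFi : ∀ w b, AnalyticAt ℂ (fun p => fderiv ℂ F p w b) q := fun w b => (analyticAt_pi_iff.1 (hdF w)) b
  have hne : ∀ᶠ p in 𝓝 q, F p i ≠ 0 := (hFi i).continuousAt.eventually_ne hi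
  have hev : ∀ B : MvPolynomial (Ph N) ℂ, AnalyticAt ℂ (fun p => eval (pt (F p) (fderiv ℂ F p u)) B) q := by
    intro B
    have h1 : AnalyticAt ℂ (fun p => aeval (pt (F p) (fderiv ℂ F p u)) B) q := by
      refine AnalyticAt.aeval_mvPolynomial (fun b => ?_) B
      rcases b with b | b
      · exact hFi b
      · exact hdFi u b
    exact h1
  have hpow : AnalyticAt ℂ (fun p => ((F p i) ^ e)⁻¹) q := ((hFi i).pow e).inv (pow_ne_zero _ hi)
  constructor
  · have h1 : AnalyticAt ℂ (fun p => ((F p i) ^ e)⁻¹ * ∑ b, eval (pt (F p) (fderiv ℂ F p u)) (pderiv (Sum.inr b) A) * fderiv ℂ F p v b) q :=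
      hpow.mul (Finset.analyticAt_fun_sum _ fun b _ => (hev _).mul (hdFi v b))
    refine h1.congr ?_
    filter_upwards [hcone, hne] with p hp hpi
    have h2 : (fun t : ℂ => s.toFun (F p) (fderiv ℂ F p u + t • fderiv ℂ F p v)) = fun t : ℂ => ((F p i) ^ e)⁻¹ * eval (pt (F p) (fderiv ℂ F p u + t • fderiv ℂ F p v)) A := by
      funext t
      have h3 := hA (F p) hp.1 _ ((conTan P _).add_mem (hp.2 u) ((conTan P _).smul_mem t (hp.2 v)))
      rw [pt, ← h3, inv_mul_cancel_left₀ (pow_ne_zero _ hpi)]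
    unfold pol
    rw [h2, ((hasDerivAt_evalV A (F p) (fderiv ℂ F p u) (fderiv ℂ F p v)).const_mul (((F p i) ^ e)⁻¹)).deriv]
  · refine (hpow.mul (hev A)).congr ?_
    filter_upwards [hcone, hne] with p hp hpi
    have h3 := hA (F p) hp.1 _ (hp.2 u)
    show ((F p i) ^ e)⁻¹ * eval (pt (F p) (fderiv ℂ F p u)) A = _
    rw [pt, ← h3, inv_mul_cancel_left₀ (pow_ne_zero _ hpi)]

end Pool.Agent.GV
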