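import Pool.Agent.GV.Defs
import Pool.Agent.GV.PolB
import Pool.Agent.GV.Cmp
import Pool.Agent.GV.CovA
import Pool.Agent.GV.CovB

/-!
# GV Cov: the coordinates of `E` cover balls of a fixed radius

PROOF.  `wl (F t) (dF_t (w)) ≤ C ‖w‖` (`le_toFun`, `flat`; `c` is bounded on `‖w‖ ≤ 1` by homogeneity and continuity) and `≥ c₀ ‖w‖` (`c w ≠ 0` on the compact set `‖w‖ = 1`, `toFun_le`).  At `t` choose the coordinate `a'` of maximal size; for `‖s - t‖ < ρ₀` (uniform) the coordinates `y_b = x_b / x_a'` satisfy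
`|y_b| ≤ 2`, so `y` is holomorphic and bounded on the ball and its second derivatives are bounded (Cauchy).  `dy_t` is injective with `‖dy_t (w)‖ ≥ c₁ ‖w‖`, so some `d` of the coordinates (`I`) have an invertible differential with inverse bounded by `C₂` (minors of a matrix in a compact set of matrices of
rank `d`).  Quantitative inverse function theorem (`ApproximatesLinearOn`, `surjOn_closedBall_of_nonlinearRightInverse`).
-/

set_option autoImplicit false

open MvPolynomial Topology Filter Metric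
open Pool.Agent.H13.SM (conTan cone)
open Pool.Agent.H17 (PN VanishesAt)
open Pool.Agent.H17EF (projVar)
open Pool.Agent.H17LG.Variety (FunField ratio IsLogGeneralType)
open Pool.Agent.H62.FC (Homog closureIn)
open Pool.Agent.H66.Lang (HolomorphicIntoPN)
open Pool.Agent.GG Pool.Agent.GB

namespace Pool.Agent.GV

variable {N : ℕ} {P Q : Ideal (MvPolynomial (Fin (N + 1)) ℂ)} {J m : ℕ} {θ : Fin J → SymSec P m} {d : ℕ}

/-- the constants `c` of a flat map are continuous -/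
private theorem c_cont (hP : Homog P) {c : (Fin d → ℂ) → Fin J → ℂ} {E : (Fin d → ℂ) → PN N} (hE : IsFlat (m := fun _ => m) θ c E) : Continuous c := by
  obtain ⟨F, hF⟩ := hE.hol 0
  obtain ⟨hx, hv⟩ := (hl_cone hP hF hE.mem).self_of_nhds
  obtain ⟨h0, -⟩ := hF.2.self_of_nhds
  obtain ⟨a, ha⟩ := Function.ne_iff.1 h0
  refine continuous_pi fun k => ?_
  obtain ⟨e, A, hA⟩ := (θ k).regular a
  have h1 : (fun w => c w k) = fun w => ((F 0 a) ^ e)⁻¹ * eval (Sum.elim (F 0) (fderiv ℂ F 0 w)) A := by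
    funext w
    rw [← hE.flat 0 w F hF k, ← hA _ hx _ (hv w), ← mul_assoc, inv_mul_cancel₀ (pow_ne_zero e ha), one_mul]
  rw [h1]
  refine continuous_const.mul ((MvPolynomial.continuous_eval A).comp ?_)
  refine continuous_pi fun i => ?_
  rcases i with i | i
  · exact continuous_const
  · exact (continuous_apply i).comp (fderiv ℂ F 0).continuous

/-- the length of the derivative of a flat map is comparable to the euclidean length -/
private theorem flat_wl (hP : Homog P) (hθ : Polar (m := fun _ => m) θ) (hm : 1 ≤ m) (f : Frame (m := fun _ => m) θ) {c : (Fin d → ℂ) → Fin J → ℂ} {E : (Fin d → ℂ) → PN N}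
    (hE : IsFlat (m := fun _ => m) θ c E) : ∃ C₁ > 0, ∃ c₀ > 0, ∀ t F, Hl E F t → ∀ w, wl (F t) (fderiv ℂ F t w) ≤ C₁ * ‖w‖ ∧ c₀ * ‖w‖ ≤ wl (F t) (fderiv ℂ F t w) := by
  have hc := c_cont hP hE
  have hS : IsCompact (sphere (0 : Fin d → ℂ) 1) := isCompact_sphere _ _
  obtain ⟨M, hM⟩ := hS.exists_bound_of_continuousOn hc.continuousOn
  obtain ⟨μ, hμ, hμ'⟩ := hS.exists_forall_le' (f := fun w => ‖c w‖) hc.norm.continuousOn (a := 0) fun w hw => norm_pos_iff.2 (hE.ne w fun h => by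
    rw [h, mem_sphere, dist_self] at hw
    exact zero_ne_one hw)
  obtain ⟨C, hC0, hC⟩ := le_toFun hP hm hθ f
  obtain ⟨D, hD0, hD⟩ := toFun_le hP hm f
  have hm0 : m ≠ 0 := by omega
  -- the bounds for unit vectors
  have key : ∀ t F, Hl E F t → ∀ w, ‖w‖ = 1 → wl (F t) (fderiv ℂ F t w) ≤ max 1 (C * M) ∧ min 1 (μ / (D + 1)) ≤ wl (F t) (fderiv ℂ F t w) := fun t F hF w hw => by
    obtain ⟨hx, hv⟩ := (hl_cone hP hF hE.mem).self_of_nhds
    have hws : w ∈ sphere (0 : Fin d → ℂ) 1 := by simpa using hw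
    have h0 := wl_nonneg (F t) (fderiv ℂ F t w)
    constructor
    · have h1 := hC (F t) hx _ (hv w) M fun k => by
        rw [hE.flat t w F hF k]
        exact (norm_le_pi_norm (c w) k).trans (hM w hws)
      rcases le_or_gt (wl (F t) (fderiv ℂ F t w)) 1 with h2 | h2
      · exact h2.trans (le_max_left _ _)
      · exact ((le_self_pow₀ h2.le hm0).trans h1).trans (le_max_right _ _)
    · obtain ⟨k, hk⟩ : ∃ k, μ ≤ ‖c w k‖ := by
        by_contra hcon
        push Not at hcon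
        exact absurd (hμ' w hws) (not_le.2 ((pi_norm_lt_iff hμ).2 hcon))
      have h1 := hD k (F t) hx _ (hv w)
      rw [hE.flat t w F hF k] at h1
      have h3 : 0 < D + 1 := by positivity
      have h4 : μ / (D + 1) ≤ wl (F t) (fderiv ℂ F t w) ^ m := by
        rw [div_le_iff₀ h3]
        have := pow_nonneg h0 m
        nlinarith
      rcases le_or_gt 1 (wl (F t) (fderiv ℂ F t w)) with h2 | h2
      · exact (min_le_left _ _).trans h2
      · exact ((min_le_right _ _).trans h4).trans (pow_le_of_le_one h0 h2.le hm0)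
  refine ⟨max 1 (C * M), lt_max_of_lt_left one_pos, min 1 (μ / (D + 1)), lt_min one_pos (by positivity), fun t F hF w => ?_⟩
  rcases eq_or_ne w 0 with rfl | hw
  · rw [map_zero, norm_zero, mul_zero, mul_zero]
    have h1 : wl (F t) 0 = 0 := by
      have := wl_smul_right (F t) 0 0
      rwa [smul_zero, norm_zero, zero_mul] at this
    rw [h1]
    exact ⟨le_rfl, le_rfl⟩
  · have hw0 : 0 < ‖w‖ := norm_pos_iff.2 hw
    have h1 : w = (‖w‖ : ℂ) • ((‖w‖ : ℂ)⁻¹ • w) := by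
      rw [smul_smul, mul_inv_cancel₀ (by exact_mod_cast hw0.ne'), one_smul]
    have h2 : ‖((‖w‖ : ℂ)⁻¹ • w)‖ = 1 := by
      rw [norm_smul, norm_inv, Complex.norm_real, norm_norm, inv_mul_cancel₀ hw0.ne']
    obtain ⟨h3, h4⟩ := key t F hF _ h2
    have h5 : wl (F t) (fderiv ℂ F t w) = ‖w‖ * wl (F t) (fderiv ℂ F t ((‖w‖ : ℂ)⁻¹ • w)) := by
      conv_lhs => rw [h1]
      rw [map_smul, wl_smul_right, Complex.norm_real, norm_norm]
    rw [h5]
    constructor
    · rw [mul_comm _ ‖w‖]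
      exact mul_le_mul_of_nonneg_left h3 hw0.le
    · rw [mul_comm _ ‖w‖]
      exact mul_le_mul_of_nonneg_left h4 hw0.le

private theorem norm_le_wl' {x v : Fin (N + 1) → ℂ} {a : Fin (N + 1)} (hx : ‖x‖ ≤ 2) (hxa : x a = 1) (hva : v a = 0) : ‖v‖ ≤ 4 * wl x v := by
  have h0 : 1 ≤ ‖x‖ := by
    have := norm_le_pi_norm x a
    rwa [hxa, norm_one] at this
  have h1 : ‖v‖ ≤ ‖fun p : Fin (N + 1) × Fin (N + 1) => x p.1 * v p.2 - x p.2 * v p.1‖ := by
    refine (pi_norm_le_iff_of_nonneg (norm_nonneg _)).2 fun b => ?_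
    have h1 := norm_le_pi_norm (fun p : Fin (N + 1) × Fin (N + 1) => x p.1 * v p.2 - x p.2 * v p.1) (a, b)
    simp only [hxa, hva, one_mul, mul_zero, sub_zero] at h1
    exact h1
  have h2 : ‖x‖ ^ 2 ≤ 4 := by nlinarith
  have h3 : 0 < ‖x‖ ^ 2 := by positivity
  rw [wl, mul_div_assoc', le_div_iff₀ h3]
  have := norm_nonneg v
  nlinarith

private theorem wl_le_norm {x v : Fin (N + 1) → ℂ} (hx : 1 ≤ ‖x‖) : wl x v ≤ 2 * ‖v‖ := by
  have h3 : 0 < ‖x‖ ^ 2 := by positivity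
  rw [wl, div_le_iff₀ h3]
  have h4 : ‖fun p : Fin (N + 1) × Fin (N + 1) => x p.1 * v p.2 - x p.2 * v p.1‖ ≤ 2 * (‖x‖ * ‖v‖) := by
    refine (pi_norm_le_iff_of_nonneg (by positivity)).2 fun p => (norm_sub_le _ _).trans ?_
    rw [norm_mul, norm_mul]
    have h5 := mul_le_mul (norm_le_pi_norm x p.1) (norm_le_pi_norm v p.2) (norm_nonneg _) (norm_nonneg _)
    have h6 := mul_le_mul (norm_le_pi_norm x p.2) (norm_le_pi_norm v p.1) (norm_nonneg _) (norm_nonneg _)
    linarith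
  refine h4.trans ?_
  have h5 := norm_nonneg v
  have h6 : ‖x‖ * ‖v‖ ≤ ‖x‖ ^ 2 * ‖v‖ := mul_le_mul_of_nonneg_right (by nlinarith) h5
  nlinarith

theorem exists_cover (hP : Homog P) (hθ : Polar (m := fun _ => m) θ) (hm : 1 ≤ m) (f : Frame (m := fun _ => m) θ) {c : (Fin d → ℂ) → Fin J → ℂ} {E : (Fin d → ℂ) → PN N}
    (hE : IsFlat (m := fun _ => m) θ c E) : ∃ ρ > 0, ∃ ε > 0, ∀ t : Fin d → ℂ, ∃ (a' : Fin (N + 1)) (I : Fin d → Fin (N + 1)) (ξ₀ : Fin d → ℂ), ‖ξ₀‖ ≤ 1 ∧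
      ∀ ξ ∈ ball ξ₀ ε, ∃ s ∈ ball t ρ, ∃ F, Hl E F s ∧ F s a' = 1 ∧ ∀ i, F s (I i) = ξ i := by
  obtain ⟨C₁, hC₁, c₀, hc₀, hwl⟩ := flat_wl hP hθ hm f hE
  set K : ℝ := 4 * C₁ with hK
  have hK0 : 0 < K := by positivity
  set δ : ℝ := c₀ / 2 / (d + 1) with hδ
  have hδ0 : 0 < δ := by positivity
  -- the radius
  set r : ℝ := min (1 / K / 2) (δ / (4 * K ^ 2)) with hr
  have hr0 : 0 < r := lt_min (by positivity) (by positivity)
  have hr1 : r < 1 / K := (min_le_left _ _).trans_lt (half_lt_self (by positivity))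
  refine ⟨1 / K, by positivity, δ / 2 * r, by positivity, fun t => ?_⟩
  obtain ⟨F₀, hF₀⟩ := hE.hol t
  obtain ⟨hF0, hF1⟩ := hF₀.2.self_of_nhds
  -- the maximal coordinate
  obtain ⟨a', ha'⟩ := Finite.exists_max fun b => ‖(E t).rep b‖
  have hrep : (E t).rep ≠ 0 := (E t).rep_nonzero
  have hn : ‖(E t).rep‖ ≤ ‖(E t).rep a'‖ := (pi_norm_le_iff_of_nonneg (norm_nonneg _)).2 ha'
  have hkt : 1 ≤ kap a' E t := by
    rw [kap, le_div_iff₀ (norm_pos_iff.2 hrep), one_mul]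
    exact hn
  set y := aff a' E with hy
  have hk2 : ∀ s, 1 / 2 < kap a' E s → kap a' E s ≠ 0 := fun s hs => ((by norm_num : (0 : ℝ) < 1 / 2).trans hs).ne'
  have hder0 : ∀ s, 1 / 2 < kap a' E s → ∀ w, fderiv ℂ y s w a' = 0 := fun s hs w => by
    have h1 := (hl_aff hE.hol (hk2 s hs)).1.differentiableAt
    have h2 : (fun p => y p a') =ᶠ[𝓝 s] fun _ => (1 : ℂ) := by
      filter_upwards [(kap_continuous hE.hol a').continuousAt.eventually_const_lt hs] with p hp
      exact (norm_aff (hk2 p hp)).2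
    have h3 : fderiv ℂ (fun p => y p a') s w = fderiv ℂ y s w a' := by
      rw [fderiv_apply h1 a']
      rfl
    rw [← h3, h2.fderiv_eq]
    simp
  have hnorm : ∀ s, 1 / 2 < kap a' E s → ‖y s‖ ≤ 2 := fun s hs => by
    rw [hy, (norm_aff (hk2 s hs)).1, inv_le_comm₀ ((by norm_num : (0 : ℝ) < 1 / 2).trans hs) two_pos]
    linarith [show (2 : ℝ)⁻¹ = 1 / 2 by norm_num]
  have hd : ∀ s, 1 / 2 < kap a' E s → ∀ w, ‖fderiv ℂ y s w‖ ≤ K * ‖w‖ := fun s hs w => by
    have h1 := norm_le_wl' (hnorm s hs) (norm_aff (hk2 s hs)).2 (hder0 s hs w)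
    have h2 := (hwl s y (hl_aff hE.hol (hk2 s hs)) w).1
    rw [hK]
    linarith
  have hkB := kap_ball hE.hol hK0 hd hkt
  have hkt' : 1 / 2 < kap a' E t := lt_of_lt_of_le (by norm_num) hkt
  have hlip := fderiv_lip (f := y) hK0.le (one_div_pos.2 hK0) (fun s hs => (hl_aff hE.hol (hk2 s (hkB s hs))).1) fun s hs => hd s (hkB s hs)
  -- the lower bound at `t`
  have hy1 : 1 ≤ ‖y t‖ := by
    have := norm_le_pi_norm (y t) a'
    rwa [hy, (norm_aff (hk2 t hkt')).2, norm_one] at this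
  have hlow : ∀ w, c₀ / 2 * ‖w‖ ≤ ‖fderiv ℂ y t w‖ := fun w => by
    have h1 := (hwl t y (hl_aff hE.hol (hk2 t hkt')) w).2
    have h2 := wl_le_norm (v := fderiv ℂ y t w) hy1
    linarith
  obtain ⟨I, hI⟩ := exists_minor (by positivity) (fderiv ℂ y t) hlow
  have hyt : ‖y t‖ ≤ 1 := by
    rw [hy, (norm_aff (hk2 t hkt')).1]
    exact inv_le_one_of_one_le₀ hkt
  -- the coordinates `I`
  set g : (Fin d → ℂ) → Fin d → ℂ := fun s i => y s (I i) with hg
  set π : (Fin (N + 1) → ℂ) →L[ℂ] (Fin d → ℂ) := ContinuousLinearMap.pi fun i => ContinuousLinearMap.proj (I i) with hπ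
  have hπn : ∀ v, ‖π v‖ ≤ ‖v‖ := fun v => (pi_norm_le_iff_of_nonneg (norm_nonneg _)).2 fun i => norm_le_pi_norm v (I i)
  have hgd : ∀ s ∈ closedBall t r, HasFDerivAt g (π.comp (fderiv ℂ y s)) s := fun s hs =>
    π.hasFDerivAt.comp s (hl_aff hE.hol (hk2 s (hkB s (closedBall_subset_ball hr1 hs)))).1.differentiableAt.hasFDerivAt
  refine ⟨a', I, g t, ?_, fun ξ hξ => ?_⟩
  · exact (hπn (y t)).trans hyt
  obtain ⟨s, hs, hs'⟩ := cover_ball hδ0 hr0.le (g := g) (t := t) (π.comp (fderiv ℂ y t)) hI (fun s hs => (hgd s hs).differentiableAt) (fun s hs => by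
    rw [(hgd s hs).fderiv, ← ContinuousLinearMap.comp_sub]
    have h1 := hlip s (closedBall_subset_ball hr1 hs)
    have h2 : ‖π.comp (fderiv ℂ y s - fderiv ℂ y t)‖ ≤ ‖fderiv ℂ y s - fderiv ℂ y t‖ :=
      ContinuousLinearMap.opNorm_le_bound _ (norm_nonneg _) fun w => (hπn _).trans (ContinuousLinearMap.le_opNorm _ _)
    refine h2.trans (h1.trans ?_)
    have h3 : ‖s - t‖ ≤ δ / (4 * K ^ 2) := by
      rw [← dist_eq_norm]
      exact (mem_closedBall.1 hs).trans (min_le_right _ _)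
    have h4 : 2 * K / (1 / K) * ‖s - t‖ ≤ 2 * K / (1 / K) * (δ / (4 * K ^ 2)) := mul_le_mul_of_nonneg_left h3 (by positivity)
    refine h4.trans_eq ?_
    field_simp
    ring) ξ (ball_subset_closedBall hξ)
  exact ⟨s, closedBall_subset_ball hr1 hs, y, hl_aff hE.hol (hk2 s (hkB s (closedBall_subset_ball hr1 hs))), (norm_aff (hk2 s (hkB s (closedBall_subset_ball hr1 hs)))).2,
    fun i => congrFun hs' i⟩

end Pool.Agent.GV
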