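import Pool.Agent.GV.Defs

/-!
# GV Fib: generic fibres are finite

PROOF.  For `b` let `H_b` be the equation for the coordinates `(a', I, b)`: the polynomial `H_b (1, X_1, …, X_d, Y)` is not `0` (homogeneous), so some coefficient `R_b (X)` of a power of `Y` is `≠ 0`.  `R = ∏_b R_b`.  If `R (ξ) ≠ 0` then the points `E s` with `F s a' = 1`, `F s (I i) = ξ i` have coordinates `F s b`
among the finitely many zeros of `H_b (1, ξ, Y)`.
-/

set_option autoImplicit false

open MvPolynomial Topology Filter Metric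
open Pool.Agent.H13.SM (conTan cone)
open Pool.Agent.H17 (PN VanishesAt)
open Pool.Agent.H17EF (projVar)
open Pool.Agent.H17LG.Variety (FunField ratio IsLogGeneralType)
open Pool.Agent.H62.FC (Homog closureIn)
open Pool.Agent.H66.Lang (HolomorphicIntoPN)
open Pool.Agent.GG Pool.Agent.GB

namespace Pool.Agent.GV

variable {N d : ℕ}

private theorem Fib_eval (ξ : Fin d → ℂ) (y : ℂ) (G : MvPolynomial (Fin (d + 2)) ℂ) :
    (((aeval (Fin.cons 1 (Fin.snoc (fun i : Fin d => Polynomial.C (X i)) Polynomial.X : Fin (d + 1) → Polynomial (MvPolynomial (Fin d) ℂ)) :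
        Fin (d + 2) → Polynomial (MvPolynomial (Fin d) ℂ)) G).map (eval ξ)).eval y) =
      eval (Fin.cons 1 (Fin.snoc ξ y : Fin (d + 1) → ℂ) : Fin (d + 2) → ℂ) G := by
  induction G using MvPolynomial.induction_on with
  | C a =>
    rw [aeval_C, eval_C, Polynomial.algebraMap_apply, Polynomial.map_C, Polynomial.eval_C, MvPolynomial.algebraMap_eq, eval_C]
  | add p q hp hq => rw [map_add, map_add, Polynomial.map_add, Polynomial.eval_add, hp, hq]
  | mul_X p i hp =>
    rw [map_mul, map_mul, Polynomial.map_mul, Polynomial.eval_mul, hp, aeval_X, eval_X]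
    congr 1
    refine Fin.cases ?_ (fun j => ?_) i
    · simp
    · refine Fin.lastCases ?_ (fun k => ?_) j
      · simp
      · simp

private theorem Fib_coeff {H : MvPolynomial (Fin (d + 2)) ℂ} {n : ℕ} (h0 : H ≠ 0) (hH : H.IsHomogeneous n) :
    ∃ R : MvPolynomial (Fin d) ℂ, R ≠ 0 ∧ ∀ ξ : Fin d → ℂ, eval ξ R ≠ 0 →
      {y : ℂ | eval (Fin.cons 1 (Fin.snoc ξ y : Fin (d + 1) → ℂ) : Fin (d + 2) → ℂ) H = 0}.Finite := by
  obtain ⟨p, hp⟩ : ∃ p : Polynomial (MvPolynomial (Fin d) ℂ), p = aeval (Fin.cons 1 (Fin.snoc (fun i : Fin d => Polynomial.C (X i)) Polynomial.X :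
      Fin (d + 1) → Polynomial (MvPolynomial (Fin d) ℂ)) : Fin (d + 2) → Polynomial (MvPolynomial (Fin d) ℂ)) H := ⟨_, rfl⟩
  have hev : ∀ (ξ : Fin d → ℂ) (y : ℂ), (p.map (eval ξ)).eval y = eval (Fin.cons 1 (Fin.snoc ξ y : Fin (d + 1) → ℂ) : Fin (d + 2) → ℂ) H :=
    fun ξ y => by rw [hp]; exact Fib_eval ξ y H
  have hp0 : p ≠ 0 := by
    intro hz
    have h1 : X 0 * H = 0 := by
      apply MvPolynomial.funext
      intro v
      rw [map_mul, eval_X, map_zero]
      rcases eq_or_ne (v 0) 0 with h2 | h2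
      · rw [h2, zero_mul]
      · have h3 : v = fun k => v 0 * ((Fin.cons 1 (Fin.snoc (fun i : Fin d => v i.castSucc.succ / v 0) (v (Fin.last _) / v 0) : Fin (d + 1) → ℂ) :
            Fin (d + 2) → ℂ)) k := by
          funext k
          refine Fin.cases ?_ (fun j => ?_) k
          · simp
          · refine Fin.lastCases ?_ (fun i => ?_) j
            · rw [Fin.cons_succ, Fin.snoc_last, Fin.succ_last]
              field_simp
            · simp only [Fin.cons_succ, Fin.snoc_castSucc]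
              field_simp
        have h4 : eval v H = 0 := by
          rw [h3, Pool.Agent.H17.eval_smul_of_isHomogeneous hH, ← hev, hz, Polynomial.map_zero, Polynomial.eval_zero, mul_zero]
        rw [h4, mul_zero]
    exact h0 ((mul_eq_zero.1 h1).resolve_left (X_ne_zero 0))
  obtain ⟨k, hk⟩ : ∃ k, p.coeff k ≠ 0 := by
    by_contra hc
    push Not at hc
    exact hp0 (Polynomial.ext fun k => by rw [hc k, Polynomial.coeff_zero])
  refine ⟨p.coeff k, hk, fun ξ hξ => ?_⟩
  have hq : p.map (eval ξ) ≠ 0 := fun hz => hξ (by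
    have h1 : (p.map (eval ξ)).coeff k = 0 := by rw [hz, Polynomial.coeff_zero]
    rwa [Polynomial.coeff_map] at h1)
  refine (Polynomial.finite_setOfPred_isRoot hq).subset fun y hy => ?_
  change (p.map (eval ξ)).eval y = 0
  rw [hev]
  exact hy

theorem finite_fibre {E : (Fin d → ℂ) → PN N} (hE : AlgDim d E) (a' : Fin (N + 1)) (I : Fin d → Fin (N + 1)) : ∃ R : MvPolynomial (Fin d) ℂ, R ≠ 0 ∧ ∀ ξ, eval ξ R ≠ 0 →
    {p : PN N | ∃ s F, Hl E F s ∧ F s a' = 1 ∧ (∀ i, F s (I i) = ξ i) ∧ p = E s}.Finite := by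
  classical
  choose H n hH0 hHh hHv using fun b : Fin (N + 1) => hE (Fin.cons a' (Fin.snoc I b : Fin (d + 1) → Fin (N + 1)))
  choose R hR0 hR using fun b : Fin (N + 1) => Fib_coeff (hH0 b) (hHh b)
  refine ⟨∏ b, R b, Finset.prod_ne_zero_iff.2 fun b _ => hR0 b, fun ξ hξ => ?_⟩
  rw [map_prod, Finset.prod_ne_zero_iff] at hξ
  have hfin : (Set.pi Set.univ fun b : Fin (N + 1) =>
      {y : ℂ | eval (Fin.cons 1 (Fin.snoc ξ y : Fin (d + 1) → ℂ) : Fin (d + 2) → ℂ) (H b) = 0}).Finite :=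
    Set.Finite.pi fun b => hR b ξ (hξ b (Finset.mem_univ b))
  refine (hfin.image fun y => if h : y ≠ 0 then Projectivization.mk ℂ y h else E 0).subset ?_
  rintro p ⟨s, F, hF, h1, h2, rfl⟩
  obtain ⟨h3, h4⟩ := hF.2.self_of_nhds
  refine ⟨F s, fun b _ => ?_, ?_⟩
  · have h5 := hHv b s
    rw [h4, Pool.Agent.H17.vanishesAt_mk_iff (hHh b).rename_isHomogeneous, eval_rename] at h5
    have h6 : (F s ∘ (Fin.cons a' (Fin.snoc I b : Fin (d + 1) → Fin (N + 1)) : Fin (d + 2) → Fin (N + 1))) =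
        (Fin.cons 1 (Fin.snoc ξ (F s b) : Fin (d + 1) → ℂ) : Fin (d + 2) → ℂ) := by
      funext k
      refine Fin.cases ?_ (fun j => ?_) k
      · simp [h1]
      · refine Fin.lastCases ?_ (fun i => ?_) j
        · simp
        · simp [h2]
    rw [h6] at h5
    exact h5
  · simp only
    rw [dif_pos h3, h4]

end Pool.Agent.GV
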