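import Pool.Agent.GV.Defs
import Pool.Agent.GV.PolB
import Pool.Agent.GV.Cmp
import Pool.Agent.GG.Kcpt

/-!
# GV Sep: over one point there are only finitely many frames

PROOF.  For `t ∈ T` take a representative `F` with `F t = x₀` (`x₀` fixed, `x₀ a = 1`, `F (·) a = 1`) and `u_i (t) = dF_t (e_i) ∈ conTan P x₀`, `u_i a = 0`,
`θ_k (x₀, u_i) = c (e_i) k`.  The set of the `v ∈ conTan P x₀` with `v a = 0`, `θ_k (x₀, v) = c (e_i) k` is compact (`isCompact_Kset`) and discrete (`row_zero`: the map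
`v ↦ (G_l (x₀, v))_l` has an injective derivative there), so it is finite: two different `t ∈ T` have the same `u_i`.
-/

set_option autoImplicit false

open MvPolynomial Topology Filter Metric
open Pool.Agent.H13.SM (conTan cone)
open Pool.Agent.H17 (PN VanishesAt)
open Pool.Agent.H17EF (projVar)
open Pool.Agent.H62.FC (Homog closureIn)
open Pool.Agent.H66.Lang (HolomorphicIntoPN)
open Pool.Agent.GG Pool.Agent.GB

namespace Pool.Agent.GV

variable {N : ℕ} {P Q : Ideal (MvPolynomial (Fin (N + 1)) ℂ)} {J m : ℕ} {θ : Fin J → SymSec P m} {d : ℕ}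

/-- the tangent vectors at a point with given values of the forms -/
private def sepK (θ : Fin J → SymSec P m) (a : Fin (N + 1)) (c : Fin J → ℂ) (x : Fin (N + 1) → ℂ) : Set (Fin (N + 1) → ℂ) :=
  {v | IsTan (m := fun _ => m) θ a c x v}

private theorem sepK_compact (hθ : Polar (m := fun _ => m) θ) (hm : 1 ≤ m) (a : Fin (N + 1)) (c : Fin J → ℂ) {x : Fin (N + 1) → ℂ} (hx : ∀ b, ‖x b‖ ≤ 1) :
    IsCompact (sepK θ a c x) := by
  have h1 : IsCompact (Kset (m := fun _ => m) θ a {c}) := isCompact_Kset hθ (fun _ => hm) a isCompact_singleton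
  have h2 : IsClosed {y : Ph N → ℂ | (fun b => y (Sum.inl b)) = x} :=
    isClosed_eq (continuous_pi fun b => continuous_apply _) continuous_const
  have h3 : Continuous fun y : Ph N → ℂ => fun b : Fin (N + 1) => y (Sum.inr b) := continuous_pi fun b => continuous_apply _
  have h4 : sepK θ a c x = (fun y : Ph N → ℂ => fun b : Fin (N + 1) => y (Sum.inr b)) '' (Kset (m := fun _ => m) θ a {c} ∩ {y : Ph N → ℂ | (fun b => y (Sum.inl b)) = x}) := by
    ext v
    constructor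
    · intro hv
      exact ⟨pt x v, ⟨⟨x, v, c, rfl, hv, hx, rfl⟩, rfl⟩, rfl⟩
    · rintro ⟨y, ⟨⟨x', v', c', rfl, h5, -, h6⟩, h7⟩, rfl⟩
      have h8 : x' = x := h7
      have h9 : c' = c := h6
      subst h8 h9
      exact h5
  rw [h4]
  exact (h1.inter_right h2).image h3

private theorem sep_deriv (p : MvPolynomial (Ph N) ℂ) (x v : Fin (N + 1) → ℂ) :
    HasFDerivAt (fun w : Fin (N + 1) → ℂ => eval (pt x w) p)
      (∑ b, eval (pt x v) (pderiv (Sum.inr b) p) • ContinuousLinearMap.proj (R := ℂ) (φ := fun _ : Fin (N + 1) => ℂ) b) v := by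
  have h1 : AnalyticAt ℂ (fun w : Fin (N + 1) → ℂ => eval (pt x w) p) v := by
    have h2 : AnalyticAt ℂ (fun w : Fin (N + 1) → ℂ => aeval (pt x w) p) v := by
      refine AnalyticAt.aeval_mvPolynomial (fun b => ?_) p
      rcases b with b | b
      · exact analyticAt_const
      · exact (ContinuousLinearMap.proj (R := ℂ) (φ := fun _ : Fin (N + 1) => ℂ) b).analyticAt v
    exact h2
  have h3 := h1.differentiableAt.hasFDerivAt
  have h4 : fderiv ℂ (fun w : Fin (N + 1) → ℂ => eval (pt x w) p) v =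
      ∑ b, eval (pt x v) (pderiv (Sum.inr b) p) • ContinuousLinearMap.proj (R := ℂ) (φ := fun _ : Fin (N + 1) => ℂ) b := by
    ext w
    have h5 := hasDerivAt_evalV p x v w
    have h6 : HasDerivAt (fun t : ℂ => v + t • w) w 0 := by
      have h := ((hasDerivAt_id (0 : ℂ)).smul_const w).const_add v
      simpa using h
    have h7 : HasFDerivAt (fun w : Fin (N + 1) → ℂ => eval (pt x w) p) (fderiv ℂ (fun w : Fin (N + 1) → ℂ => eval (pt x w) p) v) (v + (0 : ℂ) • w) := by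
      rw [zero_smul, add_zero]
      exact h3
    have h8 := h7.comp_hasDerivAt (0 : ℂ) h6
    have h9 := h8.unique h5
    rw [h9]
    simp
  rw [← h4]
  exact h3

private theorem sepK_finite (hθ : Polar (m := fun _ => m) θ) (hm : 1 ≤ m) (f : Frame (m := fun _ => m) θ) (a : Fin (N + 1)) {c : Fin J → ℂ} (hc : c ≠ 0)
    {x : Fin (N + 1) → ℂ} (hx : ∀ b, ‖x b‖ ≤ 1) : (sepK θ a c x).Finite := by
  refine (sepK_compact hθ hm a c hx).finite ?_
  rw [isDiscrete_iff_nhdsNE]
  intro v hv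
  have hv0 : v ≠ 0 := ne_zero_of_isTan (m := fun _ => m) (fun _ => hm) hv hc
  -- the map
  have h1 : HasFDerivAt (fun w : Fin (N + 1) → ℂ => fun l => eval (pt x w) (gfam f a l))
      (ContinuousLinearMap.pi fun l => ∑ b, eval (pt x v) (pderiv (Sum.inr b) (gfam f a l)) • ContinuousLinearMap.proj (R := ℂ) (φ := fun _ : Fin (N + 1) => ℂ) b) v :=
    hasFDerivAt_pi.2 fun l => sep_deriv _ x v
  obtain ⟨D, hD⟩ : ∃ D : (Fin (N + 1) → ℂ) →L[ℂ] ((Unit ⊕ Unit) ⊕ (Fin f.q ⊕ Fin f.q) ⊕ Fin J → ℂ),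
      D = ContinuousLinearMap.pi fun l => ∑ b, eval (pt x v) (pderiv (Sum.inr b) (gfam f a l)) • ContinuousLinearMap.proj (R := ℂ) (φ := fun _ : Fin (N + 1) => ℂ) b := ⟨_, rfl⟩
  rw [← hD] at h1
  have h2 : LinearMap.ker (D : (Fin (N + 1) → ℂ) →ₗ[ℂ] ((Unit ⊕ Unit) ⊕ (Fin f.q ⊕ Fin f.q) ⊕ Fin J → ℂ)) = ⊥ := by
    rw [LinearMap.ker_eq_bot']
    intro w hw
    refine row_zero hθ f hv hv0 w fun l => ?_
    have h3 : D w = 0 := hw
    have h4 := congrFun h3 l
    rw [hD] at h4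
    simpa using h4
  obtain ⟨K, -, hK⟩ := LinearMap.exists_antilipschitzWith (D : (Fin (N + 1) → ℂ) →ₗ[ℂ] ((Unit ⊕ Unit) ⊕ (Fin f.q ⊕ Fin f.q) ⊕ Fin J → ℂ)) h2
  have h5 := h1.eventually_ne (c := fun l => eval (pt x v) (gfam f a l)) ⟨K, hK⟩
  -- the map is constant on the set
  have h6 : ∀ w ∈ sepK θ a c x, (fun l => eval (pt x w) (gfam f a l)) = fun l => eval (pt x v) (gfam f a l) := by
    intro w hw
    have key : ∀ w : Fin (N + 1) → ℂ, IsTan (m := fun _ => m) θ a c x w → ∀ l, eval (pt x w) (gfam f a l) =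
        Sum.elim (Sum.elim (fun _ => (1 : ℂ)) fun _ => 0) (Sum.elim (Sum.elim (fun _ => 0) fun _ => 0) c) l := by
      rintro w ⟨w1, w2, w3, w4, w5⟩ l
      have hQ : ∀ j, f.Q j ∈ P := fun j => by
        have := Ideal.subset_span (s := Set.range f.Q) ⟨j, rfl⟩
        rwa [f.span] at this
      rcases l with (l | l) | (l | l) | l
      · simpa [gfam, pt] using w2
      · simpa [gfam, pt] using w4
      · have := w1.2 _ (hQ l)
        simp only [gfam, Sum.elim_inr, Sum.elim_inl]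
        rw [eval_rename]
        exact this
      · have := w3 _ (hQ l)
        simp only [gfam, Sum.elim_inr, Sum.elim_inl, map_sum, map_mul, eval_rename, eval_X]
        rw [← this]
        exact Finset.sum_congr rfl fun b _ => mul_comm _ _
      · simp only [gfam, Sum.elim_inr]
        rw [← f.hA a l x w1 w2 w w3]
        exact w5 l
    funext l
    rw [key w hw l, key v hv l]
  rw [Filter.inf_principal_eq_bot]
  filter_upwards [h5] with w hw hwS
  exact hw (h6 w hwS)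

/-- normalised representatives -/
private theorem sep_norm {Φ : (Fin d → ℂ) → PN N} {F : (Fin d → ℂ) → Fin (N + 1) → ℂ} {t : Fin d → ℂ} (hF : Hl Φ F t) {a : Fin (N + 1)} (ha : F t a ≠ 0) :
    Hl Φ (fun s => (F s a)⁻¹ • F s) t := by
  have h1 : AnalyticAt ℂ (fun s => F s a) t := (analyticAt_pi_iff.1 hF.1) a
  refine ⟨(h1.inv ha).smul hF.1, ?_⟩
  filter_upwards [hF.2, h1.continuousAt.eventually_ne ha] with s h2 h3
  obtain ⟨h4, h5⟩ := h2
  refine ⟨smul_ne_zero (inv_ne_zero h3) h4, ?_⟩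
  rw [h5, Projectivization.mk_eq_mk_iff']
  exact ⟨F s a, by rw [smul_smul, mul_inv_cancel₀ h3, one_smul]⟩

theorem exists_sameFrame (hP : Homog P) (hθ : Polar (m := fun _ => m) θ) (hm : 1 ≤ m) (f : Frame (m := fun _ => m) θ) {c : (Fin d → ℂ) → Fin J → ℂ} {E : (Fin d → ℂ) → PN N}
    (hE : IsFlat (m := fun _ => m) θ c E) {T : Set (Fin d → ℂ)} (hT : T.Infinite) {p : PN N} (hp : ∀ t ∈ T, E t = p) : ∃ a ∈ T, ∃ b ∈ T, a ≠ b ∧ SameFrame E a b := by
  classical
  -- the largest coordinate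
  obtain ⟨a, ha⟩ : ∃ a, ∀ b, ‖p.rep b‖ ≤ ‖p.rep a‖ := Finite.exists_max fun b => ‖p.rep b‖
  have ha0 : p.rep a ≠ 0 := by
    intro h
    apply p.rep_nonzero
    funext b
    have := ha b
    rw [h, norm_zero] at this
    exact norm_le_zero_iff.1 this
  obtain ⟨x, hxdef⟩ : ∃ x : Fin (N + 1) → ℂ, x = (p.rep a)⁻¹ • p.rep := ⟨_, rfl⟩
  have hxb : ∀ b, ‖x b‖ ≤ 1 := by
    intro b
    rw [hxdef, Pi.smul_apply, smul_eq_mul, norm_mul, norm_inv, inv_mul_le_iff₀ (norm_pos_iff.2 ha0), mul_one]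
    exact ha b
  -- the normalised lifts
  have hlift : ∀ t ∈ T, ∃ F : (Fin d → ℂ) → Fin (N + 1) → ℂ, Hl E F t ∧ F t = x ∧ ∀ w, fderiv ℂ F t w a = 0 := by
    intro t ht
    obtain ⟨F, hF⟩ := hE.hol t
    obtain ⟨h1, h2⟩ := hF.2.self_of_nhds
    have h3 : Projectivization.mk ℂ p.rep p.rep_nonzero = Projectivization.mk ℂ (F t) h1 := by
      rw [Projectivization.mk_rep, ← hp t ht, h2]
    obtain ⟨s, hs⟩ := (Projectivization.mk_eq_mk_iff' ℂ _ _ _ _).1 h3
    have hs0 : s ≠ 0 := by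
      rintro rfl
      rw [zero_smul] at hs
      exact p.rep_nonzero hs.symm
    have hFa : F t a ≠ 0 := by
      intro h
      apply ha0
      rw [← hs, Pi.smul_apply, h, smul_zero]
    have h4 := sep_norm hF hFa
    refine ⟨_, h4, ?_, fun w => ?_⟩
    · show (F t a)⁻¹ • F t = x
      rw [hxdef, ← hs, Pi.smul_apply, smul_smul, smul_eq_mul, mul_inv, mul_assoc, mul_comm (F t a)⁻¹ s, ← mul_assoc, inv_mul_cancel₀ hs0, one_mul]
    · have h5 : AnalyticAt ℂ (fun s => F s a) t := (analyticAt_pi_iff.1 hF.1) a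
      have h6 : (fun s => ((F s a)⁻¹ • F s) a) =ᶠ[𝓝 t] fun _ => (1 : ℂ) := by
        filter_upwards [h5.continuousAt.eventually_ne hFa] with s h7
        rw [Pi.smul_apply, smul_eq_mul, inv_mul_cancel₀ h7]
      have h7 := h4.1.differentiableAt.hasFDerivAt
      have h8 := (hasFDerivAt_pi'.1 h7) a
      have h9 : HasFDerivAt (fun s => ((F s a)⁻¹ • F s) a) (0 : (Fin d → ℂ) →L[ℂ] ℂ) t := (hasFDerivAt_const (1 : ℂ) t).congr_of_eventuallyEq h6
      have h10 := h8.unique h9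
      have h11 := congrArg (fun L : (Fin d → ℂ) →L[ℂ] ℂ => L w) h10
      simpa using h11
  choose! F hF hFx hFa using hlift
  obtain ⟨u, hu⟩ : ∃ u : (Fin d → ℂ) → Fin d → Fin (N + 1) → ℂ, u = fun t i => fderiv ℂ (F t) t (Pi.single i 1) := ⟨_, rfl⟩
  have hmaps : Set.MapsTo u T (Set.univ.pi fun i => sepK θ a (c (Pi.single i 1)) x) := by
    intro t ht i _
    have h1 := hl_cone hP (hF t ht) hE.mem
    obtain ⟨h2, h3⟩ := h1.self_of_nhds
    rw [hFx t ht] at h2 h3
    have h4 := hE.flat t (Pi.single i 1) (F t) (hF t ht)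
    rw [hFx t ht] at h4
    rw [hu]
    refine ⟨h2, ?_, h3 _, hFa t ht _, h4⟩
    rw [hxdef, Pi.smul_apply, smul_eq_mul, inv_mul_cancel₀ ha0]
  have hfin : (Set.univ.pi fun i : Fin d => sepK θ a (c (Pi.single i 1)) x).Finite := by
    refine Set.Finite.pi fun i => ?_
    refine sepK_finite hθ hm f a (hE.ne _ ?_) hxb
    intro h
    have := congrFun h i
    simp at this
  obtain ⟨t, ht, t', ht', hne, heq⟩ := hT.exists_ne_map_eq_of_mapsTo hmaps hfin
  refine ⟨t, ht, t', ht', hne, F t, F t', hF t ht, hF t' ht', by rw [hFx t ht, hFx t' ht'], fun w => ?_⟩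
  have h1 : fderiv ℂ (F t) t = fderiv ℂ (F t') t' := by
    ext1 w
    have h2 : ∀ i, fderiv ℂ (F t) t (Pi.single i 1) = fderiv ℂ (F t') t' (Pi.single i 1) := by
      intro i
      have := congrFun heq i
      rw [hu] at this
      exact this
    have h3 : w = ∑ i, w i • (Pi.single i (1 : ℂ) : Fin d → ℂ) := pi_eq_sum_univ' w
    rw [h3, map_sum, map_sum]
    exact Finset.sum_congr rfl fun i _ => by rw [map_smul, map_smul, h2]
  rw [h1, sub_self]
  exact Submodule.zero_mem _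

end Pool.Agent.GV
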