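import Pool.Agent.GV.Uniq
import Pool.Agent.GV.Sep
import Pool.Agent.GV.Cov
import Pool.Agent.GV.Fib

/-!
# GV Coc: the group of periods is cocompact

PROOF.  If not: there is a sequence `t_n` with `‖t_n - t_m - τ‖ > n` for all `m < n`, `τ ∈ periods E` (otherwise `ℂ^d` is the union of finitely many balls around `t_m`, plus the periods).  `exists_cover` at `t_n`: pass to a subsequence with the same `a'`, `I` and `ξ₀ (n) → ξ_∞`; choose `ξ ∈ ball ξ_∞ (ε / 2)`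
with `R (ξ) ≠ 0` (`finite_fibre`).  For large `n` there is `s_n ∈ ball t_n ρ` with `F s_n a' = 1`, `F s_n (I i) = ξ i`; the points `E s_n` are in a finite set, so `E s_n = p` for infinitely many `n`; the `s_n` are distinct; `exists_sameFrame`, `period_of_sameFrame`: `s_n - s_m` is a period for some `m < n`, arbitrarily
large, so `‖t_n - t_m - τ‖ ≤ 2 ρ`: contradiction.
-/

set_option autoImplicit false

open MvPolynomial Topology Filter Metric
open Pool.Agent.H13.SM (conTan cone)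
open Pool.Agent.H17 (PN VanishesAt)
open Pool.Agent.H17EF (projVar)
open Pool.Agent.H17LG.Variety (FunField ratio IsLogGeneralType)
open Pool.Agent.H62.FC (Homog closureIn)
open Pool.Agent.H66.Lang (HolomorphicIntoPN)
open Pool.Agent.GG Pool.Agent.GB

namespace Pool.Agent.GV

variable {N : ℕ} {P Q : Ideal (MvPolynomial (Fin (N + 1)) ℂ)} {J m : ℕ} {θ : Fin J → SymSec P m} {d : ℕ}

private theorem Coc_nonvan {d : ℕ} {R : MvPolynomial (Fin d) ℂ} (hR : R ≠ 0) (c : Fin d → ℂ) {r : ℝ} (hr : 0 < r) : ∃ ξ ∈ ball c r, eval ξ R ≠ 0 := by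
  by_contra hcon
  push Not at hcon
  apply hR
  refine MvPolynomial.funext_set (fun i => ball (c i) r) (fun i => ?_) (fun x hx => ?_)
  · have h1 : (ball (c i) r).Infinite := by
      have h2 : (ball (c i) r) ∈ 𝓝 (c i) := ball_mem_nhds _ hr
      exact infinite_of_mem_nhds (c i) h2
    exact h1
  · rw [map_zero]
    apply hcon x
    rw [ball_pi _ hr]
    exact hx

/-- the combinatorial core -/
private theorem Coc_core {V : Type*} [NormedAddCommGroup V] {A W S : Type*} [Finite A] [NormedAddCommGroup W] (Λ : AddSubgroup V) {ρ ε : ℝ} (hε : 0 < ε)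
    (hK : TotallyBounded (closedBall (0 : W) 1)) (E : V → S) (Q : V → A → W → Prop)
    (hcov : ∀ t : V, ∃ (a : A) (ξ₀ : W), ‖ξ₀‖ ≤ 1 ∧ ∀ ξ ∈ ball ξ₀ ε, ∃ s ∈ ball t ρ, Q s a ξ)
    (hfin : ∀ (a : A) (c : W) (r : ℝ), 0 < r → ∃ ξ ∈ ball c r, {p : S | ∃ s, Q s a ξ ∧ p = E s}.Finite)
    (hsame : ∀ (T : Set V) (p : S), T.Infinite → (∀ t ∈ T, E t = p) → ∃ a ∈ T, ∃ b ∈ T, a ≠ b ∧ a - b ∈ Λ) :
    ∃ R : ℝ, ∀ t : V, ∃ τ ∈ Λ, ‖t - τ‖ ≤ R := by
  classical
  by_contra hcon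
  push Not at hcon
  -- a separated sequence
  obtain ⟨t, -, ht⟩ := exists_seq_of_forall_finset_exists (fun _ : V => True) (fun x y => ∀ τ ∈ Λ, 2 * ρ < ‖y - x - τ‖) (by
    intro s _
    obtain ⟨y, hy⟩ := hcon (2 * ρ + ∑ x ∈ s, ‖x‖)
    refine ⟨y, trivial, fun x hx τ hτ => ?_⟩
    have h1 := hy τ hτ
    have h2 : ‖x‖ ≤ ∑ x ∈ s, ‖x‖ := Finset.single_le_sum (f := fun x => ‖x‖) (fun i _ => norm_nonneg i) hx
    have h3 : ‖y - τ‖ ≤ ‖y - x - τ‖ + ‖x‖ := by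
      have h4 : y - τ = (y - x - τ) + x := by abel
      calc ‖y - τ‖ = ‖(y - x - τ) + x‖ := by rw [← h4]
        _ ≤ _ := norm_add_le _ _
    linarith)
  -- pigeonhole 1
  choose a ξ₀ hξ₀ hcv using fun n => hcov (t n)
  obtain ⟨Z, hZ, hZc⟩ := Metric.totallyBounded_iff.1 hK (ε / 2) (by positivity)
  have h1 : ∀ n, ∃ z : Z, ξ₀ n ∈ ball (z : W) (ε / 2) := by
    intro n
    have h2 := hZc (mem_closedBall_zero_iff.2 (hξ₀ n))
    obtain ⟨z, hz, h3⟩ := Set.mem_iUnion₂.1 h2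
    exact ⟨⟨z, hz⟩, h3⟩
  choose z hz using h1
  have : Finite Z := hZ
  obtain ⟨⟨a₁, z₁⟩, hinf⟩ := Finite.exists_infinite_fiber (fun n : ℕ => ((a n, z n) : A × Z))
  obtain ⟨ξ, hξ, hfib⟩ := hfin a₁ z₁ (ε / 2) (by positivity)
  let I₁ : Set ℕ := (fun n : ℕ => ((a n, z n) : A × Z)) ⁻¹' {(a₁, z₁)}
  have h2 : ∀ n : I₁, ∃ s ∈ ball (t n) ρ, Q s a₁ ξ := by
    rintro ⟨n, hn⟩
    have hn1 : a n = a₁ ∧ z n = z₁ := by
      have := hn
      rw [Set.mem_preimage, Set.mem_singleton_iff, Prod.mk.injEq] at this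
      exact this
    have h3 : ξ ∈ ball (ξ₀ n) ε := by
      have h4 := hz n
      rw [hn1.2] at h4
      rw [mem_ball] at h4 hξ ⊢
      calc dist ξ (ξ₀ n) ≤ dist ξ z₁ + dist (z₁ : W) (ξ₀ n) := dist_triangle _ _ _
        _ < ε / 2 + ε / 2 := by
          rw [dist_comm (z₁ : W)]
          exact add_lt_add hξ h4
        _ = ε := by ring
    obtain ⟨s, hs, hQ⟩ := hcv n ξ h3
    rw [hn1.1] at hQ
    exact ⟨s, hs, hQ⟩
  choose s hs hQ using h2
  -- pigeonhole 2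
  have : Finite {p : S | ∃ s, Q s a₁ ξ ∧ p = E s} := hfib
  obtain ⟨p, hp⟩ := Finite.exists_infinite_fiber (fun n => (⟨E (s n), s n, hQ n, rfl⟩ : {p : S | ∃ s, Q s a₁ ξ ∧ p = E s}))
  have key : ∀ n m, s n - s m ∈ Λ → n = m := by
    have key' : ∀ n m : I₁, (m : ℕ) < (n : ℕ) → s n - s m ∉ Λ := by
      intro n m hnm hΛ
      have h3 := ht m n hnm _ hΛ
      have h4 := hs n
      have h5 := hs m
      rw [mem_ball, dist_eq_norm] at h4 h5
      have h6 : t n - t m - (s n - s m) = (s m - t m) - (s n - t n) := by abel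
      rw [h6] at h3
      have h7 := norm_sub_le (s m - t m) (s n - t n)
      linarith
    intro n m hΛ
    by_contra hne
    have hne' : (n : ℕ) ≠ m := fun h => hne (Subtype.ext h)
    rcases lt_or_gt_of_ne hne' with h | h
    · refine key' m n h ?_
      have := Λ.neg_mem hΛ
      rwa [neg_sub] at this
    · exact key' n m h hΛ
  have hinj : Function.Injective s := fun n m h => key n m (by rw [h, sub_self]; exact Λ.zero_mem)
  obtain ⟨x, hx, y, hy, hxy, hΛ⟩ := hsame (s '' {n | E (s n) = p}) p (by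
    refine Set.Infinite.image hinj.injOn ?_
    have h3 : {n | E (s n) = p} = (fun n => (⟨E (s n), s n, hQ n, rfl⟩ : {p : S | ∃ s, Q s a₁ ξ ∧ p = E s})) ⁻¹' {p} := by
      ext n
      rw [Set.mem_ofPred_eq, Set.mem_preimage, Set.mem_singleton_iff, Subtype.ext_iff]
    rw [h3]
    exact Set.infinite_coe_iff.1 hp) (by
    rintro _ ⟨n, hn, rfl⟩
    exact hn)
  obtain ⟨n, -, rfl⟩ := hx
  obtain ⟨m, -, rfl⟩ := hy
  exact hxy (by rw [key n m hΛ])

theorem periods_cocompact (hP : Homog P) (hθ : Polar (m := fun _ => m) θ) (hm : 1 ≤ m) (f : Frame (m := fun _ => m) θ) {c : (Fin d → ℂ) → Fin J → ℂ} {E : (Fin d → ℂ) → PN N}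
    (hE : IsFlat (m := fun _ => m) θ c E) (hA : AlgDim d E) : ∃ R : ℝ, ∀ t : Fin d → ℂ, ∃ τ ∈ periods E, ‖t - τ‖ ≤ R := by
  obtain ⟨ρ, -, ε, hε, hcov⟩ := exists_cover hP hθ hm f hE
  refine Coc_core (ρ := ρ) (A := Fin (N + 1) × (Fin d → Fin (N + 1))) (W := Fin d → ℂ) (periods E) hε (isCompact_closedBall _ _).totallyBounded E
    (fun s a ξ => ∃ F, Hl E F s ∧ F s a.1 = 1 ∧ ∀ i, F s (a.2 i) = ξ i) ?_ ?_ ?_
  · intro t
    obtain ⟨a', I, ξ₀, h1, h2⟩ := hcov t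
    exact ⟨(a', I), ξ₀, h1, h2⟩
  · rintro ⟨a', I⟩ c r hr
    obtain ⟨R, hR, h1⟩ := finite_fibre hA a' I
    obtain ⟨ξ, hξ, h2⟩ := Coc_nonvan hR c hr
    refine ⟨ξ, hξ, (h1 ξ h2).subset ?_⟩
    rintro p ⟨s, ⟨F, h3, h4, h5⟩, rfl⟩
    exact ⟨s, F, h3, h4, h5, rfl⟩
  · intro T p hT hp
    obtain ⟨a, ha, b, hb, hab, h1⟩ := exists_sameFrame hP hθ hm f hE hT hp
    exact ⟨a, ha, b, hb, hab, period_of_sameFrame hP hθ hm f hE h1⟩

end Pool.Agent.GV
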