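import Pool.Agent.GV.Defs

/-!
# GV Expo: the exponential map

PROOF.  For `t ≠ 0` the vector `vv e t ≠ 0` is tangent, `exists_row` (GG/Row) gives `K` with `vdet ≠ 0` at `pt x (vv e t)`, so `Crit (gfam f a) K`, `isInit_of_crit`; `exists_curves` (GG/Fam3) for `Y s = pt x (vv e (t + s))` gives `Φ_t` near `s = 0` with
`ArcAt θ (c s) (Φ_t (·, s))` on `ℂ` (at `s = 0`; the same theorem at `t + s`, and `arc_unique`).  Let `g_t` be the entire curve at `t` (`exists_entire`), `E t = g_t (1)`, `E 0 = [x]`; `g_(λ t) (z) = g_t (λ z)` by `arc_unique`.  `hol`: `Φ_t (1, s) = E (t + s)`.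
`init`: normalise the representative of `(z, s) ↦ E (z • s)` by the coordinate `a`: at `(0, s)` it is `x`, with the `z`-derivative `vv e s` (coordinate `a` is `0`), by `exists_curves` at `s`.
-/

set_option autoImplicit false

open MvPolynomial Topology Filter Metric
open Pool.Agent.H13.SM (conTan cone)
open Pool.Agent.H17 (PN VanishesAt)
open Pool.Agent.H17EF (projVar)
open Pool.Agent.H17LG.Variety (FunField ratio IsLogGeneralType)
open Pool.Agent.H62.FC (Homog closureIn)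
open Pool.Agent.H66.Lang (HolomorphicIntoPN)
open Pool.Agent.GG Pool.Agent.GB

namespace Pool.Agent.GV

section Aux

variable {N : ℕ} {P : Ideal (MvPolynomial (Fin (N + 1)) ℂ)} {J : ℕ} {m : Fin J → ℕ} {θ : ∀ k, SymSec P (m k)}

/-- `g` is an entire arc with the initial vector `(x, v)` in the chart `x_a = 1` -/
private def Expo_ini (θ : ∀ k, SymSec P (m k)) (a : Fin (N + 1)) (x v : Fin (N + 1) → ℂ) (g : ℂ → PN N) : Prop :=
  ∃ (c : Fin J → ℂ) (y : ℂ → Fin (N + 1) → ℂ), (∀ z, ArcAt θ c g z) ∧ NArc θ a c y 0 ∧ Rep g y 0 ∧ y 0 = x ∧ deriv y 0 = v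

/-- the lifts with the same initial vector agree -/
private theorem Expo_lift (hθ : Polar θ) (f : Frame θ) {a : Fin (N + 1)} {c c' : Fin J → ℂ} {y y' : ℂ → Fin (N + 1) → ℂ}
    (hy : NArc θ a c y 0) (hy' : NArc θ a c' y' 0) (h0 : y 0 = y' 0) (h1 : deriv y 0 = deriv y' 0) (hv : deriv y 0 ≠ 0) : y =ᶠ[𝓝 0] y' := by
  obtain ⟨hV, hT⟩ := arcV_of_nArc f hy
  obtain ⟨hV', -⟩ := arcV_of_nArc f hy'
  obtain ⟨I, hI⟩ := exists_row hθ f hT hv
  obtain ⟨r, hr, K, H, hH⟩ := exists_Flow hI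
  have h2 := hH.uniq y 0 hV (mem_ball_self hr)
  have h3 : pt (y' 0) (deriv y' 0) ∈ ball (pt (y 0) (deriv y 0)) r := by
    rw [← h0, ← h1]
    exact mem_ball_self hr
  have h4 := hH.uniq y' 0 hV' h3
  filter_upwards [h2, h4] with s hs hs'
  rw [hs, hs', h0, h1]

private theorem Expo_unique (hθ : Polar θ) (f : Frame θ) {a : Fin (N + 1)} {x v : Fin (N + 1) → ℂ} (hv : v ≠ 0) {g g' : ℂ → PN N}
    (h : Expo_ini θ a x v g) (h' : Expo_ini θ a x v g') (z : ℂ) : g z = g' z := by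
  obtain ⟨c, y, hA, hN, hR, h0, h1⟩ := h
  obtain ⟨c', y', hA', hN', hR', h0', h1'⟩ := h'
  have h2 := Expo_lift hθ f hN hN' (h0.trans h0'.symm) (h1.trans h1'.symm) (by rw [h1]; exact hv)
  refine arc_unique (θ := θ) (c := c) (c' := c') isOpen_univ isPreconnected_univ (fun z _ => hA z) (fun z _ => hA' z) (Set.mem_univ (0 : ℂ)) ?_ z
    (Set.mem_univ z)
  filter_upwards [hR, hR', h2] with w hw hw' he
  obtain ⟨h3, h4⟩ := hw
  obtain ⟨h5, h6⟩ := hw'
  rw [h4, h6]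
  simp only [he]

private theorem Expo_tendsto (l z : ℂ) : Tendsto (fun w : ℂ => l * w) (𝓝 z) (𝓝 (l * z)) := by
  have : ContinuousAt (fun w : ℂ => l * w) z := by fun_prop
  exact this

private theorem Expo_deriv (F : ℂ → Fin (N + 1) → ℂ) (l w : ℂ) : deriv (fun w => F (l * w)) w = l • deriv F (l * w) :=
  deriv_comp_mul_left l F w

private theorem Expo_an {F : ℂ → Fin (N + 1) → ℂ} {l z : ℂ} (h : AnalyticAt ℂ F (l * z)) : AnalyticAt ℂ (fun w => F (l * w)) z :=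
  AnalyticAt.fun_comp (f := fun s : ℂ => l * s) (g := F) h (by fun_prop)

/-- scaling of the time -/
private theorem Expo_scale {a : Fin (N + 1)} {x v : Fin (N + 1) → ℂ} {g : ℂ → PN N} (h : Expo_ini θ a x v g) (l : ℂ) :
    Expo_ini θ a x (l • v) fun w => g (l * w) := by
  obtain ⟨c, y, hA, hN, hR, h0, h1⟩ := h
  refine ⟨fun k => l ^ m k * c k, fun w => y (l * w), ?_, ?_, ?_, ?_, ?_⟩
  · intro z
    obtain ⟨F, hF, hr, hc⟩ := hA (l * z)
    refine ⟨fun w => F (l * w), Expo_an hF, (Expo_tendsto l z).eventually hr, ?_⟩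
    filter_upwards [(Expo_tendsto l z).eventually hc.eventually_nhds, (Expo_tendsto l z).eventually hF.eventually_analyticAt] with w hw hwa
    refine ⟨hw.self_of_nhds.1, fun k => ?_⟩
    rw [Expo_deriv, (θ k).smul _ hw.self_of_nhds.1 _ (Chart_tan hwa.differentiableAt (hw.mono fun s hs => hs.1)), hw.self_of_nhds.2 k]
  · have hF : AnalyticAt ℂ y (l * 0) := by
      rw [mul_zero]
      exact hN.1
    have hc : ∀ᶠ w in 𝓝 (l * 0), y w ∈ cone P ∧ y w a = 1 ∧ ∀ k, (θ k).toFun (y w) (deriv y w) = c k := by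
      rw [mul_zero]
      exact hN.2
    refine ⟨Expo_an hF, ?_⟩
    filter_upwards [(Expo_tendsto l 0).eventually hc.eventually_nhds, (Expo_tendsto l 0).eventually hF.eventually_analyticAt] with w hw hwa
    refine ⟨hw.self_of_nhds.1, hw.self_of_nhds.2.1, fun k => ?_⟩
    rw [Expo_deriv, (θ k).smul _ hw.self_of_nhds.1 _ (Chart_tan hwa.differentiableAt (hw.mono fun s hs => hs.1)), hw.self_of_nhds.2.2 k]
  · have hr : Rep g y (l * 0) := by
      rw [mul_zero]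
      exact hR
    exact (Expo_tendsto l 0).eventually hr
  · simp only [mul_zero]
    exact h0
  · rw [Expo_deriv, mul_zero, h1]

/-- the constants are the values at the initial vector -/
private theorem Expo_const (f : Frame θ) {a : Fin (N + 1)} {x v : Fin (N + 1) → ℂ} {g : ℂ → PN N} (h : Expo_ini θ a x v g) (z : ℂ) :
    ArcAt θ (fun k => (θ k).toFun x v) g z := by
  obtain ⟨c, y, hA, hN, hR, h0, h1⟩ := h
  have hT := (arcV_of_nArc f hN).2
  have : (fun k => (θ k).toFun x v) = c := by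
    funext k
    rw [← h0, ← h1]
    exact hT.2.2.2.2 k
  rw [this]
  exact hA z

/-- the initial value -/
private theorem Expo_zero {a : Fin (N + 1)} {x v : Fin (N + 1) → ℂ} {g : ℂ → PN N} (h : Expo_ini θ a x v g) (hx : x ≠ 0) :
    g 0 = Projectivization.mk ℂ x hx := by
  obtain ⟨c, y, hA, hN, hR, h0, h1⟩ := h
  obtain ⟨h2, h3⟩ := hR.self_of_nhds
  rw [h3]
  simp only [h0]

/-- the family of entire curves, with the initial vectors for all parameters near `0` -/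
private theorem Expo_curves (hP : Homog P) (hθ : Polar θ) (hm : ∀ k, 1 ≤ m k) (f : Frame θ) {d : ℕ} {a : Fin (N + 1)} {Y : (Fin d → ℂ) → Ph N → ℂ}
    (hY : AnalyticAt ℂ Y 0) (hI : ∀ᶠ s in 𝓝 (0 : Fin d → ℂ), ∃ x v c, Y s = pt x v ∧ IsTan θ a c x v ∧ c ≠ 0 ∧ IsInit (gfam f a) (Y s)) :
    ∃ (Φ : ℂ × (Fin d → ℂ) → PN N), (∀ z, ∃ F, RepN P Φ F (z, 0)) ∧
      ∀ᶠ s in 𝓝 (0 : Fin d → ℂ), Expo_ini θ a (fun b => Y s (Sum.inl b)) (fun b => Y s (Sum.inr b)) fun w => Φ (w, s) := by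
  obtain ⟨Φ, c, hc, hΦ, hFam⟩ := exists_Phi hP hθ hm f hY hI
  obtain ⟨⟨a₁, Y₁, hF₁, hb₁⟩, hlift⟩ := fam_start hP hθ hm f hc hΦ hFam
  obtain ⟨r, hr, K, hU⟩ := unif hθ hm f (isCompact_singleton (x := c 0)) (fun h => hc (Set.mem_singleton_iff.1 h).symm)
  obtain ⟨K', hK', hstep⟩ := fam_step hP f hr hU
  have step := hstep d Φ c (Set.mem_singleton _) hΦ
  have ind : ∀ (k : ℕ) (z : ℂ), ‖z‖ ≤ k * (r / 2) → ∃ (a' : Fin (N + 1)) (Y' : (Fin d → ℂ) → Ph N → ℂ),
      FamAt θ Φ a' Y' z ∧ ∀ b, ‖Y' 0 (Sum.inl b)‖ ≤ 1 := by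
    intro k
    induction k with
    | zero =>
      intro z hz
      have hz0 : z = 0 := by
        rw [← norm_le_zero_iff]
        simpa using hz
      subst hz0
      exact ⟨a₁, Y₁, hF₁, hb₁⟩
    | succ k ih =>
      intro z hz
      have hk1 : (0 : ℝ) < k + 1 := by positivity
      have hz' : ‖z‖ ≤ (k + 1) * (r / 2) := by
        rw [Nat.cast_add_one] at hz
        exact hz
      obtain ⟨a₂, Y₂, hF₂, hb₂⟩ := ih (((k / (k + 1) : ℝ) : ℂ) * z) (by
        rw [norm_mul, Complex.norm_real, Real.norm_of_nonneg (by positivity)]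
        calc (k / (k + 1) : ℝ) * ‖z‖ ≤ (k / (k + 1) : ℝ) * ((k + 1) * (r / 2)) := by
              apply mul_le_mul_of_nonneg_left hz' (by positivity)
          _ = k * (r / 2) := by field_simp)
      obtain ⟨-, a₃, Y₃, hF₃, hb₃, -⟩ := step _ a₂ Y₂ hF₂ hb₂ z (by
        have h1 : z - ((k / (k + 1) : ℝ) : ℂ) * z = ((1 / (k + 1) : ℝ) : ℂ) * z := by
          have h2 : ((1 / (k + 1) : ℝ) : ℂ) = 1 - ((k / (k + 1) : ℝ) : ℂ) := by
            rw [← Complex.ofReal_one, ← Complex.ofReal_sub]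
            congr 1
            field_simp
            ring
          rw [h2]
          ring
        rw [h1, norm_mul, Complex.norm_real, Real.norm_of_nonneg (by positivity)]
        calc (1 / (k + 1) : ℝ) * ‖z‖ ≤ (1 / (k + 1) : ℝ) * ((k + 1) * (r / 2)) := by
              apply mul_le_mul_of_nonneg_left hz' (by positivity)
          _ = r / 2 := by field_simp
          _ < r := by linarith)
      exact ⟨a₃, Y₃, hF₃, hb₃⟩
  have hk : ∀ z : ℂ, ‖z‖ ≤ (⌈‖z‖ / (r / 2)⌉₊ : ℝ) * (r / 2) := by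
    intro z
    have h1 := Nat.le_ceil (‖z‖ / (r / 2))
    rwa [div_le_iff₀ (by positivity)] at h1
  refine ⟨Φ, fun z => ?_, ?_⟩
  · obtain ⟨a', Y', hF', hb'⟩ := ind _ z (hk z)
    exact (step z a' Y' hF' hb' z (by simpa using hr)).1
  · filter_upwards [hFam.2] with s hs
    obtain ⟨c', y, hN, hR, hYs⟩ := hs
    refine ⟨c s, y, hΦ s, ?_, hR, ?_, ?_⟩
    · -- the constants agree
      have h1 := (nArc_of_lift (a := a) hP (hΦ s 0) hN.1 hR (by
        rw [hN.2.self_of_nhds.2.1]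
        exact one_ne_zero)).1
      have h2 : (fun w => (y w a)⁻¹ • y w) =ᶠ[𝓝 0] y := by
        filter_upwards [hN.2] with w hw
        rw [hw.2.1, inv_one, one_smul]
      refine ⟨hN.1, ?_⟩
      filter_upwards [h1.2, h2.eventuallyEq_nhds] with w hw hw'
      have h3 : (y w a)⁻¹ • y w = y w := hw'.self_of_nhds
      rw [hw'.deriv_eq, h3] at hw
      exact hw
    · funext b
      rw [hYs]
      rfl
    · funext b
      rw [hYs]
      rfl

end Aux

variable {N : ℕ} {P Q : Ideal (MvPolynomial (Fin (N + 1)) ℂ)} {J m : ℕ} {θ : Fin J → SymSec P m} {d : ℕ}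

private theorem Expo_vv_an (e : Fin d → Fin (N + 1) → ℂ) (t s : Fin d → ℂ) : AnalyticAt ℂ (fun s => vv e (t + s)) s := by
  unfold vv
  have h1 : ∀ j : Fin d, AnalyticAt ℂ (fun s : Fin d → ℂ => (t + s) j • e j) s := by
    intro j
    have h2 : AnalyticAt ℂ (fun s : Fin d → ℂ => (t + s) j) s := by
      have h3 : (fun s : Fin d → ℂ => (t + s) j) = fun s => t j + (ContinuousLinearMap.proj (R := ℂ) (φ := fun _ : Fin d => ℂ) j) s := by
        funext s
        rfl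
      rw [h3]
      exact analyticAt_const.add (ContinuousLinearMap.analyticAt _ _)
    exact h2.smul analyticAt_const
  exact Finset.analyticAt_fun_sum _ fun j _ => h1 j

theorem exists_exp (hP : Homog P) (hθ : Polar (m := fun _ => m) θ) (hm : 1 ≤ m) (f : Frame (m := fun _ => m) θ) {a : Fin (N + 1)} {x : Fin (N + 1) → ℂ}
    {e : Fin d → Fin (N + 1) → ℂ} (hx : x ∈ cone P) (hxa : x a = 1) (he : ∀ j, e j ∈ conTan P x) (hea : ∀ j, e j a = 0) (hli : LinearIndependent ℂ e)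
    (hcr : ∀ (t : Fin d → ℂ) (K : Fin (N + 1) → (Unit ⊕ Unit) ⊕ (Fin f.q ⊕ Fin f.q) ⊕ Fin J) l n,
      eval (pt x (vv e t)) ((⇑(Dt (gfam f a) K))^[n + 1] (gfam f a l)) = 0) :
    ∃ E, IsExp (m := fun _ => m) θ x e E := by
  classical
  have hv : ∀ t : Fin d → ℂ, t ≠ 0 → vv e t ≠ 0 := by
    intro t ht h0
    exact ht (funext (Fintype.linearIndependent_iff.1 hli t h0))
  have hvT : ∀ t : Fin d → ℂ, vv e t ∈ conTan P x := fun t => Submodule.sum_mem _ fun j _ => Submodule.smul_mem _ _ (he j)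
  have hva : ∀ t : Fin d → ℂ, vv e t a = 0 := by
    intro t
    simp [vv, Finset.sum_apply, hea]
  have hvl : ∀ (l : ℂ) (t : Fin d → ℂ), vv e (l • t) = l • vv e t := by
    intro l t
    simp only [vv, Finset.smul_sum, Pi.smul_apply, smul_eq_mul, mul_smul]
  have hT : ∀ t : Fin d → ℂ, IsTan (m := fun _ => m) θ a (fun k => (θ k).toFun x (vv e t)) x (vv e t) :=
    fun t => ⟨hx, hxa, hvT t, hva t, fun k => rfl⟩
  have hc0 : ∀ t : Fin d → ℂ, t ≠ 0 → (fun k => (θ k).toFun x (vv e t)) ≠ 0 := by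
    intro t ht h0
    have h1 := hT t
    rw [h0] at h1
    obtain ⟨r, hr⟩ := Submodule.mem_span_singleton.1 (no_common_zero hθ (fun _ => hm) h1.1 h1.2.2.1 h1.2.2.2.2)
    have h5 : r * x a = vv e t a := congrFun hr a
    rw [hxa, hva, mul_one] at h5
    rw [h5, zero_smul] at hr
    exact hv t ht hr.symm
  have hI : ∀ t : Fin d → ℂ, t ≠ 0 → IsInit (gfam f a) (pt x (vv e t)) := by
    intro t ht
    obtain ⟨K, hK⟩ := exists_row hθ f (hT t) (hv t ht)
    exact isInit_of_crit ⟨hK, fun l n => hcr t K l n⟩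
  have key : ∀ t : Fin d → ℂ, t ≠ 0 → ∃ Φ : ℂ × (Fin d → ℂ) → PN N, (∀ z, ∃ F, RepN P Φ F (z, 0)) ∧
      ∀ᶠ s in 𝓝 (0 : Fin d → ℂ), Expo_ini (m := fun _ => m) θ a x (vv e (t + s)) fun w => Φ (w, s) := by
    intro t ht
    have hne : ∀ᶠ s in 𝓝 (0 : Fin d → ℂ), t + s ≠ 0 := by
      have h1 : ContinuousAt (fun s : Fin d → ℂ => t + s) 0 := by fun_prop
      exact h1.eventually_ne (by simpa using ht)
    have hY : AnalyticAt ℂ (fun s : Fin d → ℂ => (pt x (vv e (t + s)) : Ph N → ℂ)) 0 := by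
      rw [analyticAt_pi_iff]
      rintro (b | b)
      · exact analyticAt_const
      · exact analyticAt_pi_iff.1 (Expo_vv_an e t 0) b
    obtain ⟨Φ, h1, h2⟩ := Expo_curves hP hθ (fun _ => hm) f (a := a) hY (by
      filter_upwards [hne] with s hs
      exact ⟨x, vv e (t + s), _, rfl, hT _, hc0 _ hs, hI _ hs⟩)
    exact ⟨Φ, h1, h2⟩
  have hgex : ∀ t : Fin d → ℂ, ∃ g : ℂ → PN N, t ≠ 0 → Expo_ini (m := fun _ => m) θ a x (vv e t) g := by
    intro t
    by_cases ht : t = 0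
    · exact ⟨fun _ => Projectivization.mk ℂ x hx.1, fun h => absurd ht h⟩
    · obtain ⟨Φ, -, h2⟩ := key t ht
      refine ⟨fun w => Φ (w, 0), fun _ => ?_⟩
      have h3 := h2.self_of_nhds
      rwa [add_zero] at h3
  choose g hg using hgex
  obtain ⟨E, hE⟩ : ∃ E : (Fin d → ℂ) → PN N, E = fun t => if t = 0 then Projectivization.mk ℂ x hx.1 else g t 1 := ⟨_, rfl⟩
  have hE0 : E 0 = Projectivization.mk ℂ x hx.1 := by
    rw [hE]
    simp
  have hE1 : ∀ t : Fin d → ℂ, t ≠ 0 → E t = g t 1 := by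
    intro t ht
    rw [hE]
    simp [ht]
  have hEg : ∀ t : Fin d → ℂ, t ≠ 0 → ∀ g' : ℂ → PN N, Expo_ini (m := fun _ => m) θ a x (vv e t) g' → ∀ w : ℂ, E (w • t) = g' w := by
    intro t ht g' hg' w
    by_cases hw : w = 0
    · rw [hw, zero_smul, hE0, Expo_zero hg' hx.1]
    · have hwt : w • t ≠ 0 := smul_ne_zero hw ht
      rw [hE1 _ hwt]
      have h1 := Expo_scale hg' w
      rw [← hvl] at h1
      have h2 := Expo_unique hθ f (hv _ hwt) (hg _ hwt) h1 1
      rw [h2, mul_one]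
  refine ⟨E, ⟨hx.1, hE0⟩, ?_, ?_, ?_⟩
  · intro t ht z
    have h1 : (fun w : ℂ => E (w • t)) = g t := funext fun w => hEg t ht _ (hg t ht) w
    rw [h1]
    exact Expo_const f (hg t ht) z
  · intro t ht
    obtain ⟨Φ, h1, h2⟩ := key t ht
    obtain ⟨F, hF, hFr⟩ := h1 1
    have hne : ∀ᶠ u in 𝓝 t, u ≠ 0 := eventually_ne_nhds ht
    have hsub : Tendsto (fun u : Fin d → ℂ => u - t) (𝓝 t) (𝓝 0) := by
      have h3 : ContinuousAt (fun u : Fin d → ℂ => u - t) t := by fun_prop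
      have h4 := h3.tendsto
      rwa [sub_self] at h4
    have hsub1 : Tendsto (fun u : Fin d → ℂ => ((1 : ℂ), u - t)) (𝓝 t) (𝓝 ((1 : ℂ), (0 : Fin d → ℂ))) := by
      rw [nhds_prod_eq]
      exact tendsto_const_nhds.prodMk hsub
    refine ⟨fun u => F (1, u - t), ?_, ?_⟩
    · have h3 : AnalyticAt ℂ (fun u : Fin d → ℂ => ((1 : ℂ), u - t)) t := analyticAt_const.prod (analyticAt_id.sub analyticAt_const)
      exact AnalyticAt.comp_of_eq (g := F) (f := fun u : Fin d → ℂ => ((1 : ℂ), u - t)) hF h3 (by simp)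
    · filter_upwards [hsub1.eventually hFr, hsub.eventually h2, hne] with u hu hu2 hu3
      obtain ⟨-, h3, h4⟩ := hu
      refine ⟨h3, ?_⟩
      rw [← h4]
      have h5 : t + (u - t) = u := by abel
      rw [h5] at hu2
      have h6 := hEg u hu3 _ hu2 1
      rwa [one_smul] at h6
  · intro t ht
    obtain ⟨Φ, h1, h2⟩ := key t ht
    obtain ⟨F, hF, hFr⟩ := h1 0
    have hne : ∀ᶠ u in 𝓝 t, u ≠ 0 := eventually_ne_nhds ht
    have hsub : Tendsto (fun u : Fin d → ℂ => u - t) (𝓝 t) (𝓝 0) := by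
      have h3 : ContinuousAt (fun u : Fin d → ℂ => u - t) t := by fun_prop
      have h4 := h3.tendsto
      rwa [sub_self] at h4
    -- the shifted representative
    obtain ⟨F₁, hF₁⟩ : ∃ F₁ : ℂ × (Fin d → ℂ) → Fin (N + 1) → ℂ, F₁ = fun p => F (p.1, p.2 - t) := ⟨_, rfl⟩
    have hF₁a : AnalyticAt ℂ F₁ (0, t) := by
      have h3 : AnalyticAt ℂ (fun p : ℂ × (Fin d → ℂ) => (p.1, p.2 - t)) (0, t) := analyticAt_fst.prod (analyticAt_snd.sub analyticAt_const)
      rw [hF₁]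
      exact AnalyticAt.comp_of_eq (g := F) (f := fun p : ℂ × (Fin d → ℂ) => (p.1, p.2 - t)) hF h3 (by simp)
    have hsnd : Tendsto (fun p : ℂ × (Fin d → ℂ) => p.2) (𝓝 ((0 : ℂ), t)) (𝓝 t) := continuousAt_snd
    have hshift : Tendsto (fun p : ℂ × (Fin d → ℂ) => (p.1, p.2 - t)) (𝓝 ((0 : ℂ), t)) (𝓝 ((0 : ℂ), (0 : Fin d → ℂ))) := by
      have h3 : ContinuousAt (fun p : ℂ × (Fin d → ℂ) => (p.1, p.2 - t)) (0, t) := by fun_prop
      have h4 := h3.tendsto
      simp only [sub_self] at h4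
      exact h4
    have hF₁r : ∀ᶠ p in 𝓝 ((0 : ℂ), t), ∃ h : F₁ p ≠ 0, E (p.1 • p.2) = Projectivization.mk ℂ (F₁ p) h := by
      filter_upwards [hshift.eventually hFr, hsnd.eventually (hsub.eventually h2), hsnd.eventually hne] with p hp hp2 hp3
      obtain ⟨-, h3, h4⟩ := hp
      have h5 : t + (p.2 - t) = p.2 := by abel
      rw [h5] at hp2
      rw [hF₁]
      refine ⟨h3, ?_⟩
      rw [← h4]
      exact hEg p.2 hp3 _ hp2 p.1
    have hF₁0 : F₁ (0, t) a ≠ 0 := by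
      obtain ⟨h3, h4⟩ := hF₁r.self_of_nhds
      intro h5
      simp only [zero_smul] at h4
      rw [hE0, Projectivization.mk_eq_mk_iff'] at h4
      obtain ⟨r, hr⟩ := h4
      have h6 := congrFun hr a
      rw [Pi.smul_apply, h5, smul_zero, hxa] at h6
      exact zero_ne_one h6
    have hF₁c : AnalyticAt ℂ (fun p => F₁ p a) (0, t) := (analyticAt_pi_iff.1 hF₁a) a
    have hane : ∀ᶠ p in 𝓝 ((0 : ℂ), t), F₁ p a ≠ 0 := hF₁c.continuousAt.eventually_ne hF₁0
    obtain ⟨G, hG⟩ : ∃ G : ℂ × (Fin d → ℂ) → Fin (N + 1) → ℂ, G = fun p => (F₁ p a)⁻¹ • F₁ p := ⟨_, rfl⟩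
    have hGa : AnalyticAt ℂ G (0, t) := by
      rw [hG]
      exact (hF₁c.inv hF₁0).smul hF₁a
    have hGr : ∀ᶠ p in 𝓝 ((0 : ℂ), t), G p a = 1 ∧ ∃ h : G p ≠ 0, E (p.1 • p.2) = Projectivization.mk ℂ (G p) h := by
      filter_upwards [hF₁r, hane] with p hp hpa
      obtain ⟨h3, h4⟩ := hp
      rw [hG]
      refine ⟨?_, smul_ne_zero (inv_ne_zero hpa) h3, ?_⟩
      · exact inv_mul_cancel₀ hpa
      · rw [h4, Projectivization.mk_eq_mk_iff']
        exact ⟨F₁ p a, by rw [smul_inv_smul₀ hpa]⟩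
    refine ⟨G, ⟨hGa, hGr.mono fun p hp => hp.2⟩, ?_⟩
    have hinc : Tendsto (fun s : Fin d → ℂ => ((0 : ℂ), s)) (𝓝 t) (𝓝 ((0 : ℂ), t)) := by
      have h3 : ContinuousAt (fun s : Fin d → ℂ => ((0 : ℂ), s)) t := by fun_prop
      exact h3.tendsto
    filter_upwards [hinc.eventually hGr.eventually_nhds, hinc.eventually hGa.eventually_analyticAt, hne] with s hs hsa hs0
    have hpar : Tendsto (fun w : ℂ => (w, s)) (𝓝 0) (𝓝 ((0 : ℂ), s)) := by
      have h3 : ContinuousAt (fun w : ℂ => (w, s)) 0 := by fun_prop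
      exact h3.tendsto
    obtain ⟨c, y, hA, hN, hR, hy0, hy1⟩ := hg s hs0
    have heq : (fun w : ℂ => G (w, s)) =ᶠ[𝓝 0] y := by
      filter_upwards [hpar.eventually hs, hR, hN.2] with w hw hw1 hw2
      obtain ⟨h3, h4, h5⟩ := hw
      obtain ⟨h6, h7⟩ := hw1
      rw [hEg s hs0 _ (hg s hs0) w, h7, Projectivization.mk_eq_mk_iff'] at h5
      obtain ⟨r, hr⟩ := h5
      have h8 := congrFun hr a
      rw [Pi.smul_apply, h3, hw2.2.1, smul_eq_mul, mul_one] at h8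
      rw [h8, one_smul] at hr
      exact hr
    refine ⟨?_, ?_⟩
    · have h3 := heq.self_of_nhds
      rw [hy0] at h3
      exact h3
    · have h3 : HasFDerivAt G (fderiv ℂ G (0, s)) (0, s) := hsa.differentiableAt.hasFDerivAt
      have h4 : HasDerivAt (fun w : ℂ => (w, s)) ((1 : ℂ), (0 : Fin d → ℂ)) 0 := (hasDerivAt_id (0 : ℂ)).prodMk (hasDerivAt_const (0 : ℂ) s)
      have h5 : HasDerivAt (fun w : ℂ => G (w, s)) (fderiv ℂ G (0, s) (1, 0)) 0 := HasFDerivAt.comp_hasDerivAt (0 : ℂ) h3 h4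
      rw [← h5.deriv, heq.deriv_eq, hy1]

end Pool.Agent.GV
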