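import Pool.Agent.GV.PolA
import Pool.Agent.TN.Osg

/-!
# GV Ext0: the exponential map is holomorphic at `0`

`Y t` is the representative of `E t` with the coordinate `a` equal to `1`.  By `init` and the compactness of the unit sphere it is defined and bounded on a ball
with the centre `0`; it is holomorphic at the points `t ≠ 0` of the ball, and its restrictions to the lines through `0` are holomorphic at `0` (`init`).
By the theorem of Osgood it is holomorphic at `0`.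
-/

set_option autoImplicit false

open MvPolynomial Topology Filter Metric
open Pool.Agent.H13.SM (conTan cone)
open Pool.Agent.H17 (PN VanishesAt)
open Pool.Agent.H17EF (projVar)
open Pool.Agent.H17LG.Variety (FunField ratio IsLogGeneralType)
open Pool.Agent.H62.FC (Homog closureIn)
open Pool.Agent.H66.Lang (HolomorphicIntoPN)
open Pool.Agent.GG Pool.Agent.GB

namespace Pool.Agent.GV

variable {N : ℕ} {P Q : Ideal (MvPolynomial (Fin (N + 1)) ℂ)} {J m : ℕ} {θ : Fin J → SymSec P m} {d : ℕ}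

private theorem ext0_mk {v : Fin (N + 1) → ℂ} (hv : v ≠ 0) (a : Fin (N + 1)) :
    ((Projectivization.mk ℂ v hv).rep a)⁻¹ • (Projectivization.mk ℂ v hv).rep = (v a)⁻¹ • v ∧
      (v a ≠ 0 → (Projectivization.mk ℂ v hv).rep a ≠ 0) ∧ ((Projectivization.mk ℂ v hv).rep a ≠ 0 → v a ≠ 0) := by
  obtain ⟨c, hc⟩ := Projectivization.exists_smul_eq_mk_rep ℂ v hv
  have hc' : (Projectivization.mk ℂ v hv).rep = (c : ℂ) • v := by rw [← hc]; rfl
  have hc0 : (c : ℂ) ≠ 0 := c.ne_zero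
  refine ⟨?_, ?_, ?_⟩
  · rw [hc', Pi.smul_apply, smul_eq_mul, smul_smul, mul_inv, mul_comm (c : ℂ)⁻¹, mul_assoc, inv_mul_cancel₀ hc0, mul_one]
  · intro h
    rw [hc', Pi.smul_apply, smul_eq_mul]
    exact mul_ne_zero hc0 h
  · intro h
    rw [hc', Pi.smul_apply, smul_eq_mul] at h
    exact right_ne_zero_of_mul h

private theorem ext0_an {V : Type*} [NormedAddCommGroup V] [NormedSpace ℂ V] {F : V → Fin (N + 1) → ℂ} {q : V} (hF : AnalyticAt ℂ F q) {a : Fin (N + 1)}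
    (ha : F q a ≠ 0) : AnalyticAt ℂ (fun p => (F p a)⁻¹ • F p) q := by
  have h1 : AnalyticAt ℂ (fun p => F p a) q := (ContinuousLinearMap.proj (R := ℂ) (φ := fun _ : Fin (N + 1) => ℂ) a).analyticAt _ |>.comp hF
  exact (h1.inv ha).smul hF

theorem exp_hol0 (hd : 1 ≤ d) (hθ : Polar (m := fun _ => m) θ) {a : Fin (N + 1)} {x : Fin (N + 1) → ℂ} {e : Fin d → Fin (N + 1) → ℂ} (hxa : x a = 1) (hea : ∀ j, e j a = 0)
    {E : (Fin d → ℂ) → PN N} (hE : IsExp (m := fun _ => m) θ x e E) {C : ℝ} (hC : ∀ t : Fin d → ℂ, t ≠ 0 → ∀ w F, Hl E F t → wl (F t) (fderiv ℂ F t w) ≤ C * ‖w‖) :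
    ∃ F, Hl E F 0 ∧ F 0 = x ∧ ∀ w, fderiv ℂ F 0 w = vv e w := by
  have _ := hd
  have _ := hθ
  have _ := hC
  set Y : (Fin d → ℂ) → Fin (N + 1) → ℂ := fun t => ((E t).rep a)⁻¹ • (E t).rep with hY
  have hrep : ∀ (t : Fin d → ℂ) (v : Fin (N + 1) → ℂ) (hv : v ≠ 0), E t = Projectivization.mk ℂ v hv → v a ≠ 0 →
      (E t).rep a ≠ 0 ∧ Y t = (v a)⁻¹ • v := by
    intro t v hv h1 h2
    have h3 := ext0_mk hv a
    refine ⟨by rw [h1]; exact h3.2.1 h2, ?_⟩
    show ((E t).rep a)⁻¹ • (E t).rep = _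
    rw [h1]
    exact h3.1
  have hxne : x a ≠ 0 := by rw [hxa]; exact one_ne_zero
  -- the value at 0
  obtain ⟨hx0, hE0⟩ := hE.zero
  have hY0 : (E 0).rep a ≠ 0 ∧ Y 0 = x := by
    have h1 := hrep 0 x hx0 hE0 hxne
    rw [hxa, inv_one, one_smul] at h1
    exact h1
  -- near the points of the exceptional divisor
  have hloc : ∀ t : Fin d → ℂ, t ≠ 0 → ∃ F : ℂ × (Fin d → ℂ) → Fin (N + 1) → ℂ, AnalyticAt ℂ F ((0 : ℂ), t) ∧ F ((0 : ℂ), t) = x ∧
      fderiv ℂ F ((0 : ℂ), t) (1, 0) = vv e t ∧ ∀ᶠ p in 𝓝 ((0 : ℂ), t), F p a ≠ 0 ∧ (E (p.1 • p.2)).rep a ≠ 0 ∧ Y (p.1 • p.2) = (F p a)⁻¹ • F p := by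
    intro t ht
    obtain ⟨F, ⟨hF1, hF2⟩, hF3⟩ := hE.init t ht
    obtain ⟨h1, h2⟩ := hF3.self_of_nhds
    have hFa : AnalyticAt ℂ (fun p => F p a) ((0 : ℂ), t) :=
      (ContinuousLinearMap.proj (R := ℂ) (φ := fun _ : Fin (N + 1) => ℂ) a).analyticAt _ |>.comp hF1
    have h3 : F ((0 : ℂ), t) a ≠ 0 := by rw [h1]; exact hxne
    refine ⟨F, hF1, h1, h2, ?_⟩
    filter_upwards [hF2, hFa.continuousAt.eventually_ne h3] with p hp1 hp2
    obtain ⟨h4, h5⟩ := hp1
    have h6 := hrep _ _ h4 h5 hp2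
    exact ⟨hp2, h6.1, h6.2⟩
  -- a ball
  have hball : ∀ᶠ z in 𝓝 (0 : ℂ), ∀ s ∈ sphere (0 : Fin d → ℂ) 1, (E (z • s)).rep a ≠ 0 ∧ ‖Y (z • s)‖ ≤ ‖x‖ + 1 := by
    refine (isCompact_sphere (0 : Fin d → ℂ) 1).eventually_forall_of_forall_eventually fun s hs => ?_
    have hs0 : s ≠ 0 := by
      rintro rfl
      rw [mem_sphere_zero_iff_norm, norm_zero] at hs
      exact zero_ne_one hs
    obtain ⟨F, h1, h2, -, h3⟩ := hloc s hs0
    have h4 : AnalyticAt ℂ (fun p => (F p a)⁻¹ • F p) ((0 : ℂ), s) := ext0_an h1 (by rw [h2]; exact hxne)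
    have h5 : ∀ᶠ p in 𝓝 ((0 : ℂ), s), ‖(F p a)⁻¹ • F p‖ < ‖x‖ + 1 := by
      refine h4.continuousAt.norm.eventually_lt_const ?_
      show ‖(F ((0 : ℂ), s) a)⁻¹ • F ((0 : ℂ), s)‖ < ‖x‖ + 1
      rw [h2, hxa, inv_one, one_smul]
      exact lt_add_one _
    filter_upwards [h3, h5] with p hp1 hp2
    refine ⟨hp1.2.1, ?_⟩
    rw [hp1.2.2]
    exact hp2.le
  obtain ⟨ρ, hρ, hball2⟩ := Metric.eventually_nhds_iff_ball.1 hball
  have hin : ∀ t ∈ ball (0 : Fin d → ℂ) ρ, (E t).rep a ≠ 0 ∧ ‖Y t‖ ≤ ‖x‖ + 1 := by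
    intro t ht
    by_cases h0 : t = 0
    · subst h0
      refine ⟨hY0.1, ?_⟩
      rw [hY0.2]
      exact (lt_add_one _).le
    · have hn : ‖t‖ ≠ 0 := norm_ne_zero_iff.2 h0
      have h1 := hball2 ((‖t‖ : ℝ) : ℂ) (by
        rw [mem_ball_zero_iff, Complex.norm_real, norm_norm]
        exact mem_ball_zero_iff.1 ht) (((‖t‖⁻¹ : ℝ) : ℂ) • t) (by
        rw [mem_sphere_zero_iff_norm, norm_smul, Complex.norm_real, norm_inv, norm_norm, inv_mul_cancel₀ hn])
      have h2 : ((‖t‖ : ℝ) : ℂ) • (((‖t‖⁻¹ : ℝ) : ℂ) • t) = t := by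
        rw [smul_smul, ← Complex.ofReal_mul, mul_inv_cancel₀ hn, Complex.ofReal_one, one_smul]
      rw [h2] at h1
      exact h1
  -- holomorphic off 0
  have hoff : ∀ t ∈ ball (0 : Fin d → ℂ) ρ, t ≠ 0 → AnalyticAt ℂ Y t := by
    intro t ht h0
    obtain ⟨F, h1, h2⟩ := hE.hol t h0
    obtain ⟨h3, h4⟩ := h2.self_of_nhds
    have h5 : F t a ≠ 0 := by
      have h6 := (hin t ht).1
      rw [h4] at h6
      exact (ext0_mk h3 a).2.2 h6
    have hFa : AnalyticAt ℂ (fun p => F p a) t :=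
      (ContinuousLinearMap.proj (R := ℂ) (φ := fun _ : Fin (N + 1) => ℂ) a).analyticAt _ |>.comp h1
    refine (ext0_an h1 h5).congr ?_
    filter_upwards [h2, hFa.continuousAt.eventually_ne h5] with p hp1 hp2
    obtain ⟨h7, h8⟩ := hp1
    exact (hrep _ _ h7 h8 hp2).2.symm
  -- along the lines through 0
  have hline : ∀ s : Fin d → ℂ, s ≠ 0 → HasDerivAt (fun z : ℂ => Y (z • s)) (vv e s) 0 := by
    intro s hs
    obtain ⟨F, h1, h2, h3, h4⟩ := hloc s hs
    have g0 : HasDerivAt (fun z : ℂ => (z, s)) ((1 : ℂ), (0 : Fin d → ℂ)) (0 : ℂ) := (hasDerivAt_id (0 : ℂ)).prodMk (hasDerivAt_const (0 : ℂ) s)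
    have g1 : HasDerivAt (fun z : ℂ => F (z, s)) (vv e s) 0 := by
      have := (h1.differentiableAt.hasFDerivAt).comp_hasDerivAt (0 : ℂ) g0
      rw [h3] at this
      exact this
    have hvva : vv e s a = 0 := by
      unfold vv
      rw [Finset.sum_apply]
      refine Finset.sum_eq_zero fun j _ => ?_
      rw [Pi.smul_apply, hea j, smul_zero]
    have g2 : HasDerivAt (fun z : ℂ => F (z, s) a) 0 0 := by
      have := hasDerivAt_pi.1 g1 a
      rw [hvva] at this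
      exact this
    have g3 : HasDerivAt (fun z : ℂ => (F (z, s) a)⁻¹) 0 0 := by
      have h5 : F ((0 : ℂ), s) a ≠ 0 := by rw [h2]; exact hxne
      have := g2.inv h5
      rw [neg_zero, zero_div] at this
      exact this
    have g4 := g3.smul g1
    have g5 : (F ((0 : ℂ), s) a)⁻¹ • vv e s + (0 : ℂ) • F ((0 : ℂ), s) = vv e s := by
      rw [h2, hxa, inv_one, one_smul, zero_smul, add_zero]
    have g6 : HasDerivAt (fun z : ℂ => (F (z, s) a)⁻¹ • F (z, s)) (vv e s) 0 := g4.congr_deriv g5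
    refine g6.congr_of_eventuallyEq ?_
    have g7 : Tendsto (fun z : ℂ => (z, s)) (𝓝 0) (𝓝 ((0 : ℂ), s)) := g0.continuousAt.tendsto
    filter_upwards [g7.eventually h4] with z hz
    exact hz.2.2
  have hYan : AnalyticAt ℂ Y 0 := by
    refine Pool.Agent.TN.osgood_pi (M := ‖x‖ + 1) hρ (fun t ht => (hin t ht).2) fun t ht l => ?_
    by_cases h0 : t = 0
    · subst h0
      have h1 : (Pi.single l 1 : Fin d → ℂ) ≠ 0 := by
        intro h
        have := congrFun h l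
        rw [Pi.single_eq_same] at this
        exact one_ne_zero this
      simp only [zero_add]
      exact (hline _ h1).differentiableAt
    · have h1 : AnalyticAt ℂ Y (t + (0 : ℂ) • (Pi.single l 1 : Fin d → ℂ)) := by
        rw [zero_smul, add_zero]
        exact hoff t ht h0
      have h2 : DifferentiableAt ℂ (fun z : ℂ => t + z • (Pi.single l 1 : Fin d → ℂ)) 0 :=
        (differentiableAt_const t).add (differentiableAt_id.smul_const _)
      exact DifferentiableAt.comp (g := Y) (0 : ℂ) h1.differentiableAt h2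
  refine ⟨Y, ⟨hYan, ?_⟩, hY0.2, fun w => ?_⟩
  · filter_upwards [ball_mem_nhds (0 : Fin d → ℂ) hρ] with t ht
    have h1 := (hin t ht).1
    have h2 : Y t ≠ 0 := by
      intro h
      have h3 := congrFun h a
      have h4 : Y t a = ((E t).rep a)⁻¹ * (E t).rep a := rfl
      rw [h4, inv_mul_cancel₀ h1] at h3
      exact one_ne_zero h3
    refine ⟨h2, ?_⟩
    conv_lhs => rw [← Projectivization.mk_rep (E t)]
    rw [Projectivization.mk_eq_mk_iff']
    refine ⟨(E t).rep a, ?_⟩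
    show (E t).rep a • (((E t).rep a)⁻¹ • (E t).rep) = (E t).rep
    rw [smul_smul, mul_inv_cancel₀ h1, one_smul]
  · by_cases hw : w = 0
    · subst hw
      rw [map_zero]
      unfold vv
      simp
    · have h1 := hline w hw
      have h2 : HasDerivAt (fun z : ℂ => z • w) w 0 := by
        have := (hasDerivAt_id (0 : ℂ)).smul_const w
        rw [one_smul] at this
        exact this
      have h3 : HasFDerivAt Y (fderiv ℂ Y 0) ((0 : ℂ) • w) := by
        rw [zero_smul]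
        exact hYan.differentiableAt.hasFDerivAt
      have h3' : HasFDerivAt Y (fderiv ℂ Y 0) ((fun z : ℂ => z • w) 0) := h3
      have h4 : HasDerivAt (Y ∘ fun z : ℂ => z • w) (fderiv ℂ Y 0 w) 0 := HasFDerivAt.comp_hasDerivAt (0 : ℂ) h3' h2
      exact HasDerivAt.unique h4 h1

end Pool.Agent.GV
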