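import Pool.Agent.GV.Bdd
import Pool.Agent.GV.Ext0

/-!
# GV Flt: the exponential map is flat

PROOF.  `exp_bdd`, `exp_hol0`.  For fixed `w`, `t ↦ (θ k).toFun (F t) (dF_t (w))` is well defined (`pol_hl`), entire (`pol_an`), bounded (`toFun_le`): constant (`Differentiable.apply_eq_apply_of_bounded`), with the value `(θ k).toFun x (vv e w)` at `0`.  `ne`: `le_toFun` or `Polar`.
-/

set_option autoImplicit false

open MvPolynomial Topology Filter Metric
open Pool.Agent.H13.SM (conTan cone)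
open Pool.Agent.H17 (PN VanishesAt)
open Pool.Agent.H17EF (projVar)
open Pool.Agent.H17LG.Variety (FunField ratio IsLogGeneralType)
open Pool.Agent.H62.FC (Homog closureIn)
open Pool.Agent.H66.Lang (HolomorphicIntoPN)
open Pool.Agent.GG Pool.Agent.GB

namespace Pool.Agent.GV

variable {N : ℕ} {P Q : Ideal (MvPolynomial (Fin (N + 1)) ℂ)} {J m : ℕ} {θ : Fin J → SymSec P m} {d : ℕ}

/-- a representative near `q` is a representative near the points near `q` -/
private theorem Flt_eventually {V : Type*} [NormedAddCommGroup V] [NormedSpace ℂ V] {Φ : V → PN N} {F : V → Fin (N + 1) → ℂ} {q : V} (h : Hl Φ F q) :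
    ∀ᶠ p in 𝓝 q, Hl Φ F p := by
  filter_upwards [h.1.eventually_analyticAt, h.2.eventually_nhds] with p h1 h2
  exact ⟨h1, h2⟩

private theorem Flt_vv_a {a : Fin (N + 1)} {e : Fin d → Fin (N + 1) → ℂ} (hea : ∀ j, e j a = 0) (w : Fin d → ℂ) : vv e w a = 0 := by
  unfold vv
  rw [Finset.sum_apply]
  exact Finset.sum_eq_zero fun j _ => by rw [Pi.smul_apply, hea j, smul_zero]

private theorem Flt_vv_mem {x : Fin (N + 1) → ℂ} {e : Fin d → Fin (N + 1) → ℂ} (he : ∀ j, e j ∈ conTan P x) (w : Fin d → ℂ) : vv e w ∈ conTan P x := by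
  intro R hR
  have h1 : ∀ b, vv e w b = ∑ j, w j * e j b := by
    intro b
    unfold vv
    rw [Finset.sum_apply]
    rfl
  have h2 : ∀ j, ∑ b, e j b * eval x (pderiv b R) = 0 := fun j => he j R hR
  calc ∑ b, vv e w b * eval x (pderiv b R) = ∑ b, ∑ j, w j * (e j b * eval x (pderiv b R)) := by
        refine Finset.sum_congr rfl fun b _ => ?_
        rw [h1 b, Finset.sum_mul]
        exact Finset.sum_congr rfl fun j _ => by ring
    _ = ∑ j, w j * ∑ b, e j b * eval x (pderiv b R) := by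
        rw [Finset.sum_comm]
        exact Finset.sum_congr rfl fun j _ => by rw [Finset.mul_sum]
    _ = 0 := by simp only [h2, mul_zero, Finset.sum_const_zero]

theorem exp_flat (hd : 1 ≤ d) (hP : Homog P) (hθ : Polar (m := fun _ => m) θ) (hm : 1 ≤ m) (f : Frame (m := fun _ => m) θ) {a : Fin (N + 1)} {x : Fin (N + 1) → ℂ}
    {e : Fin d → Fin (N + 1) → ℂ} (hx : x ∈ cone P) (hxa : x a = 1) (he : ∀ j, e j ∈ conTan P x) (hea : ∀ j, e j a = 0) (hli : LinearIndependent ℂ e)
    {E : (Fin d → ℂ) → PN N} (hE : IsExp (m := fun _ => m) θ x e E) (hEP : ∀ t, E t ∈ projVar P) :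
    IsFlat (m := fun _ => m) θ (fun w k => (θ k).toFun x (vv e w)) E := by
  classical
  obtain ⟨C, hC⟩ := exp_bdd hP hθ hm f hx hxa he hea hli hE hEP
  obtain ⟨F₀, hF₀, hF₀x, hF₀w⟩ := exp_hol0 hd hθ hxa hea hE hC
  have hol : ∀ t, ∃ F, Hl E F t := by
    intro t
    by_cases ht : t = 0
    · exact ⟨F₀, ht ▸ hF₀⟩
    · exact hE.hol t ht
  choose R hR using hol
  obtain ⟨K, hK0, hK⟩ : ∃ C : ℝ, 0 ≤ C ∧ ∀ k, ∀ x ∈ cone P, ∀ v ∈ conTan P x, ‖(θ k).toFun x v‖ ≤ C * wl x v ^ m := by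
    first
      | exact toFun_le hP hm f
      | exact toFun_le hm f
  have hval : ∀ (t w : Fin d → ℂ) (F : (Fin d → ℂ) → Fin (N + 1) → ℂ), Hl E F t → ∀ k,
      (θ k).toFun (F t) (fderiv ℂ F t w) = (θ k).toFun (R t t) (fderiv ℂ (R t) t w) := fun t w F hF k => (pol_hl hP hF (hR t) hEP w w).2.1
  have hconst : ∀ (w : Fin d → ℂ) (k : Fin J) (t : Fin d → ℂ), (θ k).toFun (R t t) (fderiv ℂ (R t) t w) = (θ k).toFun x (vv e w) := by
    intro w k
    set S : (Fin d → ℂ) → ℂ := fun t => (θ k).toFun (R t t) (fderiv ℂ (R t) t w) with hS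
    have hdiff : Differentiable ℂ S := by
      intro t
      have h1 : AnalyticAt ℂ (fun p => (θ k).toFun (R t p) (fderiv ℂ (R t) p w)) t := (pol_an hP (hR t) hEP w w).2
      refine (h1.differentiableAt).congr_of_eventuallyEq ?_
      filter_upwards [Flt_eventually (hR t)] with p hp
      exact (hval p w (R t) hp k).symm
    have hbd : ∀ t, t ≠ 0 → ‖S t‖ ≤ K * (C * ‖w‖) ^ m := by
      intro t ht
      obtain ⟨h1, h2⟩ := (hl_cone hP (hR t) hEP).self_of_nhds
      have h3 : 0 ≤ wl (R t t) (fderiv ℂ (R t) t w) := by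
        unfold wl
        positivity
      calc ‖S t‖ ≤ K * wl (R t t) (fderiv ℂ (R t) t w) ^ m := hK k _ h1 _ (h2 w)
        _ ≤ K * (C * ‖w‖) ^ m := mul_le_mul_of_nonneg_left (pow_le_pow_left₀ h3 (hC t ht w (R t) (hR t)) m) hK0
    have hbdd : Bornology.IsBounded (Set.range S) := by
      refine isBounded_iff_forall_norm_le.2 ⟨max ‖S 0‖ (K * (C * ‖w‖) ^ m), ?_⟩
      rintro _ ⟨t, rfl⟩
      by_cases ht : t = 0
      · rw [ht]
        exact le_max_left _ _
      · exact (hbd t ht).trans (le_max_right _ _)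
    have hS0 : S 0 = (θ k).toFun x (vv e w) := by
      rw [hS]
      show (θ k).toFun (R 0 0) (fderiv ℂ (R 0) 0 w) = _
      rw [← hval 0 w F₀ hF₀ k, hF₀x, hF₀w w]
    intro t
    rw [← hS0]
    exact hdiff.apply_eq_apply_of_bounded hbdd t 0
  refine ⟨fun t => ⟨R t, hR t⟩, hEP, fun t w F hF k => by rw [hval t w F hF k, hconst w k t], ?_⟩
  intro w hw h0
  refine hw ?_
  have hv0 : vv e w = 0 := by
    by_contra hne
    have hspan : vv e w ∉ Submodule.span ℂ {x} := by
      intro h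
      obtain ⟨c, hc⟩ := Submodule.mem_span_singleton.1 h
      have h1 := congrFun hc a
      rw [Pi.smul_apply, hxa, smul_eq_mul, mul_one, Flt_vv_a hea w] at h1
      rw [h1, zero_smul] at hc
      exact hne hc.symm
    obtain ⟨k, hk⟩ := hθ x hx (vv e w) (Flt_vv_mem he w) (vv e w) (Flt_vv_mem he w) hspan hspan
    apply hk
    have h2 : ∀ t : ℂ, (θ k).toFun x (vv e w + t • vv e w) = 0 := by
      intro t
      have h3 : vv e w + t • vv e w = (1 + t) • vv e w := by rw [add_smul, one_smul]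
      rw [h3, (θ k).smul x hx _ (Flt_vv_mem he w)]
      have h4 : (θ k).toFun x (vv e w) = 0 := congrFun h0 k
      rw [h4, mul_zero]
    simp only [h2, deriv_const]
  have h5 := Fintype.linearIndependent_iff.1 hli w hv0
  exact funext h5

end Pool.Agent.GV
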