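import Pool.Agent.GV.Defs

/-!
# GV Inv: invariant subvarieties

PROOF of `exp_zero`.  For `t = 0`: `n = 0` in `h`.  For `t ≠ 0`: the arc `g (z) = E (z t)`; a representative `y` near `z = 0` in the chart `a` with `y (0) = x`, `y' (0) = vv e t` (from `init`) satisfies `ArcV (gfam f a)`, so it is the solution of the differential equation
for `W (gfam f a) K`, `K` a row with `vdet ≠ 0` (GG/ArcOde, GG/CritArc, GB/Use: `Use_arc`); all derivatives of `p (y (z))` at `0` vanish (`h`), so `p (y (z)) = 0` near `0`, and everywhere by the identity theorem (GB/Use: `Use_ident`).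
PROOF of `exp_mem`: `exp_zero` for the homogeneous elements of `Q`.
-/

set_option autoImplicit false

open MvPolynomial Topology Filter Metric
open Pool.Agent.H13.SM (conTan cone)
open Pool.Agent.H17 (PN VanishesAt HolomorphicInto)
open Pool.Agent.H17BP (vanishesAt_mk)
open Pool.Agent.H17EF (projVar)
open Pool.Agent.H17LG.Variety (FunField ratio IsLogGeneralType)
open Pool.Agent.H62.FC (Homog closureIn)
open Pool.Agent.H66.Lang (HolomorphicIntoPN)
open Pool.Agent.GG Pool.Agent.GB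

namespace Pool.Agent.GV

/-! ### a polynomial all of whose derivatives along the vector field vanish at the initial vector is zero along the arc -/

private noncomputable def invFam {N : ℕ} {ι : Type} (G : ι → MvPolynomial (Ph N) ℂ) (p : MvPolynomial (Ph N) ℂ) : ι ⊕ Unit → MvPolynomial (Ph N) ℂ :=
  Sum.elim G fun _ => p

private theorem inv_const {N : ℕ} {ι : Type} {G : ι → MvPolynomial (Ph N) ℂ} {K : Fin (N + 1) → ι} {y : ℂ → Fin (N + 1) → ℂ} {t : ℂ}
    (hV : ArcV G y t) (hK : eval (pt (y t) (deriv y t)) (vdet G K) ≠ 0) {p : MvPolynomial (Ph N) ℂ}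
    (hp : ∀ n, eval (pt (y t) (deriv y t)) ((⇑(Dt G K))^[n] p) = 0) : ∀ᶠ s in 𝓝 t, eval (pt (y s) (deriv y s)) p = 0 := by
  have hc := crit_of_arc hV hK
  have h1 : Crit (invFam G p) (fun b => Sum.inl (K b)) (pt (y t) (deriv y t)) := by
    refine ⟨hc.1, ?_⟩
    rintro (l | _) n
    · exact hc.2 l n
    · exact hp (n + 1)
  have h2 := arc_ode hV hK
  have hya : AnalyticAt ℂ (fun s => (pt (y s) (deriv y s) : Ph N → ℂ)) t := by
    rw [analyticAt_pi_iff]
    rintro (b | b)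
    · exact (analyticAt_pi_iff.1 hV.1) b
    · exact (analyticAt_pi_iff.1 hV.1.deriv) b
  have h3 : ∀ᶠ s in 𝓝 t, HasDerivAt (fun s => (pt (y s) (deriv y s) : Ph N → ℂ)) (W (invFam G p) (fun b => Sum.inl (K b)) (pt (y s) (deriv y s))) s := h2
  have h4 := const_of_crit (y := fun s => (pt (y s) (deriv y s) : Ph N → ℂ)) hya h3 h1 (Sum.inr ())
  filter_upwards [h4] with s hs
  exact hs.trans (hp 0)

private theorem inv_ident {N : ℕ} {g : ℂ → PN N} (hg : HolomorphicInto g Set.univ) {p : MvPolynomial (Fin (N + 1)) ℂ} {n : ℕ} (hp : p.IsHomogeneous n)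
    (h : ∀ᶠ s in 𝓝 (0 : ℂ), VanishesAt p (g s)) (z : ℂ) : VanishesAt p (g z) := by
  obtain ⟨x, hx⟩ := Pool.Agent.H17.exists_global_lift hg
  have hxa : ∀ w, AnalyticAt ℂ (fun z => eval (fun j => (x j : ℂ → ℂ) z) p) w := by
    intro w
    have h1 : AnalyticAt ℂ (fun z => fun j => (x j : ℂ → ℂ) z) w := by
      rw [analyticAt_pi_iff]
      intro j
      exact (x j).2.analyticAt w
    exact AnalyticAt.comp (g := fun y : Fin (N + 1) → ℂ => eval y p) (f := fun z => fun j => (x j : ℂ → ℂ) z)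
      (AnalyticOnNhd.eval_mvPolynomial p _ (Set.mem_univ _)) h1
  have h2 : (fun z => eval (fun j => (x j : ℂ → ℂ) z) p) = fun _ => 0 := by
    refine AnalyticOnNhd.eq_of_eventuallyEq (𝕜 := ℂ) (fun w _ => hxa w) (fun w _ => analyticAt_const) (z₀ := 0) ?_
    filter_upwards [h] with s hs
    obtain ⟨h0, h1⟩ := hx s
    rw [h1, vanishesAt_mk hp h0] at hs
    exact hs
  obtain ⟨h0, h1⟩ := hx z
  rw [h1, vanishesAt_mk hp h0]
  exact congrFun h2 z

variable {N : ℕ} {P Q : Ideal (MvPolynomial (Fin (N + 1)) ℂ)} {J m : ℕ} {θ : Fin J → SymSec P m} {d : ℕ}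

theorem exp_zero (hP : Homog P) (hθ : Polar (m := fun _ => m) θ) (hm : 1 ≤ m) (f : Frame (m := fun _ => m) θ) {a : Fin (N + 1)} {x : Fin (N + 1) → ℂ}
    {e : Fin d → Fin (N + 1) → ℂ} (hx : x ∈ cone P) (hxa : x a = 1) (he : ∀ j, e j ∈ conTan P x) (hea : ∀ j, e j a = 0) (hli : LinearIndependent ℂ e)
    {E : (Fin d → ℂ) → PN N} (hE : IsExp (m := fun _ => m) θ x e E) {p : MvPolynomial (Fin (N + 1)) ℂ} {k : ℕ} (hp : p.IsHomogeneous k)
    (h : ∀ (t : Fin d → ℂ) (K : Fin (N + 1) → (Unit ⊕ Unit) ⊕ (Fin f.q ⊕ Fin f.q) ⊕ Fin J) n, eval (pt x (vv e t)) ((⇑(Dt (gfam f a) K))^[n] (rename Sum.inl p)) = 0) :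
    ∀ t, VanishesAt p (E t) := by
  intro t
  rcases eq_or_ne t 0 with rfl | ht
  · obtain ⟨hx0, hE0⟩ := hE.zero
    rw [hE0, vanishesAt_mk hp hx0]
    have h1 := h 0 (fun _ => Sum.inl (Sum.inl ())) 0
    rw [Function.iterate_zero, id, eval_rename] at h1
    exact h1
  · -- the initial vector
    have hva : vv e t a = 0 := by
      simp only [vv, Finset.sum_apply, Pi.smul_apply, smul_eq_mul, hea, mul_zero, Finset.sum_const_zero]
    have hvT : vv e t ∈ conTan P x := Submodule.sum_mem _ fun j _ => Submodule.smul_mem _ _ (he j)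
    have hv0 : vv e t ≠ 0 := by
      intro h0
      exact ht (funext fun j => Fintype.linearIndependent_iff.1 hli t h0 j)
    have hc0 : (fun k => (θ k).toFun x (vv e t)) ≠ 0 := by
      intro h0
      obtain ⟨r, hr⟩ := Submodule.mem_span_singleton.1 (no_common_zero hθ (fun _ => hm) hx hvT fun k => congrFun h0 k)
      have h5 : r * x a = vv e t a := congrFun hr a
      rw [hxa, hva, mul_one] at h5
      rw [h5, zero_smul] at hr
      exact hv0 hr.symm
    have harc : ∀ z, ArcAt (m := fun _ => m) θ (fun k => (θ k).toFun x (vv e t)) (fun w => E (w • t)) z := fun z => hE.arc t ht z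
    obtain ⟨hhol, -, -, -⟩ := orderTwo_of_arcAt hP hθ (fun _ => hm) hc0 harc
    have hkey := inv_ident hhol hp ?_ 1
    · simpa using hkey
    -- a representative near `0`
    obtain ⟨F, ⟨hF, hFr⟩, hF0⟩ := hE.init t ht
    obtain ⟨hFx, hFd⟩ := hF0.self_of_nhds
    have hc : AnalyticAt ℂ (fun z : ℂ => (z, t)) 0 := analyticAt_id.prod analyticAt_const
    have hG : AnalyticAt ℂ (fun z : ℂ => F (z, t)) 0 := AnalyticAt.comp (g := F) (f := fun z : ℂ => (z, t)) hF hc
    have hGr : Rep (fun w => E (w • t)) (fun z : ℂ => F (z, t)) 0 := by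
      have h1 : Tendsto (fun z : ℂ => (z, t)) (𝓝 0) (𝓝 ((0 : ℂ), t)) := hc.continuousAt
      exact h1.eventually hFr
    have hGd : HasDerivAt (fun z : ℂ => F (z, t)) (vv e t) 0 := by
      have h1 : HasFDerivAt F (fderiv ℂ F ((0 : ℂ), t)) ((0 : ℂ), t) := hF.differentiableAt.hasFDerivAt
      have h2 : HasDerivAt (fun z : ℂ => (z, t)) ((1 : ℂ), (0 : Fin d → ℂ)) 0 := (hasDerivAt_id (0 : ℂ)).prodMk (hasDerivAt_const (0 : ℂ) t)
      have h3 := h1.comp_hasDerivAt (0 : ℂ) h2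
      rw [hFd] at h3
      exact h3
    have hGa : F ((0 : ℂ), t) a ≠ 0 := by rw [hFx, hxa]; exact one_ne_zero
    obtain ⟨hN, hRep⟩ := nArc_of_lift (a := a) hP (harc 0) hG hGr hGa
    set y : ℂ → Fin (N + 1) → ℂ := fun w => (F (w, t) a)⁻¹ • F (w, t) with hy
    have hy0 : y 0 = x := by
      simp only [hy, hFx, hxa, inv_one, one_smul]
    have hyd : deriv y 0 = vv e t := by
      have h1 : HasDerivAt (fun w : ℂ => F (w, t) a) (vv e t a) 0 := hasDerivAt_pi.1 hGd a
      have h2 := (h1.inv hGa).smul hGd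
      have h3 : HasDerivAt y ((F ((0 : ℂ), t) a)⁻¹ • vv e t + (-(vv e t a) / F ((0 : ℂ), t) a ^ 2) • F ((0 : ℂ), t)) 0 := h2
      rw [h3.deriv, hva, neg_zero, zero_div, zero_smul, add_zero, hFx, hxa, inv_one, one_smul]
    obtain ⟨hV, hT⟩ := arcV_of_nArc f hN
    have hT' : IsTan (m := fun _ => m) θ a (fun k => (θ k).toFun x (vv e t)) x (vv e t) := ⟨hx, hxa, hvT, hva, fun _ => rfl⟩
    obtain ⟨K, hK⟩ := exists_row hθ f hT' hv0
    have hK' : eval (pt (y 0) (deriv y 0)) (vdet (gfam f a) K) ≠ 0 := by rwa [hy0, hyd]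
    have h5 := inv_const hV hK' (p := rename Sum.inl p) fun n => by
      rw [hy0, hyd]
      exact h t K n
    filter_upwards [h5, hRep] with s hs hrs
    obtain ⟨h6, h7⟩ := hrs
    rw [h7, vanishesAt_mk hp h6]
    rw [eval_rename] at hs
    exact hs

theorem exp_mem (hP : Homog P) (hθ : Polar (m := fun _ => m) θ) (hm : 1 ≤ m) (f : Frame (m := fun _ => m) θ) {a : Fin (N + 1)} {x : Fin (N + 1) → ℂ}
    {e : Fin d → Fin (N + 1) → ℂ} (hx : x ∈ cone P) (hxa : x a = 1) (he : ∀ j, e j ∈ conTan P x) (hea : ∀ j, e j a = 0) (hli : LinearIndependent ℂ e)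
    {E : (Fin d → ℂ) → PN N} (hE : IsExp (m := fun _ => m) θ x e E)
    (h : ∀ (t : Fin d → ℂ) (K : Fin (N + 1) → (Unit ⊕ Unit) ⊕ (Fin f.q ⊕ Fin f.q) ⊕ Fin J), ∀ p ∈ Q, ∀ n,
      eval (pt x (vv e t)) ((⇑(Dt (gfam f a) K))^[n] (rename Sum.inl p)) = 0) : ∀ t, E t ∈ projVar Q :=
  fun t p hp _ hpn => exp_zero hP hθ hm f hx hxa he hea hli hE hpn (fun t K n => h t K p hp n) t

end Pool.Agent.GV
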