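import Pool.Agent.GV.Defs

/-!
# GV PolA: the polar forms along holomorphic maps

`pol` is well defined on `X` (independent of the representative), linear in `w`, and analytic along analytic maps.
-/

set_option autoImplicit false

open MvPolynomial Topology Filter Metric
open Pool.Agent.H13.SM (conTan cone)
open Pool.Agent.H17 (PN VanishesAt)
open Pool.Agent.H17EF (projVar)
open Pool.Agent.H17LG.Variety (FunField ratio IsLogGeneralType)
open Pool.Agent.H62.FC (Homog closureIn)
open Pool.Agent.H66.Lang (HolomorphicIntoPN)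
open Pool.Agent.GG Pool.Agent.GB

namespace Pool.Agent.GV

variable {N : ℕ} {P Q : Ideal (MvPolynomial (Fin (N + 1)) ℂ)} {J m : ℕ} {θ : Fin J → SymSec P m} {d : ℕ}

variable {V : Type*} [NormedAddCommGroup V] [NormedSpace ℂ V]

private theorem polA_tan {F : V → Fin (N + 1) → ℂ} {q : V} (hF : DifferentiableAt ℂ F q) (hc : ∀ᶠ p in 𝓝 q, F p ∈ cone P) (u : V) :
    fderiv ℂ F q u ∈ conTan P (F q) := by
  intro Q hQ
  have h1 := (Pool.Agent.H13.SM.Inv_hasFDerivAt_eval Q (F q)).comp q hF.hasFDerivAt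
  have h2 : HasFDerivAt ((fun y : Fin (N + 1) → ℂ => eval y Q) ∘ F) (0 : V →L[ℂ] ℂ) q := by
    refine (hasFDerivAt_const (0 : ℂ) q).congr_of_eventuallyEq ?_
    filter_upwards [hc] with z hz
    exact hz.2 Q hQ
  have h3 := h1.unique h2
  have h4 := congrArg (fun L : V →L[ℂ] ℂ => L u) h3
  simp only [ContinuousLinearMap.comp_apply, sum_apply, FunLike.coe_smul, Pi.smul_apply, ContinuousLinearMap.proj_apply, smul_eq_mul, zero_apply] at h4
  rw [← h4]
  exact Finset.sum_congr rfl fun i _ => mul_comm _ _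

/-- a holomorphic representative of a map to `X` has values in the cone, and its derivatives are tangent -/
theorem hl_cone (hP : Homog P) {Φ : V → PN N} {F : V → Fin (N + 1) → ℂ} {q : V} (hF : Hl Φ F q) (hm : ∀ p, Φ p ∈ projVar P) :
    (∀ᶠ p in 𝓝 q, F p ∈ cone P ∧ ∀ u, fderiv ℂ F p u ∈ conTan P (F p)) := by
  obtain ⟨h1, h2⟩ := hF
  have h3 : ∀ᶠ p in 𝓝 q, F p ∈ cone P := by
    filter_upwards [h2] with p hp
    obtain ⟨h, h'⟩ := hp
    have h4 := hm p
    rw [h'] at h4
    exact (Pool.Agent.H17EF.mk_mem_projVar hP h).1 h4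
  filter_upwards [h3, h3.eventually_nhds, h1.eventually_analyticAt] with p h4 h5 h6
  exact ⟨h4, fun u => polA_tan h6.differentiableAt h5 u⟩

/-- two representatives differ by a nonvanishing holomorphic factor -/
theorem hl_factor {Φ : V → PN N} {F G : V → Fin (N + 1) → ℂ} {q : V} (hF : Hl Φ F q) (hG : Hl Φ G q) :
    ∃ g : V → ℂ, AnalyticAt ℂ g q ∧ g q ≠ 0 ∧ ∀ᶠ p in 𝓝 q, G p = g p • F p := by
  obtain ⟨h1, h2⟩ := hF
  obtain ⟨h3, h4⟩ := hG
  obtain ⟨hF0, hF1⟩ := h2.self_of_nhds
  obtain ⟨hG0, hG1⟩ := h4.self_of_nhds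
  obtain ⟨b, hb⟩ : ∃ b, F q b ≠ 0 := by
    by_contra h
    push Not at h
    exact hF0 (funext h)
  have hFb : AnalyticAt ℂ (fun p => F p b) q := (analyticAt_pi_iff.1 h1) b
  have hGb : AnalyticAt ℂ (fun p => G p b) q := (analyticAt_pi_iff.1 h3) b
  refine ⟨fun p => G p b / F p b, hGb.div hFb hb, ?_, ?_⟩
  · obtain ⟨c, hc, h⟩ := Pool.Agent.H17.mk_eq_mk_cross (hG1.symm.trans hF1)
    show G q b / F q b ≠ 0
    rw [h b]
    exact div_ne_zero (mul_ne_zero hc hb) hb
  · filter_upwards [h2, h4, hFb.continuousAt.eventually_ne hb] with p h1 h2 h3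
    obtain ⟨h4, h5⟩ := h1
    obtain ⟨h6, h7⟩ := h2
    obtain ⟨c, hc, h⟩ := Pool.Agent.H17.mk_eq_mk_cross (h7.symm.trans h5)
    have h8 : G p b / F p b = c := by
      rw [h b]
      field_simp
    funext j
    show G p j = (G p b / F p b) * F p j
    rw [h8, h j]

/-- on the tangent space the form is a polynomial -/
private theorem polA_rep (s : SymSec P m) {x : Fin (N + 1) → ℂ} (hx : x ∈ cone P) :
    ∃ A : MvPolynomial (Fin (N + 1)) ℂ, ∀ v ∈ conTan P x, s.toFun x v = eval v A := by
  obtain ⟨i, hi⟩ : ∃ i, x i ≠ 0 := by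
    by_contra h
    push Not at h
    exact hx.1 (funext h)
  obtain ⟨e, A, hA⟩ := s.regular i
  refine ⟨C ((x i ^ e)⁻¹) * (aeval (Sum.elim (fun b => C (x b)) X : Fin (N + 1) ⊕ Fin (N + 1) → MvPolynomial (Fin (N + 1)) ℂ) A), fun v hv => ?_⟩
  have h1 := hA x hx v hv
  have h2 : eval v (aeval (Sum.elim (fun b => C (x b)) X : Fin (N + 1) ⊕ Fin (N + 1) → MvPolynomial (Fin (N + 1)) ℂ) A) = eval (Sum.elim x v) A := by
    rw [← MvPolynomial.coe_aeval_eq_eval, ← MvPolynomial.coe_aeval_eq_eval]
    have h3 : ((aeval v : MvPolynomial (Fin (N + 1)) ℂ →ₐ[ℂ] ℂ).comp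
        (aeval (Sum.elim (fun b => C (x b)) X : Fin (N + 1) ⊕ Fin (N + 1) → MvPolynomial (Fin (N + 1)) ℂ))) = aeval (Sum.elim x v) := by
      refine MvPolynomial.algHom_ext fun k => ?_
      rcases k with k | k <;> simp
    exact DFunLike.congr_fun h3 A
  rw [map_mul, eval_C, h2, ← h1, inv_mul_cancel_left₀ (pow_ne_zero _ hi)]

private theorem polA_deriv (A : MvPolynomial (Fin (N + 1)) ℂ) (v w : Fin (N + 1) → ℂ) :
    HasDerivAt (fun t : ℂ => eval (v + t • w) A) (∑ i, w i * eval v (pderiv i A)) 0 := by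
  have h1 : HasDerivAt (fun t : ℂ => v + t • w) w 0 := by
    have := ((hasDerivAt_id (0 : ℂ)).smul_const w).const_add v
    simpa using this
  have h2 := (Pool.Agent.H13.SM.Inv_hasFDerivAt_eval A (v + (0 : ℂ) • w)).comp_hasDerivAt (0 : ℂ) h1
  have h3 : HasDerivAt (fun t : ℂ => eval (v + t • w) A) ((∑ i, eval (v + (0 : ℂ) • w) (pderiv i A) • (ContinuousLinearMap.proj i : (Fin (N + 1) → ℂ) →L[ℂ] ℂ)) w) 0 := h2
  convert h3 using 1
  simp only [sum_apply, FunLike.coe_smul, Pi.smul_apply, ContinuousLinearMap.proj_apply, smul_eq_mul, zero_smul, add_zero]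
  exact Finset.sum_congr rfl fun i _ => mul_comm _ _

private theorem polA_pol (s : SymSec P m) {x : Fin (N + 1) → ℂ} {A : MvPolynomial (Fin (N + 1)) ℂ} (hA : ∀ v ∈ conTan P x, s.toFun x v = eval v A)
    {v w : Fin (N + 1) → ℂ} (hv : v ∈ conTan P x) (hw : w ∈ conTan P x) : pol s x v w = ∑ i, w i * eval v (pderiv i A) := by
  unfold pol
  have h1 : (fun t : ℂ => s.toFun x (v + t • w)) = fun t : ℂ => eval (v + t • w) A := by
    funext t
    exact hA _ (Submodule.add_mem _ hv (Submodule.smul_mem _ _ hw))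
  rw [h1]
  exact (polA_deriv A v w).deriv

theorem pol_add {s : SymSec P m} {x v w w' : Fin (N + 1) → ℂ} (hx : x ∈ cone P) (hv : v ∈ conTan P x) (hw : w ∈ conTan P x) (hw' : w' ∈ conTan P x) (a : ℂ) :
    pol s x v (w + w') = pol s x v w + pol s x v w' ∧ pol s x v (a • w) = a * pol s x v w ∧ pol s x (a • v) w = a ^ (m - 1) * pol s x v w ∧
    pol s x v v = m * s.toFun x v ∧ pol s x v (w + a • x) = pol s x v w ∧ pol s x (v + a • x) w = pol s x v w := by
  obtain ⟨A, hA⟩ := polA_rep s hx
  have hmem : ∀ t : ℂ, v + t • w ∈ conTan P x := fun t => Submodule.add_mem _ hv (Submodule.smul_mem _ _ hw)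
  refine ⟨?_, ?_, ?_, ?_, ?_, ?_⟩
  · rw [polA_pol s hA hv (Submodule.add_mem _ hw hw'), polA_pol s hA hv hw, polA_pol s hA hv hw', ← Finset.sum_add_distrib]
    exact Finset.sum_congr rfl fun i _ => by rw [Pi.add_apply, add_mul]
  · rw [polA_pol s hA hv (Submodule.smul_mem _ _ hw), polA_pol s hA hv hw, Finset.mul_sum]
    exact Finset.sum_congr rfl fun i _ => by rw [Pi.smul_apply, smul_eq_mul, mul_assoc]
  · -- homogeneity
    have key : ∀ b : ℂ, b ≠ 0 → pol s x (b • v) w = b ^ (m - 1) * pol s x v w := by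
      intro b hb
      have h1 : HasDerivAt (fun t : ℂ => s.toFun x (v + t • w)) (pol s x v w) 0 := by
        have h2 : (fun t : ℂ => s.toFun x (v + t • w)) = fun t : ℂ => eval (v + t • w) A := funext fun t => hA _ (hmem t)
        rw [polA_pol s hA hv hw, h2]
        exact polA_deriv A v w
      have h2 : HasDerivAt (fun t : ℂ => b⁻¹ * t) b⁻¹ 0 := by
        simpa using (hasDerivAt_id (0 : ℂ)).const_mul b⁻¹
      have h3 : HasDerivAt (fun t : ℂ => s.toFun x (v + (b⁻¹ * t) • w)) (pol s x v w * b⁻¹) 0 := by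
        have h4 : HasDerivAt (fun t : ℂ => s.toFun x (v + t • w)) (pol s x v w) (b⁻¹ * 0) := by
          rw [mul_zero]
          exact h1
        exact h4.comp (0 : ℂ) h2
      have h5 : (fun t : ℂ => s.toFun x (b • v + t • w)) = fun t : ℂ => b ^ m * s.toFun x (v + (b⁻¹ * t) • w) := by
        funext t
        rw [← s.smul x hx _ (hmem (b⁻¹ * t)) b, smul_add, smul_smul, mul_inv_cancel_left₀ hb]
      have h6 : pol s x (b • v) w = b ^ m * (pol s x v w * b⁻¹) := by
        show deriv (fun t : ℂ => s.toFun x (b • v + t • w)) 0 = _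
        rw [h5]
        exact (h3.const_mul (b ^ m)).deriv
      rw [h6]
      rcases Nat.eq_zero_or_pos m with hm | hm
      · -- `m = 0`: the form is constant
        subst hm
        have h7 : pol s x v w = 0 := by
          have h8 : (fun t : ℂ => s.toFun x (v + t • w)) = fun _ => s.toFun x 0 := by
            funext t
            have h9 := s.smul x hx _ (hmem t) 0
            rw [zero_smul, pow_zero, one_mul] at h9
            exact h9.symm
          show deriv (fun t : ℂ => s.toFun x (v + t • w)) 0 = 0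
          rw [h8]
          exact deriv_const _ _
        rw [h7]
        simp
      · have h7 : b ^ m = b ^ (m - 1) * b := by
          rw [← pow_succ, Nat.sub_add_cancel hm]
        rw [h7]
        field_simp
    by_cases ha : a = 0
    · -- continuity at `0`
      have hc1 : Continuous fun b : ℂ => pol s x (b • v) w := by
        have h1 : (fun b : ℂ => pol s x (b • v) w) = fun b : ℂ => ∑ i, w i * eval (b • v) (pderiv i A) := by
          funext b
          exact polA_pol s hA (Submodule.smul_mem _ _ hv) hw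
        rw [h1]
        refine continuous_finsetSum _ fun i _ => continuous_const.mul ?_
        exact (MvPolynomial.continuous_eval (pderiv i A)).comp (continuous_id.smul continuous_const)
      have hc2 : Continuous fun b : ℂ => b ^ (m - 1) * pol s x v w := (continuous_id.pow _).mul continuous_const
      have h2 : (fun b : ℂ => pol s x (b • v) w) = fun b : ℂ => b ^ (m - 1) * pol s x v w :=
        Continuous.ext_on (dense_compl_singleton (0 : ℂ)) hc1 hc2 fun b hb => key b hb
      exact congrFun h2 a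
    · exact key a ha
  · have h1 : (fun t : ℂ => s.toFun x (v + t • v)) = fun t : ℂ => (1 + t) ^ m * s.toFun x v := by
      funext t
      rw [← s.smul x hx v hv (1 + t), add_smul, one_smul]
    show deriv (fun t : ℂ => s.toFun x (v + t • v)) 0 = _
    rw [h1]
    have h2 : HasDerivAt (fun t : ℂ => (1 + t) ^ m * s.toFun x v) ((m : ℂ) * (1 + 0) ^ (m - 1) * 1 * s.toFun x v) 0 :=
      (((hasDerivAt_id (0 : ℂ)).const_add 1).pow m).mul_const _
    rw [h2.deriv, add_zero, one_pow, mul_one, mul_one]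
  · have h1 : (fun t : ℂ => s.toFun x (v + t • (w + a • x))) = fun t : ℂ => s.toFun x (v + t • w) := by
      funext t
      have h2 : v + t • (w + a • x) = (v + t • w) + (t * a) • x := by
        rw [smul_add, smul_smul, add_assoc]
      rw [h2, s.add_smul x hx _ (hmem t)]
    show deriv (fun t : ℂ => s.toFun x (v + t • (w + a • x))) 0 = _
    rw [h1]
    rfl
  · have h1 : (fun t : ℂ => s.toFun x (v + a • x + t • w)) = fun t : ℂ => s.toFun x (v + t • w) := by
      funext t
      have h2 : v + a • x + t • w = (v + t • w) + a • x := by abel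
      rw [h2, s.add_smul x hx _ (hmem t)]
    show deriv (fun t : ℂ => s.toFun x (v + a • x + t • w)) 0 = _
    rw [h1]
    rfl

end Pool.Agent.GV
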