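import Pool.Agent.GV.Uniq
import Pool.Agent.GV.PolA

/-!
# GV Prj: the torus is an abelian variety

PROOF.  Discrete: `dF_0` is injective modulo `F 0` (`ne`), so `E` is injective near `0`.  Projective: `Ψ = [F_a F_b : F_a ∂_i F_b - F_b ∂_i F_a]` (`a, b ≤ N`, `i < d`): holomorphic; for `F ↦ g F` it is multiplied by `g²`; `Ψ t = Ψ t'` gives `F t ∝ F' t'` and then equal frames: `period_of_sameFrame`; conversely
clear.  Immersion: the coordinates `F_a F_b` determine `dE`.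
-/

set_option autoImplicit false

open MvPolynomial Topology Filter Metric
open Pool.Agent.H13.SM (conTan cone)
open Pool.Agent.H17 (PN VanishesAt)
open Pool.Agent.H17EF (projVar)
open Pool.Agent.H17LG.Variety (FunField ratio IsLogGeneralType)
open Pool.Agent.H62.FC (Homog closureIn)
open Pool.Agent.H66.Lang (HolomorphicIntoPN)
open Pool.Agent.GG Pool.Agent.GB

namespace Pool.Agent.GV

variable {N : ℕ} {P Q : Ideal (MvPolynomial (Fin (N + 1)) ℂ)} {J m : ℕ} {θ : Fin J → SymSec P m} {d : ℕ}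

/-! ## the coordinates of the embedding -/

/-- `F_a F_b` and `F_a ∂_i F_b - F_b ∂_i F_a` -/
private noncomputable def qd (F : (Fin d → ℂ) → Fin (N + 1) → ℂ) (t : Fin d → ℂ) (p : Fin (N + 1) × Fin (N + 1) × Option (Fin d)) : ℂ :=
  match p.2.2 with
  | none => F t p.1 * F t p.2.1
  | some i => F t p.1 * fderiv ℂ F t (Pi.single i 1) p.2.1 - F t p.2.1 * fderiv ℂ F t (Pi.single i 1) p.1

private theorem qd_none (F : (Fin d → ℂ) → Fin (N + 1) → ℂ) (t : Fin d → ℂ) (a b : Fin (N + 1)) : qd F t (a, b, none) = F t a * F t b := rfl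

private theorem qd_some (F : (Fin d → ℂ) → Fin (N + 1) → ℂ) (t : Fin d → ℂ) (a b : Fin (N + 1)) (i : Fin d) :
    qd F t (a, b, some i) = F t a * fderiv ℂ F t (Pi.single i 1) b - F t b * fderiv ℂ F t (Pi.single i 1) a := rfl

private theorem Prj_dfac {V : Type*} [NormedAddCommGroup V] [NormedSpace ℂ V] {M : ℕ} {F G : V → Fin M → ℂ} {g : V → ℂ} {t : V} (hF : AnalyticAt ℂ F t) (hg : AnalyticAt ℂ g t)
    (h : ∀ᶠ p in 𝓝 t, G p = g p • F p) (w : V) : fderiv ℂ G t w = g t • fderiv ℂ F t w + (fderiv ℂ g t w) • F t := by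
  have h1 : fderiv ℂ G t = fderiv ℂ (fun p => g p • F p) t := Filter.EventuallyEq.fderiv_eq h
  rw [h1, fderiv_fun_smul hg.differentiableAt hF.differentiableAt]
  simp

private theorem qd_smul {F G : (Fin d → ℂ) → Fin (N + 1) → ℂ} {g : (Fin d → ℂ) → ℂ} {t : Fin d → ℂ} (hF : AnalyticAt ℂ F t) (hg : AnalyticAt ℂ g t)
    (h : ∀ᶠ p in 𝓝 t, G p = g p • F p) : qd G t = (g t) ^ 2 • qd F t := by
  have h0 : G t = g t • F t := h.self_of_nhds
  have h1 := Prj_dfac hF hg h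
  funext ⟨a, b, i⟩
  rcases i with _ | i
  · simp only [qd_none, h0, Pi.smul_apply, smul_eq_mul]
    ring
  · simp only [qd_some, h0, h1, Pi.smul_apply, Pi.add_apply, smul_eq_mul]
    ring

private theorem qd_ne {F : (Fin d → ℂ) → Fin (N + 1) → ℂ} {t : Fin d → ℂ} (h : F t ≠ 0) : qd F t ≠ 0 := by
  obtain ⟨a, ha⟩ : ∃ a, F t a ≠ 0 := Function.ne_iff.1 h
  intro h0
  have h1 := congrFun h0 (a, a, none)
  rw [qd_none] at h1
  exact ha (mul_self_eq_zero.1 h1)

private theorem qd_an {F : (Fin d → ℂ) → Fin (N + 1) → ℂ} {t : Fin d → ℂ} (hF : AnalyticAt ℂ F t) (p : Fin (N + 1) × Fin (N + 1) × Option (Fin d)) :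
    AnalyticAt ℂ (fun s => qd F s p) t := by
  obtain ⟨a, b, i⟩ := p
  have hFi : ∀ b, AnalyticAt ℂ (fun p => F p b) t := fun b => (analyticAt_pi_iff.1 hF) b
  have hdF : ∀ w, AnalyticAt ℂ (fun p => fderiv ℂ F p w) t := fun w =>
    ((ContinuousLinearMap.apply ℂ (Fin (N + 1) → ℂ) w).analyticAt (fderiv ℂ F t)).comp hF.fderiv
  have hdFi : ∀ w b, AnalyticAt ℂ (fun p => fderiv ℂ F p w b) t := fun w b => (analyticAt_pi_iff.1 (hdF w)) b
  rcases i with _ | i
  · exact (hFi a).mul (hFi b)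
  · exact ((hFi a).mul (hdFi _ b)).sub ((hFi b).mul (hdFi _ a))

/-- proportional coordinates: the same frame up to a factor -/
private theorem qd_eq {F G : (Fin d → ℂ) → Fin (N + 1) → ℂ} {t t' : Fin d → ℂ} (hG0 : G t' ≠ 0) (hF0 : F t ≠ 0) {r : ℂ}
    (h : qd F t = r • qd G t') : ∃ μ : ℂ, μ ≠ 0 ∧ F t = μ • G t' ∧ ∀ i : Fin d, fderiv ℂ F t (Pi.single i 1) - μ • fderiv ℂ G t' (Pi.single i 1) ∈ Submodule.span ℂ {F t} := by
  obtain ⟨a, ha⟩ : ∃ a, G t' a ≠ 0 := Function.ne_iff.1 hG0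
  have h1 : ∀ b c, F t b * F t c = r * (G t' b * G t' c) := fun b c => congrFun h (b, c, none)
  have h2 : ∀ b c i, F t b * fderiv ℂ F t (Pi.single i 1) c - F t c * fderiv ℂ F t (Pi.single i 1) b =
      r * (G t' b * fderiv ℂ G t' (Pi.single i 1) c - G t' c * fderiv ℂ G t' (Pi.single i 1) b) := fun b c i => congrFun h (b, c, some i)
  have hr : r ≠ 0 := by
    rintro rfl
    obtain ⟨b, hb⟩ : ∃ b, F t b ≠ 0 := Function.ne_iff.1 hF0
    have h3 := h1 b b
    rw [zero_mul] at h3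
    exact hb (mul_self_eq_zero.1 h3)
  have hFa : F t a ≠ 0 := by
    intro h0
    have h3 := h1 a a
    rw [h0, zero_mul] at h3
    exact mul_ne_zero hr (mul_ne_zero ha ha) h3.symm
  have hμ : F t a / G t' a ≠ 0 := div_ne_zero hFa ha
  have hFG : F t = (F t a / G t' a) • G t' := by
    funext b
    rw [Pi.smul_apply, smul_eq_mul, div_mul_eq_mul_div, eq_div_iff ha]
    have h3 := h1 a a
    have h4 := h1 b a
    refine mul_left_cancel₀ hFa ?_
    linear_combination (G t' a) * h4 - (G t' b) * h3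
  refine ⟨_, hμ, hFG, fun i => ?_⟩
  obtain ⟨μ, hμe⟩ : ∃ μ, μ = F t a / G t' a := ⟨_, rfl⟩
  rw [← hμe] at hFG hμ ⊢
  have hrμ : r = μ ^ 2 := by
    have h3 := h1 a a
    rw [hFG] at h3
    simp only [Pi.smul_apply, smul_eq_mul] at h3
    refine mul_right_cancel₀ (mul_ne_zero ha ha) ?_
    rw [← h3]
    ring
  rw [Submodule.mem_span_singleton]
  refine ⟨(fderiv ℂ F t (Pi.single i 1) a - μ * fderiv ℂ G t' (Pi.single i 1) a) / F t a, ?_⟩
  funext b
  rw [Pi.smul_apply, smul_eq_mul, Pi.sub_apply, Pi.smul_apply, smul_eq_mul, div_mul_eq_mul_div, div_eq_iff hFa]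
  have h5 := h2 a b i
  have h6 : F t a = μ * G t' a := congrFun hFG a
  have h7 : F t b = μ * G t' b := congrFun hFG b
  rw [hrμ] at h5
  rw [h6, h7] at h5 ⊢
  linear_combination - h5

/-! ## flat maps are immersions -/

private theorem Prj_ev {V : Type*} [NormedAddCommGroup V] [NormedSpace ℂ V] {M : ℕ} {Φ : V → PN M} {F : V → Fin (M + 1) → ℂ} {q : V} (hF : Hl Φ F q) : ∀ᶠ p in 𝓝 q, Hl Φ F p :=
  hF.1.eventually_analyticAt.and (eventually_eventually_nhds.2 hF.2)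

private theorem Prj_imm (hP : Homog P) (hm : 1 ≤ m) {c : (Fin d → ℂ) → Fin J → ℂ} {E : (Fin d → ℂ) → PN N} (hE : IsFlat (m := fun _ => m) θ c E)
    {F : (Fin d → ℂ) → Fin (N + 1) → ℂ} {t w : Fin d → ℂ} (hF : Hl E F t) (hw : fderiv ℂ F t w ∈ Submodule.span ℂ {F t}) : w = 0 := by
  by_contra hne
  refine hE.ne w hne (funext fun k => ?_)
  rw [← hE.flat t w F hF k]
  obtain ⟨a, ha⟩ := Submodule.mem_span_singleton.1 hw
  have hx : F t ∈ cone P := (hl_cone hP hF hE.mem).self_of_nhds.1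
  have h1 := (θ k).add_smul (F t) hx 0 (Submodule.zero_mem _) a
  have h2 := (θ k).smul (F t) hx 0 (Submodule.zero_mem _) 0
  rw [zero_add] at h1
  rw [smul_zero, zero_pow (by omega), zero_mul] at h2
  rw [← ha, h1, h2]
  rfl

private theorem Prj_discrete (hP : Homog P) (hm : 1 ≤ m) {c : (Fin d → ℂ) → Fin J → ℂ} {E : (Fin d → ℂ) → PN N} (hE : IsFlat (m := fun _ => m) θ c E) :
    DiscreteTopology (periods E) := by
  obtain ⟨F, hF⟩ := hE.hol 0
  obtain ⟨hF0, hEF⟩ := hF.2.self_of_nhds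
  obtain ⟨a, ha⟩ : ∃ a, F 0 a ≠ 0 := Function.ne_iff.1 hF0
  have hd : HasFDerivAt F (fderiv ℂ F 0) 0 := hF.1.differentiableAt.hasFDerivAt
  -- the map `s ↦ F_a(0) F(s) - F_a(s) F(0)`
  obtain ⟨L, hL⟩ : ∃ L : (Fin (N + 1) → ℂ) →L[ℂ] (Fin (N + 1) → ℂ), ∀ y, L y = F 0 a • y - y a • F 0 :=
    ⟨F 0 a • ContinuousLinearMap.id ℂ _ - (ContinuousLinearMap.proj a).smulRight (F 0), fun y => by simp⟩
  have hφ : HasFDerivAt (fun s => L (F s)) (L.comp (fderiv ℂ F 0)) 0 := L.hasFDerivAt.comp 0 hd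
  have hinj : LinearMap.ker (L.comp (fderiv ℂ F 0) : (Fin d → ℂ) →ₗ[ℂ] (Fin (N + 1) → ℂ)) = ⊥ := by
    rw [LinearMap.ker_eq_bot']
    intro w hw
    have h1 : L (fderiv ℂ F 0 w) = 0 := hw
    rw [hL, sub_eq_zero] at h1
    refine Prj_imm hP hm hE hF (Submodule.mem_span_singleton.2 ⟨(F 0 a)⁻¹ * fderiv ℂ F 0 w a, ?_⟩)
    rw [mul_smul, ← h1, smul_smul, inv_mul_cancel₀ ha, one_smul]
  obtain ⟨K, -, hK⟩ := (L.comp (fderiv ℂ F 0) : (Fin d → ℂ) →ₗ[ℂ] (Fin (N + 1) → ℂ)).exists_antilipschitzWith hinj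
  have hev : ∀ᶠ z in 𝓝[≠] (0 : Fin d → ℂ), L (F z) ≠ 0 := hφ.eventually_ne (c := 0) ⟨K, hK⟩
  rw [eventually_nhdsWithin_iff] at hev
  have hev2 : ∀ᶠ z in 𝓝 (0 : Fin d → ℂ), z ∈ periods E → z = 0 := by
    filter_upwards [hev, hF.2] with z hz hz2 hzp
    by_contra hne
    refine hz hne ?_
    have h1 : E (0 + z) = E 0 := hzp 0
    rw [zero_add] at h1
    obtain ⟨hz0, hz3⟩ := hz2
    rw [h1, hEF, Projectivization.mk_eq_mk_iff'] at hz3
    obtain ⟨r, hr⟩ := hz3
    rw [hL, ← hr]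
    simp only [Pi.smul_apply, smul_eq_mul, smul_smul]
    rw [mul_comm, sub_self]
  obtain ⟨U, hU, hUo, hU0⟩ := _root_.eventually_nhds_iff.1 hev2
  refine discreteTopology_of_isOpen_singleton_zero ?_
  have h2 : ({0} : Set (periods E)) = (fun x : periods E => (x : Fin d → ℂ)) ⁻¹' U := by
    ext x
    simp only [Set.mem_singleton_iff, Set.mem_preimage]
    constructor
    · rintro rfl
      exact hU0
    · intro hx
      exact Subtype.ext (hU _ hx x.2)
  rw [h2]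
  exact hUo.preimage continuous_subtype_val

theorem isAbelianVariety_periods (hd : 1 ≤ d) (hP : Homog P) (hθ : Polar (m := fun _ => m) θ) (hm : 1 ≤ m) (f : Frame (m := fun _ => m) θ) {c : (Fin d → ℂ) → Fin J → ℂ}
    {E : (Fin d → ℂ) → PN N} (hE : IsFlat (m := fun _ => m) θ c E) (hc : ∃ R : ℝ, ∀ t : Fin d → ℂ, ∃ τ ∈ periods E, ‖t - τ‖ ≤ R) : IsAbelianVariety d (periods E) := by
  refine ⟨hd, Prj_discrete hP hm hE, hc, ?_⟩
  obtain ⟨M, hM⟩ : ∃ M, Fintype.card (Fin (N + 1) × Fin (N + 1) × Option (Fin d)) = M + 1 :=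
    ⟨_, (Nat.succ_pred_eq_of_pos Fintype.card_pos).symm⟩
  obtain ⟨e, -⟩ : ∃ _ : Fin (M + 1) ≃ Fin (N + 1) × Fin (N + 1) × Option (Fin d), True := ⟨((Fintype.equivFin _).trans (finCongr hM)).symm, trivial⟩
  choose F hF using hE.hol
  have hF0 : ∀ t, F t t ≠ 0 := fun t => (hF t).2.self_of_nhds.1
  obtain ⟨q, hq⟩ : ∃ q : ((Fin d → ℂ) → Fin (N + 1) → ℂ) → (Fin d → ℂ) → Fin (M + 1) → ℂ, ∀ G t j, q G t j = qd G t (e j) := ⟨fun G t j => qd G t (e j), fun _ _ _ => rfl⟩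
  have hq0 : ∀ G t, G t ≠ 0 → q G t ≠ 0 := by
    intro G t hG h0
    refine qd_ne hG (funext fun p => ?_)
    have h1 := congrFun h0 (e.symm p)
    rw [hq, Equiv.apply_symm_apply] at h1
    exact h1
  have hqs : ∀ {G G' : (Fin d → ℂ) → Fin (N + 1) → ℂ} {t : Fin d → ℂ}, Hl E G t → Hl E G' t → ∃ r : ℂ, r • q G t = q G' t := by
    intro G G' t hG hG'
    obtain ⟨g, hg, hg0, hgG⟩ := hl_factor hG hG'
    refine ⟨(g t) ^ 2, funext fun j => ?_⟩
    rw [Pi.smul_apply, hq, hq, qd_smul hG.1 hg hgG]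
    rfl
  obtain ⟨Ψ, hΨ⟩ : ∃ Ψ : (Fin d → ℂ) → PN M, ∀ t, Ψ t = Projectivization.mk ℂ (q (F t) t) (hq0 _ _ (hF0 t)) := ⟨fun t => Projectivization.mk ℂ (q (F t) t) (hq0 _ _ (hF0 t)), fun _ => rfl⟩
  have hΨG : ∀ {G : (Fin d → ℂ) → Fin (N + 1) → ℂ} {t : Fin d → ℂ}, Hl E G t → ∃ h : q G t ≠ 0, Ψ t = Projectivization.mk ℂ (q G t) h := by
    intro G t hG
    refine ⟨hq0 _ _ hG.2.self_of_nhds.1, ?_⟩
    rw [hΨ, Projectivization.mk_eq_mk_iff']
    exact hqs hG (hF t)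
  have hΨl : ∀ {G : (Fin d → ℂ) → Fin (N + 1) → ℂ} {t : Fin d → ℂ}, Hl E G t → Hl Ψ (q G) t := by
    intro G t hG
    refine ⟨?_, ?_⟩
    · rw [analyticAt_pi_iff]
      intro j
      have h1 : (fun s => q G s j) = fun s => qd G s (e j) := funext fun s => hq G s j
      show AnalyticAt ℂ (fun s => q G s j) t
      rw [h1]
      exact qd_an hG.1 _
    · filter_upwards [Prj_ev hG] with s hs
      exact hΨG hs
  refine ⟨M, Ψ, fun t _ => ⟨q (F t), hΨl (hF t)⟩, fun t t' => ⟨fun h => ?_, fun h => ?_⟩, fun t F' hF' w hw => ?_⟩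
  · -- equal points: equal frames
    rw [hΨ t, hΨ t', Projectivization.mk_eq_mk_iff'] at h
    obtain ⟨r, hr⟩ := h
    have h1 : qd (F t) t = r • qd (F t') t' := by
      funext p
      have h2 := congrFun hr (e.symm p)
      rw [Pi.smul_apply, hq, hq, Equiv.apply_symm_apply] at h2
      exact h2.symm
    obtain ⟨μ, hμ, h2, h3⟩ := qd_eq (hF0 t') (hF0 t) h1
    refine period_of_sameFrame hP hθ hm f hE ⟨F t, fun s => μ • F t' s, hF t, ⟨(analyticAt_const (v := μ)).fun_smul (hF t').1, ?_⟩, h2, ?_⟩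
    · filter_upwards [(hF t').2] with s hs
      obtain ⟨hs0, hs1⟩ := hs
      refine ⟨smul_ne_zero hμ hs0, ?_⟩
      rw [hs1, Projectivization.mk_eq_mk_iff']
      exact ⟨μ⁻¹, by rw [smul_smul, inv_mul_cancel₀ hμ, one_smul]⟩
    · intro w
      have h4 : fderiv ℂ (fun s => μ • F t' s) t' = μ • fderiv ℂ (F t') t' := fderiv_fun_const_smul (hF t').1.differentiableAt μ
      rw [h4]
      have h5 : w = ∑ i, w i • (Pi.single i 1 : Fin d → ℂ) := (pi_eq_sum_univ' w).trans (Finset.sum_congr rfl fun i _ => by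
        congr 1)
      rw [h5]
      simp only [map_sum, map_smul, _root_.smul_apply]
      rw [← Finset.sum_sub_distrib]
      refine Submodule.sum_mem _ fun i _ => ?_
      have h6 : w i • fderiv ℂ (F t) t (Pi.single i 1) - w i • μ • fderiv ℂ (F t') t' (Pi.single i 1) = w i • (fderiv ℂ (F t) t (Pi.single i 1) - μ • fderiv ℂ (F t') t' (Pi.single i 1)) := by
        rw [smul_sub]
      rw [h6]
      exact Submodule.smul_mem _ _ (h3 i)
  · -- periods
    have hG : Hl E (fun s => F t (s + (t - t'))) t' := by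
      have hsh : AnalyticAt ℂ (fun s : Fin d → ℂ => s + (t - t')) t' := analyticAt_id.add analyticAt_const
      have h1 : t' + (t - t') = t := by abel
      refine ⟨AnalyticAt.comp (g := F t) (f := fun s : Fin d → ℂ => s + (t - t')) (by
        show AnalyticAt ℂ (F t) (t' + (t - t'))
        rw [h1]
        exact (hF t).1) hsh, ?_⟩
      have h2 : Tendsto (fun s : Fin d → ℂ => s + (t - t')) (𝓝 t') (𝓝 t) := by
        have h3 := hsh.continuousAt.tendsto
        rwa [h1] at h3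
      filter_upwards [h2.eventually (hF t).2] with s hs
      obtain ⟨hs0, hs1⟩ := hs
      exact ⟨hs0, by rw [← h s, hs1]⟩
    obtain ⟨h0, h1⟩ := hΨG hG
    rw [h1, hΨ t]
    congr 1
    funext j
    rw [hq, hq]
    have h2 : fderiv ℂ (fun s => F t (s + (t - t'))) t' = fderiv ℂ (F t) t := by
      rw [fderiv_comp_add_right]
      congr 1
      abel
    have h3 : F t (t' + (t - t')) = F t t := by
      congr 1
      abel
    obtain ⟨a, b, i⟩ := e j
    rcases i with _ | i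
    · rw [qd_none, qd_none, h3]
    · rw [qd_some, qd_some, h2, h3]
  · -- immersion
    obtain ⟨g, hg, hg0, hgF⟩ := hl_factor (hΨl (hF t)) hF'
    have hqa := (hΨl (hF t)).1
    have h1 := Prj_dfac hqa hg hgF w
    obtain ⟨r, hr⟩ := Submodule.mem_span_singleton.1 hw
    have h2 : F' t = g t • q (F t) t := hgF.self_of_nhds
    obtain ⟨ρ, hρ⟩ : ∃ ρ : ℂ, fderiv ℂ (q (F t)) t w = ρ • q (F t) t := by
      refine ⟨(g t)⁻¹ * (r * g t - fderiv ℂ g t w), ?_⟩
      rw [mul_smul, sub_smul, mul_smul, ← h2, hr, h1, add_sub_cancel_right, smul_smul, inv_mul_cancel₀ hg0, one_smul]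
    have hFi : ∀ b, AnalyticAt ℂ (fun s => F t s b) t := fun b => (analyticAt_pi_iff.1 (hF t).1) b
    have hFd : ∀ b, HasFDerivAt (fun s => F t s b) ((ContinuousLinearMap.proj b).comp (fderiv ℂ (F t) t)) t := fun b =>
      (ContinuousLinearMap.proj (R := ℂ) (φ := fun _ : Fin (N + 1) => ℂ) b).hasFDerivAt.comp t (hF t).1.differentiableAt.hasFDerivAt
    have h3 : ∀ a b, F t t a * fderiv ℂ (F t) t w b + F t t b * fderiv ℂ (F t) t w a = ρ * (F t t a * F t t b) := by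
      intro a b
      have h4 := congrFun hρ (e.symm (a, b, none))
      rw [Pi.smul_apply, hq, Equiv.apply_symm_apply, qd_none, smul_eq_mul] at h4
      rw [← h4]
      have h5 : HasFDerivAt (fun s => q (F t) s (e.symm (a, b, none))) ((ContinuousLinearMap.proj (e.symm (a, b, none))).comp (fderiv ℂ (q (F t)) t)) t :=
        (ContinuousLinearMap.proj (R := ℂ) (φ := fun _ : Fin (M + 1) => ℂ) (e.symm (a, b, none))).hasFDerivAt.comp t hqa.differentiableAt.hasFDerivAt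
      have h6 : (fun s => q (F t) s (e.symm (a, b, none))) = fun s => F t s a * F t s b := by
        funext s
        rw [hq, Equiv.apply_symm_apply, qd_none]
      rw [h6] at h5
      have h7 := h5.unique ((hFd a).mul (hFd b))
      have h8 := congrArg (fun A : (Fin d → ℂ) →L[ℂ] ℂ => A w) h7
      simp only [ContinuousLinearMap.comp_apply, ContinuousLinearMap.proj_apply, _root_.add_apply, _root_.smul_apply, smul_eq_mul] at h8
      exact h8.symm
    obtain ⟨a, ha⟩ : ∃ a, F t t a ≠ 0 := Function.ne_iff.1 (hF0 t)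
    refine Prj_imm hP hm hE (hF t) (Submodule.mem_span_singleton.2 ⟨ρ / 2, funext fun b => ?_⟩)
    have h9 : fderiv ℂ (F t) t w a = ρ / 2 * F t t a := by
      refine mul_left_cancel₀ ha ?_
      linear_combination (1 / 2 : ℂ) * h3 a a
    rw [Pi.smul_apply, smul_eq_mul]
    refine mul_left_cancel₀ ha ?_
    linear_combination (F t t b) * h9 - h3 a b

end Pool.Agent.GV
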