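import Pool.Agent.GV.Plane
import Pool.Agent.GV.Expo
import Pool.Agent.GV.Inv
import Pool.Agent.GV.Flt
import Pool.Agent.GV.Coc
import Pool.Agent.GV.Prj
import Pool.Agent.GT.Res
import Pool.Agent.GG.Use

/-!
# GV Fin: subvarieties which are not of general type are covered by abelian varieties

PROOF of `exists_abelian_self`: `exists_plane` gives the point `x` and the tangent vectors `e`; `exists_exp` the exponential map `E`; `exp_zero` gives `AlgDim d E`, `exp_flat`; `periods_cocompact` and `isAbelianVariety_periods`.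
`exists_abelian`: the restriction of the symmetric differentials (GT/Res).
-/

set_option autoImplicit false

open MvPolynomial Topology Filter Metric
open Pool.Agent.H13.SM (conTan cone)
open Pool.Agent.H17 (PN VanishesAt)
open Pool.Agent.H17BP (vanishesAt_mk)
open Pool.Agent.H17EF (projVar)
open Pool.Agent.H17LG.Variety (FunField ratio IsLogGeneralType)
open Pool.Agent.H62.FC (Homog closureIn)
open Pool.Agent.H66.Lang (HolomorphicIntoPN)
open Pool.Agent.GG Pool.Agent.GB

namespace Pool.Agent.GV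

variable {N : ℕ} {P Q : Ideal (MvPolynomial (Fin (N + 1)) ℂ)} {J m : ℕ} {θ : Fin J → SymSec P m} {d : ℕ}

/-- a discrete subgroup of `ℂ^d`, `d ≥ 1`, is not everything -/
private theorem Fin_discrete (hd : 1 ≤ d) {Λ : AddSubgroup (Fin d → ℂ)} (h : DiscreteTopology Λ) : ∃ τ, τ ∉ Λ := by
  by_contra hcon
  push Not at hcon
  have h1 : IsOpen ({0} : Set Λ) := isOpen_discrete _
  rw [Metric.isOpen_singleton_iff] at h1
  obtain ⟨ε, hε, h2⟩ := h1
  have h3 : ‖(fun _ : Fin d => ((ε / 2 : ℝ) : ℂ))‖ ≤ ε / 2 := by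
    rw [pi_norm_le_iff_of_nonneg (by positivity)]
    intro i
    rw [Complex.norm_real, Real.norm_of_nonneg (by positivity)]
  have h4 := h2 ⟨fun _ => ((ε / 2 : ℝ) : ℂ), hcon _⟩ (by
    rw [Subtype.dist_eq, dist_eq_norm]
    refine lt_of_le_of_lt ?_ (half_lt_self hε)
    simpa using h3)
  have h5 : (fun _ : Fin d => ((ε / 2 : ℝ) : ℂ)) = 0 := congrArg Subtype.val h4
  have h6 := congrFun h5 ⟨0, by omega⟩
  have h7 : ((ε / 2 : ℝ) : ℂ) = 0 := h6
  rw [Complex.ofReal_eq_zero] at h7
  linarith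

private theorem Fin_mem {m : ℕ} {θ : Fin J → SymSec P m} {c : Fin J → ℂ} {g : ℂ → PN N} {z : ℂ} (h : ArcAt (m := fun _ => m) θ c g z) : g z ∈ projVar P := by
  obtain ⟨F, -, hF, hF2⟩ := h
  obtain ⟨h0, h1⟩ := hF.self_of_nhds
  have h2 := (hF2.self_of_nhds).1
  intro p hp n hn
  rw [h1, vanishesAt_mk hn h0]
  exact h2.2 p hp

/-- **Theorem C.**  If the projective variety `X` given by `P`, of dimension `k ≥ 1`, is not of general type, and `q` is a form which is not zero on it, then there is a nonconstant morphism from an abelian variety to `X` whose image is not contained in the zero set of `q`. -/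
theorem exists_abelian_self [P.IsPrime] (hP : Homog P) (hm : 1 ≤ m) (hgen : Generated θ) {k : ℕ} (hk : 1 ≤ k) (hz : ∃ z : Fin k → FunField P, IsTranscendenceBasis ℂ z)
    (hn : ¬ IsLogGeneralType (K := FunField P) (k := k) fun _ => False) {q : MvPolynomial (Fin (N + 1)) ℂ} {n : ℕ} (hq : q.IsHomogeneous n) (hqP : q ∉ P) :
    ∃ A : AbelianMap N, (∀ t, A.f t ∈ projVar P) ∧ ¬ VanishesAt q (A.f 0) := by
  obtain ⟨f⟩ := exists_frame (m := fun _ => m) θ
  have hθ := polar_of_generated hm hgen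
  obtain ⟨a, d, x, e, hd, hx, hxa, hxq, he, hli, hcr, hI⟩ := exists_plane hP hm hgen f hk hz hn hq hqP
  obtain ⟨E, hE⟩ := exists_exp hP hθ hm f hx hxa (fun j => (he j).1) (fun j => (he j).2) hli fun t K l n => hcr K l n t
  have hEP : ∀ t, E t ∈ projVar P := by
    intro t
    by_cases ht : t = 0
    · obtain ⟨h0, h1⟩ := hE.zero
      rw [ht, h1]
      intro p hp n hn
      rw [vanishesAt_mk hn h0]
      exact hx.2 p hp
    · have h1 := Fin_mem (hE.arc t ht 1)
      simpa using h1
  have hA : AlgDim d E := by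
    intro I
    obtain ⟨M, R, hR, hR0, hRv⟩ := hI I
    refine ⟨R, M, hR0, hR, ?_⟩
    refine exp_zero hP hθ hm f hx hxa (fun j => (he j).1) (fun j => (he j).2) hli hE (hR.rename_isHomogeneous) fun t K n => ?_
    have h1 : rename (Sum.inl : Fin (N + 1) → Ph N) (rename I R) = rename (fun i => (Sum.inl (I i) : Ph N)) R := by
      rw [rename_rename]
      rfl
    rw [h1]
    exact hRv K n t
  have hfl := exp_flat hd hP hθ hm f hx hxa (fun j => (he j).1) (fun j => (he j).2) hli hE hEP
  have hab := isAbelianVariety_periods hd hP hθ hm f hfl (periods_cocompact hP hθ hm f hfl hA)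
  obtain ⟨τ, hτ⟩ := Fin_discrete hd hab.discrete
  have hnc : ∃ t t', E t ≠ E t' := by
    by_contra hcon
    push Not at hcon
    exact hτ fun t => hcon _ _
  refine ⟨⟨d, periods E, hab, E, fun p _ => hfl.hol p, fun t τ hτ => hτ t, hnc⟩, hEP, ?_⟩
  obtain ⟨h0, h1⟩ := hE.zero
  change ¬ VanishesAt q (E 0)
  rw [h1, vanishesAt_mk hq h0]
  exact hxq

/-- **Theorem C** for the closed subvariety given by `Q`. -/
theorem exists_abelian (hm : 1 ≤ m) (hgen : Generated θ) [Q.IsPrime] (hQ : Homog Q)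
    (hPQ : P ≤ Q) {k : ℕ} (hk : 1 ≤ k) (hz : ∃ z : Fin k → FunField Q, IsTranscendenceBasis ℂ z)
    (hn : ¬ IsLogGeneralType (K := FunField Q) (k := k) fun _ => False) {q : MvPolynomial (Fin (N + 1)) ℂ} {n : ℕ} (hq : q.IsHomogeneous n) (hqQ : q ∉ Q) :
    ∃ A : AbelianMap N, (∀ t, A.f t ∈ projVar Q) ∧ ¬ VanishesAt q (A.f 0) :=
  exists_abelian_self hQ hm (Pool.Agent.GT.generated_res hPQ hgen) hk hz hn hq hqQ

/-- the images of the abelian varieties are Zariski dense in a subvariety which is not of general type -/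
theorem abelianSet_eq (hm : 1 ≤ m) (hgen : Generated θ) [Q.IsPrime] (hQ : Homog Q)
    (hPQ : P ≤ Q) {k : ℕ} (hk : 1 ≤ k) (hz : ∃ z : Fin k → FunField Q, IsTranscendenceBasis ℂ z)
    (hn : ¬ IsLogGeneralType (K := FunField Q) (k := k) fun _ => False) : abelianSet (projVar Q) = projVar Q := by
  refine Set.Subset.antisymm (fun y hy => hy.1) fun y hy => ⟨hy, fun n R hR hv => ?_⟩
  by_cases hRQ : R ∈ Q
  · exact hy R hRQ n hR
  · obtain ⟨A, hA, hA0⟩ := exists_abelian hm hgen hQ hPQ hk hz hn hR hRQ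
    exact absurd (hv _ ⟨A, hA, 0, rfl⟩) hA0

end Pool.Agent.GV
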