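import Pool.Agent.GV.Jac

/-!
# GV Bdd: the derivative of the exponential map is bounded

PROOF.  `wl (F t) (dF_t (w)) ≤ C ‖w‖` for `t ≠ 0`: `jac_pol`, `le_pol` with `v = dF_t (t)`, `‖pol (θ k) x (vv e t) (vv e w)‖ ≤ C ‖t‖ ^ (m - 1) ‖w‖`, and `wl (F t) (dF_t (t)) ≥ c ‖t‖`: `(θ k).toFun (F t) (dF_t (t)) = (θ k).toFun x (vv e t)` (`arc` at `z = 1`), `toFun_le`, `le_toFun` at `x`
(`wl x (vv e t) ≥ c ‖t‖`, because `x`, `e_1, …, e_d` are independent: `x_a = 1`, `e_j a = 0`).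
-/

set_option autoImplicit false

open MvPolynomial Topology Filter Metric
open Pool.Agent.H13.SM (conTan cone)
open Pool.Agent.H17 (PN VanishesAt)
open Pool.Agent.H17EF (projVar)
open Pool.Agent.H17LG.Variety (FunField ratio IsLogGeneralType)
open Pool.Agent.H62.FC (Homog closureIn)
open Pool.Agent.H66.Lang (HolomorphicIntoPN)
open Pool.Agent.GG Pool.Agent.GB

namespace Pool.Agent.GV

variable {N : ℕ} {P Q : Ideal (MvPolynomial (Fin (N + 1)) ℂ)} {J m : ℕ} {θ : Fin J → SymSec P m} {d : ℕ}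
private theorem Bdd_wl_le {x : Fin (N + 1) → ℂ} (hx : x ≠ 0) (v : Fin (N + 1) → ℂ) : wl x v ≤ 2 / ‖x‖ * ‖v‖ := by
  have h0 : 0 < ‖x‖ := norm_pos_iff.2 hx
  have h1 : ‖fun p : Fin (N + 1) × Fin (N + 1) => x p.1 * v p.2 - x p.2 * v p.1‖ ≤ 2 * ‖x‖ * ‖v‖ := by
    refine (pi_norm_le_iff_of_nonneg (by positivity)).2 fun p => ?_
    have h2 := norm_le_pi_norm x p.1
    have h3 := norm_le_pi_norm x p.2
    have h4 := norm_le_pi_norm v p.1
    have h5 := norm_le_pi_norm v p.2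
    calc ‖x p.1 * v p.2 - x p.2 * v p.1‖ ≤ ‖x p.1 * v p.2‖ + ‖x p.2 * v p.1‖ := norm_sub_le _ _
      _ = ‖x p.1‖ * ‖v p.2‖ + ‖x p.2‖ * ‖v p.1‖ := by rw [norm_mul, norm_mul]
      _ ≤ ‖x‖ * ‖v‖ + ‖x‖ * ‖v‖ := by gcongr
      _ = 2 * ‖x‖ * ‖v‖ := by ring
  unfold wl
  calc _ ≤ 2 * ‖x‖ * ‖v‖ / ‖x‖ ^ 2 := by gcongr
    _ = 2 / ‖x‖ * ‖v‖ := by field_simp

private theorem Bdd_le_wl {x v : Fin (N + 1) → ℂ} {a : Fin (N + 1)} (hxa : x a = 1) (hva : v a = 0) : ‖v‖ ≤ ‖x‖ ^ 2 * wl x v := by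
  have hx : x ≠ 0 := fun h => by simp [h] at hxa
  have h0 : 0 < ‖x‖ := norm_pos_iff.2 hx
  have h1 : ‖v‖ ≤ ‖fun p : Fin (N + 1) × Fin (N + 1) => x p.1 * v p.2 - x p.2 * v p.1‖ := by
    refine (pi_norm_le_iff_of_nonneg (norm_nonneg _)).2 fun b => ?_
    have h2 := norm_le_pi_norm (fun p : Fin (N + 1) × Fin (N + 1) => x p.1 * v p.2 - x p.2 * v p.1) (a, b)
    simpa [hxa, hva] using h2
  unfold wl
  rw [mul_div_cancel₀ _ (by positivity)]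
  exact h1

private theorem Bdd_vv {e : Fin d → Fin (N + 1) → ℂ} (t : Fin d → ℂ) : ‖vv e t‖ ≤ (∑ j, ‖e j‖) * ‖t‖ := by
  unfold vv
  calc ‖∑ j, t j • e j‖ ≤ ∑ j, ‖t j • e j‖ := norm_sum_le _ _
    _ ≤ ∑ j, ‖e j‖ * ‖t‖ := by
        refine Finset.sum_le_sum fun j _ => ?_
        rw [norm_smul, mul_comm]
        exact mul_le_mul_of_nonneg_left (norm_le_pi_norm t j) (norm_nonneg _)
    _ = (∑ j, ‖e j‖) * ‖t‖ := by rw [Finset.sum_mul]

private theorem Bdd_anti {e : Fin d → Fin (N + 1) → ℂ} (hli : LinearIndependent ℂ e) : ∃ K : ℝ, 0 < K ∧ ∀ t : Fin d → ℂ, ‖t‖ ≤ K * ‖vv e t‖ := by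
  have h1 : LinearMap.ker (Fintype.linearCombination ℂ e) = ⊥ := by
    rw [LinearMap.ker_eq_bot']
    intro t ht
    have h2 := Fintype.linearIndependent_iff.1 hli t (by simpa [Fintype.linearCombination_apply] using ht)
    exact funext h2
  obtain ⟨K, hK, h3⟩ := (Fintype.linearCombination ℂ e).exists_antilipschitzWith h1
  refine ⟨K, by exact_mod_cast hK, fun t => ?_⟩
  have h4 := h3.le_mul_dist t 0
  rw [map_zero, dist_zero_right, dist_zero_right, Fintype.linearCombination_apply] at h4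
  exact h4

private theorem Bdd_tan {x : Fin (N + 1) → ℂ} {e : Fin d → Fin (N + 1) → ℂ} (he : ∀ j, e j ∈ conTan P x) (t : Fin d → ℂ) : vv e t ∈ conTan P x :=
  Submodule.sum_mem _ fun j _ => Submodule.smul_mem _ _ (he j)

private theorem Bdd_arc (hP : Homog P) {x : Fin (N + 1) → ℂ} {e : Fin d → Fin (N + 1) → ℂ} {E : (Fin d → ℂ) → PN N}
    (hE : IsExp (m := fun _ => m) θ x e E) (hEP : ∀ t, E t ∈ projVar P) {t : Fin d → ℂ} (ht : t ≠ 0) {F : (Fin d → ℂ) → Fin (N + 1) → ℂ}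
    (hF : Hl E F t) (k : Fin J) : (θ k).toFun (F t) (fderiv ℂ F t t) = (θ k).toFun x (vv e t) := by
  obtain ⟨G, hG, hr, hc⟩ := hE.arc t ht 1
  have h1t : (1 : ℂ) • t = t := one_smul _ _
  have hl : HasFDerivAt (fun z : ℂ => z • t) ((ContinuousLinearMap.id ℂ ℂ).smulRight t) 1 := (hasFDerivAt_id (𝕜 := ℂ) (1 : ℂ)).smul_const t
  have han : AnalyticAt ℂ (fun z : ℂ => z • t) 1 := analyticAt_id.smul analyticAt_const
  have hF1 : AnalyticAt ℂ F ((fun z : ℂ => z • t) 1) := by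
    rw [show (fun z : ℂ => z • t) 1 = t from h1t]
    exact hF.1
  have hG' : Hl (fun w : ℂ => E (w • t)) G 1 := ⟨hG, hr⟩
  have hF' : Hl (fun w : ℂ => E (w • t)) (fun z => F (z • t)) 1 := by
    refine ⟨AnalyticAt.comp (g := F) (f := fun z : ℂ => z • t) hF1 han, ?_⟩
    have h2 : Tendsto (fun z : ℂ => z • t) (𝓝 1) (𝓝 t) := by
      have := han.continuousAt.tendsto
      simpa using this
    exact h2.eventually hF.2
  have h3 := (pol_hl hP (s := θ k) hF' hG' (fun p => hEP _) 1 1).2.1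
  have h4 : fderiv ℂ (fun z : ℂ => F (z • t)) 1 1 = fderiv ℂ F t t := by
    have h5 : HasFDerivAt F (fderiv ℂ F t) ((fun z : ℂ => z • t) 1) := by
      rw [show (fun z : ℂ => z • t) 1 = t from h1t]
      exact hF.1.differentiableAt.hasFDerivAt
    have h6 := h5.comp (1 : ℂ) hl
    have h7 : fderiv ℂ (fun z : ℂ => F (z • t)) 1 = (fderiv ℂ F t).comp ((ContinuousLinearMap.id ℂ ℂ).smulRight t) := h6.fderiv
    rw [h7]
    simp
  rw [h4] at h3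
  have h8 : (θ k).toFun (G 1) (deriv G 1) = (θ k).toFun x (vv e t) := (hc.self_of_nhds).2 k
  rw [← h8, ← fderiv_apply_one_eq_deriv, ← h3, h1t]

theorem exp_bdd (hP : Homog P) (hθ : Polar (m := fun _ => m) θ) (hm : 1 ≤ m) (f : Frame (m := fun _ => m) θ) {a : Fin (N + 1)} {x : Fin (N + 1) → ℂ}
    {e : Fin d → Fin (N + 1) → ℂ} (hx : x ∈ cone P) (hxa : x a = 1) (he : ∀ j, e j ∈ conTan P x) (hea : ∀ j, e j a = 0) (hli : LinearIndependent ℂ e)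
    {E : (Fin d → ℂ) → PN N} (hE : IsExp (m := fun _ => m) θ x e E) (hEP : ∀ t, E t ∈ projVar P) :
    ∃ C : ℝ, ∀ t : Fin d → ℂ, t ≠ 0 → ∀ w F, Hl E F t → wl (F t) (fderiv ℂ F t w) ≤ C * ‖w‖ := by
  obtain ⟨C1, hC1, h1⟩ := le_pol hP hm hθ f
  obtain ⟨C2, hC2, h2⟩ := pol_le hP f
  obtain ⟨C3, hC3, h3⟩ := toFun_le hP hm f
  obtain ⟨C4, hC4, h4⟩ := le_toFun hP hm hθ f
  obtain ⟨K, hK, h5⟩ := Bdd_anti hli
  have hx0 : x ≠ 0 := hx.1
  have hxp : 0 < ‖x‖ := norm_pos_iff.2 hx0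
  set B : ℝ := 2 / ‖x‖ * ∑ j, ‖e j‖ with hB
  have hB0 : 0 ≤ B := by
    rw [hB]
    have : 0 ≤ ∑ j, ‖e j‖ := Finset.sum_nonneg fun j _ => norm_nonneg _
    positivity
  have hup : ∀ t : Fin d → ℂ, wl x (vv e t) ≤ B * ‖t‖ := fun t => by
    refine (Bdd_wl_le hx0 _).trans ?_
    rw [hB, mul_assoc]
    exact mul_le_mul_of_nonneg_left (Bdd_vv t) (by positivity)
  set D : ℝ := K * ‖x‖ ^ 2 * (C4 * C3 + 1) with hD
  have hD0 : 0 < D := by
    rw [hD]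
    have : 0 ≤ C4 * C3 := mul_nonneg hC4 hC3
    positivity
  have hwl : ∀ y v : Fin (N + 1) → ℂ, 0 ≤ wl y v := fun y v => by unfold wl; positivity
  refine ⟨C1 * (C2 * D ^ (m - 1) * B ^ m), fun t ht w F hF => ?_⟩
  obtain ⟨hFc, hFt⟩ := (hl_cone hP hF hEP).self_of_nhds
  have htp : 0 < ‖t‖ := norm_pos_iff.2 ht
  have hlow : ‖t‖ ≤ D * wl (F t) (fderiv ℂ F t t) := by
    have h6 := h4 x hx (vv e t) (Bdd_tan he t) (C3 * wl (F t) (fderiv ℂ F t t) ^ m) fun k => by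
      rw [← Bdd_arc hP hE hEP ht hF k]
      exact h3 k _ hFc _ (hFt t)
    have h7 : wl x (vv e t) ≤ (C4 * C3 + 1) * wl (F t) (fderiv ℂ F t t) := by
      have h8 : wl x (vv e t) ^ m ≤ ((C4 * C3 + 1) * wl (F t) (fderiv ℂ F t t)) ^ m := by
        refine h6.trans ?_
        rw [mul_pow, ← mul_assoc]
        refine mul_le_mul_of_nonneg_right ?_ (pow_nonneg (hwl _ _) _)
        have h9 : (1 : ℝ) ≤ C4 * C3 + 1 := by have := mul_nonneg hC4 hC3; linarith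
        exact (by linarith : C4 * C3 ≤ C4 * C3 + 1).trans (le_self_pow₀ h9 (by omega))
      exact le_of_pow_le_pow_left₀ (by omega) (mul_nonneg (by have := mul_nonneg hC4 hC3; linarith) (hwl _ _)) h8
    have h10 : vv e t a = 0 := by simp [vv, hea]
    calc ‖t‖ ≤ K * ‖vv e t‖ := h5 t
      _ ≤ K * (‖x‖ ^ 2 * wl x (vv e t)) := mul_le_mul_of_nonneg_left (Bdd_le_wl hxa h10) hK.le
      _ ≤ K * (‖x‖ ^ 2 * ((C4 * C3 + 1) * wl (F t) (fderiv ℂ F t t))) := by gcongr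
      _ = D * wl (F t) (fderiv ℂ F t t) := by rw [hD]; ring
  have h11 := h1 (F t) hFc _ (hFt t) _ (hFt w) (C2 * (B * ‖t‖) ^ (m - 1) * (B * ‖w‖)) fun k => by
    rw [jac_pol hP hθ hm f hx he hE hEP ht w hF k]
    refine (h2 k x hx _ (Bdd_tan he t) _ (Bdd_tan he w)).trans ?_
    have h12 : wl x (vv e t) ^ (m - 1) ≤ (B * ‖t‖) ^ (m - 1) := pow_le_pow_left₀ (hwl _ _) (hup t) _
    have h13 := hup w
    have h14 := hwl x (vv e w)
    have h15 := hwl x (vv e t)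
    gcongr
  have h16 : ‖t‖ ^ (m - 1) * wl (F t) (fderiv ℂ F t w) ≤ ‖t‖ ^ (m - 1) * (C1 * (C2 * D ^ (m - 1) * B ^ m) * ‖w‖) := by
    calc ‖t‖ ^ (m - 1) * wl (F t) (fderiv ℂ F t w) ≤ (D * wl (F t) (fderiv ℂ F t t)) ^ (m - 1) * wl (F t) (fderiv ℂ F t w) := by
          refine mul_le_mul_of_nonneg_right (pow_le_pow_left₀ htp.le hlow _) (hwl _ _)
      _ = D ^ (m - 1) * (wl (F t) (fderiv ℂ F t t) ^ (m - 1) * wl (F t) (fderiv ℂ F t w)) := by rw [mul_pow, mul_assoc]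
      _ ≤ D ^ (m - 1) * (C1 * (C2 * (B * ‖t‖) ^ (m - 1) * (B * ‖w‖))) := mul_le_mul_of_nonneg_left h11 (by positivity)
      _ = ‖t‖ ^ (m - 1) * (C1 * (C2 * D ^ (m - 1) * B ^ m) * ‖w‖) := by
          obtain ⟨n, rfl⟩ : ∃ n, m = n + 1 := ⟨m - 1, by omega⟩
          rw [Nat.add_sub_cancel, mul_pow, pow_succ]
          ring
  exact le_of_mul_le_mul_left h16 (by positivity)

end Pool.Agent.GV
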