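import Pool.Agent.MQ.FS

/-!
# GV LapC: `Δ_z |∂F/∂t|² = Δ_t |∂F/∂z|²` for the Fubini-Study lengths of a holomorphic map of two variables

Both sides are `Δ_z Δ_t log ‖F‖`.
-/

set_option autoImplicit false

open Topology Filter Complex Laplacian

noncomputable section

namespace Pool.Agent.GV

/-- the derivative in the direction `v` -/
def D (v : ℂ × ℂ) (f : ℂ × ℂ → ℝ) (p : ℂ × ℂ) : ℝ := fderiv ℝ f p v

theorem D_congr {f g : ℂ × ℂ → ℝ} {p : ℂ × ℂ} (h : f =ᶠ[𝓝 p] g) (v : ℂ × ℂ) : D v f =ᶠ[𝓝 p] D v g := by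
  filter_upwards [eventually_eventually_nhds.2 h] with q hq
  unfold D
  rw [Filter.EventuallyEq.fderiv_eq hq]

theorem contDiffAt_D {n : ℕ} {f : ℂ × ℂ → ℝ} {p : ℂ × ℂ} (hf : ContDiffAt ℝ (n + 1 : ℕ) f p) (v : ℂ × ℂ) : ContDiffAt ℝ n (D v f) p := by
  have h1 : ContDiffAt ℝ n (fderiv ℝ f) p := hf.fderiv_right (by exact_mod_cast le_rfl)
  exact h1.clm_apply contDiffAt_const

/-- second derivatives commute -/
theorem D_comm {f : ℂ × ℂ → ℝ} {p : ℂ × ℂ} (hf : ContDiffAt ℝ 2 f p) (v w : ℂ × ℂ) : D v (D w f) p = D w (D v f) p := by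
  have hd : DifferentiableAt ℝ (fderiv ℝ f) p := (hf.fderiv_right (m := 1) (by norm_num)).differentiableAt (by norm_num)
  have key : ∀ v w : ℂ × ℂ, D v (D w f) p = fderiv ℝ (fderiv ℝ f) p v w := by
    intro v w
    show fderiv ℝ (fun q => fderiv ℝ f q w) p v = _
    rw [fderiv_clm_apply hd (by fun_prop)]
    simp
  rw [key, key]
  exact (hf.isSymmSndFDerivAt (by simp)).eq v w

theorem D_comm_ev {f : ℂ × ℂ → ℝ} {p : ℂ × ℂ} (hf : ContDiffAt ℝ 2 f p) (v w : ℂ × ℂ) : D v (D w f) =ᶠ[𝓝 p] D w (D v f) := by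
  filter_upwards [hf.eventually (by simp)] with q hq
  exact D_comm hq v w

/-- a derivative commutes with a second derivative -/
theorem D_comm3 {f : ℂ × ℂ → ℝ} {p : ℂ × ℂ} (hf : ContDiffAt ℝ (3 : ℕ) f p) (v w : ℂ × ℂ) :
    D v (D w (D w f)) =ᶠ[𝓝 p] D w (D w (D v f)) := by
  have h2 : ContDiffAt ℝ 2 f p := hf.of_le (by norm_num)
  have h1 : ContDiffAt ℝ 2 (D w f) p := by
    have := contDiffAt_D (n := 2) hf w
    exact_mod_cast this
  exact (D_comm_ev h1 v w).trans (D_congr (D_comm_ev h2 v w) w)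

theorem D_comm4 {f : ℂ × ℂ → ℝ} {p : ℂ × ℂ} (hf : ContDiffAt ℝ (4 : ℕ) f p) (v w : ℂ × ℂ) :
    D v (D v (D w (D w f))) p = D w (D w (D v (D v f))) p := by
  have h1 := D_congr (D_comm3 (hf.of_le (by norm_num)) v w) v
  have h2 := D_comm3 (contDiffAt_D (n := 3) hf v) v w
  exact (h1.trans h2).eq_of_nhds

/-- the partial derivative of a slice -/
theorem fderiv_fst_slice {f : ℂ × ℂ → ℝ} {p : ℂ × ℂ} (hf : DifferentiableAt ℝ f p) (v : ℂ) :
    fderiv ℝ (fun w => f (w, p.2)) p.1 v = D (v, 0) f p := by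
  have h1 : HasFDerivAt (fun w : ℂ => (w, p.2)) (ContinuousLinearMap.inl ℝ ℂ ℂ) p.1 := hasFDerivAt_prodMk_left p.1 p.2
  have h2 : HasFDerivAt (fun w => f (w, p.2)) ((fderiv ℝ f p).comp (ContinuousLinearMap.inl ℝ ℂ ℂ)) p.1 :=
    HasFDerivAt.comp p.1 (by exact hf.hasFDerivAt) h1
  rw [h2.fderiv]
  rfl

theorem fderiv_snd_slice {f : ℂ × ℂ → ℝ} {p : ℂ × ℂ} (hf : DifferentiableAt ℝ f p) (v : ℂ) :
    fderiv ℝ (fun t => f (p.1, t)) p.2 v = D (0, v) f p := by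
  have h1 : HasFDerivAt (fun t : ℂ => (p.1, t)) (ContinuousLinearMap.inr ℝ ℂ ℂ) p.2 := hasFDerivAt_prodMk_right p.1 p.2
  have h2 : HasFDerivAt (fun t => f (p.1, t)) ((fderiv ℝ f p).comp (ContinuousLinearMap.inr ℝ ℂ ℂ)) p.2 :=
    HasFDerivAt.comp p.2 (by exact hf.hasFDerivAt) h1
  rw [h2.fderiv]
  rfl

/-- the Laplacian of a slice -/
theorem lap_fst {f : ℂ × ℂ → ℝ} {p : ℂ × ℂ} (hf : ContDiffAt ℝ 2 f p) :
    Δ (fun w => f (w, p.2)) p.1 = D (1, 0) (D (1, 0) f) p + D (I, 0) (D (I, 0) f) p := by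
  have hs : ContDiffAt ℝ 2 (fun w => f (w, p.2)) p.1 := by
    refine ContDiffAt.comp (g := f) p.1 (by exact hf) ?_
    exact contDiffAt_id.prodMk contDiffAt_const
  have hdf : ∀ᶠ q in 𝓝 p, DifferentiableAt ℝ f q := by
    filter_upwards [hf.eventually (by simp)] with q hq
    exact hq.differentiableAt (by norm_num)
  have key : ∀ v : ℂ, fderiv ℝ (fun w => fderiv ℝ (fun w => f (w, p.2)) w v) p.1 v = D (v, 0) (D (v, 0) f) p := by
    intro v
    have h1 : (fun w => fderiv ℝ (fun w => f (w, p.2)) w v) =ᶠ[𝓝 p.1] fun w => D (v, 0) f (w, p.2) := by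
      have h2 : Tendsto (fun w : ℂ => (w, p.2)) (𝓝 p.1) (𝓝 p) := (continuous_id.prodMk continuous_const).tendsto' _ _ rfl
      filter_upwards [h2.eventually hdf] with w hw
      exact fderiv_fst_slice (p := (w, p.2)) hw v
    rw [h1.fderiv_eq]
    have h3 : DifferentiableAt ℝ (D (v, 0) f) p := (contDiffAt_D (n := 1) (by exact_mod_cast hf) (v, 0)).differentiableAt (by norm_num)
    exact fderiv_fst_slice h3 v
  rw [Pool.Agent.H30M.lap_eq hs, key, key]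

theorem lap_snd {f : ℂ × ℂ → ℝ} {p : ℂ × ℂ} (hf : ContDiffAt ℝ 2 f p) :
    Δ (fun t => f (p.1, t)) p.2 = D (0, 1) (D (0, 1) f) p + D (0, I) (D (0, I) f) p := by
  have hs : ContDiffAt ℝ 2 (fun t => f (p.1, t)) p.2 := by
    refine ContDiffAt.comp (g := f) p.2 (by exact hf) ?_
    exact contDiffAt_const.prodMk contDiffAt_id
  have hdf : ∀ᶠ q in 𝓝 p, DifferentiableAt ℝ f q := by
    filter_upwards [hf.eventually (by simp)] with q hq
    exact hq.differentiableAt (by norm_num)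
  have key : ∀ v : ℂ, fderiv ℝ (fun t => fderiv ℝ (fun t => f (p.1, t)) t v) p.2 v = D (0, v) (D (0, v) f) p := by
    intro v
    have h1 : (fun t => fderiv ℝ (fun t => f (p.1, t)) t v) =ᶠ[𝓝 p.2] fun t => D (0, v) f (p.1, t) := by
      have h2 : Tendsto (fun t : ℂ => (p.1, t)) (𝓝 p.2) (𝓝 p) := (continuous_const.prodMk continuous_id).tendsto' _ _ rfl
      filter_upwards [h2.eventually hdf] with t ht
      exact fderiv_snd_slice (p := (p.1, t)) ht v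
    rw [h1.fderiv_eq]
    have h3 : DifferentiableAt ℝ (D (0, v) f) p := (contDiffAt_D (n := 1) (by exact_mod_cast hf) (0, v)).differentiableAt (by norm_num)
    exact fderiv_snd_slice h3 v
  rw [Pool.Agent.H30M.lap_eq hs, key, key]

/-- the Laplacians in the two variables commute -/
theorem lap_lap {f : ℂ × ℂ → ℝ} {p : ℂ × ℂ} (hf : ContDiffAt ℝ (4 : ℕ) f p) {a c : ℂ × ℂ → ℝ}
    (ha : ∀ᶠ q in 𝓝 p, a q = Δ (fun w => f (w, q.2)) q.1) (hc : ∀ᶠ q in 𝓝 p, c q = Δ (fun t => f (q.1, t)) q.2) :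
    ContDiffAt ℝ 2 a p ∧ ContDiffAt ℝ 2 c p ∧ Δ (fun w => c (w, p.2)) p.1 = Δ (fun t => a (p.1, t)) p.2 := by
  have hf2 : ∀ᶠ q in 𝓝 p, ContDiffAt ℝ 2 f q := by
    filter_upwards [(hf.of_le (m := 2) (by norm_num)).eventually (by simp)] with q hq using hq
  have hD : ∀ v w : ℂ × ℂ, ContDiffAt ℝ 2 (D v (D w f)) p := by
    intro v w
    have h1 := contDiffAt_D (n := 2) (contDiffAt_D (n := 3) hf w) v
    exact_mod_cast h1
  have ea : a =ᶠ[𝓝 p] fun q => D (1, 0) (D (1, 0) f) q + D (I, 0) (D (I, 0) f) q := by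
    filter_upwards [ha, hf2] with q h1 h2
    rw [h1, lap_fst h2]
  have ec : c =ᶠ[𝓝 p] fun q => D (0, 1) (D (0, 1) f) q + D (0, I) (D (0, I) f) q := by
    filter_upwards [hc, hf2] with q h1 h2
    rw [h1, lap_snd h2]
  have ha2 : ContDiffAt ℝ 2 a p := ((hD _ _).add (hD _ _)).congr_of_eventuallyEq ea
  have hc2 : ContDiffAt ℝ 2 c p := ((hD _ _).add (hD _ _)).congr_of_eventuallyEq ec
  refine ⟨ha2, hc2, ?_⟩
  rw [lap_fst hc2, lap_snd ha2]
  have hadd : ∀ (v : ℂ × ℂ) (g g' : ℂ × ℂ → ℝ), ContDiffAt ℝ 2 g p → ContDiffAt ℝ 2 g' p →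
      D v (D v (fun q => g q + g' q)) p = D v (D v g) p + D v (D v g') p := by
    intro v g g' hg hg'
    have h1 : D v (fun q => g q + g' q) =ᶠ[𝓝 p] fun q => D v g q + D v g' q := by
      filter_upwards [hg.eventually (by simp), hg'.eventually (by simp)] with q h1 h2
      unfold D
      rw [fderiv_fun_add (h1.differentiableAt (by norm_num)) (h2.differentiableAt (by norm_num))]
      rfl
    rw [(D_congr h1 v).eq_of_nhds]
    unfold D
    have h3 : DifferentiableAt ℝ (fun q => fderiv ℝ g q v) p := (contDiffAt_D (n := 1) (by exact_mod_cast hg) v).differentiableAt (by norm_num)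
    have h4 : DifferentiableAt ℝ (fun q => fderiv ℝ g' q v) p := (contDiffAt_D (n := 1) (by exact_mod_cast hg') v).differentiableAt (by norm_num)
    rw [fderiv_fun_add h3 h4]
    rfl
  have e1 : ∀ v : ℂ × ℂ, D v (D v c) p = D v (D v (D (0, 1) (D (0, 1) f))) p + D v (D v (D (0, I) (D (0, I) f))) p := by
    intro v
    rw [(D_congr (D_congr ec v) v).eq_of_nhds, hadd v _ _ (hD _ _) (hD _ _)]
  have e2 : ∀ v : ℂ × ℂ, D v (D v a) p = D v (D v (D (1, 0) (D (1, 0) f))) p + D v (D v (D (I, 0) (D (I, 0) f))) p := by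
    intro v
    rw [(D_congr (D_congr ea v) v).eq_of_nhds, hadd v _ _ (hD _ _) (hD _ _)]
  rw [e1, e1, e2, e2, D_comm4 hf (1, 0) (0, 1), D_comm4 hf (1, 0) (0, I), D_comm4 hf (I, 0) (0, 1), D_comm4 hf (I, 0) (0, I)]
  ring

variable {V : Type*} [NormedAddCommGroup V] [InnerProductSpace ℂ V] [CompleteSpace V]

theorem contDiffAt_log_norm₂ {F : ℂ × ℂ → V} {p : ℂ × ℂ} (hF : AnalyticAt ℂ F p) (h0 : F p ≠ 0) {n : WithTop ℕ∞} :
    ContDiffAt ℝ n (fun q => Real.log ‖F q‖) p := by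
  have h1 : ContDiffAt ℝ n (fun w => Real.log (‖F w‖ ^ 2) / 2) p :=
    ((((hF.contDiffAt (n := n)).restrict_scalars ℝ).norm_sq ℂ).log (by simpa using h0)).div_const 2
  refine h1.congr_of_eventuallyEq ?_
  filter_upwards with w
  rw [Real.log_pow]
  push_cast
  ring

/-- `Δ_z |∂F/∂t|² = Δ_t |∂F/∂z|²` -/
theorem lap_fsd {F : ℂ × ℂ → V} {p : ℂ × ℂ} (hF : AnalyticAt ℂ F p) (h0 : F p ≠ 0) {a c : ℂ × ℂ → ℝ}
    (ha : ∀ᶠ q in 𝓝 p, a q = MQ.fsd (F q) (deriv (fun w => F (w, q.2)) q.1))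
    (hc : ∀ᶠ q in 𝓝 p, c q = MQ.fsd (F q) (deriv (fun t => F (q.1, t)) q.2)) :
    ContDiffAt ℝ 2 a p ∧ ContDiffAt ℝ 2 c p ∧ Δ (fun w => c (w, p.2)) p.1 = Δ (fun t => a (p.1, t)) p.2 := by
  have hev : ∀ᶠ q in 𝓝 p, AnalyticAt ℂ F q ∧ F q ≠ 0 := hF.eventually_analyticAt.and (hF.continuousAt.eventually_ne h0)
  refine lap_lap (f := fun q => Real.log ‖F q‖) (contDiffAt_log_norm₂ hF h0) ?_ ?_
  · filter_upwards [ha, hev] with q h1 h2
    rw [h1]
    have h3 : AnalyticAt ℂ (fun w => F (w, q.2)) q.1 := AnalyticAt.comp (g := F) (by exact h2.1) (analyticAt_id.prod analyticAt_const)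
    exact (MQ.lap_log_normV h3 h2.2).symm
  · filter_upwards [hc, hev] with q h1 h2
    rw [h1]
    have h3 : AnalyticAt ℂ (fun t => F (q.1, t)) q.2 := AnalyticAt.comp (g := F) (by exact h2.1) (analyticAt_const.prod analyticAt_id)
    exact (MQ.lap_log_normV h3 h2.2).symm

end Pool.Agent.GV
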