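import Pool.Agent.GV.Defs
import Pool.Agent.GV.LapC
import Pool.Agent.H30M.Mean2

/-!
# GV Dbl: the double Green inequality (helper10)

PROOF.  Smooth cut-off `ψ (t)`; `H30M.tau R` in `z` (`Δ tau R = rhoR R - rho`, `∫ tau R ≤ C R²`); `Δ_z c = Δ_t a` (the partial derivatives of `u` commute,
`LapC.lap_lap`); Green twice and Fubini.
-/

set_option autoImplicit false

open MvPolynomial Topology Filter Metric
open Pool.Agent.H13.SM (conTan cone)
open Pool.Agent.H17 (PN VanishesAt)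
open Pool.Agent.H17EF (projVar)
open Pool.Agent.H17LG.Variety (FunField ratio IsLogGeneralType)
open Pool.Agent.H62.FC (Homog closureIn)
open Pool.Agent.H66.Lang (HolomorphicIntoPN)
open Pool.Agent.GG Pool.Agent.GB

namespace Pool.Agent.GV

open MeasureTheory Laplacian
open Pool.Agent.H30M (rhoR tau rho avg)

/-! ## cut-offs in two variables -/

/-- a product of a compactly supported continuous function of `z`, one of `t`, and a function which is continuous over the supports -/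
private theorem dbl_continuous {τ ψ : ℂ → ℝ} {f : ℂ × ℂ → ℝ} (hτ : Continuous τ) (hψ : Continuous ψ)
    (hf : ∀ p : ℂ × ℂ, p.2 ∈ tsupport ψ → ContinuousAt f p) : Continuous fun p : ℂ × ℂ => τ p.1 * (ψ p.2 * f p) := by
  rw [continuous_iff_continuousAt]
  intro p
  by_cases hp : p.2 ∈ tsupport ψ
  · exact (hτ.comp continuous_fst).continuousAt.mul ((hψ.comp continuous_snd).continuousAt.mul (hf p hp))
  · have h1 : ∀ᶠ q : ℂ × ℂ in 𝓝 p, q.2 ∉ tsupport ψ :=
      continuous_snd.continuousAt.eventually ((isClosed_tsupport ψ).isOpen_compl.mem_nhds hp)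
    refine (continuousAt_const : ContinuousAt (fun _ : ℂ × ℂ => (0 : ℝ)) p).congr ?_
    filter_upwards [h1] with q hq
    rw [image_eq_zero_of_notMem_tsupport hq]
    ring

theorem integrable_cut {τ ψ : ℂ → ℝ} {f : ℂ × ℂ → ℝ} (hτ : Continuous τ) (hτc : HasCompactSupport τ) (hψ : Continuous ψ)
    (hψc : HasCompactSupport ψ) (hf : ∀ p : ℂ × ℂ, p.2 ∈ tsupport ψ → ContinuousAt f p) :
    Integrable (fun p : ℂ × ℂ => τ p.1 * (ψ p.2 * f p)) (volume.prod volume) := by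
  refine (dbl_continuous hτ hψ hf).integrable_of_hasCompactSupport ?_
  refine HasCompactSupport.intro (K := tsupport τ ×ˢ tsupport ψ) (hτc.isCompact.prod hψc.isCompact) ?_
  intro p hp
  rw [Set.mem_prod, not_and_or] at hp
  rcases hp with h | h
  · rw [image_eq_zero_of_notMem_tsupport h, zero_mul]
  · rw [image_eq_zero_of_notMem_tsupport h, zero_mul, mul_zero]

/-- `∫ tau R ≤ C R²` -/
private theorem dbl_tau {R : ℝ} (hR : 1 ≤ R) : ∫ z, tau R z ≤ 2 * Real.exp 1 ^ 2 * R ^ 2 := by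
  have hu : ContDiff ℝ 2 fun z : ℂ => ‖z‖ ^ 2 := contDiff_norm_sq ℝ
  have hlap : ∀ z : ℂ, Δ (fun z : ℂ => ‖z‖ ^ 2) z = 4 := by
    intro z
    have h1 : ∀ w v : ℂ, fderiv ℝ (fun z : ℂ => ‖z‖ ^ 2) w v = 2 * inner ℝ w v := by
      intro w v
      rw [fderiv_norm_sq_apply]
      simp
      ring
    rw [Pool.Agent.H30M.lap_eq hu.contDiffAt]
    simp only [h1]
    have h2 : ∀ v : ℂ, fderiv ℝ (fun w : ℂ => 2 * inner ℝ w v) z v = 2 * inner ℝ v v := by
      intro v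
      have h3 : HasFDerivAt (fun w : ℂ => 2 * inner ℝ w v) ((2 : ℝ) • (innerSL ℝ v)) z := by
        have h4 := ((innerSL ℝ v).hasFDerivAt (x := z)).const_mul 2
        refine h4.congr_of_eventuallyEq (Eventually.of_forall fun w => ?_)
        simp [real_inner_comm]
      rw [h3.fderiv]
      simp
    rw [h2, h2]
    simp
    norm_num
  have h1 := Pool.Agent.H30M.green_tau hR hu
  simp only [hlap] at h1
  rw [integral_mul_const] at h1
  have h2 : avg R (fun z : ℂ => ‖z‖ ^ 2) ≤ (Real.exp 1 * R) ^ 2 * (2 * Real.pi) := by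
    unfold Pool.Agent.H30M.avg
    rw [← Pool.Agent.H30M.int_rhoR hR, mul_comm ((Real.exp 1 * R) ^ 2), ← integral_mul_const]
    refine integral_mono ?_ ?_ fun z => ?_
    · exact ((Pool.Agent.H30M.continuous_rhoR R).mul (by fun_prop)).integrable_of_hasCompactSupport ((Pool.Agent.H30M.hcs_rhoR hR).mul_right)
    · exact ((Pool.Agent.H30M.continuous_rhoR R).mul continuous_const).integrable_of_hasCompactSupport ((Pool.Agent.H30M.hcs_rhoR hR).mul_right)
    · by_cases hz : Real.exp 1 * R ≤ ‖z‖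
      · simp only [Pool.Agent.H30M.rhoR_eq_zero hR (Or.inr hz), zero_mul, le_refl]
      · exact mul_le_mul_of_nonneg_left (pow_le_pow_left₀ (norm_nonneg _) (not_le.1 hz).le _) (Pool.Agent.H30M.rhoR_nonneg R z)
  have h3 : 0 ≤ avg 1 (fun z : ℂ => ‖z‖ ^ 2) := integral_nonneg fun z => mul_nonneg (Pool.Agent.H30M.rhoR_nonneg 1 z) (by positivity)
  have hpi : Real.pi ≤ 4 := Real.pi_le_four
  have h4 : (Real.exp 1 * R) ^ 2 * (2 * Real.pi) ≤ (Real.exp 1 * R) ^ 2 * 8 := mul_le_mul_of_nonneg_left (by linarith) (sq_nonneg _)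
  nlinarith

section

variable {a c : ℂ × ℂ → ℝ} {δ A : ℝ}

/-- the local facts -/
theorem green_local
    (hu : ∀ z t : ℂ, ‖t‖ < δ → ∃ u : ℂ × ℂ → ℝ, ContDiffAt ℝ 4 u (z, t) ∧ ∀ᶠ p in 𝓝 (z, t), a p = Δ (fun w => u (w, p.2)) p.1 ∧ c p = Δ (fun s => u (p.1, s)) p.2)
    (p : ℂ × ℂ) (hp : ‖p.2‖ < δ) : ContDiffAt ℝ 2 a p ∧ ContDiffAt ℝ 2 c p ∧ Δ (fun w => c (w, p.2)) p.1 = Δ (fun t => a (p.1, t)) p.2 := by
  obtain ⟨u, h1, h2⟩ := hu p.1 p.2 hp
  exact lap_lap (f := u) h1 (h2.mono fun q hq => hq.1) (h2.mono fun q hq => hq.2)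

/-- the inequality with a cut-off in `t` -/
theorem double_green_bump {a c : ℂ × ℂ → ℝ} {δ A : ℝ} (hδ : 0 < δ)
    (hu : ∀ z t : ℂ, ‖t‖ < δ → ∃ u : ℂ × ℂ → ℝ, ContDiffAt ℝ 4 u (z, t) ∧ ∀ᶠ p in 𝓝 (z, t), a p = Δ (fun w => u (w, p.2)) p.1 ∧ c p = Δ (fun s => u (p.1, s)) p.2)
    (ha : ∀ z t : ℂ, ‖t‖ < δ → |a (z, t)| ≤ A) (ψ : ContDiffBump (0 : ℂ)) (hψ : ψ.rOut < δ) :
    ∃ C : ℝ, ∀ R ≥ 1, ∫ t, ∫ z, rhoR R z * (ψ t * c (z, t)) ≤ C * (1 + R ^ 2) := by
  have hloc := green_local hu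
  have hA0 : 0 ≤ A := (abs_nonneg _).trans (ha 0 0 (by simpa using hδ))
  -- the cut-off
  have hψc : HasCompactSupport ψ := ψ.hasCompactSupport
  have hψ2 : ContDiff ℝ 2 ψ := ψ.contDiff
  have hψcont : Continuous ψ := ψ.continuous
  have hts : ∀ t ∈ tsupport ψ, ‖t‖ < δ := by
    intro t ht
    rw [ψ.tsupport_eq, mem_closedBall_zero_iff] at ht
    linarith
  -- the slices
  have hcz : ∀ t : ℂ, ‖t‖ < δ → ContDiff ℝ 2 fun z => c (z, t) := by
    intro t ht
    rw [contDiff_iff_contDiffAt]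
    intro z
    refine ContDiffAt.comp (g := c) z (by exact (hloc (z, t) ht).2.1) ?_
    exact contDiffAt_id.prodMk contDiffAt_const
  have hat : ∀ z t : ℂ, ‖t‖ < δ → ContDiffAt ℝ 2 (fun t => a (z, t)) t := by
    intro z t ht
    refine ContDiffAt.comp (g := a) t (by exact (hloc (z, t) ht).1) ?_
    exact contDiffAt_const.prodMk contDiffAt_id
  -- the function `Δ_z c`
  obtain ⟨Kf, hKf⟩ : ∃ Kf : ℂ × ℂ → ℝ, Kf = fun p => Δ (fun w => c (w, p.2)) p.1 := ⟨_, rfl⟩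
  have hKc : ∀ p : ℂ × ℂ, p.2 ∈ tsupport ψ → ContinuousAt Kf p := by
    intro p hp
    have hcp := (hloc p (hts _ hp)).2.1
    have hev : ∀ᶠ q in 𝓝 p, Kf q = D (1, 0) (D (1, 0) c) q + D (Complex.I, 0) (D (Complex.I, 0) c) q := by
      filter_upwards [hcp.eventually (by simp)] with q hq
      rw [hKf]
      exact lap_fst hq
    refine ContinuousAt.congr ?_ (hev.mono fun q hq => hq.symm)
    have h2 : ∀ v w : ℂ × ℂ, ContinuousAt (D v (D w c)) p := fun v w =>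
      (contDiffAt_D (n := 0) (contDiffAt_D (n := 1) (by exact_mod_cast hcp) w) v).continuousAt
    exact (h2 _ _).add (h2 _ _)
  have hcc : ∀ p : ℂ × ℂ, p.2 ∈ tsupport ψ → ContinuousAt c p := fun p hp => (hloc p (hts _ hp)).2.1.continuousAt
  -- the integrals over `t` of the cut-off
  obtain ⟨S, hS⟩ : ∃ S : ℝ, S = ∫ t, |Δ (ψ : ℂ → ℝ) t| := ⟨_, rfl⟩
  have hΔψ : Continuous (Δ (ψ : ℂ → ℝ)) := by
    rw [continuous_iff_continuousAt]
    intro t
    have h2 : ∀ v : ℂ, ContDiff ℝ 1 fun t => fderiv ℝ (ψ : ℂ → ℝ) t v := fun v =>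
      (hψ2.fderiv_right (m := 1) (by norm_num)).clm_apply contDiff_const
    have h3 : ∀ v : ℂ, Continuous fun t => fderiv ℝ (fun w => fderiv ℝ (ψ : ℂ → ℝ) w v) t v := fun v =>
      ((h2 v).continuous_fderiv (by norm_num)).clm_apply continuous_const
    have h4 : Δ (ψ : ℂ → ℝ) = fun t => fderiv ℝ (fun w => fderiv ℝ (ψ : ℂ → ℝ) w 1) t 1 + fderiv ℝ (fun w => fderiv ℝ (ψ : ℂ → ℝ) w Complex.I) t Complex.I :=
      funext fun t => Pool.Agent.H30M.lap_eq hψ2.contDiffAt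
    rw [h4]
    exact ((h3 1).add (h3 Complex.I)).continuousAt
  have hΔc : HasCompactSupport (Δ (ψ : ℂ → ℝ)) := Pool.Agent.H30M.hcs_of_sub hψc (Pool.Agent.H30M.ts_lap ψ)
  -- the right side, for fixed `z`
  have hz : ∀ z : ℂ, ∫ t, ψ t * Kf (z, t) ≤ A * S := by
    intro z
    have e1 : ∀ t, ψ t * Kf (z, t) = ψ t * Δ (fun t => a (z, t)) t := by
      intro t
      by_cases ht : t ∈ tsupport ψ
      · rw [hKf]
        congr 1
        exact (hloc (z, t) (hts t ht)).2.2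
      · rw [image_eq_zero_of_notMem_tsupport ht, zero_mul, zero_mul]
    rw [integral_congr_ae (Eventually.of_forall e1), Pool.Agent.H30M.green2 hψ2 hψc fun t ht => hat z t (hts t ht)]
    have hat' : ∀ t ∈ tsupport (Δ (ψ : ℂ → ℝ)), ContinuousAt (fun t => a (z, t)) t := fun t ht =>
      (hat z t (hts t (Pool.Agent.H30M.ts_lap ψ ht))).continuousAt
    rw [hS, ← integral_const_mul]
    refine integral_mono ?_ ?_ fun t => ?_
    · refine Pool.Agent.H30M.integrable_of_ts (fun t ht => ?_) (Pool.Agent.H30M.hcs_of_sub hΔc (tsupport_mul_subset_left (f := Δ (ψ : ℂ → ℝ)) (g := fun t => a (z, t))))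
      exact hΔψ.continuousAt.mul (hat' t (tsupport_mul_subset_left (f := Δ (ψ : ℂ → ℝ)) (g := fun t => a (z, t)) ht))
    · exact (hΔψ.abs.integrable_of_hasCompactSupport hΔc.abs).const_mul A
    · by_cases ht : t ∈ tsupport ψ
      · calc Δ (ψ : ℂ → ℝ) t * a (z, t) ≤ |Δ (ψ : ℂ → ℝ) t * a (z, t)| := le_abs_self _
          _ = |a (z, t)| * |Δ (ψ : ℂ → ℝ) t| := by rw [abs_mul, mul_comm]
          _ ≤ A * |Δ (ψ : ℂ → ℝ) t| := mul_le_mul_of_nonneg_right (ha z t (hts t ht)) (abs_nonneg _)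
      · simp only [Pool.Agent.H30M.lap_of_not_ts ht, zero_mul, abs_zero, mul_zero, le_refl]
  have hS0 : 0 ≤ S := by
    rw [hS]
    exact integral_nonneg fun t => abs_nonneg _
  -- the average for `R = 1`
  obtain ⟨C₁, hC₁⟩ : ∃ C₁ : ℝ, C₁ = ∫ t, ∫ z, rhoR 1 z * (ψ t * c (z, t)) := ⟨_, rfl⟩
  refine ⟨|C₁| + A * S * (2 * Real.exp 1 ^ 2), fun R hR => ?_⟩
  have hR1 : (1 : ℝ) ≤ R := hR
  have hF1 := integrable_cut (Pool.Agent.H30M.contDiff_tau R).continuous (Pool.Agent.H30M.hcs_tau hR1) hψcont hψc hKc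
  have hFR := integrable_cut (Pool.Agent.H30M.continuous_rhoR R) (Pool.Agent.H30M.hcs_rhoR hR1) hψcont hψc hcc
  have hF0 := integrable_cut (Pool.Agent.H30M.continuous_rhoR 1) (Pool.Agent.H30M.hcs_rhoR le_rfl) hψcont hψc hcc
  -- Green in `z`
  have hg : ∀ t : ℂ, (∫ z, tau R z * (ψ t * Kf (z, t))) = (∫ z, rhoR R z * (ψ t * c (z, t))) - ∫ z, rhoR 1 z * (ψ t * c (z, t)) := by
    intro t
    by_cases ht : t ∈ tsupport ψ
    · have h2 := Pool.Agent.H30M.green_tau hR1 (hcz t (hts t ht))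
      have e1 : ∀ z, tau R z * (ψ t * Kf (z, t)) = ψ t * (tau R z * Δ (fun z => c (z, t)) z) := by
        intro z
        rw [hKf]
        ring
      have e2 : ∀ r z, rhoR r z * (ψ t * c (z, t)) = ψ t * (rhoR r z * c (z, t)) := by
        intro r z
        ring
      simp only [e1, e2, integral_const_mul]
      rw [h2]
      unfold Pool.Agent.H30M.avg
      ring
    · simp only [image_eq_zero_of_notMem_tsupport ht, zero_mul, mul_zero, integral_zero, sub_zero]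
  -- Fubini
  have hsw : (∫ z, ∫ t, tau R z * (ψ t * Kf (z, t))) = ∫ t, ∫ z, tau R z * (ψ t * Kf (z, t)) := integral_integral_swap hF1
  have hsub : (∫ t, ∫ z, tau R z * (ψ t * Kf (z, t))) = (∫ t, ∫ z, rhoR R z * (ψ t * c (z, t))) - C₁ := by
    rw [hC₁, ← integral_sub hFR.integral_prod_right hF0.integral_prod_right]
    exact integral_congr_ae (Eventually.of_forall hg)
  have hle : (∫ z, ∫ t, tau R z * (ψ t * Kf (z, t))) ≤ A * S * (2 * Real.exp 1 ^ 2 * R ^ 2) := by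
    calc (∫ z, ∫ t, tau R z * (ψ t * Kf (z, t))) ≤ ∫ z, tau R z * (A * S) := by
          refine integral_mono hF1.integral_prod_left ?_ fun z => ?_
          · exact ((Pool.Agent.H30M.contDiff_tau R).continuous.integrable_of_hasCompactSupport (Pool.Agent.H30M.hcs_tau hR1)).mul_const _
          · simp only [integral_const_mul]
            exact mul_le_mul_of_nonneg_left (hz z) (Pool.Agent.H30M.tau_nonneg hR1 z)
      _ = (∫ z, tau R z) * (A * S) := integral_mul_const _ _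
      _ ≤ (2 * Real.exp 1 ^ 2 * R ^ 2) * (A * S) := mul_le_mul_of_nonneg_right (dbl_tau hR1) (mul_nonneg hA0 hS0)
      _ = _ := by ring
  have h2 : C₁ ≤ |C₁| := le_abs_self _
  have h3 : 0 ≤ A * S * (2 * Real.exp 1 ^ 2) := by positivity
  have h4 : |C₁| * 1 ≤ |C₁| * (1 + R ^ 2) := mul_le_mul_of_nonneg_left (by nlinarith [sq_nonneg R]) (abs_nonneg _)
  have h5 : A * S * (2 * Real.exp 1 ^ 2) * R ^ 2 ≤ A * S * (2 * Real.exp 1 ^ 2) * (1 + R ^ 2) := mul_le_mul_of_nonneg_left (by linarith) h3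
  have h6 : (∫ t, ∫ z, rhoR R z * (ψ t * c (z, t))) = C₁ + ∫ z, ∫ t, tau R z * (ψ t * Kf (z, t)) := by
    rw [hsw, hsub]
    ring
  rw [h6]
  nlinarith

theorem double_green {a c : ℂ × ℂ → ℝ} {δ A : ℝ} (hδ : 0 < δ)
    (hu : ∀ z t : ℂ, ‖t‖ < δ → ∃ u : ℂ × ℂ → ℝ, ContDiffAt ℝ 4 u (z, t) ∧ ∀ᶠ p in 𝓝 (z, t), a p = Δ (fun w => u (w, p.2)) p.1 ∧ c p = Δ (fun s => u (p.1, s)) p.2)
    (ha : ∀ z t : ℂ, ‖t‖ < δ → |a (z, t)| ≤ A) (hc : ∀ z t : ℂ, ‖t‖ < δ → 0 ≤ c (z, t)) {δ' : ℝ} (h0 : 0 < δ') (h1 : δ' < δ) :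
    ∃ C : ℝ, ∀ R ≥ 1, ∫ t in ball (0 : ℂ) δ', ∫ z, rhoR R z * c (z, t) ≤ C * (1 + R ^ 2) := by
  let ψ : ContDiffBump (0 : ℂ) := ⟨δ', (δ' + δ) / 2, h0, by linarith⟩
  have hψ : ψ.rOut < δ := by
    show (δ' + δ) / 2 < δ
    linarith
  have hts : ∀ t ∈ tsupport ψ, ‖t‖ < δ := by
    intro t ht
    rw [ψ.tsupport_eq, mem_closedBall_zero_iff] at ht
    linarith
  obtain ⟨C, hC⟩ := double_green_bump hδ hu ha ψ hψ
  refine ⟨C, fun R hR => le_trans ?_ (hC R hR)⟩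
  have hFR := integrable_cut (Pool.Agent.H30M.continuous_rhoR R) (Pool.Agent.H30M.hcs_rhoR hR) ψ.continuous ψ.hasCompactSupport
    fun p hp => (green_local hu p (hts _ hp)).2.1.continuousAt
  have e1 : (∫ t in ball (0 : ℂ) δ', ∫ z, rhoR R z * c (z, t)) = ∫ t in ball (0 : ℂ) δ', ∫ z, rhoR R z * (ψ t * c (z, t)) := by
    refine setIntegral_congr_fun measurableSet_ball fun t ht => ?_
    have h2 : ψ t = 1 := ψ.one_of_mem_closedBall (ball_subset_closedBall ht)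
    simp only [h2, one_mul]
  rw [e1]
  refine setIntegral_le_integral hFR.integral_prod_right (Eventually.of_forall fun t => ?_)
  refine integral_nonneg fun z => ?_
  by_cases ht : t ∈ tsupport ψ
  · exact mul_nonneg (Pool.Agent.H30M.rhoR_nonneg R z) (mul_nonneg ψ.nonneg (hc z t (hts t ht)))
  · simp only [image_eq_zero_of_notMem_tsupport ht, zero_mul, mul_zero, Pi.zero_apply, le_refl]

end

end Pool.Agent.GV
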