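import Mathlib

/-!
# GV Dep: algebraic dependence with coefficients in `ℂ[φ]`, also for homogeneous coordinates

PROOF.  `exists_dep`: `Sum.elim w φ` is not algebraically independent (`d + 1 + κ > k`); a relation is a polynomial in `d + 1` variables over `ℂ[Y_1, …, Y_κ]`, map
the coefficients by `aeval φ` (injective).  `exists_dep_hom`: if `x 0 = 0` take `X 0`, otherwise homogenise the relation for `x (j + 1) / x 0`.
-/

set_option autoImplicit false

open MvPolynomial

namespace Pool.Agent.GV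

variable {K : Type} [Field K] [Algebra ℂ K] {k d κ : ℕ}

theorem exists_dep {z : Fin k → K} (hz : IsTranscendenceBasis ℂ z) (hk : d + κ = k) {φ : Fin κ → K} (hφ : AlgebraicIndependent ℂ φ)
    (w : Fin (d + 1) → K) :
    ∃ R : MvPolynomial (Fin (d + 1)) K, R ≠ 0 ∧ (∀ β, coeff β R ∈ Algebra.adjoin ℂ (Set.range φ)) ∧ eval w R = 0 := by
  classical
  -- the dependence
  have hdep : ¬ AlgebraicIndependent ℂ (Sum.elim w φ) := by
    intro h
    have h1 := h.cardinalMk_le_trdeg
    rw [← hz.cardinalMk_eq_trdeg] at h1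
    simp only [Cardinal.mk_fintype, Fintype.card_sum, Fintype.card_fin, Nat.cast_le] at h1
    omega
  rw [algebraicIndependent_iff] at hdep
  push Not at hdep
  obtain ⟨p, hp, hp0⟩ := hdep
  -- the polynomial over `ℂ[Y]`
  obtain ⟨p', hp'⟩ : ∃ p', p' = MvPolynomial.sumAlgEquiv ℂ (Fin (d + 1)) (Fin κ) p := ⟨_, rfl⟩
  have hp'0 : p' ≠ 0 := by
    rw [hp']
    exact (map_ne_zero_iff _ (MvPolynomial.sumAlgEquiv ℂ (Fin (d + 1)) (Fin κ)).injective).2 hp0
  have hinj : Function.Injective (aeval φ : MvPolynomial (Fin κ) ℂ →ₐ[ℂ] K).toRingHom := algebraicIndependent_iff_injective_aeval.1 hφ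
  have hev : ∀ q : MvPolynomial (Fin (d + 1) ⊕ Fin κ) ℂ,
      eval w (map (aeval φ : MvPolynomial (Fin κ) ℂ →ₐ[ℂ] K).toRingHom (MvPolynomial.sumAlgEquiv ℂ (Fin (d + 1)) (Fin κ) q)) = aeval (Sum.elim w φ) q := by
    intro q
    induction q using MvPolynomial.induction_on with
    | C c =>
      rw [sumAlgEquiv_C_inl]
      simp
    | add p q hp hq => rw [map_add, map_add, map_add, map_add, hp, hq]
    | mul_X p i hp =>
      rw [map_mul, map_mul, map_mul, map_mul, hp]
      congr 1
      rcases i with i | i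
      · rw [sumAlgEquiv_X_inl]
        simp
      · rw [sumAlgEquiv_X_inr]
        simp
  refine ⟨map (aeval φ : MvPolynomial (Fin κ) ℂ →ₐ[ℂ] K).toRingHom p', ?_, fun β => ?_, ?_⟩
  · exact (map_ne_zero_iff _ (MvPolynomial.map_injective _ hinj)).2 hp'0
  · rw [coeff_map, Algebra.adjoin_range_eq_range_aeval]
    exact ⟨_, rfl⟩
  · rw [hp', hev, hp]

theorem exists_dep_hom {z : Fin k → K} (hz : IsTranscendenceBasis ℂ z) (hk : d + κ = k) {φ : Fin κ → K} (hφ : AlgebraicIndependent ℂ φ)
    (x : Fin (d + 2) → K) : ∃ (M : ℕ) (R : MvPolynomial (Fin (d + 2)) K), R.IsHomogeneous M ∧ R ≠ 0 ∧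
      (∀ β, coeff β R ∈ Algebra.adjoin ℂ (Set.range φ)) ∧ eval x R = 0 := by
  classical
  by_cases hx0 : x 0 = 0
  · refine ⟨1, X 0, isHomogeneous_X K 0, X_ne_zero 0, fun β => ?_, by rw [eval_X, hx0]⟩
    rw [coeff_X]
    split_ifs
    · exact one_mem _
    · exact zero_mem _
  obtain ⟨R, hR0, hRc, hRw⟩ := exists_dep hz hk hφ fun j => x j.succ / x 0
  have hdeg : ∀ β ∈ R.support, β.degree ≤ R.totalDegree := fun β hβ => by
    have h1 := le_totalDegree hβ
    rwa [Finsupp.sum_fintype _ _ (fun _ => rfl), ← Finsupp.degree_eq_sum] at h1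
  have hcoeff : ∀ γ, coeff γ (∑ β ∈ R.support, monomial (Finsupp.cons (R.totalDegree - β.degree) β) (coeff β R)) =
      ∑ β ∈ R.support, if Finsupp.cons (R.totalDegree - β.degree) β = γ then coeff β R else 0 := by
    intro γ
    rw [coeff_sum]
    exact Finset.sum_congr rfl fun β _ => coeff_monomial _ _ _
  refine ⟨R.totalDegree, ∑ β ∈ R.support, monomial (Finsupp.cons (R.totalDegree - β.degree) β) (coeff β R), ?_, ?_, fun γ => ?_, ?_⟩
  · refine IsHomogeneous.sum _ _ _ fun β hβ => isHomogeneous_monomial _ ?_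
    rw [Finsupp.degree_eq_sum, Fin.sum_univ_succ, Finsupp.cons_zero]
    simp only [Finsupp.cons_succ]
    rw [← Finsupp.degree_eq_sum]
    have := hdeg β hβ
    omega
  · obtain ⟨β₀, hβ₀⟩ := MvPolynomial.support_nonempty.2 hR0
    intro h
    have h1 := congrArg (coeff (Finsupp.cons (R.totalDegree - β₀.degree) β₀)) h
    rw [hcoeff, coeff_zero, Finset.sum_eq_single β₀, if_pos rfl] at h1
    · exact (mem_support_iff.1 hβ₀) h1
    · intro β _ hne
      rw [if_neg]
      intro h2
      apply hne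
      have h3 := congrArg Finsupp.tail h2
      rwa [Finsupp.tail_cons, Finsupp.tail_cons] at h3
    · exact fun h2 => absurd hβ₀ h2
  · rw [hcoeff]
    refine sum_mem fun β _ => ?_
    split_ifs
    · exact hRc β
    · exact zero_mem _
  · rw [map_sum]
    have h1 : ∀ β ∈ R.support, eval x (monomial (Finsupp.cons (R.totalDegree - β.degree) β) (coeff β R)) =
        x 0 ^ R.totalDegree * (coeff β R * ∏ j, (x j.succ / x 0) ^ β j) := by
      intro β hβ
      rw [eval_monomial, Finsupp.prod_fintype _ _ (fun _ => pow_zero _), Fin.prod_univ_succ, Finsupp.cons_zero]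
      simp only [Finsupp.cons_succ, div_pow, Finset.prod_div_distrib, Finset.prod_pow_eq_pow_sum]
      rw [← Finsupp.degree_eq_sum]
      have h2 : x 0 ^ R.totalDegree = x 0 ^ (R.totalDegree - β.degree) * x 0 ^ β.degree := by
        rw [← pow_add, Nat.sub_add_cancel (hdeg β hβ)]
      rw [h2]
      field_simp
    rw [Finset.sum_congr rfl h1, ← Finset.mul_sum, ← eval_eq', hRw, mul_zero]

end Pool.Agent.GV
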