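import Pool.Agent.TN.Osg
import Mathlib.Analysis.Complex.RemovableSingularity

/-!
# GV Ext0a: removable points in several variables (helper44)

A map which is continuous at a point and analytic in a punctured neighbourhood of it is analytic at the point (Osgood; in one variable removable singularities).
-/

set_option autoImplicit false

open Topology Filter Metric

namespace Pool.Agent.GV

theorem analyticAt_of_punctured {d : ℕ} {E : Type*} [NormedAddCommGroup E] [NormedSpace ℂ E] [CompleteSpace E] {y : (Fin d → ℂ) → E} {a : Fin d → ℂ}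
    (hy : ∀ᶠ t in 𝓝[≠] a, AnalyticAt ℂ y t) (hc : ContinuousAt y a) : AnalyticAt ℂ y a := by
  rw [eventually_nhdsWithin_iff] at hy
  have h1 : ∀ᶠ t in 𝓝 a, ‖y t‖ < ‖y a‖ + 1 := hc.norm.eventually_lt_const (by linarith)
  obtain ⟨r, hr, h⟩ := Metric.eventually_nhds_iff_ball.1 (hy.and h1)
  refine Pool.Agent.TN.osgood_pi (M := ‖y a‖ + 1) hr (fun t ht => (h t ht).2.le) fun t ht l => ?_
  have hl : Continuous fun s : ℂ => t + s • (Pi.single l 1 : Fin d → ℂ) := by fun_prop
  have hl0 : t + (0 : ℂ) • (Pi.single l 1 : Fin d → ℂ) = t := by simp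
  have hla : ∀ s, AnalyticAt ℂ (fun s : ℂ => t + s • (Pi.single l 1 : Fin d → ℂ)) s := fun s =>
    analyticAt_const.add ((analyticAt_id).smul analyticAt_const)
  by_cases hta : t = a
  · have hca : ContinuousAt (fun s : ℂ => y (t + s • (Pi.single l 1 : Fin d → ℂ))) 0 := by
      refine ContinuousAt.comp (g := y) ?_ hl.continuousAt
      rw [hl0, hta]
      exact hc
    have hd : ∀ᶠ s in 𝓝[≠] (0 : ℂ), DifferentiableAt ℂ (fun s : ℂ => y (t + s • (Pi.single l 1 : Fin d → ℂ))) s := by
      rw [eventually_nhdsWithin_iff]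
      have h2 : ∀ᶠ s in 𝓝 (0 : ℂ), t + s • (Pi.single l 1 : Fin d → ℂ) ∈ ball a r :=
        hl.continuousAt.eventually (isOpen_ball.mem_nhds (by simpa using ht))
      filter_upwards [h2] with s hs hs0
      have hne : t + s • (Pi.single l 1 : Fin d → ℂ) ≠ a := by
        intro h0
        rw [hta, add_eq_left, smul_eq_zero] at h0
        rcases h0 with h0 | h0
        · exact hs0 h0
        · exact one_ne_zero ((Pi.single_eq_zero_iff).1 h0)
      exact (AnalyticAt.comp (g := y) (f := fun s : ℂ => t + s • (Pi.single l 1 : Fin d → ℂ)) ((h _ hs).1 hne) (hla s)).differentiableAt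
    exact (Complex.analyticAt_of_differentiable_on_punctured_nhds_of_continuousAt hd hca).differentiableAt
  · have h3 : AnalyticAt ℂ y (t + (0 : ℂ) • (Pi.single l 1 : Fin d → ℂ)) := by rw [hl0]; exact (h t ht).1 hta
    exact (AnalyticAt.comp (g := y) (f := fun s : ℂ => t + s • (Pi.single l 1 : Fin d → ℂ)) h3 (hla 0)).differentiableAt

end Pool.Agent.GV
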