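import Pool.Agent.GB.Asm

/-!
# GV Fld: the derivation of the rational function field, with its data

As in `GB.exists_field_point`: `D = ∑ t_j e_j - …` kills `θ_i (x, ∑ t_j e_j (x))`; the `e_j` kill `φ_1, …, φ_κ`, algebraically independent, `d + κ = k`.
-/

set_option autoImplicit false

open MvPolynomial
open Pool.Agent.H17LG.Variety (FunField ratio IsLogGeneralType)
open Pool.Agent.H62.FC (Homog)

namespace Pool.Agent.GV

open Pool.Agent.GG Pool.Agent.GB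

variable {N : ℕ} {P : Ideal (MvPolynomial (Fin (N + 1)) ℂ)} {J m : ℕ} {θ : Fin J → SymSec P m}

theorem exists_field_data [P.IsPrime] (hP : Homog P) (hm : 1 ≤ m) (hgen : Generated θ) (f : Frame (m := fun _ => m) θ)
    {a : Fin (N + 1)} (ha : X a ∉ P) {k : ℕ} (hk : 1 ≤ k) {z : Fin k → FunField P} (hz : IsTranscendenceBasis ℂ z)
    (hn : ¬ IsLogGeneralType (K := FunField P) (k := k) fun _ => False) :
    ∃ (d κ : ℕ) (φ : Fin κ → FunField P) (e : Fin d → Derivation ℂ (FunField P) (FunField P))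
      (D : Derivation ℂ (FractionRing (MvPolynomial (Fin d) (FunField P))) (FractionRing (MvPolynomial (Fin d) (FunField P)))),
      1 ≤ d ∧ d + κ = k ∧ AlgebraicIndependent ℂ φ ∧ (∀ j i, e j (φ i) = 0) ∧ LinearIndependent (FunField P) e ∧
      (∀ c : FunField P, D (algebraMap (FunField P) _ c) =
        ∑ j, algebraMap (MvPolynomial (Fin d) (FunField P)) _ (X j) * algebraMap (FunField P) _ (e j c)) ∧
      ∀ i, D (algebraMap (MvPolynomial (Fin d) (FunField P)) _ (psi f P a i e)) = 0 := by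
  haveI : Algebra.EssFiniteType ℂ (FunField P) := Pool.Agent.H17GT.essFiniteType_functionField P
  obtain ⟨Ψ₀, hΨ₀⟩ := exists_psiFam f hP le_rfl ha k k
  obtain ⟨M', u, hM', hu, hu0⟩ := Asm_first hz hk hm Ψ₀ fun e he => by
    simp only [hΨ₀]
    exact exists_index_psi hP hgen f hP le_rfl ha he
  obtain ⟨κ, l, s, hκ, hs0, hs, hφa, hmax⟩ := exists_max hk hz hn hM' hu hu0
  obtain ⟨d, hd⟩ : ∃ d, d + κ = k := ⟨k - κ, by omega⟩
  have hd1 : 1 ≤ d := by omega
  obtain ⟨e, h, he, hv⟩ := exists_frame_ker hd hz hφa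
  have hφ := linearIndependent_D hφa
  have ε : Fin d ⊕ Fin κ ≃ Fin k := finSumFinEquiv.trans (finCongr hd)
  obtain ⟨Ψ, hΨ⟩ := exists_psiFam f hP le_rfl ha k d
  obtain ⟨Ψ₂, hΨ₂⟩ := exists_prdFam Ψ
  have hei := indep_of_vol (hv ε)
  obtain ⟨I, hI⟩ := exists_index_psi hP hgen f hP le_rfl ha hei
  simp only [← hΨ] at hI
  obtain ⟨I₂, hI₂⟩ := exists_prd_index (fun i => Ψ.hom i e) hI
  simp only [← hΨ₂] at hI₂
  obtain ⟨c, hc⟩ := Asm_rel hz hd1 hm Ψ hs0 hs hφ he (hv ε) hmax hI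
  obtain ⟨c₂, hc₂⟩ := Asm_rel hz hd1 (by omega) Ψ₂ hs0 hs hφ he (hv ε) hmax hI₂
  simp only [hΨ₂] at hc₂
  obtain ⟨D, hD, hDp⟩ := Asm_der hz hm hc hc₂
  simp only [hΨ] at hDp
  exact ⟨d, κ, _, e, D, hd1, hd, hφa, he, hei, hD, hDp⟩

end Pool.Agent.GV
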