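import Pool.Agent.GV.Jbd
import Pool.Agent.GV.Cmp
import Pool.Agent.GV.PolB

/-!
# GV Jac: the Jacobi fields are linear

PROOF.  `Φ (z, s) = E (z • (t + s • w))` for `|s| < δ` (`t + s w ≠ 0`), `b (z, s) = pol θ_k (F, ∂_z F, ∂_s F)`: `|∂_z| ≤ C` (`le_toFun`, `arc`), `|b| ≤ C' wl (∂_s F)` (`pol_le`), holomorphic at all points (`hol`; at `z = 0`: `init`; `pol_hl`, `pol_an`).  `jacobi_affine`: `b (z, 0) = p + q z`, `p = b (0, 0) = 0`
and `q = b' (0) = pol θ_k (x, vv e t, vv e w)` (`init`: `F (0, s) = x`, `∂_z F (0, s) = vv e (t + s w)`, so `∂_s F (z, 0) = z vv e w + O (z²)`).  At `z = 1`.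
-/

set_option autoImplicit false

open MvPolynomial Topology Filter Metric
open Pool.Agent.H13.SM (conTan cone)
open Pool.Agent.H17 (PN VanishesAt)
open Pool.Agent.H17EF (projVar)
open Pool.Agent.H17LG.Variety (FunField ratio IsLogGeneralType)
open Pool.Agent.H62.FC (Homog closureIn)
open Pool.Agent.H66.Lang (HolomorphicIntoPN)
open Pool.Agent.GG Pool.Agent.GB

namespace Pool.Agent.GV

variable {N : ℕ} {P Q : Ideal (MvPolynomial (Fin (N + 1)) ℂ)} {J m : ℕ} {θ : Fin J → SymSec P m} {d : ℕ}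

namespace JacAux

section

variable {V W : Type*} [NormedAddCommGroup V] [NormedSpace ℂ V] [NormedAddCommGroup W] [NormedSpace ℂ W]

theorem Hl_near {Φ : V → PN N} {F : V → Fin (N + 1) → ℂ} {q : V} (h : Hl Φ F q) : ∀ᶠ p in 𝓝 q, Hl Φ F p :=
  (h.1.eventually_analyticAt.and h.2.eventually_nhds).mono fun _ hp => ⟨hp.1, hp.2⟩

theorem Hl_comp {Φ : V → PN N} {F : V → Fin (N + 1) → ℂ} {φ : W → V} {q : W} (h : Hl Φ F (φ q)) (hφ : AnalyticAt ℂ φ q) :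
    Hl (fun p => Φ (φ p)) (fun p => F (φ p)) q :=
  ⟨h.1.comp hφ, hφ.continuousAt.eventually h.2⟩

end

/-- the polar form is given by a polynomial -/
theorem pol_poly (s : SymSec P m) (a : Fin (N + 1)) : ∃ (e : ℕ) (A : MvPolynomial (Ph N) ℂ), ∀ y ∈ cone P, ∀ v ∈ conTan P y, ∀ w ∈ conTan P y,
    y a ^ e * pol s y v w = ∑ b, eval (pt y v) (pderiv (Sum.inr b) A) * w b := by
  obtain ⟨e, A, hA⟩ := s.regular a
  refine ⟨e, A, fun y hy v hv w hw => ?_⟩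
  have h1 := (hasDerivAt_evalV A y v w).deriv
  rw [← h1]
  have h2 : (fun t : ℂ => eval (pt y (v + t • w)) A) = fun t : ℂ => y a ^ e * s.toFun y (v + t • w) := by
    funext t
    exact (hA y hy _ (add_mem hv (Submodule.smul_mem _ t hw))).symm
  rw [h2, deriv_const_mul_field]
  rfl

theorem vv_add_smul (e : Fin d → Fin (N + 1) → ℂ) (t w : Fin d → ℂ) (s : ℂ) : vv e (t + s • w) = vv e t + s • vv e w := by
  simp only [vv, Pi.add_apply, Pi.smul_apply, smul_eq_mul, add_smul, Finset.sum_add_distrib, Finset.smul_sum, smul_smul]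

theorem vv_mem {x : Fin (N + 1) → ℂ} {e : Fin d → Fin (N + 1) → ℂ} (he : ∀ j, e j ∈ conTan P x) (t : Fin d → ℂ) : vv e t ∈ conTan P x :=
  Submodule.sum_mem _ fun j _ => Submodule.smul_mem _ _ (he j)

/-- the mixed derivative: `∂_s F (z, 0) / z → v` if `F (0, s)` is constant and `∂_z F (0, s) = v₀ + s v` -/
theorem mixed {F : ℂ × ℂ → Fin (N + 1) → ℂ} (hF : AnalyticAt ℂ F (0, 0)) {x v₀ v : Fin (N + 1) → ℂ} (h0 : ∀ᶠ s in 𝓝 (0 : ℂ), F (0, s) = x)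
    (h1 : ∀ᶠ s in 𝓝 (0 : ℂ), fderiv ℂ F (0, s) (1, 0) = v₀ + s • v) :
    fderiv ℂ F (0, 0) (0, 1) = 0 ∧ Tendsto (fun z : ℂ => z⁻¹ • fderiv ℂ F (z, 0) (0, 1)) (𝓝[≠] 0) (𝓝 v) := by
  have hD : AnalyticAt ℂ (fderiv ℂ F) (0, 0) := hF.fderiv
  have hi1 : HasDerivAt (fun z : ℂ => ((z, 0) : ℂ × ℂ)) (1, 0) 0 := (hasDerivAt_id (0 : ℂ)).prodMk (hasDerivAt_const (0 : ℂ) (0 : ℂ))
  have hi2 : HasDerivAt (fun s : ℂ => ((0, s) : ℂ × ℂ)) (0, 1) 0 := (hasDerivAt_const (0 : ℂ) (0 : ℂ)).prodMk (hasDerivAt_id (0 : ℂ))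
  have hz : fderiv ℂ F (0, 0) (0, 1) = 0 := by
    have h2 : HasDerivAt (fun s : ℂ => F (0, s)) (fderiv ℂ F (0, 0) (0, 1)) 0 :=
      (hF.differentiableAt.hasFDerivAt).comp_hasDerivAt (0 : ℂ) hi2
    have h3 : HasDerivAt (fun s : ℂ => F (0, s)) 0 0 := (hasDerivAt_const (0 : ℂ) x).congr_of_eventuallyEq h0
    exact h2.unique h3
  refine ⟨hz, ?_⟩
  have hA : HasDerivAt (fun z : ℂ => fderiv ℂ F (z, 0)) (fderiv ℂ (fderiv ℂ F) (0, 0) (1, 0)) 0 :=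
    HasFDerivAt.comp_hasDerivAt (f := fun z : ℂ => ((z, 0) : ℂ × ℂ)) (0 : ℂ) (hD.differentiableAt.hasFDerivAt) hi1
  have hB : HasDerivAt (fun s : ℂ => fderiv ℂ F (0, s)) (fderiv ℂ (fderiv ℂ F) (0, 0) (0, 1)) 0 :=
    HasFDerivAt.comp_hasDerivAt (f := fun s : ℂ => ((0, s) : ℂ × ℂ)) (0 : ℂ) (hD.differentiableAt.hasFDerivAt) hi2
  have hA' : HasDerivAt (fun z : ℂ => fderiv ℂ F (z, 0) (0, 1)) (fderiv ℂ (fderiv ℂ F) (0, 0) (1, 0) (0, 1)) 0 :=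
    hA.clm_apply (hasDerivAt_const (0 : ℂ) ((0, 1) : ℂ × ℂ)) |>.congr_deriv (by simp)
  have hB' : HasDerivAt (fun s : ℂ => fderiv ℂ F (0, s) (1, 0)) (fderiv ℂ (fderiv ℂ F) (0, 0) (0, 1) (1, 0)) 0 :=
    hB.clm_apply (hasDerivAt_const (0 : ℂ) ((1, 0) : ℂ × ℂ)) |>.congr_deriv (by simp)
  have hsym : fderiv ℂ (fderiv ℂ F) (0, 0) (1, 0) (0, 1) = fderiv ℂ (fderiv ℂ F) (0, 0) (0, 1) (1, 0) :=
    (hF.contDiffAt (n := 2)).isSymmSndFDerivAt (by simp) (1, 0) (0, 1)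
  have hC : HasDerivAt (fun s : ℂ => fderiv ℂ F (0, s) (1, 0)) v 0 := by
    have h2 : HasDerivAt (fun s : ℂ => v₀ + s • v) v 0 := by
      have := ((hasDerivAt_id (0 : ℂ)).smul_const v).const_add v₀
      simpa using this
    exact h2.congr_of_eventuallyEq h1
  have hv : fderiv ℂ (fderiv ℂ F) (0, 0) (1, 0) (0, 1) = v := by
    rw [hsym]
    exact hB'.unique hC
  rw [hv] at hA'
  have h3 := hasDerivAt_iff_tendsto_slope_zero.mp hA'
  simpa [hz] using h3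

end JacAux

open JacAux

theorem jac_pol (hP : Homog P) (hθ : Polar (m := fun _ => m) θ) (hm : 1 ≤ m) (f : Frame (m := fun _ => m) θ) {x : Fin (N + 1) → ℂ}
    {e : Fin d → Fin (N + 1) → ℂ} (hx : x ∈ cone P) (he : ∀ j, e j ∈ conTan P x) {E : (Fin d → ℂ) → PN N} (hE : IsExp (m := fun _ => m) θ x e E) (hEP : ∀ t, E t ∈ projVar P)
    {t : Fin d → ℂ} (ht : t ≠ 0) (w : Fin d → ℂ) {F : (Fin d → ℂ) → Fin (N + 1) → ℂ} (hF : Hl E F t) (k : Fin J) :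
    pol (θ k) (F t) (fderiv ℂ F t t) (fderiv ℂ F t w) = pol (θ k) x (vv e t) (vv e w) := by
  classical
  -- the family
  obtain ⟨δ, hδ, hne⟩ : ∃ δ > 0, ∀ s : ℂ, ‖s‖ < δ → t + s • w ≠ 0 := by
    have h1 : ContinuousAt (fun s : ℂ => t + s • w) 0 := by fun_prop
    have h2 : ∀ᶠ s in 𝓝 (0 : ℂ), t + s • w ≠ 0 := h1.eventually_ne (by simpa using ht)
    obtain ⟨δ, hδ, h3⟩ := Metric.eventually_nhds_iff.mp h2
    exact ⟨δ, hδ, fun s hs => h3 (by simpa using hs)⟩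
  set Φ : ℂ × ℂ → PN N := fun p => E (p.1 • (t + p.2 • w)) with hΦdef
  have hΦm : ∀ p, Φ p ∈ projVar P := fun p => hEP _
  have hφ1 : ∀ q : ℂ × ℂ, AnalyticAt ℂ (fun p : ℂ × ℂ => ((p.1, t + p.2 • w) : ℂ × (Fin d → ℂ))) q := fun q =>
    analyticAt_fst.prod (analyticAt_const.add (analyticAt_snd.smul analyticAt_const))
  have hφ2 : ∀ q : ℂ × ℂ, AnalyticAt ℂ (fun p : ℂ × ℂ => p.1 • (t + p.2 • w)) q := fun q =>
    analyticAt_fst.smul (analyticAt_const.add (analyticAt_snd.smul analyticAt_const))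
  have hΦ : ∀ q : ℂ × ℂ, ‖q.2‖ < δ → ∃ F, Hl Φ F q := by
    rintro ⟨z, s⟩ hq
    by_cases hz : z = 0
    · subst hz
      obtain ⟨G, hG, -⟩ := hE.init (t + s • w) (hne _ hq)
      exact ⟨fun p => G (p.1, t + p.2 • w), Hl_comp (φ := fun p : ℂ × ℂ => ((p.1, t + p.2 • w) : ℂ × (Fin d → ℂ))) (q := (0, s)) hG (hφ1 _)⟩
    · obtain ⟨G, hG⟩ := hE.hol (z • (t + s • w)) (smul_ne_zero hz (hne _ hq))
      exact ⟨fun p => G (p.1 • (t + p.2 • w)), Hl_comp (φ := fun p : ℂ × ℂ => p.1 • (t + p.2 • w)) (q := (z, s)) hG (hφ2 _)⟩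
  -- the speed
  have harc : ∀ (q : ℂ × ℂ) F, ‖q.2‖ < δ → Hl Φ F q → ∀ k, (θ k).toFun (F q) (fderiv ℂ F q (1, 0)) = (θ k).toFun x (vv e (t + q.2 • w)) := by
    intro q F hq hF k
    obtain ⟨G, hG, hGr, hGc⟩ := hE.arc (t + q.2 • w) (hne _ hq) q.1
    have h1 : Hl (fun z : ℂ => E (z • (t + q.2 • w))) G q.1 := ⟨hG, hGr⟩
    have h2 : Hl (fun z : ℂ => E (z • (t + q.2 • w))) (fun z => F (z, q.2)) q.1 :=
      Hl_comp (φ := fun z : ℂ => ((z, q.2) : ℂ × ℂ)) hF (analyticAt_id.prod analyticAt_const)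
    have h3 := (pol_hl hP (s := θ k) h2 h1 (fun _ => hEP _) 1 1).2.1
    have h4 : fderiv ℂ (fun z => F (z, q.2)) q.1 1 = fderiv ℂ F q (1, 0) := by
      have h5 : HasDerivAt (fun z : ℂ => ((z, q.2) : ℂ × ℂ)) (1, 0) q.1 := (hasDerivAt_id q.1).prodMk (hasDerivAt_const q.1 q.2)
      have h6 : HasDerivAt (fun z : ℂ => F (z, q.2)) (fderiv ℂ F q (1, 0)) q.1 := (hF.1.differentiableAt.hasFDerivAt).comp_hasDerivAt q.1 h5
      rw [fderiv_apply_one_eq_deriv, h6.deriv]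
    have h7 := (hGc.self_of_nhds).2 k
    rw [h4, fderiv_apply_one_eq_deriv] at h3
    exact h3.trans h7
  have hderc : ∀ (q : ℂ × ℂ) F, Hl Φ F q → F q ∈ cone P ∧ ∀ u, fderiv ℂ F q u ∈ conTan P (F q) := fun q F hF => (hl_cone hP hF hΦm).self_of_nhds
  have hcs : ∃ M : ℝ, ∀ s : ℂ, ‖s‖ < δ → ∀ k, ‖(θ k).toFun x (vv e (t + s • w))‖ ≤ M := by
    obtain ⟨C2, hC2, htf⟩ := toFun_le hP hm f
    have hcont : Continuous fun s : ℂ => wl x (vv e (t + s • w)) ^ m := by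
      simp only [vv_add_smul]
      unfold wl
      fun_prop
    obtain ⟨M0, hM0⟩ := (isCompact_closedBall (0 : ℂ) δ).exists_bound_of_continuousOn hcont.continuousOn
    refine ⟨C2 * M0, fun s hs k => (htf k x hx _ (vv_mem he _)).trans (mul_le_mul_of_nonneg_left ?_ hC2)⟩
    exact (le_abs_self _).trans (hM0 s (by simpa using hs.le))
  obtain ⟨M, hM⟩ := hcs
  obtain ⟨C1, hC1, hle⟩ := le_toFun hP hm hθ f
  have hsp : ∀ (q : ℂ × ℂ) F, ‖q.2‖ < δ → Hl Φ F q → wl (F q) (fderiv ℂ F q (1, 0)) ≤ 1 + C1 * M := by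
    intro q F hq hF
    have h1 := hle (F q) (hderc q F hF).1 _ ((hderc q F hF).2 (1, 0)) M (fun k => by
      rw [harc q F hq hF k]
      exact hM _ hq k)
    have h0 := wl_nonneg (F q) (fderiv ℂ F q (1, 0))
    by_cases h2 : wl (F q) (fderiv ℂ F q (1, 0)) ≤ 1
    · have h3 : 0 ≤ C1 * M := le_trans (pow_nonneg h0 m) h1
      linarith
    · push Not at h2
      have h3 : wl (F q) (fderiv ℂ F q (1, 0)) ≤ wl (F q) (fderiv ℂ F q (1, 0)) ^ m := le_self_pow₀ h2.le (by omega)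
      linarith
  -- the polar form
  set b : ℂ × ℂ → ℂ := fun p => if h : ∃ F, Hl Φ F p then pol (θ k) (h.choose p) (fderiv ℂ h.choose p (1, 0)) (fderiv ℂ h.choose p (0, 1)) else 0 with hbdef
  have hbF : ∀ (q : ℂ × ℂ) F, Hl Φ F q → b q = pol (θ k) (F q) (fderiv ℂ F q (1, 0)) (fderiv ℂ F q (0, 1)) := by
    intro q F hF
    have hex : ∃ F, Hl Φ F q := ⟨F, hF⟩
    simp only [hbdef, dif_pos hex]
    exact (pol_hl hP hex.choose_spec hF hΦm _ _).1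
  have hban : ∀ q : ℂ × ℂ, ‖q.2‖ < δ → AnalyticAt ℂ b q := by
    intro q hq
    obtain ⟨F, hF⟩ := hΦ q hq
    refine (pol_an hP (s := θ k) hF hΦm (1, 0) (0, 1)).1.congr ?_
    filter_upwards [Hl_near hF] with p hp
    exact (hbF p F hp).symm
  obtain ⟨C3, hC3, hpl⟩ := pol_le hP f
  have hbb : ∀ (q : ℂ × ℂ) F, ‖q.2‖ < δ → Hl Φ F q → ‖b q‖ ≤ (C3 * (1 + C1 * M) ^ (m - 1)) * wl (F q) (fderiv ℂ F q (0, 1)) := by
    intro q F hq hF
    rw [hbF q F hF]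
    refine (hpl k (F q) (hderc q F hF).1 _ ((hderc q F hF).2 (1, 0)) _ ((hderc q F hF).2 (0, 1))).trans ?_
    refine mul_le_mul_of_nonneg_right ?_ (wl_nonneg _ _)
    exact mul_le_mul_of_nonneg_left (pow_le_pow_left₀ (wl_nonneg _ _) (hsp q F hq hF) _) hC3
  obtain ⟨p₀, q₀, hpq⟩ := jacobi_affine hδ hΦ hsp hban hbb
  -- the value at `z = 1`
  have hb1 : b (1, 0) = pol (θ k) (F t) (fderiv ℂ F t t) (fderiv ℂ F t w) := by
    have ht1 : (fun p : ℂ × ℂ => p.1 • (t + p.2 • w)) (1, 0) = t := by simp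
    have h1 : Hl Φ (fun p : ℂ × ℂ => F (p.1 • (t + p.2 • w))) (1, 0) := by
      have h0 : Hl E F ((fun p : ℂ × ℂ => p.1 • (t + p.2 • w)) (1, 0)) := by
        rw [ht1]
        exact hF
      exact Hl_comp (φ := fun p : ℂ × ℂ => p.1 • (t + p.2 • w)) h0 (hφ2 _)
    rw [hbF _ _ h1]
    have h2 : HasFDerivAt F (fderiv ℂ F t) ((fun p : ℂ × ℂ => p.1 • (t + p.2 • w)) (1, 0)) := by
      rw [ht1]
      exact hF.1.differentiableAt.hasFDerivAt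
    have h3 : HasFDerivAt (fun p : ℂ × ℂ => p.1 • (t + p.2 • w)) (fderiv ℂ (fun p : ℂ × ℂ => p.1 • (t + p.2 • w)) (1, 0)) (1, 0) :=
      (hφ2 _).differentiableAt.hasFDerivAt
    have h4 := (h2.comp ((1 : ℂ), (0 : ℂ)) h3).fderiv
    have h5 : fderiv ℂ (fun p : ℂ × ℂ => p.1 • (t + p.2 • w)) (1, 0) (1, 0) = t := by
      have h6 : HasDerivAt (fun z : ℂ => ((z, 0) : ℂ × ℂ)) (1, 0) 1 := (hasDerivAt_id (1 : ℂ)).prodMk (hasDerivAt_const (1 : ℂ) (0 : ℂ))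
      have h7 := h3.comp_hasDerivAt (1 : ℂ) h6
      have h8 : HasDerivAt (fun z : ℂ => z • (t + (0 : ℂ) • w)) t 1 := by
        have := (hasDerivAt_id (1 : ℂ)).smul_const (t + (0 : ℂ) • w)
        simpa using this
      exact h7.unique h8
    have h9 : fderiv ℂ (fun p : ℂ × ℂ => p.1 • (t + p.2 • w)) (1, 0) (0, 1) = w := by
      have h6 : HasDerivAt (fun s : ℂ => ((1, s) : ℂ × ℂ)) (0, 1) 0 := (hasDerivAt_const (0 : ℂ) (1 : ℂ)).prodMk (hasDerivAt_id (0 : ℂ))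
      have h7 := h3.comp_hasDerivAt (0 : ℂ) h6
      have h8 : HasDerivAt (fun s : ℂ => (1 : ℂ) • (t + s • w)) w 0 := by
        have := (((hasDerivAt_id (0 : ℂ)).smul_const w).const_add t).const_smul (1 : ℂ)
        simpa using this
      exact h7.unique h8
    have h10 : fderiv ℂ (fun p : ℂ × ℂ => F (p.1 • (t + p.2 • w))) (1, 0) = (fderiv ℂ F t).comp (fderiv ℂ (fun p : ℂ × ℂ => p.1 • (t + p.2 • w)) (1, 0)) := h4
    rw [h10, ContinuousLinearMap.comp_apply, ContinuousLinearMap.comp_apply, h5, h9]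
    simp
  -- near `z = 0`
  obtain ⟨G, hG, hGi⟩ := hE.init t ht
  set H : ℂ × ℂ → Fin (N + 1) → ℂ := fun p => G (p.1, t + p.2 • w) with hHdef
  have hH : Hl Φ H (0, 0) := by
    have h0 : Hl (fun p : ℂ × (Fin d → ℂ) => E (p.1 • p.2)) G ((fun p : ℂ × ℂ => ((p.1, t + p.2 • w) : ℂ × (Fin d → ℂ))) (0, 0)) := by
      have h1 : (fun p : ℂ × ℂ => ((p.1, t + p.2 • w) : ℂ × (Fin d → ℂ))) (0, 0) = ((0 : ℂ), t) := by simp
      rw [h1]
      exact hG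
    exact Hl_comp (φ := fun p : ℂ × ℂ => ((p.1, t + p.2 • w) : ℂ × (Fin d → ℂ))) (q := (0, 0)) h0 (hφ1 _)
  have hst : Tendsto (fun s : ℂ => t + s • w) (𝓝 0) (𝓝 t) := by
    have h1 : ContinuousAt (fun s : ℂ => t + s • w) 0 := by fun_prop
    simpa [ContinuousAt] using h1
  have hH0 : ∀ᶠ s in 𝓝 (0 : ℂ), H (0, s) = x := (hst.eventually hGi).mono fun s hs => hs.1
  have hGd : ∀ᶠ s in 𝓝 (0 : ℂ), DifferentiableAt ℂ G ((0 : ℂ), t + s • w) := by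
    have h1 : Tendsto (fun s : ℂ => (((0 : ℂ), t + s • w) : ℂ × (Fin d → ℂ))) (𝓝 0) (𝓝 ((0 : ℂ), t)) := tendsto_const_nhds.prodMk_nhds hst
    exact (h1.eventually hG.1.eventually_analyticAt).mono fun s hs => hs.differentiableAt
  have hH1 : ∀ᶠ s in 𝓝 (0 : ℂ), fderiv ℂ H (0, s) (1, 0) = vv e t + s • vv e w := by
    filter_upwards [hst.eventually hGi, hGd, (Continuous.tendsto (f := fun s : ℂ => (((0 : ℂ), s) : ℂ × ℂ)) (by fun_prop) 0).eventually (Hl_near hH)]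
      with s hs hd hHs
    rw [← vv_add_smul, ← hs.2]
    have h6 : HasDerivAt (fun z : ℂ => ((z, s) : ℂ × ℂ)) (1, 0) 0 := (hasDerivAt_id (0 : ℂ)).prodMk (hasDerivAt_const (0 : ℂ) s)
    have h7 : HasDerivAt (fun z : ℂ => H (z, s)) (fderiv ℂ H (0, s) (1, 0)) 0 :=
      HasFDerivAt.comp_hasDerivAt (f := fun z : ℂ => ((z, s) : ℂ × ℂ)) (0 : ℂ) (hHs.1.differentiableAt.hasFDerivAt) h6
    have h8 : HasDerivAt (fun z : ℂ => ((z, t + s • w) : ℂ × (Fin d → ℂ))) (1, 0) 0 := (hasDerivAt_id (0 : ℂ)).prodMk (hasDerivAt_const (0 : ℂ) (t + s • w))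
    have h9 : HasDerivAt (fun z : ℂ => G (z, t + s • w)) (fderiv ℂ G (0, t + s • w) (1, 0)) 0 :=
      HasFDerivAt.comp_hasDerivAt (f := fun z : ℂ => ((z, t + s • w) : ℂ × (Fin d → ℂ))) (0 : ℂ) (hd.hasFDerivAt) h8
    exact h7.unique h9
  obtain ⟨hm0, hmix⟩ := mixed hH.1 hH0 hH1
  have hH00 : H (0, 0) = x := hH0.self_of_nhds
  have hH10 : fderiv ℂ H (0, 0) (1, 0) = vv e t := by
    have := hH1.self_of_nhds
    simpa using this
  have hb0 : b (0, 0) = 0 := by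
    rw [hbF _ _ hH, hm0]
    simp [pol]
  have hp0 : p₀ = 0 := by
    have := hpq 0
    rw [hb0] at this
    simpa using this.symm
  -- the limit
  obtain ⟨a, ha⟩ : ∃ a, x a ≠ 0 := Function.ne_iff.mp hx.1
  obtain ⟨e', A, hA⟩ := pol_poly (θ k) a
  have hzn : Tendsto (fun z : ℂ => (((z, 0) : ℂ × ℂ))) (𝓝[≠] 0) (𝓝 (0, 0)) :=
    (Continuous.tendsto (f := fun z : ℂ => ((z, 0) : ℂ × ℂ)) (by fun_prop) 0).mono_left nhdsWithin_le_nhds
  have hHc : Tendsto (fun z : ℂ => H (z, 0)) (𝓝[≠] 0) (𝓝 x) := by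
    have := (hH.1.continuousAt.tendsto).comp hzn
    rwa [hH00] at this
  have hHd : Tendsto (fun z : ℂ => fderiv ℂ H (z, 0) (1, 0)) (𝓝[≠] 0) (𝓝 (vv e t)) := by
    have h1 : ContinuousAt (fun p => fderiv ℂ H p (1, 0)) (0, 0) := (hH.1.fderiv.continuousAt).clm_apply continuousAt_const
    have := (h1.tendsto).comp hzn
    rwa [hH10] at this
  have hlhs : ∀ᶠ z in 𝓝[≠] (0 : ℂ), H (z, 0) a ^ e' * q₀ = ∑ c, eval (pt (H (z, 0)) (fderiv ℂ H (z, 0) (1, 0))) (pderiv (Sum.inr c) A) *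
      (z⁻¹ • fderiv ℂ H (z, 0) (0, 1)) c := by
    filter_upwards [hzn.eventually (Hl_near hH), self_mem_nhdsWithin] with z hz hz0
    have hz0' : z ≠ 0 := hz0
    have h1 := hA (H (z, 0)) (hderc _ _ hz).1 _ ((hderc _ _ hz).2 (1, 0)) _ ((hderc _ _ hz).2 (0, 1))
    rw [← hbF _ _ hz, hpq z, hp0, zero_add] at h1
    have h2 : H (z, 0) a ^ e' * q₀ = z⁻¹ * (H (z, 0) a ^ e' * (q₀ * z)) := by
      field_simp
    rw [h2, h1, Finset.mul_sum]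
    refine Finset.sum_congr rfl fun c _ => ?_
    simp only [Pi.smul_apply, smul_eq_mul]
    ring
  have hl1 : Tendsto (fun z : ℂ => H (z, 0) a ^ e' * q₀) (𝓝[≠] 0) (𝓝 (x a ^ e' * q₀)) :=
    ((tendsto_pi_nhds.mp hHc a).pow e').mul tendsto_const_nhds
  have hl2 : Tendsto (fun z : ℂ => ∑ c, eval (pt (H (z, 0)) (fderiv ℂ H (z, 0) (1, 0))) (pderiv (Sum.inr c) A) *
      (z⁻¹ • fderiv ℂ H (z, 0) (0, 1)) c) (𝓝[≠] 0) (𝓝 (∑ c, eval (pt x (vv e t)) (pderiv (Sum.inr c) A) * (vv e w) c)) := by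
    refine tendsto_finset_sum _ fun c _ => Tendsto.mul ?_ (tendsto_pi_nhds.mp hmix c)
    have h1 : Continuous fun y : Ph N → ℂ => eval y (pderiv (Sum.inr c) A) := MvPolynomial.continuous_eval _
    have h2 : Tendsto (fun z : ℂ => (pt (H (z, 0)) (fderiv ℂ H (z, 0) (1, 0)) : Ph N → ℂ)) (𝓝[≠] 0) (𝓝 (pt x (vv e t))) := by
      rw [tendsto_pi_nhds]
      rintro (i | i)
      · exact tendsto_pi_nhds.mp hHc i
      · exact tendsto_pi_nhds.mp hHd i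
    exact (h1.tendsto _).comp h2
  have hlim : x a ^ e' * q₀ = ∑ c, eval (pt x (vv e t)) (pderiv (Sum.inr c) A) * (vv e w) c :=
    tendsto_nhds_unique hl1 (hl2.congr' (hlhs.mono fun z hz => hz.symm))
  have hq0 : q₀ = pol (θ k) x (vv e t) (vv e w) := by
    rw [← hA x hx _ (vv_mem he t) _ (vv_mem he w)] at hlim
    exact mul_left_cancel₀ (pow_ne_zero _ ha) hlim
  rw [← hb1, hpq 1, hp0, zero_add, mul_one, hq0]

end Pool.Agent.GV
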