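import Pool.Agent.GV.Defs
import Pool.Agent.GV.LapC

/-!
# GV Pot: the Fubini-Study density

`Δ log ∑ |F_i|² = 2 den (F, F')` for a holomorphic curve `F` (compare `MQ.lap_log_norm`, MQ/FS, MQ/Fub), in both variables.  `den` and `wl²` are comparable.
-/

set_option autoImplicit false

open MvPolynomial Topology Filter Metric
open Pool.Agent.H13.SM (conTan cone)
open Pool.Agent.H17 (PN VanishesAt)
open Pool.Agent.H17EF (projVar)
open Pool.Agent.H17LG.Variety (FunField ratio IsLogGeneralType)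
open Pool.Agent.H62.FC (Homog closureIn)
open Pool.Agent.H66.Lang (HolomorphicIntoPN)
open Pool.Agent.GG Pool.Agent.GB

namespace Pool.Agent.GV

open Laplacian

variable {N : ℕ}

/-- the square of the length of `v` in the Fubini-Study metric -/
noncomputable def den (x v : Fin (N + 1) → ℂ) : ℝ := (∑ i, ∑ j, ‖x i * v j - x j * v i‖ ^ 2) / (∑ i, ‖x i‖ ^ 2) ^ 2

/-! ## Lagrange's identity -/

private theorem pot_lagrange {ι : Type*} [Fintype ι] (x v : ι → ℂ) :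
    ∑ i, ∑ j, ‖x i * v j - x j * v i‖ ^ 2 = 2 * ((∑ i, ‖x i‖ ^ 2) * (∑ i, ‖v i‖ ^ 2) - ‖∑ i, v i * (starRingEnd ℂ) (x i)‖ ^ 2) := by
  have key : ((∑ i, ∑ j, ‖x i * v j - x j * v i‖ ^ 2 : ℝ) : ℂ) =
      ((2 * ((∑ i, ‖x i‖ ^ 2) * (∑ i, ‖v i‖ ^ 2) - ‖∑ i, v i * (starRingEnd ℂ) (x i)‖ ^ 2) : ℝ) : ℂ) := by
    push_cast
    simp only [← Complex.mul_conj', map_sub, map_mul, map_sum, Complex.conj_conj]
    rw [Finset.sum_mul_sum, Finset.sum_mul_sum, mul_sub, two_mul, two_mul]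
    have e1 : ∀ i j, (x i * v j - x j * v i) * ((starRingEnd ℂ) (x i) * (starRingEnd ℂ) (v j) - (starRingEnd ℂ) (x j) * (starRingEnd ℂ) (v i)) =
        (x i * (starRingEnd ℂ) (x i) * (v j * (starRingEnd ℂ) (v j)) + x j * (starRingEnd ℂ) (x j) * (v i * (starRingEnd ℂ) (v i))) -
        (v i * (starRingEnd ℂ) (x i) * ((starRingEnd ℂ) (v j) * x j) + v j * (starRingEnd ℂ) (x j) * ((starRingEnd ℂ) (v i) * x i)) := by
      intro i j; ring
    simp only [e1, Finset.sum_sub_distrib, Finset.sum_add_distrib]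
    have e2 : ∑ i, ∑ j, x j * (starRingEnd ℂ) (x j) * (v i * (starRingEnd ℂ) (v i)) = ∑ i, ∑ j, x i * (starRingEnd ℂ) (x i) * (v j * (starRingEnd ℂ) (v j)) := Finset.sum_comm
    have e3 : ∑ i, ∑ j, v j * (starRingEnd ℂ) (x j) * ((starRingEnd ℂ) (v i) * x i) = ∑ i, ∑ j, v i * (starRingEnd ℂ) (x i) * ((starRingEnd ℂ) (v j) * x j) := Finset.sum_comm
    rw [e2, e3]
  exact_mod_cast key

private theorem pot_fsd (x v : Fin (N + 1) → ℂ) :
    MQ.fsd (WithLp.toLp 2 x : EuclideanSpace ℂ (Fin (N + 1))) (WithLp.toLp 2 v) = den x v := by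
  unfold MQ.fsd den
  have h1 : ∀ y : Fin (N + 1) → ℂ, ‖(WithLp.toLp 2 y : EuclideanSpace ℂ (Fin (N + 1)))‖ ^ 2 = ∑ i, ‖y i‖ ^ 2 := fun y => EuclideanSpace.norm_sq_eq _
  have h4 : ‖(WithLp.toLp 2 x : EuclideanSpace ℂ (Fin (N + 1)))‖ ^ 4 = (∑ i, ‖x i‖ ^ 2) ^ 2 := by rw [← h1, ← pow_mul]
  rw [h4, h1, h1, pot_lagrange]
  congr 3

/-! ## the density -/

private theorem pot_sum {G : ℂ × ℂ → EuclideanSpace ℂ (Fin (N + 1))} {F : ℂ × ℂ → Fin (N + 1) → ℂ} (hG : G = fun p => WithLp.toLp 2 (F p)) (p : ℂ × ℂ) :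
    Real.log (∑ i, ‖F p i‖ ^ 2) = 2 * Real.log ‖G p‖ := by
  have h1 : ∑ i, ‖F p i‖ ^ 2 = ‖G p‖ ^ 2 := by
    rw [hG]
    exact (EuclideanSpace.norm_sq_eq (WithLp.toLp 2 (F p) : EuclideanSpace ℂ (Fin (N + 1)))).symm
  rw [h1, Real.log_pow]
  norm_num

theorem pot {F : ℂ × ℂ → Fin (N + 1) → ℂ} {q : ℂ × ℂ} (hF : AnalyticAt ℂ F q) (h0 : F q ≠ 0) :
    ContDiffAt ℝ 4 (fun p => Real.log (∑ i, ‖F p i‖ ^ 2)) q ∧ ∀ᶠ p in 𝓝 q,
      Δ (fun z => Real.log (∑ i, ‖F (z, p.2) i‖ ^ 2)) p.1 = 2 * den (F p) (fderiv ℂ F p (1, 0)) ∧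
      Δ (fun t => Real.log (∑ i, ‖F (p.1, t) i‖ ^ 2)) p.2 = 2 * den (F p) (fderiv ℂ F p (0, 1)) := by
  set L : (Fin (N + 1) → ℂ) ≃L[ℂ] EuclideanSpace ℂ (Fin (N + 1)) := (PiLp.continuousLinearEquiv 2 ℂ (fun _ : Fin (N + 1) => ℂ)).symm with hL
  set G : ℂ × ℂ → EuclideanSpace ℂ (Fin (N + 1)) := fun p => WithLp.toLp 2 (F p) with hG
  have hGL : G = fun p => L (F p) := rfl
  have hGan : ∀ p, AnalyticAt ℂ F p → AnalyticAt ℂ G p := by
    intro p hp
    rw [hGL]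
    exact (L : (Fin (N + 1) → ℂ) →L[ℂ] EuclideanSpace ℂ (Fin (N + 1))).analyticAt _ |>.comp hp
  have hG0 : ∀ p, F p ≠ 0 → G p ≠ 0 := by
    intro p hp h1
    rw [hGL] at h1
    exact hp (L.map_eq_zero_iff.1 h1)
  have hlog : (fun p => Real.log (∑ i, ‖F p i‖ ^ 2)) = fun p => 2 * Real.log ‖G p‖ := by
    funext p; exact pot_sum hG p
  refine ⟨?_, ?_⟩
  · rw [hlog]
    exact contDiffAt_const.mul (contDiffAt_log_norm₂ (hGan q hF) (hG0 q h0))
  · filter_upwards [hF.eventually_analyticAt, hF.continuousAt.eventually_ne h0] with p hp hp0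
    have hdG : fderiv ℂ G p = (L : (Fin (N + 1) → ℂ) →L[ℂ] EuclideanSpace ℂ (Fin (N + 1))).comp (fderiv ℂ F p) := by
      rw [hGL]
      exact ((L : (Fin (N + 1) → ℂ) →L[ℂ] EuclideanSpace ℂ (Fin (N + 1))).hasFDerivAt.comp p hp.differentiableAt.hasFDerivAt).fderiv
    have hGp : HasFDerivAt G (fderiv ℂ G p) p := (hGan p hp).differentiableAt.hasFDerivAt
    constructor
    · have e1 : (fun z => Real.log (∑ i, ‖F (z, p.2) i‖ ^ 2)) = fun z => (2 : ℝ) * Real.log ‖G (z, p.2)‖ := by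
        funext z; exact pot_sum hG (z, p.2)
      have h3 : AnalyticAt ℂ (fun w => G (w, p.2)) p.1 := AnalyticAt.comp (g := G) (by exact hGan p hp) (analyticAt_id.prod analyticAt_const)
      have h4 : deriv (fun w => G (w, p.2)) p.1 = L (fderiv ℂ F p (1, 0)) := by
        have h5 : HasDerivAt (fun w : ℂ => (w, p.2)) (1, 0) p.1 := (hasDerivAt_id p.1).prodMk (hasDerivAt_const p.1 p.2)
        have h6 : HasDerivAt (fun w => G (w, p.2)) (fderiv ℂ G p (1, 0)) p.1 := HasFDerivAt.comp_hasDerivAt p.1 (by exact hGp) h5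
        rw [h6.deriv, hdG]
        rfl
      have hc : ContDiffAt ℝ 2 (fun w => Real.log ‖G (w, p.2)‖) p.1 := MQ.contDiffAt_log_norm h3 (hG0 p hp0)
      have e2 : Δ (fun z => (2 : ℝ) * Real.log ‖G (z, p.2)‖) p.1 = 2 * Δ (fun z => Real.log ‖G (z, p.2)‖) p.1 := by
        have := InnerProductSpace.laplacian_smul (2 : ℝ) hc
        simpa [Pi.smul_def, smul_eq_mul] using this
      rw [e1, e2, MQ.lap_log_normV h3 (hG0 p hp0), h4]
      exact congrArg (2 * ·) (pot_fsd (F p) _)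
    · have e1 : (fun z => Real.log (∑ i, ‖F (p.1, z) i‖ ^ 2)) = fun z => (2 : ℝ) * Real.log ‖G (p.1, z)‖ := by
        funext z; exact pot_sum hG (p.1, z)
      have h3 : AnalyticAt ℂ (fun w => G (p.1, w)) p.2 := AnalyticAt.comp (g := G) (by exact hGan p hp) (analyticAt_const.prod analyticAt_id)
      have h4 : deriv (fun w => G (p.1, w)) p.2 = L (fderiv ℂ F p (0, 1)) := by
        have h5 : HasDerivAt (fun w : ℂ => (p.1, w)) (0, 1) p.2 := (hasDerivAt_const p.2 p.1).prodMk (hasDerivAt_id p.2)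
        have h6 : HasDerivAt (fun w => G (p.1, w)) (fderiv ℂ G p (0, 1)) p.2 := HasFDerivAt.comp_hasDerivAt p.2 (by exact hGp) h5
        rw [h6.deriv, hdG]
        rfl
      have hc : ContDiffAt ℝ 2 (fun w => Real.log ‖G (p.1, w)‖) p.2 := MQ.contDiffAt_log_norm h3 (hG0 p hp0)
      have e2 : Δ (fun z => (2 : ℝ) * Real.log ‖G (p.1, z)‖) p.2 = 2 * Δ (fun z => Real.log ‖G (p.1, z)‖) p.2 := by
        have := InnerProductSpace.laplacian_smul (2 : ℝ) hc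
        simpa [Pi.smul_def, smul_eq_mul] using this
      rw [e1, e2, MQ.lap_log_normV h3 (hG0 p hp0), h4]
      exact congrArg (2 * ·) (pot_fsd (F p) _)

theorem den_le (N : ℕ) : ∃ C : ℝ, 0 ≤ C ∧ ∀ x v : Fin (N + 1) → ℂ, x ≠ 0 → 0 ≤ den x v ∧ den x v ≤ C * wl x v ^ 2 ∧ wl x v ^ 2 ≤ C * den x v := by
  refine ⟨((N + 1 : ℕ) : ℝ) ^ 2, by positivity, fun x v hx => ?_⟩
  set n : ℝ := ((N + 1 : ℕ) : ℝ) with hn
  have hn1 : 1 ≤ n := by rw [hn]; exact_mod_cast Nat.succ_le_succ (Nat.zero_le N)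
  set W : Fin (N + 1) × Fin (N + 1) → ℂ := fun p => x p.1 * v p.2 - x p.2 * v p.1 with hW
  set S : ℝ := ∑ i, ∑ j, ‖x i * v j - x j * v i‖ ^ 2 with hS
  set T : ℝ := ∑ i, ‖x i‖ ^ 2 with hT
  have hx0 : 0 < ‖x‖ := norm_pos_iff.2 hx
  have hS' : S = ∑ p : Fin (N + 1) × Fin (N + 1), ‖W p‖ ^ 2 := by rw [hS, Fintype.sum_prod_type]
  have hS1 : S ≤ n ^ 2 * ‖W‖ ^ 2 := by
    rw [hS']
    calc ∑ p : Fin (N + 1) × Fin (N + 1), ‖W p‖ ^ 2 ≤ ∑ p : Fin (N + 1) × Fin (N + 1), ‖W‖ ^ 2 :=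
          Finset.sum_le_sum fun p _ => pow_le_pow_left₀ (norm_nonneg _) (norm_le_pi_norm W p) 2
      _ = n ^ 2 * ‖W‖ ^ 2 := by
          rw [Finset.sum_const, Finset.card_univ, Fintype.card_prod, Fintype.card_fin, nsmul_eq_mul, hn]
          push_cast
          ring
  have hS2 : ‖W‖ ^ 2 ≤ S := by
    have h1 : ‖W‖ ≤ Real.sqrt S := by
      refine (pi_norm_le_iff_of_nonneg (Real.sqrt_nonneg _)).2 fun p => ?_
      refine Real.le_sqrt_of_sq_le ?_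
      rw [hS']
      exact Finset.single_le_sum (f := fun p => ‖W p‖ ^ 2) (fun p _ => by positivity) (Finset.mem_univ p)
    have hS0 : 0 ≤ S := by rw [hS']; positivity
    calc ‖W‖ ^ 2 ≤ Real.sqrt S ^ 2 := pow_le_pow_left₀ (norm_nonneg _) h1 2
      _ = S := Real.sq_sqrt hS0
  have hT1 : T ≤ n * ‖x‖ ^ 2 := by
    calc T ≤ ∑ i : Fin (N + 1), ‖x‖ ^ 2 := Finset.sum_le_sum fun p _ => pow_le_pow_left₀ (norm_nonneg _) (norm_le_pi_norm x p) 2
      _ = n * ‖x‖ ^ 2 := by simp [hn]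
  have hT2 : ‖x‖ ^ 2 ≤ T := by
    have hT0 : 0 ≤ T := by positivity
    have h1 : ‖x‖ ≤ Real.sqrt T := by
      refine (pi_norm_le_iff_of_nonneg (Real.sqrt_nonneg _)).2 fun p => ?_
      refine Real.le_sqrt_of_sq_le ?_
      exact Finset.single_le_sum (f := fun p => ‖x p‖ ^ 2) (fun p _ => by positivity) (Finset.mem_univ p)
    calc ‖x‖ ^ 2 ≤ Real.sqrt T ^ 2 := pow_le_pow_left₀ (norm_nonneg _) h1 2
      _ = T := Real.sq_sqrt hT0
  have hT0 : 0 < T := lt_of_lt_of_le (by positivity) hT2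
  have hS0 : 0 ≤ S := by rw [hS']; positivity
  have hden : den x v = S / T ^ 2 := rfl
  have hwl : wl x v ^ 2 = ‖W‖ ^ 2 / ‖x‖ ^ 4 := by
    show (‖W‖ / ‖x‖ ^ 2) ^ 2 = _
    rw [div_pow, ← pow_mul]
  refine ⟨by rw [hden]; positivity, ?_, ?_⟩
  · rw [hden, hwl, ← mul_div_assoc]
    refine div_le_div₀ (by positivity) hS1 (by positivity) ?_
    calc ‖x‖ ^ 4 = (‖x‖ ^ 2) ^ 2 := by ring
      _ ≤ T ^ 2 := pow_le_pow_left₀ (by positivity) hT2 2
  · rw [hden, hwl, ← mul_div_assoc, div_le_div_iff₀ (by positivity) (by positivity)]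
    have h2 : T ^ 2 ≤ n ^ 2 * ‖x‖ ^ 4 := by
      calc T ^ 2 ≤ (n * ‖x‖ ^ 2) ^ 2 := pow_le_pow_left₀ hT0.le hT1 2
        _ = n ^ 2 * ‖x‖ ^ 4 := by ring
    calc ‖W‖ ^ 2 * T ^ 2 ≤ S * (n ^ 2 * ‖x‖ ^ 4) := mul_le_mul hS2 h2 (by positivity) hS0
      _ = n ^ 2 * S * ‖x‖ ^ 4 := by ring

/-! ## independence of the representative -/

private theorem den_smul (x v : Fin (N + 1) → ℂ) {a : ℂ} (ha : a ≠ 0) (c : ℂ) : den (a • x) (a • v + c • x) = den x v := by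
  have h1 : ∀ i j, (a • x) i * (a • v + c • x) j - (a • x) j * (a • v + c • x) i = a ^ 2 * (x i * v j - x j * v i) := by
    intro i j
    simp only [Pi.smul_apply, Pi.add_apply, smul_eq_mul]
    ring
  have ha' : 0 < ‖a‖ := norm_pos_iff.2 ha
  have e : (‖a‖ ^ 2) ^ 2 ≠ 0 := by positivity
  have e1 : ∑ i, ∑ j, ‖(a • x) i * (a • v + c • x) j - (a • x) j * (a • v + c • x) i‖ ^ 2 = (‖a‖ ^ 2) ^ 2 * ∑ i, ∑ j, ‖x i * v j - x j * v i‖ ^ 2 := by
    simp only [h1, norm_mul, norm_pow, mul_pow, ← Finset.mul_sum]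
  have e2 : (∑ i, ‖(a • x) i‖ ^ 2) ^ 2 = (‖a‖ ^ 2) ^ 2 * (∑ i, ‖x i‖ ^ 2) ^ 2 := by
    simp only [Pi.smul_apply, smul_eq_mul, norm_mul, mul_pow, ← Finset.mul_sum]
  unfold den
  rw [e1, e2]
  exact mul_div_mul_left _ _ e

/-- `den` does not depend on the representative -/
theorem den_hl {V : Type*} [NormedAddCommGroup V] [NormedSpace ℂ V] {Φ : V → PN N} {F G : V → Fin (N + 1) → ℂ} {q : V} (hF : Hl Φ F q) (hG : Hl Φ G q) (u : V) :
    den (F q) (fderiv ℂ F q u) = den (G q) (fderiv ℂ G q u) := by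
  obtain ⟨h1, e1⟩ := hF.2.self_of_nhds
  obtain ⟨i, hi⟩ : ∃ i, F q i ≠ 0 := by
    by_contra hcon
    push Not at hcon
    exact h1 (funext hcon)
  -- the factor
  set l : V → ℂ := fun p => G p i / F p i with hl
  have hFi : AnalyticAt ℂ (fun p => F p i) q := ((ContinuousLinearMap.proj (R := ℂ) (φ := fun _ : Fin (N + 1) => ℂ) i).analyticAt _).comp hF.1
  have hGi : AnalyticAt ℂ (fun p => G p i) q := ((ContinuousLinearMap.proj (R := ℂ) (φ := fun _ : Fin (N + 1) => ℂ) i).analyticAt _).comp hG.1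
  have hla : AnalyticAt ℂ l q := hGi.div hFi hi
  have hev : G =ᶠ[𝓝 q] fun p => l p • F p := by
    filter_upwards [hF.2, hG.2, hFi.continuousAt.eventually_ne hi] with p hp hp' hpi
    obtain ⟨h2, e2⟩ := hp
    obtain ⟨h3, e3⟩ := hp'
    rw [e2, Projectivization.mk_eq_mk_iff'] at e3
    obtain ⟨c, hc⟩ := e3
    -- hc : c • G p = F p
    have hci : c * G p i = F p i := by simpa using congrFun hc i
    have hc0 : c ≠ 0 := by
      rintro rfl
      rw [zero_mul] at hci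
      exact hpi hci.symm
    have hGi0 : G p i ≠ 0 := by
      intro h
      rw [h, mul_zero] at hci
      exact hpi hci.symm
    show G p = (G p i / F p i) • F p
    rw [← hc]
    simp only [Pi.smul_apply, smul_eq_mul, smul_smul]
    rw [show G p i / (c * G p i) * c = 1 by field_simp, one_smul]
  have hl0 : l q ≠ 0 := by
    intro h
    obtain ⟨h3, e3⟩ := hG.2.self_of_nhds
    have := hev.self_of_nhds
    simp only [h, zero_smul] at this
    exact h3 this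
  have hd : fderiv ℂ G q u = l q • fderiv ℂ F q u + (fderiv ℂ l q u) • F q := by
    rw [hev.fderiv_eq, fderiv_fun_smul hla.differentiableAt hF.1.differentiableAt]
    simp
  rw [hd, hev.self_of_nhds]
  exact (den_smul _ _ hl0 _).symm

end Pool.Agent.GV
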