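import Pool.Agent.GV.Lin
import Pool.Agent.GV.Pot

/-!
# GV Jbd: a family of curves with bounded speed moves at most linearly (helper49)

PROOF.  `a = 2 den (F, ∂_z F)`, `c = 2 den (F, ∂_t F)` (choose representatives; `den_hl`), `u = log ∑ |F_i|²` (`pot`): `affine_of_green`, `|b|² ≤ C'' c` by `hbc`, `den_le`.
-/

set_option autoImplicit false

open MvPolynomial Topology Filter Metric
open Pool.Agent.H13.SM (conTan cone)
open Pool.Agent.H17 (PN VanishesAt)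
open Pool.Agent.H17EF (projVar)
open Pool.Agent.H17LG.Variety (FunField ratio IsLogGeneralType)
open Pool.Agent.H62.FC (Homog closureIn)
open Pool.Agent.H66.Lang (HolomorphicIntoPN)
open Pool.Agent.GG Pool.Agent.GB

namespace Pool.Agent.GV

variable {N : ℕ}

private theorem jbd_hl_ev {V : Type*} [NormedAddCommGroup V] [NormedSpace ℂ V] {Φ : V → PN N} {F : V → Fin (N + 1) → ℂ} {q : V} (h : Hl Φ F q) :
    ∀ᶠ p in 𝓝 q, Hl Φ F p := by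
  filter_upwards [h.1.eventually_analyticAt, eventually_eventually_nhds.2 h.2] with p h1 h2
  exact ⟨h1, h2⟩

open Classical in
/-- the density in the direction `u`, on the set where there is a representative -/
private noncomputable def jbdD (Φ : ℂ × ℂ → PN N) (u q : ℂ × ℂ) : ℝ :=
  if h : ∃ F, Hl Φ F q then 2 * den (h.choose q) (fderiv ℂ h.choose q u) else 0

private theorem jbdD_eq {Φ : ℂ × ℂ → PN N} {u q : ℂ × ℂ} {F : ℂ × ℂ → Fin (N + 1) → ℂ} (hF : Hl Φ F q) :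
    jbdD Φ u q = 2 * den (F q) (fderiv ℂ F q u) := by
  have h : ∃ F, Hl Φ F q := ⟨F, hF⟩
  unfold jbdD
  rw [dif_pos h, den_hl h.choose_spec hF u]

theorem jacobi_affine {Φ : ℂ × ℂ → PN N} {δ : ℝ} (hδ : 0 < δ) (hΦ : ∀ q : ℂ × ℂ, ‖q.2‖ < δ → ∃ F, Hl Φ F q) {C : ℝ}
    (hz : ∀ (q : ℂ × ℂ) F, ‖q.2‖ < δ → Hl Φ F q → wl (F q) (fderiv ℂ F q (1, 0)) ≤ C)
    {b : ℂ × ℂ → ℂ} (hb : ∀ q : ℂ × ℂ, ‖q.2‖ < δ → AnalyticAt ℂ b q) {C' : ℝ}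
    (hbc : ∀ (q : ℂ × ℂ) F, ‖q.2‖ < δ → Hl Φ F q → ‖b q‖ ≤ C' * wl (F q) (fderiv ℂ F q (0, 1))) : ∃ p₀ q₀ : ℂ, ∀ z, b (z, 0) = p₀ + q₀ * z := by
  obtain ⟨C₀, hC₀, hden⟩ := den_le N
  refine affine_of_green (a := jbdD Φ (1, 0)) (c := jbdD Φ (0, 1)) (A := 2 * (C₀ * C ^ 2)) (B := C' ^ 2 * C₀) hδ ?_ ?_ ?_ (fun z t ht => hb (z, t) ht) ?_
  · intro z t ht
    obtain ⟨F, hF⟩ := hΦ (z, t) ht
    obtain ⟨h0, -⟩ := hF.2.self_of_nhds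
    obtain ⟨hc, hev⟩ := pot hF.1 h0
    refine ⟨fun p => Real.log (∑ i, ‖F p i‖ ^ 2), hc, ?_⟩
    filter_upwards [hev, jbd_hl_ev hF] with p hp hFp
    rw [jbdD_eq hFp, jbdD_eq hFp]
    exact ⟨hp.1.symm, hp.2.symm⟩
  · intro z t ht
    obtain ⟨F, hF⟩ := hΦ (z, t) ht
    obtain ⟨h0, -⟩ := hF.2.self_of_nhds
    obtain ⟨h1, h2, -⟩ := hden (F (z, t)) (fderiv ℂ F (z, t) (1, 0)) h0
    rw [jbdD_eq hF, abs_of_nonneg (by positivity)]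
    have h3 : wl (F (z, t)) (fderiv ℂ F (z, t) (1, 0)) ^ 2 ≤ C ^ 2 := pow_le_pow_left₀ (wl_nonneg _ _) (hz (z, t) F ht hF) 2
    have h4 := mul_le_mul_of_nonneg_left h3 hC₀
    linarith
  · intro z t ht
    obtain ⟨F, hF⟩ := hΦ (z, t) ht
    obtain ⟨h0, -⟩ := hF.2.self_of_nhds
    obtain ⟨h1, -, -⟩ := hden (F (z, t)) (fderiv ℂ F (z, t) (0, 1)) h0
    rw [jbdD_eq hF]
    positivity
  · intro z t ht
    obtain ⟨F, hF⟩ := hΦ (z, t) ht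
    obtain ⟨h0, -⟩ := hF.2.self_of_nhds
    obtain ⟨h1, -, h2⟩ := hden (F (z, t)) (fderiv ℂ F (z, t) (0, 1)) h0
    rw [jbdD_eq hF]
    have h3 : ‖b (z, t)‖ ^ 2 ≤ (C' * wl (F (z, t)) (fderiv ℂ F (z, t) (0, 1))) ^ 2 := pow_le_pow_left₀ (norm_nonneg _) (hbc (z, t) F ht hF) 2
    have h4 : C' ^ 2 * wl (F (z, t)) (fderiv ℂ F (z, t) (0, 1)) ^ 2 ≤ C' ^ 2 * (C₀ * den (F (z, t)) (fderiv ℂ F (z, t) (0, 1))) :=
      mul_le_mul_of_nonneg_left h2 (by positivity)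
    rw [mul_pow] at h3
    have h5 : 0 ≤ C' ^ 2 * (C₀ * den (F (z, t)) (fderiv ℂ F (z, t) (0, 1))) := by positivity
    linarith

end Pool.Agent.GV
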