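import Pool.Agent.H30M.Key
import Pool.Agent.MQ.Ord

/-!
# GV TwoVar: the growth lemma of (C)

`a z t`, `c z t` real functions of two complex variables with `Δ_z c = Δ_t a`, `0 ≤ a`, `a z t ≤ A` for `‖t‖ ≤ e²`, and
`b z t` entire in `z` with `‖b z t‖² ≤ C c z t`: then `b z t` is affine in `z` for `‖t‖ ≤ 1`.

Green with the test functions `tau R (z)`, `tau e (t)`:
`∫∫ tau_e(t) (rhoR_R(z) - rho(z)) c = ∫∫ tau_R(z) (rhoR_e(t) - rho(t)) a ≤ 2 π A ∫ tau_R ≤ C' R² log R`.
For `g` entire, `w` fixed, `r ≥ 2 (‖w‖ + 1)`: `‖g w - g 0 - w (g 1 - g 0)‖ ≤ 4 ‖w‖ ‖w-1‖ r⁻² mean_(|z|=r) ‖g‖`.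
-/

set_option autoImplicit false

open MeasureTheory Topology Filter Metric Laplacian Set

noncomputable section

namespace Pool.Agent.GV

open Pool.Agent.H30M (tau rhoR avg rho tau_nonneg contDiff_tau hcs_tau green_tau rhoR_nonneg rhoR_one continuous_rhoR hcs_rhoR tau_le tau_eq_zero
  int_rhoR rhoR_eq_zero integrable_tau_mul integrable_rhoR_mul avg_le tau_of_le_one)

private lemma tv_sphere {r : ℝ} {z : ℂ} (hz : z ∈ sphere (0 : ℂ) |r|) (hr : 0 < r) : ‖z‖ = r := by
  rw [mem_sphere_zero_iff_norm] at hz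
  rw [hz, abs_of_pos hr]

/-- the second difference through the values on a large circle -/
private lemma tv_cauchy {g : ℂ → ℂ} (hg : Differentiable ℂ g) (w : ℂ) {r : ℝ} (hr : 2 * (‖w‖ + 1) ≤ r) :
    ‖g w - g 0 - w * (g 1 - g 0)‖ ≤ 4 * ‖w‖ * ‖w - 1‖ / r ^ 2 * Real.circleAverage (fun z => ‖g z‖) 0 r := by
  have hw0 : 0 ≤ ‖w‖ := norm_nonneg w
  have hr0 : 0 < r := by linarith
  have habs : |r| = r := abs_of_pos hr0
  have key : ∀ p : ℂ, ‖p‖ ≤ ‖w‖ + 1 → Real.circleAverage (fun z => ((z - 0) / (z - p)) • g z) 0 r = g p := by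
    intro p hp
    refine hg.diffContOnCl.circleAverage_smul_div ?_
    rw [mem_ball_zero_iff, habs]
    linarith
  have h1 := key w (by linarith)
  have h2 := key 0 (by simp; linarith)
  have h3 := key 1 (by simp)
  have hne : ∀ z ∈ sphere (0 : ℂ) |r|, ∀ p : ℂ, ‖p‖ ≤ ‖w‖ + 1 → z - p ≠ 0 := by
    intro z hz p hp h0
    have h4 := tv_sphere hz hr0
    rw [sub_eq_zero.1 h0] at h4
    linarith
  have hci : ∀ p : ℂ, ‖p‖ ≤ ‖w‖ + 1 → CircleIntegrable (fun z => ((z - 0) / (z - p)) • g z) 0 r := by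
    intro p hp
    apply ContinuousOn.circleIntegrable'
    intro z hz
    exact (((continuous_id.sub continuous_const).continuousAt.div (continuous_id.sub continuous_const).continuousAt (hne z hz p hp)).smul
      hg.continuous.continuousAt).continuousWithinAt
  have e : g w - g 0 - w * (g 1 - g 0) = Real.circleAverage (fun z => (w * (w - 1) / ((z - w) * (z - 1))) • g z) 0 r := by
    conv_lhs => rw [← h1, ← h2, ← h3]
    have e1 : w * (Real.circleAverage (fun z => ((z - 0) / (z - 1)) • g z) 0 r - Real.circleAverage (fun z => ((z - 0) / (z - 0)) • g z) 0 r) =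
        Real.circleAverage (fun z => w • (((z - 0) / (z - 1)) • g z - ((z - 0) / (z - 0)) • g z)) 0 r := by
      rw [Real.circleAverage_fun_smul, Real.circleAverage_fun_sub (hci 1 (by simp)) (hci 0 (by simp; linarith)), smul_eq_mul]
    rw [e1, ← Real.circleAverage_fun_sub (hci w (by linarith)) (hci 0 (by simp; linarith)), ← Real.circleAverage_fun_sub]
    · refine Real.circleAverage_congr_sphere fun z hz => ?_
      have n1 := hne z hz w (by linarith)
      have n2 := hne z hz 0 (by simp; linarith)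
      have n3 := hne z hz 1 (by simp)
      simp only [smul_eq_mul, sub_zero] at n2 ⊢
      field_simp
      ring
    · exact (hci w (by linarith)).sub (hci 0 (by simp; linarith))
    · exact ((hci 1 (by simp)).sub (hci 0 (by simp; linarith))).const_smul
  rw [e]
  have hk : ∀ z ∈ sphere (0 : ℂ) |r|, ‖(w * (w - 1) / ((z - w) * (z - 1))) • g z‖ ≤ 4 * ‖w‖ * ‖w - 1‖ / r ^ 2 * ‖g z‖ := by
    intro z hz
    rw [norm_smul]
    refine mul_le_mul_of_nonneg_right ?_ (norm_nonneg _)
    have h4 := tv_sphere hz hr0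
    have h5 : r / 2 ≤ ‖z - w‖ := by
      have := norm_sub_norm_le z w
      linarith
    have h6 : r / 2 ≤ ‖z - 1‖ := by
      have := norm_sub_norm_le z 1
      rw [norm_one] at this
      linarith
    rw [norm_div, norm_mul, norm_mul, div_le_div_iff₀ (by nlinarith [norm_nonneg (z - w), norm_nonneg (z - 1)]) (by positivity)]
    have h7 : r / 2 * (r / 2) ≤ ‖z - w‖ * ‖z - 1‖ := mul_le_mul h5 h6 (by linarith) (norm_nonneg _)
    have h8 : 0 ≤ ‖w‖ * ‖w - 1‖ := by positivity
    nlinarith [mul_le_mul_of_nonneg_left h7 h8]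
  have hcm : ∀ θ : ℝ, circleMap 0 r θ ∈ sphere (0 : ℂ) |r| := fun θ => circleMap_mem_sphere' 0 r θ
  rw [Real.circleAverage_def, Real.circleAverage_def, norm_smul, smul_eq_mul, ← mul_assoc, mul_comm (4 * ‖w‖ * ‖w - 1‖ / r ^ 2), mul_assoc]
  rw [Real.norm_of_nonneg (by positivity)]
  refine mul_le_mul_of_nonneg_left ?_ (by positivity)
  rw [← intervalIntegral.integral_const_mul]
  refine (intervalIntegral.norm_integral_le_integral_norm (by positivity)).trans ?_
  refine intervalIntegral.integral_mono_on (by positivity) ?_ ?_ fun θ _ => hk _ (hcm θ)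
  · have h9 : CircleIntegrable (fun z => (w * (w - 1) / ((z - w) * (z - 1))) • g z) 0 r := by
      apply ContinuousOn.circleIntegrable'
      intro z hz
      exact ((continuousAt_const.div ((continuous_id.sub continuous_const).continuousAt.mul (continuous_id.sub continuous_const).continuousAt)
        (mul_ne_zero (hne z hz w (by linarith)) (hne z hz 1 (by simp)))).smul hg.continuous.continuousAt).continuousWithinAt
    exact h9.norm
  · exact (continuous_const.mul (hg.continuous.norm.comp (continuous_circleMap 0 r))).intervalIntegrable _ _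

private lemma tv_avg {g : ℂ → ℂ} (hg : Differentiable ℂ g) (w : ℂ) {R : ℝ} (hR : 2 * (‖w‖ + 1) ≤ R) :
    2 * Real.pi * ‖g w - g 0 - w * (g 1 - g 0)‖ ≤ 4 * ‖w‖ * ‖w - 1‖ / R ^ 2 * avg R (fun z => ‖g z‖) := by
  have hw0 : 0 ≤ ‖w‖ := norm_nonneg w
  have hR0 : 0 < R := by linarith
  set K : ℝ := 4 * ‖w‖ * ‖w - 1‖ with hK
  have hK0 : 0 ≤ K := by positivity
  have h := Pool.Agent.MQ.int_rho_scale_le (u := fun z => -(K / R ^ 2) * ‖g z‖) (continuous_const.mul hg.continuous.norm)
    (B := -‖g w - g 0 - w * (g 1 - g 0)‖) hR0 fun r h1 h2 => by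
      have h3 := tv_cauchy hg w (hR.trans h1)
      have e : Real.circleAverage (fun z => -(K / R ^ 2) * ‖g z‖) 0 r = -(K / R ^ 2) * Real.circleAverage (fun z => ‖g z‖) 0 r := by
        have := Real.circleAverage_fun_smul (a := -(K / R ^ 2)) (f := fun z => ‖g z‖) (c := 0) (R := r)
        simpa [smul_eq_mul] using this
      rw [e]
      have h4 : 0 ≤ Real.circleAverage (fun z => ‖g z‖) 0 r := Real.circleAverage_nonneg_of_nonneg fun z _ => norm_nonneg _
      have h5 : K / r ^ 2 ≤ K / R ^ 2 := div_le_div_of_nonneg_left hK0 (by positivity) (pow_le_pow_left₀ hR0.le h1 2)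
      have h6 := mul_le_mul_of_nonneg_right h5 h4
      rw [← hK] at h3
      linarith
  have e2 : ∫ z : ℂ, rho (z / R) / R ^ 2 * (-(K / R ^ 2) * ‖g z‖) = -(K / R ^ 2) * avg R (fun z => ‖g z‖) := by
    unfold Pool.Agent.H30M.avg rhoR
    rw [← integral_const_mul]
    refine integral_congr_ae (Eventually.of_forall fun z => ?_)
    simp only
    ring
  rw [e2] at h
  linarith

/-- Fubini for continuous functions and test functions -/
private lemma tv_int {u v : ℂ → ℝ} (hu : Continuous u) (hus : HasCompactSupport u) (hv : Continuous v) (hvs : HasCompactSupport v)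
    {F : ℂ × ℂ → ℝ} (hF : Continuous F) : Integrable (fun p : ℂ × ℂ => u p.1 * v p.2 * F p) (volume.prod volume) := by
  have h1 : Continuous fun p : ℂ × ℂ => u p.1 * v p.2 * F p := ((hu.comp continuous_fst).mul (hv.comp continuous_snd)).mul hF
  refine h1.integrable_of_hasCompactSupport ?_
  refine HasCompactSupport.intro (hus.isCompact.prod hvs.isCompact) fun p hp => ?_
  rw [mem_prod, not_and_or] at hp
  rcases hp with hp | hp
  · rw [image_eq_zero_of_notMem_tsupport hp, zero_mul, zero_mul]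
  · rw [image_eq_zero_of_notMem_tsupport hp, mul_zero, zero_mul]

private lemma tv_fub {u v : ℂ → ℝ} (hu : Continuous u) (hus : HasCompactSupport u) (hv : Continuous v) (hvs : HasCompactSupport v)
    {F : ℂ × ℂ → ℝ} (hF : Continuous F) :
    ∫ t, v t * ∫ z, u z * F (z, t) = ∫ p, u p.1 * v p.2 * F p ∂(volume.prod volume) := by
  rw [integral_prod_symm _ (tv_int hu hus hv hvs hF)]
  refine integral_congr_ae (Eventually.of_forall fun t => ?_)
  simp only
  rw [← integral_const_mul]
  refine integral_congr_ae (Eventually.of_forall fun z => ?_)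
  simp only
  ring

private lemma tv_fub' {u v : ℂ → ℝ} (hu : Continuous u) (hus : HasCompactSupport u) (hv : Continuous v) (hvs : HasCompactSupport v)
    {F : ℂ × ℂ → ℝ} (hF : Continuous F) :
    ∫ z, u z * ∫ t, v t * F (z, t) = ∫ p, u p.1 * v p.2 * F p ∂(volume.prod volume) := by
  rw [integral_prod _ (tv_int hu hus hv hvs hF)]
  refine integral_congr_ae (Eventually.of_forall fun z => ?_)
  simp only
  rw [← integral_const_mul]
  refine integral_congr_ae (Eventually.of_forall fun t => ?_)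
  simp only
  ring

/-- `∫∫ tau_e (t) rhoR_R (z) c` -/
private def JJ (c : ℂ → ℂ → ℝ) (R : ℝ) : ℝ := ∫ p : ℂ × ℂ, rhoR R p.1 * tau (Real.exp 1) p.2 * c p.1 p.2 ∂(volume.prod volume)

private lemma one_le_e : (1 : ℝ) ≤ Real.exp 1 := Real.one_le_exp zero_le_one

private lemma tv_JJ {a c : ℂ → ℂ → ℝ} {A : ℝ} (ha0 : ∀ z t, 0 ≤ a z t) (hA0 : 0 ≤ A) (hc2 : ∀ t, ContDiff ℝ 2 fun z => c z t)
    (ha2 : ∀ z, ContDiff ℝ 2 fun t => a z t) (hcc : Continuous fun p : ℂ × ℂ => c p.1 p.2) (hac : Continuous fun p : ℂ × ℂ => a p.1 p.2)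
    (hL : Continuous fun p : ℂ × ℂ => Δ (fun z => c z p.2) p.1) (hlap : ∀ z t, Δ (fun z => c z t) z = Δ (fun t => a z t) t)
    (hA : ∀ z t, ‖t‖ ≤ Real.exp 2 → a z t ≤ A) {R : ℝ} (hR : 1 ≤ R) : JJ c R ≤ JJ c 1 + 2 * Real.pi * A * ∫ z, tau R z := by
  have he := one_le_e
  have cR := (contDiff_tau R).continuous
  have ce := (contDiff_tau (Real.exp 1)).continuous
  have I1 := tv_int (continuous_rhoR R) (hcs_rhoR hR) ce (hcs_tau he) hcc
  have I2 := tv_int (continuous_rhoR 1) (hcs_rhoR le_rfl) ce (hcs_tau he) hcc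
  have I3 := tv_int cR (hcs_tau hR) (continuous_rhoR (Real.exp 1)) (hcs_rhoR he) hac
  have I4 := tv_int cR (hcs_tau hR) (continuous_rhoR 1) (hcs_rhoR le_rfl) hac
  -- the left side
  have h1 : JJ c R - JJ c 1 = ∫ p : ℂ × ℂ, tau R p.1 * tau (Real.exp 1) p.2 * Δ (fun z => c z p.2) p.1 ∂(volume.prod volume) := by
    rw [← tv_fub (F := fun p => Δ (fun z => c z p.2) p.1) cR (hcs_tau hR) ce (hcs_tau he) hL]
    unfold JJ
    have I12 : Integrable (fun p : ℂ × ℂ => rhoR R p.1 * tau (Real.exp 1) p.2 * c p.1 p.2 - rhoR 1 p.1 * tau (Real.exp 1) p.2 * c p.1 p.2)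
      (volume.prod volume) := I1.sub I2
    rw [← integral_sub I1 I2, integral_prod_symm _ I12]
    refine integral_congr_ae (Eventually.of_forall fun t => ?_)
    simp only
    rw [green_tau hR (hc2 t)]
    unfold Pool.Agent.H30M.avg
    rw [← integral_sub (integrable_rhoR_mul hR (hc2 t).continuous) (integrable_rhoR_mul le_rfl (hc2 t).continuous), ← integral_const_mul]
    refine integral_congr_ae (Eventually.of_forall fun z => ?_)
    simp only
    ring
  -- the right side
  have h2 : ∫ p : ℂ × ℂ, tau R p.1 * tau (Real.exp 1) p.2 * Δ (fun z => c z p.2) p.1 ∂(volume.prod volume) =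
      ∫ p : ℂ × ℂ, (tau R p.1 * rhoR (Real.exp 1) p.2 * a p.1 p.2 - tau R p.1 * rhoR 1 p.2 * a p.1 p.2) ∂(volume.prod volume) := by
    have I34 : Integrable (fun p : ℂ × ℂ => tau R p.1 * rhoR (Real.exp 1) p.2 * a p.1 p.2 - tau R p.1 * rhoR 1 p.2 * a p.1 p.2)
      (volume.prod volume) := I3.sub I4
    rw [← tv_fub' (F := fun p => Δ (fun z => c z p.2) p.1) cR (hcs_tau hR) ce (hcs_tau he) hL, integral_prod _ I34]
    refine integral_congr_ae (Eventually.of_forall fun z => ?_)
    simp only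
    have e1 : ∫ t, tau (Real.exp 1) t * Δ (fun z => c z t) z = ∫ t, tau (Real.exp 1) t * Δ (fun t => a z t) t :=
      integral_congr_ae (Eventually.of_forall fun t => by simp only; rw [hlap])
    rw [e1, green_tau he (ha2 z)]
    unfold Pool.Agent.H30M.avg
    rw [← integral_sub (integrable_rhoR_mul he (ha2 z).continuous) (integrable_rhoR_mul le_rfl (ha2 z).continuous), ← integral_const_mul]
    refine integral_congr_ae (Eventually.of_forall fun t => ?_)
    simp only
    ring
  have h3 : ∫ p : ℂ × ℂ, (tau R p.1 * rhoR (Real.exp 1) p.2 * a p.1 p.2 - tau R p.1 * rhoR 1 p.2 * a p.1 p.2) ∂(volume.prod volume) ≤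
      ∫ p : ℂ × ℂ, tau R p.1 * rhoR (Real.exp 1) p.2 * A ∂(volume.prod volume) := by
    refine integral_mono (I3.sub I4) (tv_int (F := fun _ => A) cR (hcs_tau hR) (continuous_rhoR (Real.exp 1)) (hcs_rhoR he) continuous_const) fun p => ?_
    simp only
    have h4 : 0 ≤ tau R p.1 * rhoR 1 p.2 * a p.1 p.2 := mul_nonneg (mul_nonneg (tau_nonneg hR _) (rhoR_nonneg _ _)) (ha0 _ _)
    have h5 : tau R p.1 * rhoR (Real.exp 1) p.2 * a p.1 p.2 ≤ tau R p.1 * rhoR (Real.exp 1) p.2 * A := by
      by_cases h6 : ‖p.2‖ ≤ Real.exp 2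
      · exact mul_le_mul_of_nonneg_left (hA _ _ h6) (mul_nonneg (tau_nonneg hR _) (rhoR_nonneg _ _))
      · have h7 : rhoR (Real.exp 1) p.2 = 0 := by
          refine rhoR_eq_zero he (Or.inr ?_)
          rw [← Real.exp_add]
          norm_num
          linarith [not_le.1 h6]
        rw [h7]; simp
    linarith
  have h4 : ∫ p : ℂ × ℂ, tau R p.1 * rhoR (Real.exp 1) p.2 * A ∂(volume.prod volume) = 2 * Real.pi * A * ∫ z, tau R z := by
    rw [← tv_fub' (F := fun _ => A) cR (hcs_tau hR) (continuous_rhoR (Real.exp 1)) (hcs_rhoR he) continuous_const]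
    simp only [integral_mul_const, int_rhoR he]
    ring
  linarith

private lemma tv_tau {R : ℝ} (hR : 1 ≤ R) : ∫ z, tau R z ≤ Real.exp 1 ^ 2 * Real.pi * (R ^ 2 * Real.log R) := by
  have hR0 : 0 < R := by linarith
  have hb : 0 < Real.exp 1 * R := mul_pos (Real.exp_pos 1) hR0
  have h1 : ∫ z, tau R z = ∫ z in closedBall (0 : ℂ) (Real.exp 1 * R), tau R z := by
    rw [setIntegral_eq_integral_of_forall_compl_eq_zero]
    intro z hz
    rw [mem_closedBall_zero_iff, not_le] at hz
    exact tau_eq_zero hR hz.le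
  rw [h1]
  have h2 : ∫ z in closedBall (0 : ℂ) (Real.exp 1 * R), tau R z ≤ ∫ _ in closedBall (0 : ℂ) (Real.exp 1 * R), Real.log R := by
    refine setIntegral_mono_on ?_ ?_ isClosed_closedBall.measurableSet fun z _ => tau_le hR z
    · exact (contDiff_tau R).continuous.integrable_of_hasCompactSupport (hcs_tau hR) |>.integrableOn
    · exact integrableOn_const (measure_closedBall_lt_top).ne
  refine h2.trans (le_of_eq ?_)
  rw [setIntegral_const, Measure.real, Complex.volume_closedBall, smul_eq_mul]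
  simp only [ENNReal.toReal_mul, ENNReal.toReal_pow, ENNReal.toReal_ofReal hb.le, ENNReal.coe_toReal, NNReal.coe_real_pi]
  ring

/-- **The growth lemma** -/
theorem aff_of_lap {a c : ℂ → ℂ → ℝ} {b : ℂ → ℂ → ℂ} {A C : ℝ} (ha0 : ∀ z t, 0 ≤ a z t) (hA0 : 0 ≤ A) (hC0 : 0 ≤ C)
    (hc2 : ∀ t, ContDiff ℝ 2 fun z => c z t) (ha2 : ∀ z, ContDiff ℝ 2 fun t => a z t)
    (hcc : Continuous fun p : ℂ × ℂ => c p.1 p.2) (hac : Continuous fun p : ℂ × ℂ => a p.1 p.2)
    (hL : Continuous fun p : ℂ × ℂ => Δ (fun z => c z p.2) p.1) (hlap : ∀ z t, Δ (fun z => c z t) z = Δ (fun t => a z t) t)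
    (hA : ∀ z t, ‖t‖ ≤ Real.exp 2 → a z t ≤ A) (hbc : Continuous fun p : ℂ × ℂ => b p.1 p.2) (hbd : ∀ t, Differentiable ℂ fun z => b z t)
    (hbb : ∀ z t, ‖t‖ ≤ Real.exp 2 → ‖b z t‖ ^ 2 ≤ C * c z t) :
    ∀ t, ‖t‖ ≤ 1 → ∀ z, b z t = b 0 t + z * (b 1 t - b 0 t) := by
  have he := one_le_e
  have ce := (contDiff_tau (Real.exp 1)).continuous
  intro t₀ ht₀ w
  set D : ℂ → ℝ := fun t => ‖b w t - b 0 t - w * (b 1 t - b 0 t)‖ with hD
  have hbt : ∀ p : ℂ, Continuous fun t => b p t := fun p => hbc.comp (Continuous.prodMk_right p)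
  have hDc : Continuous D := by
    have h1 := hbt w
    have h2 := hbt 0
    have h3 := hbt 1
    exact ((h1.sub h2).sub (continuous_const.mul (h3.sub h2))).norm
  have hD0 : ∀ t, 0 ≤ D t := fun t => norm_nonneg _
  set K : ℝ := 4 * ‖w‖ * ‖w - 1‖ with hK
  have hK0 : 0 ≤ K := by positivity
  set T : ℝ := ∫ t, tau (Real.exp 1) t with hT
  set E : ℝ := Real.exp 1 ^ 2 * Real.pi with hE
  -- the bound for all large `R`
  have hmain : ∀ R : ℝ, 1 ≤ R → 2 * (‖w‖ + 1) ≤ R → 2 * Real.pi * ∫ t, tau (Real.exp 1) t * D t ≤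
      K * (Real.pi * T * R⁻¹ + C / 2 * (JJ c 1 * (R⁻¹) ^ 3 + 2 * Real.pi * A * E * (Real.log R / R))) := by
    intro R hR hRw
    have hR0 : 0 < R := by linarith
    have hcb : Continuous fun p : ℂ × ℂ => ‖b p.1 p.2‖ := hbc.norm
    have hct : ∀ t, Continuous fun z => ‖b z t‖ := fun t => (hbd t).continuous.norm
    have i1 : Integrable fun t => tau (Real.exp 1) t * D t := integrable_tau_mul he hDc
    have I0 := tv_int (continuous_rhoR R) (hcs_rhoR hR) ce (hcs_tau he) hcb
    have Ic := tv_int (continuous_rhoR R) (hcs_rhoR hR) ce (hcs_tau he) hcc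
    have I1 := tv_int (F := fun _ => (1 : ℝ)) (continuous_rhoR R) (hcs_rhoR hR) ce (hcs_tau he) continuous_const
    have i2 : Integrable fun t => tau (Real.exp 1) t * ∫ z, rhoR R z * ‖b z t‖ := by
      have := I0.integral_prod_right
      refine this.congr (Eventually.of_forall fun t => ?_)
      simp only
      rw [← integral_const_mul]
      refine integral_congr_ae (Eventually.of_forall fun z => ?_)
      simp only
      ring
    have s1 : 2 * Real.pi * ∫ t, tau (Real.exp 1) t * D t ≤ K / R ^ 2 * ∫ t, tau (Real.exp 1) t * ∫ z, rhoR R z * ‖b z t‖ := by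
      rw [← integral_const_mul, ← integral_const_mul]
      refine integral_mono (i1.const_mul _) (i2.const_mul _) fun t => ?_
      simp only
      have h1 := tv_avg (hbd t) w hRw
      have h2 := mul_le_mul_of_nonneg_left h1 (tau_nonneg he t)
      unfold Pool.Agent.H30M.avg at h2
      rw [← hK] at h2
      have h3 : 2 * Real.pi * (tau (Real.exp 1) t * D t) = tau (Real.exp 1) t * (2 * Real.pi * ‖b w t - b 0 t - w * (b 1 t - b 0 t)‖) := by
        simp only [hD]; ring
      rw [h3]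
      refine h2.trans (le_of_eq ?_)
      ring
    have s2 : ∫ t, tau (Real.exp 1) t * ∫ z, rhoR R z * ‖b z t‖ ≤ Real.pi * T * R + C / (2 * R) * JJ c R := by
      rw [tv_fub (F := fun p => ‖b p.1 p.2‖) (continuous_rhoR R) (hcs_rhoR hR) ce (hcs_tau he) hcb]
      have h1 : ∫ p : ℂ × ℂ, rhoR R p.1 * tau (Real.exp 1) p.2 * ‖b p.1 p.2‖ ∂(volume.prod volume) ≤
          ∫ p : ℂ × ℂ, (R / 2 * (rhoR R p.1 * tau (Real.exp 1) p.2 * 1) + C / (2 * R) * (rhoR R p.1 * tau (Real.exp 1) p.2 * c p.1 p.2))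
            ∂(volume.prod volume) := by
        refine integral_mono I0 ((I1.const_mul _).add (Ic.const_mul _)) fun p => ?_
        simp only
        have h2 : 0 ≤ rhoR R p.1 * tau (Real.exp 1) p.2 := mul_nonneg (rhoR_nonneg _ _) (tau_nonneg he _)
        by_cases h3 : ‖p.2‖ ≤ Real.exp 2
        · have h4 := hbb p.1 p.2 h3
          have h5 : ‖b p.1 p.2‖ ≤ R / 2 + C / (2 * R) * c p.1 p.2 := by
            have h6 : 0 ≤ (‖b p.1 p.2‖ - R) ^ 2 := sq_nonneg _
            have h7 : ‖b p.1 p.2‖ * (2 * R) ≤ (R / 2 + C / (2 * R) * c p.1 p.2) * (2 * R) := by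
              have h8 : (R / 2 + C / (2 * R) * c p.1 p.2) * (2 * R) = R ^ 2 + C * c p.1 p.2 := by field_simp
              rw [h8]; nlinarith
            exact le_of_mul_le_mul_right h7 (by linarith)
          have := mul_le_mul_of_nonneg_left h5 h2
          linarith
        · have h4 : tau (Real.exp 1) p.2 = 0 := by
            refine tau_eq_zero he ?_
            rw [← Real.exp_add]
            norm_num
            linarith [not_le.1 h3]
          rw [h4]; simp
      refine h1.trans (le_of_eq ?_)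
      rw [integral_add (I1.const_mul _) (Ic.const_mul _), integral_const_mul, integral_const_mul]
      have h5 : ∫ p : ℂ × ℂ, rhoR R p.1 * tau (Real.exp 1) p.2 * 1 ∂(volume.prod volume) = 2 * Real.pi * T := by
        rw [← tv_fub (F := fun _ => (1 : ℝ)) (continuous_rhoR R) (hcs_rhoR hR) ce (hcs_tau he) continuous_const]
        simp only [mul_one, int_rhoR hR, integral_mul_const]
        ring
      rw [h5]
      unfold JJ
      ring
    have s3 := tv_JJ ha0 hA0 hc2 ha2 hcc hac hL hlap hA hR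
    have s4 := tv_tau hR
    have s5 : JJ c R ≤ JJ c 1 + 2 * Real.pi * A * (E * (R ^ 2 * Real.log R)) := by
      refine s3.trans ?_
      have : 2 * Real.pi * A * ∫ z, tau R z ≤ 2 * Real.pi * A * (E * (R ^ 2 * Real.log R)) := mul_le_mul_of_nonneg_left s4 (by positivity)
      linarith
    have s6 : C / (2 * R) * JJ c R ≤ C / (2 * R) * (JJ c 1 + 2 * Real.pi * A * (E * (R ^ 2 * Real.log R))) :=
      mul_le_mul_of_nonneg_left s5 (by positivity)
    refine s1.trans ((mul_le_mul_of_nonneg_left (s2.trans (add_le_add_right s6 _)) (by positivity)).trans (le_of_eq ?_))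
    field_simp
  -- the limit
  have hlim : Tendsto (fun R : ℝ => K * (Real.pi * T * R⁻¹ + C / 2 * (JJ c 1 * (R⁻¹) ^ 3 + 2 * Real.pi * A * E * (Real.log R / R)))) atTop
      (𝓝 (K * (Real.pi * T * 0 + C / 2 * (JJ c 1 * 0 ^ 3 + 2 * Real.pi * A * E * 0)))) := by
    have h1 : Tendsto (fun R : ℝ => R⁻¹) atTop (𝓝 0) := tendsto_inv_atTop_zero
    have h2 : Tendsto (fun R : ℝ => Real.log R / R) atTop (𝓝 0) := by
      have := Real.tendsto_pow_log_div_mul_add_atTop 1 0 1 one_ne_zero
      simpa using this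
    exact ((h1.const_mul _).add ((((h1.pow 3).const_mul _).add (h2.const_mul _)).const_mul _)).const_mul _
  have hle : 2 * Real.pi * ∫ t, tau (Real.exp 1) t * D t ≤ K * (Real.pi * T * 0 + C / 2 * (JJ c 1 * 0 ^ 3 + 2 * Real.pi * A * E * 0)) := by
    refine ge_of_tendsto hlim ?_
    filter_upwards [eventually_ge_atTop 1, eventually_ge_atTop (2 * (‖w‖ + 1))] with R h1 h2
    exact hmain R h1 h2
  have hzero : ∫ t, tau (Real.exp 1) t * D t = 0 := by
    have h1 : 0 ≤ ∫ t, tau (Real.exp 1) t * D t := integral_nonneg fun t => mul_nonneg (tau_nonneg he t) (hD0 t)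
    have h2 : K * (Real.pi * T * 0 + C / 2 * (JJ c 1 * 0 ^ 3 + 2 * Real.pi * A * E * 0)) = 0 := by ring
    rw [h2] at hle
    nlinarith [Real.pi_pos]
  have hcont : Continuous fun t => tau (Real.exp 1) t * D t := ce.mul hDc
  have hae : (fun t => tau (Real.exp 1) t * D t) =ᵐ[volume] 0 :=
    (integral_eq_zero_iff_of_nonneg (fun t => mul_nonneg (tau_nonneg he t) (hD0 t)) (integrable_tau_mul he hDc)).1 hzero
  have hall : (fun t => tau (Real.exp 1) t * D t) = 0 := (hcont.ae_eq_iff_eq volume continuous_const).1 hae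
  have h1 := congrFun hall t₀
  simp only [Pi.zero_apply] at h1
  rw [tau_of_le_one he ht₀, Real.log_exp, one_mul] at h1
  have h2 : b w t₀ - b 0 t₀ - w * (b 1 t₀ - b 0 t₀) = 0 := norm_eq_zero.1 h1
  linear_combination h2

end Pool.Agent.GV
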