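import Pool.Agent.GG.Defs
import Pool.Agent.GV.LapC
import Pool.Agent.GV.TwoVar

/-!
# GV Lft: the Fubini–Study densities of a holomorphic map `Φ : ℂ × ℂ → ℙ^N`

They do not depend on the lifts (`fsd_smul`), are Laplacians of the potential `log ‖F‖` (`dens_pot`), and are comparable with `wl ^ 2`.
`affine_of_lifts`: if the derivative in the first variable is bounded and `b` is holomorphic and bounded by the derivative in the second variable, then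
`b (z, t)` is affine in `z` (form global in `t`).
-/

set_option autoImplicit false

open Topology Filter Metric Laplacian
open Pool.Agent.H17 (PN)
open Pool.Agent.GG (wl)
open Pool.Agent.MQ (fsd fsd_smul fsd_nonneg)

noncomputable section

namespace Pool.Agent.GV

variable {N : ℕ}

/-- `F` represents `Φ` near `q` -/
def Lift2 (Φ : ℂ × ℂ → PN N) (F : ℂ × ℂ → Fin (N + 1) → ℂ) (q : ℂ × ℂ) : Prop :=
  AnalyticAt ℂ F q ∧ ∀ᶠ p in 𝓝 q, ∃ h : F p ≠ 0, Φ p = Projectivization.mk ℂ (F p) h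

/-- the Euclidean vector -/
private abbrev eu (x : Fin (N + 1) → ℂ) : EuclideanSpace ℂ (Fin (N + 1)) := WithLp.toLp 2 x

private theorem eu_ne {x : Fin (N + 1) → ℂ} (hx : x ≠ 0) : eu x ≠ 0 := fun h => hx (WithLp.toLp_injective 2 h)

/-! ## the two lengths -/

/-- the Fubini–Study density is at most a multiple of `wl ^ 2` -/
theorem fsd_le_wl (x v : Fin (N + 1) → ℂ) (hx : x ≠ 0) :
    fsd (WithLp.toLp 2 x : EuclideanSpace ℂ (Fin (N + 1))) (WithLp.toLp 2 v) ≤ 2 * (N + 1) * wl x v ^ 2 := by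
  obtain ⟨i, hi⟩ : ∃ i, ‖x i‖ = ‖x‖ := by
    obtain ⟨i, -, hi⟩ := Finset.exists_max_image Finset.univ (fun i => ‖x i‖) ⟨0, Finset.mem_univ _⟩
    exact ⟨i, le_antisymm (norm_le_pi_norm x i) ((pi_norm_le_iff_of_nonneg (norm_nonneg _)).2 fun j => hi j (Finset.mem_univ _))⟩
  have hn : 0 < ‖x‖ := norm_pos_iff.2 hx
  have hxi : x i ≠ 0 := norm_pos_iff.1 (by rw [hi]; exact hn)
  set X : EuclideanSpace ℂ (Fin (N + 1)) := WithLp.toLp 2 x with hX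
  set V : EuclideanSpace ℂ (Fin (N + 1)) := WithLp.toLp 2 v with hV
  have h1 := fsd_smul X V 1 (-(v i / x i)) one_ne_zero
  rw [one_smul, one_smul] at h1
  rw [← h1]
  set Y : EuclideanSpace ℂ (Fin (N + 1)) := V + -(v i / x i) • X with hY
  set M : ℝ := ‖fun p : Fin (N + 1) × Fin (N + 1) => x p.1 * v p.2 - x p.2 * v p.1‖ with hM
  have hXn : ‖x‖ ≤ ‖X‖ := by
    have h2 := PiLp.norm_apply_le X i
    rw [← hi]
    exact h2
  have hX0 : 0 < ‖X‖ := hn.trans_le hXn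
  have hYn : ‖Y‖ ^ 2 ≤ (N + 1) * (M / ‖x‖) ^ 2 := by
    rw [EuclideanSpace.norm_sq_eq]
    have h3 : ∀ j ∈ Finset.univ, ‖Y j‖ ^ 2 ≤ (M / ‖x‖) ^ 2 := by
      intro j _
      have h4 : Y j = (x i * v j - x j * v i) / x i := by
        show v j + -(v i / x i) * x j = _
        field_simp
        ring
      rw [h4, norm_div, hi]
      have h5 : ‖x i * v j - x j * v i‖ ≤ M := norm_le_pi_norm (fun p : Fin (N + 1) × Fin (N + 1) => x p.1 * v p.2 - x p.2 * v p.1) (i, j)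
      gcongr
    refine (Finset.sum_le_sum h3).trans (le_of_eq ?_)
    rw [Finset.sum_const, Finset.card_univ, Fintype.card_fin, nsmul_eq_mul]
    push_cast
    ring
  have h6 : fsd X Y ≤ 2 * ‖Y‖ ^ 2 / ‖X‖ ^ 2 := by
    unfold fsd
    rw [div_le_div_iff₀ (by positivity) (by positivity)]
    have h7 : 0 ≤ ‖inner ℂ X Y‖ ^ 2 * ‖X‖ ^ 2 := by positivity
    nlinarith
  calc fsd X Y ≤ 2 * ‖Y‖ ^ 2 / ‖X‖ ^ 2 := h6
    _ ≤ 2 * ((N + 1) * (M / ‖x‖) ^ 2) / ‖x‖ ^ 2 := by gcongr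
    _ = 2 * (N + 1) * wl x v ^ 2 := by
      unfold wl
      rw [← hM]
      field_simp

/-- `wl ^ 2` is at most a multiple of the Fubini–Study density -/
theorem wl_le_fsd (x v : Fin (N + 1) → ℂ) (hx : x ≠ 0) :
    wl x v ^ 2 ≤ 2 * (N + 1) ^ 2 * fsd (WithLp.toLp 2 x : EuclideanSpace ℂ (Fin (N + 1))) (WithLp.toLp 2 v) := by
  set X : EuclideanSpace ℂ (Fin (N + 1)) := WithLp.toLp 2 x with hX
  set V : EuclideanSpace ℂ (Fin (N + 1)) := WithLp.toLp 2 v with hV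
  have hX0 : X ≠ 0 := eu_ne hx
  have hXn : 0 < ‖X‖ := norm_pos_iff.2 hX0
  have hxn : 0 < ‖x‖ := norm_pos_iff.2 hx
  obtain ⟨a, ha⟩ : ∃ a : ℂ, a = inner ℂ X V / ((‖X‖ : ℂ) ^ 2) := ⟨_, rfl⟩
  obtain ⟨w, hw⟩ : ∃ w : EuclideanSpace ℂ (Fin (N + 1)), w = V + (-a) • X := ⟨_, rfl⟩
  have hXX : (inner ℂ X X : ℂ) = (‖X‖ : ℂ) ^ 2 := inner_self_eq_norm_sq_to_K X
  have hXc : ((‖X‖ : ℂ) ^ 2) ≠ 0 := by
    have : (‖X‖ : ℂ) ≠ 0 := by exact_mod_cast hXn.ne'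
    positivity
  have hort : inner ℂ X w = (0 : ℂ) := by
    rw [hw, inner_add_right, inner_smul_right, hXX, ha, neg_mul, div_mul_cancel₀ _ hXc]
    ring
  have h1 := fsd_smul X V 1 (-a) one_ne_zero
  rw [one_smul, one_smul, ← hw] at h1
  rw [← h1]
  have h2 : fsd X w = 2 * ‖w‖ ^ 2 / ‖X‖ ^ 2 := by
    unfold fsd
    rw [hort, norm_zero]
    field_simp
    ring
  rw [h2]
  have hcoord : ∀ (Y : EuclideanSpace ℂ (Fin (N + 1))) (i : Fin (N + 1)), ‖Y i‖ ≤ ‖Y‖ := fun Y i => PiLp.norm_apply_le Y i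
  have hnum : ‖fun p : Fin (N + 1) × Fin (N + 1) => x p.1 * v p.2 - x p.2 * v p.1‖ ≤ 2 * (‖X‖ * ‖w‖) := by
    refine (pi_norm_le_iff_of_nonneg (by positivity)).2 fun p => ?_
    have e1 : x p.1 * v p.2 - x p.2 * v p.1 = X p.1 * w p.2 - X p.2 * w p.1 := by
      rw [hw, hX, hV]
      simp only [PiLp.add_apply, PiLp.smul_apply, smul_eq_mul]
      ring
    rw [e1]
    calc ‖X p.1 * w p.2 - X p.2 * w p.1‖ ≤ ‖X p.1 * w p.2‖ + ‖X p.2 * w p.1‖ := norm_sub_le _ _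
      _ ≤ ‖X‖ * ‖w‖ + ‖X‖ * ‖w‖ := by
        rw [norm_mul, norm_mul]
        gcongr <;> exact hcoord _ _
      _ = 2 * (‖X‖ * ‖w‖) := by ring
  have hden : ‖X‖ ^ 2 ≤ (N + 1) * ‖x‖ ^ 2 := by
    rw [EuclideanSpace.norm_sq_eq]
    calc ∑ i, ‖X i‖ ^ 2 ≤ ∑ _i : Fin (N + 1), ‖x‖ ^ 2 := by
          refine Finset.sum_le_sum fun i _ => pow_le_pow_left₀ (norm_nonneg _) ?_ 2
          rw [hX]
          exact norm_le_pi_norm x i
      _ = (N + 1) * ‖x‖ ^ 2 := by simp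
  have hnum2 : ‖fun p : Fin (N + 1) × Fin (N + 1) => x p.1 * v p.2 - x p.2 * v p.1‖ ^ 2 ≤ 4 * ‖X‖ ^ 2 * ‖w‖ ^ 2 := by
    refine (pow_le_pow_left₀ (norm_nonneg _) hnum 2).trans (le_of_eq ?_)
    ring
  have hden2 : ‖X‖ ^ 4 ≤ (N + 1) ^ 2 * ‖x‖ ^ 4 := by
    calc ‖X‖ ^ 4 = (‖X‖ ^ 2) ^ 2 := by ring
      _ ≤ ((N + 1) * ‖x‖ ^ 2) ^ 2 := pow_le_pow_left₀ (by positivity) hden 2
      _ = _ := by ring
  unfold wl
  rw [div_pow, ← pow_mul, mul_div_assoc', div_le_div_iff₀ (by positivity) (by positivity)]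
  calc ‖fun p : Fin (N + 1) × Fin (N + 1) => x p.1 * v p.2 - x p.2 * v p.1‖ ^ 2 * ‖X‖ ^ 2
      ≤ 4 * ‖X‖ ^ 2 * ‖w‖ ^ 2 * ‖X‖ ^ 2 := by gcongr
    _ = 4 * ‖w‖ ^ 2 * ‖X‖ ^ 4 := by ring
    _ ≤ 4 * ‖w‖ ^ 2 * ((N + 1) ^ 2 * ‖x‖ ^ 4) := by gcongr
    _ = _ := by ring

/-! ## lifts -/

/-- two lifts differ by a holomorphic factor -/
theorem Lift2.ratio {Φ : ℂ × ℂ → PN N} {F G : ℂ × ℂ → Fin (N + 1) → ℂ} {q : ℂ × ℂ} (hF : Lift2 Φ F q) (hG : Lift2 Φ G q) :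
    ∃ g : ℂ × ℂ → ℂ, AnalyticAt ℂ g q ∧ g q ≠ 0 ∧ G =ᶠ[𝓝 q] fun p => g p • F p := by
  have hF0 : F q ≠ 0 := hF.2.self_of_nhds.1
  have hG0 : G q ≠ 0 := hG.2.self_of_nhds.1
  obtain ⟨j, hj⟩ : ∃ j, F q j ≠ 0 := by
    by_contra h
    push Not at h
    exact hF0 (funext h)
  have hFc : ∀ i, AnalyticAt ℂ (fun w => F w i) q := fun i => (analyticAt_pi_iff.1 hF.1) i
  have hGc : ∀ i, AnalyticAt ℂ (fun w => G w i) q := fun i => (analyticAt_pi_iff.1 hG.1) i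
  have hlam : AnalyticAt ℂ (fun w => G w j / F w j) q := (hGc j).div (hFc j) hj
  have hne : ∀ᶠ w in 𝓝 q, F w j ≠ 0 := (hFc j).continuousAt.eventually_ne hj
  have heq : G =ᶠ[𝓝 q] fun w => (G w j / F w j) • F w := by
    filter_upwards [hG.2, hF.2, hne] with w hw hw' hw0
    obtain ⟨h1, h2⟩ := hw
    obtain ⟨h3, h4⟩ := hw'
    funext i
    rw [Pi.smul_apply, smul_eq_mul, div_mul_eq_mul_div, eq_div_iff hw0]
    rw [h2, Projectivization.mk_eq_mk_iff'] at h4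
    obtain ⟨a, ha⟩ := h4
    rw [← ha]
    simp only [Pi.smul_apply, smul_eq_mul]
    ring
  refine ⟨_, hlam, fun h => hG0 ?_, heq⟩
  rw [heq.eq_of_nhds]
  show (G q j / F q j) • F q = 0
  rw [show G q j / F q j = 0 from h, zero_smul]

/-- the densities do not depend on the lift -/
theorem Lift2.fsd_eq {Φ : ℂ × ℂ → PN N} {F G : ℂ × ℂ → Fin (N + 1) → ℂ} {q : ℂ × ℂ} (hF : Lift2 Φ F q) (hG : Lift2 Φ G q) (v : ℂ × ℂ) :
    fsd (WithLp.toLp 2 (G q) : EuclideanSpace ℂ (Fin (N + 1))) (WithLp.toLp 2 (fderiv ℂ G q v)) =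
      fsd (WithLp.toLp 2 (F q) : EuclideanSpace ℂ (Fin (N + 1))) (WithLp.toLp 2 (fderiv ℂ F q v)) := by
  obtain ⟨g, hg, hg0, he⟩ := hF.ratio hG
  have h1 : fderiv ℂ G q v = g q • fderiv ℂ F q v + fderiv ℂ g q v • F q := by
    rw [he.fderiv_eq, fderiv_fun_smul hg.differentiableAt hF.1.differentiableAt]
    rfl
  rw [h1, he.eq_of_nhds]
  exact fsd_smul _ _ (g q) (fderiv ℂ g q v) hg0

/-- the density in the direction `v` -/
def dens (Φ : ℂ × ℂ → PN N) (v q : ℂ × ℂ) : ℝ := by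
  classical
  exact if h : ∃ F, Lift2 Φ F q then
    fsd (WithLp.toLp 2 (h.choose q) : EuclideanSpace ℂ (Fin (N + 1))) (WithLp.toLp 2 (fderiv ℂ h.choose q v)) else 0

theorem dens_eq {Φ : ℂ × ℂ → PN N} {F : ℂ × ℂ → Fin (N + 1) → ℂ} {q : ℂ × ℂ} (hF : Lift2 Φ F q) (v : ℂ × ℂ) :
    dens Φ v q = fsd (WithLp.toLp 2 (F q) : EuclideanSpace ℂ (Fin (N + 1))) (WithLp.toLp 2 (fderiv ℂ F q v)) := by
  have h : ∃ F, Lift2 Φ F q := ⟨F, hF⟩
  unfold dens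
  rw [dif_pos h]
  exact hF.fsd_eq h.choose_spec v

theorem dens_nonneg (Φ : ℂ × ℂ → PN N) (v q : ℂ × ℂ) : 0 ≤ dens Φ v q := by
  unfold dens
  split_ifs
  · exact fsd_nonneg _ _
  · exact le_rfl

theorem Lift2.eventually {Φ : ℂ × ℂ → PN N} {F : ℂ × ℂ → Fin (N + 1) → ℂ} {q : ℂ × ℂ} (hF : Lift2 Φ F q) : ∀ᶠ p in 𝓝 q, Lift2 Φ F p :=
  hF.1.eventually_analyticAt.and (eventually_eventually_nhds.2 hF.2)

private theorem slice_fst {F : ℂ × ℂ → Fin (N + 1) → ℂ} {q : ℂ × ℂ} (hF : AnalyticAt ℂ F q) :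
    deriv (fun w => (WithLp.toLp 2 (F (w, q.2)) : EuclideanSpace ℂ (Fin (N + 1)))) q.1 = WithLp.toLp 2 (fderiv ℂ F q (1, 0)) := by
  have h1 : HasFDerivAt (fun w : ℂ => (w, q.2)) (ContinuousLinearMap.inl ℂ ℂ ℂ) q.1 := hasFDerivAt_prodMk_left q.1 q.2
  have h2 : HasFDerivAt (fun w => F (w, q.2)) ((fderiv ℂ F q).comp (ContinuousLinearMap.inl ℂ ℂ ℂ)) q.1 :=
    HasFDerivAt.comp q.1 (by exact hF.differentiableAt.hasFDerivAt) h1
  have h3 : HasFDerivAt (fun w => (WithLp.toLp 2 (F (w, q.2)) : EuclideanSpace ℂ (Fin (N + 1))))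
      (((PiLp.continuousLinearEquiv 2 ℂ fun _ : Fin (N + 1) => ℂ).symm : (Fin (N + 1) → ℂ) →L[ℂ] EuclideanSpace ℂ (Fin (N + 1))).comp
        ((fderiv ℂ F q).comp (ContinuousLinearMap.inl ℂ ℂ ℂ))) q.1 :=
    ((PiLp.continuousLinearEquiv 2 ℂ fun _ : Fin (N + 1) => ℂ).symm : (Fin (N + 1) → ℂ) →L[ℂ] EuclideanSpace ℂ (Fin (N + 1))).hasFDerivAt.comp q.1 h2
  have h4 := h3.hasDerivAt.deriv
  rw [h4]
  rfl

private theorem slice_snd {F : ℂ × ℂ → Fin (N + 1) → ℂ} {q : ℂ × ℂ} (hF : AnalyticAt ℂ F q) :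
    deriv (fun w => (WithLp.toLp 2 (F (q.1, w)) : EuclideanSpace ℂ (Fin (N + 1)))) q.2 = WithLp.toLp 2 (fderiv ℂ F q (0, 1)) := by
  have h1 : HasFDerivAt (fun w : ℂ => (q.1, w)) (ContinuousLinearMap.inr ℂ ℂ ℂ) q.2 := hasFDerivAt_prodMk_right q.1 q.2
  have h2 : HasFDerivAt (fun w => F (q.1, w)) ((fderiv ℂ F q).comp (ContinuousLinearMap.inr ℂ ℂ ℂ)) q.2 :=
    HasFDerivAt.comp q.2 (by exact hF.differentiableAt.hasFDerivAt) h1
  have h3 : HasFDerivAt (fun w => (WithLp.toLp 2 (F (q.1, w)) : EuclideanSpace ℂ (Fin (N + 1))))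
      (((PiLp.continuousLinearEquiv 2 ℂ fun _ : Fin (N + 1) => ℂ).symm : (Fin (N + 1) → ℂ) →L[ℂ] EuclideanSpace ℂ (Fin (N + 1))).comp
        ((fderiv ℂ F q).comp (ContinuousLinearMap.inr ℂ ℂ ℂ))) q.2 :=
    ((PiLp.continuousLinearEquiv 2 ℂ fun _ : Fin (N + 1) => ℂ).symm : (Fin (N + 1) → ℂ) →L[ℂ] EuclideanSpace ℂ (Fin (N + 1))).hasFDerivAt.comp q.2 h2
  have h4 := h3.hasDerivAt.deriv
  rw [h4]
  rfl

/-- the densities are smooth, and their Laplacians agree -/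
theorem dens_lap {Φ : ℂ × ℂ → PN N} {F : ℂ × ℂ → Fin (N + 1) → ℂ} {q : ℂ × ℂ} (hF : Lift2 Φ F q) :
    ContDiffAt ℝ 2 (dens Φ (1, 0)) q ∧ ContDiffAt ℝ 2 (dens Φ (0, 1)) q ∧
      Δ (fun w => dens Φ (0, 1) (w, q.2)) q.1 = Δ (fun t => dens Φ (1, 0) (q.1, t)) q.2 := by
  have hA : AnalyticAt ℂ (fun p => (WithLp.toLp 2 (F p) : EuclideanSpace ℂ (Fin (N + 1)))) q :=
    ((PiLp.continuousLinearEquiv 2 ℂ fun _ : Fin (N + 1) => ℂ).symm : (Fin (N + 1) → ℂ) →L[ℂ] EuclideanSpace ℂ (Fin (N + 1))).analyticAt _ |>.comp hF.1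
  refine lap_fsd hA (eu_ne hF.2.self_of_nhds.1) ?_ ?_
  · filter_upwards [hF.eventually] with p hp
    rw [dens_eq hp, slice_fst hp.1]
  · filter_upwards [hF.eventually] with p hp
    rw [dens_eq hp, slice_snd hp.1]

/-- the densities are Laplacians of a potential -/
theorem dens_pot {Φ : ℂ × ℂ → PN N} {F : ℂ × ℂ → Fin (N + 1) → ℂ} {q : ℂ × ℂ} (hF : Lift2 Φ F q) :
    ∃ u : ℂ × ℂ → ℝ, ContDiffAt ℝ 4 u q ∧ ∀ᶠ p in 𝓝 q, dens Φ (1, 0) p = Δ (fun w => u (w, p.2)) p.1 ∧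
      dens Φ (0, 1) p = Δ (fun s => u (p.1, s)) p.2 := by
  have hL : ∀ p, AnalyticAt ℂ F p → AnalyticAt ℂ (fun p => (WithLp.toLp 2 (F p) : EuclideanSpace ℂ (Fin (N + 1)))) p := fun p hp =>
    ((PiLp.continuousLinearEquiv 2 ℂ fun _ : Fin (N + 1) => ℂ).symm : (Fin (N + 1) → ℂ) →L[ℂ] EuclideanSpace ℂ (Fin (N + 1))).analyticAt _ |>.comp hp
  refine ⟨fun p => Real.log ‖(WithLp.toLp 2 (F p) : EuclideanSpace ℂ (Fin (N + 1)))‖, contDiffAt_log_norm₂ (hL q hF.1) (eu_ne hF.2.self_of_nhds.1), ?_⟩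
  filter_upwards [hF.eventually] with p hp
  have h0 : (WithLp.toLp 2 (F p) : EuclideanSpace ℂ (Fin (N + 1))) ≠ 0 := eu_ne hp.2.self_of_nhds.1
  have hA := hL p hp.1
  constructor
  · rw [dens_eq hp, ← slice_fst hp.1]
    have h3 : AnalyticAt ℂ (fun w => (WithLp.toLp 2 (F (w, p.2)) : EuclideanSpace ℂ (Fin (N + 1)))) p.1 :=
      AnalyticAt.comp (g := fun p => (WithLp.toLp 2 (F p) : EuclideanSpace ℂ (Fin (N + 1)))) (by exact hA) (analyticAt_id.prod analyticAt_const)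
    exact (Pool.Agent.MQ.lap_log_normV h3 h0).symm
  · rw [dens_eq hp, ← slice_snd hp.1]
    have h3 : AnalyticAt ℂ (fun t => (WithLp.toLp 2 (F (p.1, t)) : EuclideanSpace ℂ (Fin (N + 1)))) p.2 :=
      AnalyticAt.comp (g := fun p => (WithLp.toLp 2 (F p) : EuclideanSpace ℂ (Fin (N + 1)))) (by exact hA) (analyticAt_const.prod analyticAt_id)
    exact (Pool.Agent.MQ.lap_log_normV h3 h0).symm

/-- **The functions `b` are affine.** -/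
theorem affine_of_lifts {Φ : ℂ × ℂ → PN N} (hΦ : ∀ q, ∃ F, Lift2 Φ F q) {A : ℝ}
    (hA : ∀ q : ℂ × ℂ, ‖q.2‖ ≤ Real.exp 2 → ∀ F, Lift2 Φ F q → wl (F q) (fderiv ℂ F q (1, 0)) ≤ A) {b : ℂ × ℂ → ℂ}
    (hb : ∀ q, AnalyticAt ℂ b q) {K : ℝ}
    (hbc : ∀ q : ℂ × ℂ, ‖q.2‖ ≤ Real.exp 2 → ∀ F, Lift2 Φ F q → ‖b q‖ ≤ K * wl (F q) (fderiv ℂ F q (0, 1))) :
    ∀ t : ℂ, ‖t‖ ≤ 1 → ∀ z : ℂ, b (z, t) = b (0, t) + z * (b (1, t) - b (0, t)) := by
  have hwl : ∀ x v : Fin (N + 1) → ℂ, 0 ≤ wl x v := fun x v => div_nonneg (norm_nonneg _) (by positivity)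
  have hd : ∀ q, ContDiffAt ℝ 2 (dens Φ (1, 0)) q ∧ ContDiffAt ℝ 2 (dens Φ (0, 1)) q ∧
      Δ (fun w => dens Φ (0, 1) (w, q.2)) q.1 = Δ (fun t => dens Φ (1, 0) (q.1, t)) q.2 := fun q => by
    obtain ⟨F, hF⟩ := hΦ q
    exact dens_lap hF
  refine aff_of_lap (a := fun z t => dens Φ (1, 0) (z, t)) (c := fun z t => dens Φ (0, 1) (z, t)) (b := fun z t => b (z, t))
    (A := 2 * (N + 1) * A ^ 2) (C := K ^ 2 * (2 * (N + 1) ^ 2)) (fun z t => dens_nonneg _ _ _) (by positivity) (by positivity) ?_ ?_ ?_ ?_ ?_ ?_ ?_ ?_ ?_ ?_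
  · intro t
    rw [contDiff_iff_contDiffAt]
    intro z
    exact ContDiffAt.comp (g := dens Φ (0, 1)) z (by exact (hd (z, t)).2.1) (contDiffAt_id.prodMk contDiffAt_const)
  · intro z
    rw [contDiff_iff_contDiffAt]
    intro t
    exact ContDiffAt.comp (g := dens Φ (1, 0)) t (by exact (hd (z, t)).1) (contDiffAt_const.prodMk contDiffAt_id)
  · exact continuous_iff_continuousAt.2 fun p => (hd p).2.1.continuousAt
  · exact continuous_iff_continuousAt.2 fun p => (hd p).1.continuousAt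
  · have e : (fun p : ℂ × ℂ => Δ (fun z => dens Φ (0, 1) (z, p.2)) p.1) =
        fun p => D (1, 0) (D (1, 0) (dens Φ (0, 1))) p + D (Complex.I, 0) (D (Complex.I, 0) (dens Φ (0, 1))) p :=
      funext fun p => lap_fst (hd p).2.1
    have hc : ∀ v p : ℂ × ℂ, ContinuousAt (D v (D v (dens Φ (0, 1)))) p := fun v p => by
      have h1 : ContDiffAt ℝ ((1 + 1 : ℕ) : WithTop ℕ∞) (dens Φ (0, 1)) p := by exact_mod_cast (hd p).2.1
      have h2 := contDiffAt_D h1 v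
      have h3 : ContDiffAt ℝ ((0 + 1 : ℕ) : WithTop ℕ∞) (D v (dens Φ (0, 1))) p := by exact_mod_cast h2
      exact (contDiffAt_D h3 v).continuousAt
    show Continuous fun p : ℂ × ℂ => Δ (fun z => dens Φ (0, 1) (z, p.2)) p.1
    rw [e]
    exact continuous_iff_continuousAt.2 fun p => (hc _ p).add (hc _ p)
  · intro z t
    exact (hd (z, t)).2.2
  · intro z t ht
    obtain ⟨F, hF⟩ := hΦ (z, t)
    show dens Φ (1, 0) (z, t) ≤ _
    rw [dens_eq hF]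
    refine (fsd_le_wl _ _ hF.2.self_of_nhds.1).trans ?_
    have h1 := hA (z, t) ht F hF
    have h2 := pow_le_pow_left₀ (hwl _ _) h1 2
    exact mul_le_mul_of_nonneg_left h2 (by positivity)
  · exact continuous_iff_continuousAt.2 fun p => (hb p).continuousAt
  · intro t z
    exact (AnalyticAt.comp (g := b) (f := fun z : ℂ => (z, t)) (by exact hb (z, t)) (analyticAt_id.prod analyticAt_const)).differentiableAt
  · intro z t ht
    obtain ⟨F, hF⟩ := hΦ (z, t)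
    show ‖b (z, t)‖ ^ 2 ≤ K ^ 2 * (2 * (N + 1) ^ 2) * dens Φ (0, 1) (z, t)
    rw [dens_eq hF]
    have h1 := pow_le_pow_left₀ (norm_nonneg _) (hbc (z, t) ht F hF) 2
    have h2 := wl_le_fsd (F (z, t)) (fderiv ℂ F (z, t) (0, 1)) hF.2.self_of_nhds.1
    calc ‖b (z, t)‖ ^ 2 ≤ (K * wl (F (z, t)) (fderiv ℂ F (z, t) (0, 1))) ^ 2 := h1
      _ = K ^ 2 * wl (F (z, t)) (fderiv ℂ F (z, t) (0, 1)) ^ 2 := by ring
      _ ≤ K ^ 2 * (2 * (N + 1) ^ 2 * fsd (WithLp.toLp 2 (F (z, t)) : EuclideanSpace ℂ (Fin (N + 1))) (WithLp.toLp 2 (fderiv ℂ F (z, t) (0, 1)))) := by gcongr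
      _ = _ := by ring

end Pool.Agent.GV
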