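import Pool.Agent.GV.Dbl
import Pool.Agent.GA.SmlCore
import Pool.Agent.MQ.FS

/-!
# GV Lin: a holomorphic function dominated by the density is affine (helper10)

PROOF.  `double_green_bump`; `‖b (z, 0)‖² ≤` the mean of `‖b (z, t)‖²` over `|t| < δ'`; so `∫ rhoR R z * ‖b (z, 0)‖² ≤ C (1 + R²)`.  Green with `tau R` and
`Δ ‖β‖² = 4 ‖β'‖²`: `∫ tau R ‖β'‖² ≤ C (1 + R²)`, so `β'` is bounded by the area mean inequality: Liouville.
-/

set_option autoImplicit false

open MvPolynomial Topology Filter Metric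
open Pool.Agent.H13.SM (conTan cone)
open Pool.Agent.H17 (PN VanishesAt)
open Pool.Agent.H17EF (projVar)
open Pool.Agent.H17LG.Variety (FunField ratio IsLogGeneralType)
open Pool.Agent.H62.FC (Homog closureIn)
open Pool.Agent.H66.Lang (HolomorphicIntoPN)
open Pool.Agent.GG Pool.Agent.GB

namespace Pool.Agent.GV

open MeasureTheory Laplacian
open Pool.Agent.H30M (rhoR tau avg)

/-- an entire function whose square has averages of order `R²` is affine -/
theorem affine_of_avg {β : ℂ → ℂ} (hβ : Differentiable ℂ β) {C : ℝ} (hC : ∀ R ≥ 1, avg R (fun z => ‖β z‖ ^ 2) ≤ C * (1 + R ^ 2)) :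
    ∃ p q : ℂ, ∀ z, β z = p + q * z := by
  have hβ2 : ContDiff ℝ 2 fun z => ‖β z‖ ^ 2 := by
    rw [contDiff_iff_contDiffAt]
    exact fun z => Pool.Agent.MQ.contDiffAt_sqnorm (hβ.analyticAt z)
  have hβ' : Differentiable ℂ (deriv β) := hβ.deriv
  have hlap : ∀ z, Δ (fun z => ‖β z‖ ^ 2) z = 4 * ‖deriv β z‖ ^ 2 := by
    intro z
    rw [← Pool.Agent.MQ.lp_eq_lap hβ2.contDiffAt]
    exact Pool.Agent.MQ.lp_sqnorm (hβ.analyticAt z)
  have hC0 : 0 ≤ C := by
    have h1 := hC 1 le_rfl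
    have h2 : 0 ≤ avg 1 (fun z => ‖β z‖ ^ 2) := integral_nonneg fun z => mul_nonneg (Pool.Agent.H30M.rhoR_nonneg 1 z) (sq_nonneg _)
    nlinarith
  -- the energy
  have henergy : ∀ r ≥ 1, ∫ z in ball (0 : ℂ) r, ‖deriv β z‖ ^ 2 ≤ C * (1 + (Real.exp 1 * r) ^ 2) := by
    intro r hr
    have he : (1 : ℝ) ≤ Real.exp 1 := Real.one_le_exp zero_le_one
    have hR : 1 ≤ Real.exp 1 * r := by nlinarith
    have h1 := Pool.Agent.H30M.green_tau hR hβ2
    simp only [hlap] at h1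
    have h2 : 0 ≤ avg 1 (fun z => ‖β z‖ ^ 2) := integral_nonneg fun z => mul_nonneg (Pool.Agent.H30M.rhoR_nonneg 1 z) (sq_nonneg _)
    have hint : Integrable fun z => tau (Real.exp 1 * r) z * (4 * ‖deriv β z‖ ^ 2) :=
      ((Pool.Agent.H30M.contDiff_tau _).continuous.mul (continuous_const.mul (hβ'.continuous.norm.pow 2))).integrable_of_hasCompactSupport
        ((Pool.Agent.H30M.hcs_tau hR).mul_right)
    have h3 : ∫ z in ball (0 : ℂ) r, ‖deriv β z‖ ^ 2 ≤ ∫ z, tau (Real.exp 1 * r) z * (4 * ‖deriv β z‖ ^ 2) := by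
      calc ∫ z in ball (0 : ℂ) r, ‖deriv β z‖ ^ 2 ≤ ∫ z in ball (0 : ℂ) r, tau (Real.exp 1 * r) z * (4 * ‖deriv β z‖ ^ 2) := by
            refine setIntegral_mono_on ?_ hint.integrableOn measurableSet_ball fun z hz => ?_
            · exact ((hβ'.continuous.norm.pow 2).continuousOn.integrableOn_compact (isCompact_closedBall 0 r)).mono_set ball_subset_closedBall
            · have h4 := Pool.Agent.H30M.le_tau hR hr (z := z) (mem_ball_zero_iff.1 hz).le
              rw [Real.log_mul (Real.exp_pos 1).ne' (by linarith), Real.log_exp] at h4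
              have h5 : 0 ≤ ‖deriv β z‖ ^ 2 := sq_nonneg _
              nlinarith
        _ ≤ ∫ z, tau (Real.exp 1 * r) z * (4 * ‖deriv β z‖ ^ 2) :=
            setIntegral_le_integral hint (Eventually.of_forall fun z =>
              mul_nonneg (Pool.Agent.H30M.tau_nonneg hR z) (by positivity))
    have h4 := hC _ hR
    linarith
  -- the derivative is bounded
  have hbd : ∀ w, ‖deriv β w‖ ^ 2 ≤ 2 * C * Real.exp 1 ^ 2 * 4 := by
    intro w
    obtain ⟨r, hr1, hr2⟩ : ∃ r : ℝ, 1 ≤ r ∧ 2 * ‖w‖ ≤ r := ⟨max 1 (2 * ‖w‖), le_max_left _ _, le_max_right _ _⟩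
    have h1 := Pool.Agent.GA.rpow_le_area (s := deriv β) (c := w) (h := r / 2) (p := 2) (by linarith) (by norm_num) fun z _ => hβ'.analyticAt z
    simp only [Real.rpow_two] at h1
    have h2 : ∫ z in ball w (r / 2), ‖deriv β z‖ ^ 2 ≤ ∫ z in ball (0 : ℂ) r, ‖deriv β z‖ ^ 2 := by
      refine setIntegral_mono_set ?_ (Eventually.of_forall fun z => sq_nonneg _) (HasSubset.Subset.eventuallyLE ?_)
      · exact ((hβ'.continuous.norm.pow 2).continuousOn.integrableOn_compact (isCompact_closedBall 0 r)).mono_set ball_subset_closedBall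
      · refine ball_subset_ball' ?_
        rw [dist_zero_right]
        linarith
    have h3 := henergy r hr1
    have he : (1 : ℝ) ≤ Real.exp 1 := Real.one_le_exp zero_le_one
    have hpi : (1 : ℝ) ≤ Real.pi := by linarith [Real.pi_gt_three]
    have hr0 : 0 < r ^ 2 := by positivity
    have h5 : C * (1 + (Real.exp 1 * r) ^ 2) ≤ 2 * C * Real.exp 1 ^ 2 * r ^ 2 := by
      have h6 : 1 ≤ Real.exp 1 ^ 2 * r ^ 2 := by
        have := one_le_pow₀ he (n := 2)
        have := one_le_pow₀ hr1 (n := 2)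
        nlinarith
      rw [mul_pow]
      nlinarith
    have h6 : Real.pi * (r / 2) ^ 2 * ‖deriv β w‖ ^ 2 ≤ 2 * C * Real.exp 1 ^ 2 * r ^ 2 := h1.trans (h2.trans (h3.trans h5))
    have h7 : (r / 2) ^ 2 * ‖deriv β w‖ ^ 2 ≤ Real.pi * (r / 2) ^ 2 * ‖deriv β w‖ ^ 2 := by
      have h8 : 0 ≤ (r / 2) ^ 2 * ‖deriv β w‖ ^ 2 := by positivity
      nlinarith
    have h8 : r ^ 2 * ‖deriv β w‖ ^ 2 ≤ r ^ 2 * (2 * C * Real.exp 1 ^ 2 * 4) := by nlinarith
    exact le_of_mul_le_mul_left h8 hr0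
  -- Liouville
  have hcst : ∀ w, deriv β w = deriv β 0 := by
    intro w
    refine hβ'.apply_eq_apply_of_bounded ?_ w 0
    refine (isBounded_iff_forall_norm_le).2 ⟨Real.sqrt (2 * C * Real.exp 1 ^ 2 * 4), ?_⟩
    rintro _ ⟨z, rfl⟩
    exact Real.le_sqrt_of_sq_le (hbd z)
  refine ⟨β 0, deriv β 0, fun z => ?_⟩
  have hd : Differentiable ℂ fun z => β z - deriv β 0 * z := hβ.sub (differentiable_id.const_mul _)
  have h1 : ∀ z, deriv (fun z => β z - deriv β 0 * z) z = 0 := by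
    intro z
    have h2 : HasDerivAt (fun z => β z - deriv β 0 * z) (deriv β z - deriv β 0 * 1) z := (hβ z).hasDerivAt.sub ((hasDerivAt_id z).const_mul _)
    rw [h2.deriv, hcst z]
    ring
  have h2 := is_const_of_deriv_eq_zero hd h1 z 0
  simp only [mul_zero, sub_zero] at h2
  rw [← h2]
  ring

theorem affine_of_green {a c : ℂ × ℂ → ℝ} {δ A : ℝ} (hδ : 0 < δ)
    (hu : ∀ z t : ℂ, ‖t‖ < δ → ∃ u : ℂ × ℂ → ℝ, ContDiffAt ℝ 4 u (z, t) ∧ ∀ᶠ p in 𝓝 (z, t), a p = Δ (fun w => u (w, p.2)) p.1 ∧ c p = Δ (fun s => u (p.1, s)) p.2)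
    (ha : ∀ z t : ℂ, ‖t‖ < δ → |a (z, t)| ≤ A) (hc : ∀ z t : ℂ, ‖t‖ < δ → 0 ≤ c (z, t)) {b : ℂ × ℂ → ℂ} (hb : ∀ z t : ℂ, ‖t‖ < δ → AnalyticAt ℂ b (z, t)) {B : ℝ}
    (hbc : ∀ z t : ℂ, ‖t‖ < δ → ‖b (z, t)‖ ^ 2 ≤ B * c (z, t)) : ∃ p q : ℂ, ∀ z, b (z, 0) = p + q * z := by
  have hδ2 : 0 < δ / 2 := by linarith
  let ψ : ContDiffBump (0 : ℂ) := ⟨δ / 2, 3 * δ / 4, hδ2, by linarith⟩
  have hψ : ψ.rOut < δ := by
    show 3 * δ / 4 < δ
    linarith
  have hts : ∀ t ∈ tsupport ψ, ‖t‖ < δ := by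
    intro t ht
    rw [ψ.tsupport_eq, mem_closedBall_zero_iff] at ht
    linarith
  obtain ⟨C, hC⟩ := double_green_bump hδ hu ha ψ hψ
  have hbc' : ∀ z t : ℂ, ‖t‖ < δ → ‖b (z, t)‖ ^ 2 ≤ |B| * c (z, t) := fun z t ht =>
    (hbc z t ht).trans (mul_le_mul_of_nonneg_right (le_abs_self B) (hc z t ht))
  have hβ : Differentiable ℂ fun z => b (z, 0) := by
    intro z
    have h1 := (hb z 0 (by simpa using hδ)).differentiableAt
    have h2 : DifferentiableAt ℂ (fun z : ℂ => (z, (0 : ℂ))) z := by fun_prop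
    exact DifferentiableAt.comp (g := b) z h1 h2
  obtain ⟨κ, hκ⟩ : ∃ κ : ℝ, κ = Real.pi * (δ / 2) ^ 2 := ⟨_, rfl⟩
  have hκ0 : 0 < κ := by rw [hκ]; positivity
  refine affine_of_avg hβ (C := |B| * C / κ) fun R hR => ?_
  have hcb : ∀ p : ℂ × ℂ, p.2 ∈ tsupport ψ → ContinuousAt (fun p => ‖b p‖ ^ 2) p := fun p hp =>
    ((hb p.1 p.2 (hts _ hp)).continuousAt.norm).pow 2
  have hcc : ∀ p : ℂ × ℂ, p.2 ∈ tsupport ψ → ContinuousAt (fun p => |B| * c p) p := fun p hp =>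
    continuousAt_const.mul (green_local hu p (hts _ hp)).2.1.continuousAt
  have hFb := integrable_cut (Pool.Agent.H30M.continuous_rhoR R) (Pool.Agent.H30M.hcs_rhoR hR) ψ.continuous ψ.hasCompactSupport hcb
  have hFc := integrable_cut (Pool.Agent.H30M.continuous_rhoR R) (Pool.Agent.H30M.hcs_rhoR hR) ψ.continuous ψ.hasCompactSupport hcc
  -- the mean value inequality in `t`
  have h1 : κ * avg R (fun z => ‖b (z, 0)‖ ^ 2) ≤ ∫ z, ∫ t, rhoR R z * (ψ t * ‖b (z, t)‖ ^ 2) := by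
    unfold Pool.Agent.H30M.avg
    rw [← integral_const_mul]
    refine integral_mono ?_ hFb.integral_prod_left fun z => ?_
    · exact (((Pool.Agent.H30M.continuous_rhoR R).mul (hβ.continuous.norm.pow 2)).integrable_of_hasCompactSupport
        ((Pool.Agent.H30M.hcs_rhoR hR).mul_right)).const_mul κ
    · simp only [integral_const_mul]
      have hcont : ∀ t ∈ tsupport ψ, ContinuousAt (fun t => ‖b (z, t)‖ ^ 2) t := fun t ht =>
        ContinuousAt.comp (g := fun p : ℂ × ℂ => ‖b p‖ ^ 2) (f := fun t : ℂ => (z, t)) (hcb (z, t) ht) (by fun_prop)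
      have hintψ : Integrable fun t => ψ t * ‖b (z, t)‖ ^ 2 := by
        refine Pool.Agent.H30M.integrable_of_ts (fun t ht => ?_) (Pool.Agent.H30M.hcs_of_sub ψ.hasCompactSupport
          (tsupport_mul_subset_left (f := (ψ : ℂ → ℝ)) (g := fun t => ‖b (z, t)‖ ^ 2)))
        exact ψ.continuous.continuousAt.mul (hcont t (tsupport_mul_subset_left (f := (ψ : ℂ → ℝ)) (g := fun t => ‖b (z, t)‖ ^ 2) ht))
      have h2 := Pool.Agent.GA.rpow_le_area (s := fun t => b (z, t)) (c := 0) (h := δ / 2) (p := 2) hδ2 (by norm_num) fun t ht => by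
        have ht' : ‖t‖ < δ := by
          rw [mem_closedBall_zero_iff] at ht
          linarith
        exact AnalyticAt.comp (g := b) (f := fun t : ℂ => (z, t)) (hb z t ht') (analyticAt_const.prod analyticAt_id)
      simp only [Real.rpow_two] at h2
      rw [← hκ] at h2
      have h3 : ∫ t in ball (0 : ℂ) (δ / 2), ‖b (z, t)‖ ^ 2 ≤ ∫ t, ψ t * ‖b (z, t)‖ ^ 2 := by
        have e1 : ∫ t in ball (0 : ℂ) (δ / 2), ‖b (z, t)‖ ^ 2 = ∫ t in ball (0 : ℂ) (δ / 2), ψ t * ‖b (z, t)‖ ^ 2 := by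
          refine setIntegral_congr_fun measurableSet_ball fun t ht => ?_
          have h4 : ψ t = 1 := ψ.one_of_mem_closedBall (ball_subset_closedBall ht)
          simp only [h4, one_mul]
        rw [e1]
        exact setIntegral_le_integral hintψ (Eventually.of_forall fun t => mul_nonneg ψ.nonneg (sq_nonneg _))
      calc κ * (rhoR R z * ‖b (z, 0)‖ ^ 2) = rhoR R z * (κ * ‖b (z, 0)‖ ^ 2) := by ring
        _ ≤ rhoR R z * ∫ t, ψ t * ‖b (z, t)‖ ^ 2 := mul_le_mul_of_nonneg_left (h2.trans h3) (Pool.Agent.H30M.rhoR_nonneg R z)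
  -- the comparison with the density
  have h2 : (∫ t, ∫ z, rhoR R z * (ψ t * ‖b (z, t)‖ ^ 2)) ≤ ∫ t, ∫ z, rhoR R z * (ψ t * (|B| * c (z, t))) := by
    refine integral_mono_ae hFb.integral_prod_right hFc.integral_prod_right ?_
    filter_upwards [hFb.prod_left_ae, hFc.prod_left_ae] with t i1 i2
    refine integral_mono i1 i2 fun z => ?_
    by_cases ht : t ∈ tsupport ψ
    · exact mul_le_mul_of_nonneg_left (mul_le_mul_of_nonneg_left (hbc' z t (hts t ht)) ψ.nonneg) (Pool.Agent.H30M.rhoR_nonneg R z)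
    · simp only [image_eq_zero_of_notMem_tsupport ht, zero_mul, mul_zero, le_refl]
  have h3 : (∫ t, ∫ z, rhoR R z * (ψ t * (|B| * c (z, t)))) = |B| * ∫ t, ∫ z, rhoR R z * (ψ t * c (z, t)) := by
    rw [← integral_const_mul]
    refine integral_congr_ae (Eventually.of_forall fun t => ?_)
    show _ = |B| * ∫ z, rhoR R z * (ψ t * c (z, t))
    rw [← integral_const_mul]
    refine integral_congr_ae (Eventually.of_forall fun z => ?_)
    show rhoR R z * (ψ t * (|B| * c (z, t))) = |B| * (rhoR R z * (ψ t * c (z, t)))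
    ring
  have h4 : (∫ z, ∫ t, rhoR R z * (ψ t * ‖b (z, t)‖ ^ 2)) = ∫ t, ∫ z, rhoR R z * (ψ t * ‖b (z, t)‖ ^ 2) := integral_integral_swap hFb
  have h5 : κ * avg R (fun z => ‖b (z, 0)‖ ^ 2) ≤ |B| * (C * (1 + R ^ 2)) := by
    rw [h4] at h1
    exact h1.trans (h2.trans (h3.le.trans (mul_le_mul_of_nonneg_left (hC R hR) (abs_nonneg B))))
  rw [div_mul_eq_mul_div, le_div_iff₀ hκ0, mul_comm]
  linarith

end Pool.Agent.GV
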