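import Pool.Agent.GV.Fld
import Pool.Agent.GV.Dep
import Pool.Agent.GB.Pt
import Pool.Agent.GB.Trf
import Pool.Agent.H92.GT.ProjPoint

/-!
# GV Plane: a complex point with a plane of initial vectors

The closed conditions on the point `(x, ∑ t_j e_j (x))` with values in `FunField P [t_1, …, t_d]` hold identically in `t`; `GB.transfer` gives a complex point `x` with a plane `span (u_1, …, u_d)` of tangent vectors with the same
properties: all its vectors satisfy the closed conditions of `Crit`, and `d + 2` homogeneous coordinates satisfy one nonzero form (`Dep`).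
-/

set_option autoImplicit false

open MvPolynomial
open Pool.Agent.H13.SM (conTan cone)
open Pool.Agent.H17LG.Variety (FunField ratio IsLogGeneralType)
open Pool.Agent.H62.FC (Homog)

namespace Pool.Agent.GV

open Pool.Agent.GG Pool.Agent.GB

section

variable {N : ℕ} {d : ℕ}

/-- the variables `x_b`, `u_(j b)` -/
private abbrev PVr (N d : ℕ) : Type := Fin (N + 1) ⊕ Fin d × Fin (N + 1)

/-- the polynomial `A (x, ∑ t_j u_j)` in `t` -/
private noncomputable def pgp {F : Type} [CommRing F] [Algebra ℂ F] (A : MvPolynomial (Ph N) ℂ) (y : PVr N d → F) : MvPolynomial (Fin d) F :=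
  aeval (Sum.elim (fun b => C (y (Sum.inl b))) fun b => ∑ j, X j * C (y (Sum.inr (j, b)))) A

private theorem pgp_map {F : Type} [CommRing F] [Algebra ℂ F] (A : MvPolynomial (Ph N) ℂ) (y : PVr N d → F) :
    map (aeval y : MvPolynomial (PVr N d) ℂ →ₐ[ℂ] F).toRingHom (pgp A (X : PVr N d → MvPolynomial (PVr N d) ℂ)) = pgp A y := by
  have h1 : map (aeval y : MvPolynomial (PVr N d) ℂ →ₐ[ℂ] F).toRingHom (pgp A (X : PVr N d → MvPolynomial (PVr N d) ℂ)) =
      mapAlgHom (aeval y : MvPolynomial (PVr N d) ℂ →ₐ[ℂ] F) (pgp A (X : PVr N d → MvPolynomial (PVr N d) ℂ)) := rfl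
  rw [h1]
  unfold pgp
  rw [← AlgHom.comp_apply, comp_aeval]
  congr 2
  funext i
  rcases i with b | b
  · simp
  · simp [map_sum]

private theorem eval_pgp (A : MvPolynomial (Ph N) ℂ) (y : PVr N d → ℂ) (t : Fin d → ℂ) :
    eval t (pgp A y) = eval (pt (fun b => y (Sum.inl b)) (∑ j, t j • fun b => y (Sum.inr (j, b)))) A := by
  unfold pgp
  have h1 : eval t (aeval (Sum.elim (fun b => C (y (Sum.inl b))) fun b => ∑ j, X j * C (y (Sum.inr (j, b)))) A) =
      (aeval t : MvPolynomial (Fin d) ℂ →ₐ[ℂ] ℂ) (aeval (Sum.elim (fun b => C (y (Sum.inl b))) fun b => ∑ j, X j * C (y (Sum.inr (j, b)))) A) := rfl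
  have h2 : eval (pt (fun b => y (Sum.inl b)) (∑ j, t j • fun b => y (Sum.inr (j, b)))) A =
      (aeval (pt (fun b => y (Sum.inl b)) (∑ j, t j • fun b => y (Sum.inr (j, b)))) : MvPolynomial (Ph N) ℂ →ₐ[ℂ] ℂ) A := rfl
  rw [h1, h2, ← AlgHom.comp_apply, comp_aeval]
  congr 2
  funext i
  rcases i with b | b
  · simp
  · simp [Finset.sum_apply]

/-- the transfer to a complex point, identically in `t` -/
private theorem plane_transfer {K : Type} [Field K] [Algebra ℂ K] (y₀ : PVr N d → K) {G : MvPolynomial (PVr N d) ℂ} (hG : aeval y₀ G ≠ 0) :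
    ∃ w : PVr N d → ℂ, eval w G ≠ 0 ∧ ∀ A : MvPolynomial (Ph N) ℂ, pgp A y₀ = 0 → ∀ t : Fin d → ℂ,
      eval (pt (fun b => w (Sum.inl b)) (∑ j, t j • fun b => w (Sum.inr (j, b)))) A = 0 := by
  by_contra hcon
  push Not at hcon
  refine hG (transfer (S := {s | ∃ A : MvPolynomial (Ph N) ℂ, pgp A y₀ = 0 ∧ ∃ α, s = coeff α (pgp A (X : PVr N d → MvPolynomial (PVr N d) ℂ))}) ?_ y₀ ?_)
  · intro w hw
    by_contra hne
    obtain ⟨A, hA, t, ht⟩ := hcon w hne
    apply ht
    rw [← eval_pgp]
    have h1 : pgp A w = 0 := by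
      rw [← pgp_map]
      ext α
      rw [coeff_map, coeff_zero]
      exact hw _ ⟨A, hA, α, rfl⟩
    rw [h1, map_zero]
  · rintro s ⟨A, hA, α, rfl⟩
    have h1 := congrArg (coeff α) (pgp_map A y₀)
    rw [coeff_map, hA, coeff_zero] at h1
    exact h1

end

section

/-- a spanning family of vectors contains a basis -/
private theorem exists_detP {F ι n : Type} [Field F] [Fintype n] [DecidableEq n] (w : ι → n → F)
    (hs : Submodule.span F (Set.range w) = ⊤) : ∃ I : n → ι, (Matrix.of fun α β => w (I α) β).det ≠ 0 := by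
  obtain ⟨κ, a, -, hsp, hli⟩ := exists_linearIndependent' F w
  have hsp' : ⊤ ≤ Submodule.span F (Set.range (w ∘ a)) := by rw [hsp, hs]
  let b : Module.Basis κ F (n → F) := Module.Basis.mk hli hsp'
  let e : κ ≃ n := b.indexEquiv (Pi.basisFun F n)
  refine ⟨fun α => a (e.symm α), ?_⟩
  have h1 : LinearIndependent F (Matrix.of fun α β => w (a (e.symm α)) β).row :=
    hli.comp e.symm e.symm.injective
  rw [Matrix.linearIndependent_rows_iff_isUnit, Matrix.isUnit_iff_isUnit_det] at h1
  exact h1.ne_zero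

private theorem lin_applyP {F n W : Type} [Field F] [Fintype n] [DecidableEq n] [AddCommGroup W] [Module F W] (φ : (n → F) →ₗ[F] W)
    (v : n → F) : φ v = ∑ j, v j • φ (Pi.single j 1) := by
  have h1 : v = ∑ j, v j • Pi.single j (1 : F) := by
    funext i
    simp [Finset.sum_apply, Pi.single_apply]
  conv_lhs => rw [h1]
  rw [map_sum]
  exact Finset.sum_congr rfl fun j _ => map_smul _ _ _

/-- independent rows: a minor is not zero -/
private theorem exists_minorP {F : Type} [Field F] {d n : ℕ} {r : Fin d → Fin n → F} (hr : LinearIndependent F r) :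
    ∃ μ : Fin d → Fin n, (Matrix.of fun j l => r j (μ l)).det ≠ 0 := by
  have hs : Submodule.span F (Set.range fun (b : Fin n) (j : Fin d) => r j b) = ⊤ := by
    by_contra hne
    obtain ⟨φ, hφ, hle⟩ := Submodule.exists_le_ker_of_lt_top _ (lt_top_iff_ne_top.2 hne)
    apply hφ
    have h1 : ∀ v : Fin d → F, φ v = ∑ j, v j * φ (Pi.single j 1) := fun v => by
      rw [lin_applyP φ v]
      simp only [smul_eq_mul]
    have h2 : ∑ j, φ (Pi.single j 1) • r j = 0 := by
      funext b
      have h3 : φ (fun j => r j b) = 0 := hle (Submodule.subset_span ⟨b, rfl⟩)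
      rw [h1] at h3
      rw [Finset.sum_apply, Pi.zero_apply, ← h3]
      refine Finset.sum_congr rfl fun j _ => ?_
      rw [Pi.smul_apply, smul_eq_mul, mul_comm]
    have h3 := Fintype.linearIndependent_iff.1 hr _ h2
    refine LinearMap.ext fun v => ?_
    rw [h1, LinearMap.zero_apply]
    exact Finset.sum_eq_zero fun j _ => by rw [h3 j, mul_zero]
  obtain ⟨μ, hμ⟩ := exists_detP _ hs
  refine ⟨μ, ?_⟩
  rw [← Matrix.det_transpose]
  exact hμ

private theorem rows_liP {K : Type} [Field K] [Algebra ℂ K] {n d : ℕ} {x : Fin n → K} (hx : IntermediateField.adjoin ℂ (Set.range x) = ⊤)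
    {e : Fin d → Derivation ℂ K K} (he : LinearIndependent K e) : LinearIndependent K fun (j : Fin d) (b : Fin n) => e j (x b) := by
  rw [Fintype.linearIndependent_iff]
  intro c hc
  refine Fintype.linearIndependent_iff.1 he c ?_
  refine Asm_der_eq_zero hx ?_
  rintro _ ⟨b, rfl⟩
  have h1 := congrFun hc b
  have h2 : (∑ i, c i • e i) (x b) = ∑ i, c i * e i (x b) := by
    have h3 := map_sum (Derivation.coeFnAddMonoidHom : Derivation ℂ K K →+ (K → K)) (fun i => c i • e i) Finset.univ
    have h4 := congrFun h3 (x b)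
    rw [Finset.sum_apply] at h4
    exact h4
  rw [h2]
  rw [Finset.sum_apply] at h1
  exact h1

/-- common denominators -/
private theorem exists_denom {K : Type} [Field K] [Algebra ℂ K] {n : ℕ} {x : Fin n → K} (hx : IntermediateField.adjoin ℂ (Set.range x) = ⊤) {ι : Type}
    (s : Finset ι) (c : ι → K) : ∃ (B : MvPolynomial (Fin n) ℂ) (A : ι → MvPolynomial (Fin n) ℂ), aeval x B ≠ 0 ∧ ∀ i ∈ s, c i * aeval x B = aeval x (A i) := by
  classical
  have h1 : ∀ c : K, ∃ A B : MvPolynomial (Fin n) ℂ, aeval x B ≠ 0 ∧ c * aeval x B = aeval x A := by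
    intro c
    have hc : c ∈ IntermediateField.adjoin ℂ (Set.range x) := by
      rw [hx]
      trivial
    obtain ⟨r, t, hrt⟩ := (IntermediateField.mem_adjoin_range_iff ℂ x c).1 hc
    by_cases ht : aeval x t = 0
    · refine ⟨0, 1, by rw [map_one]; exact one_ne_zero, ?_⟩
      rw [hrt, ht, div_zero, zero_mul, map_zero]
    · exact ⟨r, t, ht, by rw [hrt, div_mul_cancel₀ _ ht]⟩
  induction s using Finset.induction_on with
  | empty => exact ⟨1, fun _ => 0, by rw [map_one]; exact one_ne_zero, fun i hi => absurd hi (Finset.notMem_empty i)⟩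
  | insert i s hi ih =>
    obtain ⟨B, A, hB, hA⟩ := ih
    obtain ⟨A', B', hB', hA'⟩ := h1 (c i)
    refine ⟨B * B', fun j => if j = i then A' * B else A j * B', ?_, fun j hj => ?_⟩
    · rw [map_mul]
      exact mul_ne_zero hB hB'
    · beta_reduce
      by_cases hji : j = i
      · subst hji
        rw [if_pos rfl, map_mul, map_mul, ← hA']
        ring
      · rw [if_neg hji, map_mul, map_mul, ← hA j (Finset.mem_of_mem_insert_of_ne hj hji)]
        ring

private theorem iter_sum {N : ℕ} (D : Derivation ℂ (MvPolynomial (Ph N) ℂ) (MvPolynomial (Ph N) ℂ)) {ι : Type} (s : Finset ι) (c : ι → ℂ)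
    (p : ι → MvPolynomial (Ph N) ℂ) (n : ℕ) : (⇑D)^[n] (∑ i ∈ s, c i • p i) = ∑ i ∈ s, c i • (⇑D)^[n] (p i) := by
  induction n with
  | zero => rfl
  | succ n ih =>
    rw [Function.iterate_succ_apply', ih, map_sum]
    refine Finset.sum_congr rfl fun i _ => ?_
    rw [Derivation.map_smul, Function.iterate_succ_apply']

private theorem rel_iter {N : ℕ} {κ : Type} {F : Type} [Field F] [Algebra ℂ F] (G : κ → MvPolynomial (Ph N) ℂ) (J : Fin (N + 1) → κ) (D : Derivation ℂ F F)
    {y : Ph N → F} (hx : ∀ b, D (y (Sum.inl b)) = y (Sum.inr b)) (hG : ∀ l, D (aeval y (G l)) = 0) {ι : Type} (s : Finset ι) (c : ι → F)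
    (hc : ∀ i ∈ s, D (c i) = 0) (p : ι → MvPolynomial (Ph N) ℂ) (h0 : ∑ i ∈ s, c i * aeval y (p i) = 0) (n : ℕ) :
    ∑ i ∈ s, c i * aeval y ((⇑(Dt G J))^[n] (p i)) = 0 := by
  induction n with
  | zero => exact h0
  | succ n ih =>
    have h1 : D (∑ i ∈ s, c i * aeval y ((⇑(Dt G J))^[n] (p i))) = ∑ i ∈ s, c i * D (aeval y ((⇑(Dt G J))^[n] (p i))) := by
      rw [map_sum]
      refine Finset.sum_congr rfl fun i hi => ?_
      rw [Derivation.leibniz, hc i hi, smul_zero, add_zero, smul_eq_mul]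
    rw [ih, map_zero] at h1
    have h2 : ∑ i ∈ s, c i * aeval y ((⇑(Dt G J))^[n + 1] (p i)) =
        aeval y (vdet G J) * ∑ i ∈ s, c i * D (aeval y ((⇑(Dt G J))^[n] (p i))) := by
      rw [Finset.mul_sum]
      refine Finset.sum_congr rfl fun i _ => ?_
      rw [Function.iterate_succ_apply', aeval_Dt G J D hx hG]
      ring
    rw [h2, ← h1, mul_zero]

end

variable {N : ℕ} {P : Ideal (MvPolynomial (Fin (N + 1)) ℂ)} {J m : ℕ} {θ : Fin J → SymSec P m}

/-- **A point with a plane of initial vectors.** -/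
theorem exists_plane [P.IsPrime] (hP : Homog P) (hm : 1 ≤ m) (hgen : Generated θ) (f : Frame (m := fun _ => m) θ) {k : ℕ} (hk : 1 ≤ k)
    (hz : ∃ z : Fin k → FunField P, IsTranscendenceBasis ℂ z) (hn : ¬ IsLogGeneralType (K := FunField P) (k := k) fun _ => False)
    {q : MvPolynomial (Fin (N + 1)) ℂ} {n : ℕ} (hq : q.IsHomogeneous n) (hqP : q ∉ P) :
    ∃ (a : Fin (N + 1)) (d : ℕ) (x : Fin (N + 1) → ℂ) (u : Fin d → Fin (N + 1) → ℂ), 1 ≤ d ∧ x ∈ cone P ∧ x a = 1 ∧ eval x q ≠ 0 ∧
      (∀ j, u j ∈ conTan P x ∧ u j a = 0) ∧ LinearIndependent ℂ u ∧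
      (∀ (K : Fin (N + 1) → (Unit ⊕ Unit) ⊕ (Fin f.q ⊕ Fin f.q) ⊕ Fin J) (l : (Unit ⊕ Unit) ⊕ (Fin f.q ⊕ Fin f.q) ⊕ Fin J) (n : ℕ) (t : Fin d → ℂ),
        eval (pt x (∑ j, t j • u j)) ((⇑(Dt (gfam f a) K))^[n + 1] (gfam f a l)) = 0) ∧
      ∀ I : Fin (d + 2) → Fin (N + 1), ∃ (M : ℕ) (R : MvPolynomial (Fin (d + 2)) ℂ), R.IsHomogeneous M ∧ R ≠ 0 ∧
        ∀ (K : Fin (N + 1) → (Unit ⊕ Unit) ⊕ (Fin f.q ⊕ Fin f.q) ⊕ Fin J) (n : ℕ) (t : Fin d → ℂ),
          eval (pt x (∑ j, t j • u j)) ((⇑(Dt (gfam f a) K))^[n] (rename (fun i => (Sum.inl (I i) : Ph N)) R)) = 0 := by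
  classical
  obtain ⟨z, hz⟩ := hz
  obtain ⟨a, ha⟩ : ∃ a, X a ∉ P := by
    obtain ⟨k', rfl⟩ : ∃ k', k = k' + 1 := ⟨k - 1, by omega⟩
    obtain ⟨a, ha⟩ := Pool.Agent.H92.GT.Proj.exists_coordFun_ne_zero P z hz
    exact ⟨a, Pool.Agent.H17R.coordFun_ne_zero_iff.1 ha⟩
  have hac := Pool.Agent.H17R.coordFun_ne_zero_iff.2 ha
  obtain ⟨d, κ, φ, e, D, hd1, hdk, hφ, heφ, hei, hD, hDp⟩ := exists_field_data hP hm hgen f ha hk hz hn
  obtain ⟨F, hF⟩ : ∃ F : Type, F = FractionRing (MvPolynomial (Fin d) (FunField P)) := ⟨_, rfl⟩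
  have hadj := Pool.Agent.H17R.adjoin_ratio hac
  set x : Fin (N + 1) → FunField P := fun b => ratio P b a with hxdef
  set y₀ : PVr N d → FunField P := Sum.elim x fun p => e p.1 (x p.2) with hy₀
  have htv : ∀ A : MvPolynomial (Ph N) ℂ, aeval (tv P a e) A = pgp A y₀ := fun A => rfl
  -- the point with values in the field
  let ι : MvPolynomial (Fin d) (FunField P) →ₐ[ℂ] FractionRing (MvPolynomial (Fin d) (FunField P)) := IsScalarTower.toAlgHom ℂ _ _
  have hιv : ∀ x, ι x = algebraMap (MvPolynomial (Fin d) (FunField P)) _ x := fun _ => rfl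
  have hιC : ∀ c : FunField P, ι (C c) = algebraMap (FunField P) _ c := fun c => by
    rw [hιv, IsScalarTower.algebraMap_apply (FunField P) (MvPolynomial (Fin d) (FunField P)) (FractionRing (MvPolynomial (Fin d) (FunField P))),
      MvPolynomial.algebraMap_eq]
  have hιi : ∀ x, ι x = 0 → x = 0 := fun x hx0 => by
    rw [hιv] at hx0
    exact (map_eq_zero_iff _ (IsFractionRing.injective (MvPolynomial (Fin d) (FunField P)) (FractionRing (MvPolynomial (Fin d) (FunField P))))).1 hx0
  set y : Ph N → FractionRing (MvPolynomial (Fin d) (FunField P)) := fun s => ι (tv P a e s) with hydef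
  have hy : ∀ G : MvPolynomial (Ph N) ℂ, aeval y G = ι (aeval (tv P a e) G) := fun G => (MvPolynomial.comp_aeval_apply (tv P a e) ι G).symm
  obtain ⟨e1, e2, e3, e4⟩ := tv_eqs f hP le_rfl ha e
  have hx : ∀ b, D (y (Sum.inl b)) = y (Sum.inr b) := by
    intro b
    have h1 : y (Sum.inl b) = algebraMap (FunField P) _ (ratio P b a) := hιC _
    rw [h1, hD]
    show _ = ι (∑ j, X j * C (e j (ratio P b a)))
    rw [map_sum]
    refine Finset.sum_congr rfl fun j _ => ?_
    rw [map_mul, hιC, hιv]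
  have hfQ : ∀ j, f.Q j ∈ P := fun j => f.span.le (Ideal.subset_span ⟨j, rfl⟩)
  have hG : ∀ l, D (aeval y (gfam f a l)) = 0 := by
    rintro ((_ | _) | ((j | j) | i))
    · rw [hy]
      simp only [gfam, Sum.elim_inl, aeval_X, e1, map_one, Derivation.map_one_eq_zero]
    · rw [hy]
      simp only [gfam, Sum.elim_inl, Sum.elim_inr, aeval_X, e2, map_zero]
    · rw [hy]
      simp only [gfam, Sum.elim_inl, Sum.elim_inr, e3 _ (hfQ j), map_zero]
    · rw [hy]
      simp only [gfam, Sum.elim_inl, Sum.elim_inr]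
      rw [e4 _ (hfQ j), map_zero, map_zero]
    · rw [hy]
      exact hDp i
  -- the relations
  have hdep : ∀ I : Fin (d + 2) → Fin (N + 1), ∃ (M : ℕ) (R : MvPolynomial (Fin (d + 2)) (FunField P)) (B : MvPolynomial (Fin (N + 1)) ℂ)
      (A : (Fin (d + 2) →₀ ℕ) → MvPolynomial (Fin (N + 1)) ℂ), R.IsHomogeneous M ∧ R ≠ 0 ∧ (∀ β, D (algebraMap (FunField P) _ (coeff β R)) = 0) ∧
        eval (fun i => x (I i)) R = 0 ∧ aeval x B ≠ 0 ∧ ∀ β ∈ R.support, coeff β R * aeval x B = aeval x (A β) := by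
    intro I
    obtain ⟨M, R, h1, h2, h3, h4⟩ := exists_dep_hom hz hdk hφ fun i => x (I i)
    obtain ⟨B, A, h5, h6⟩ := exists_denom hadj R.support fun β => coeff β R
    refine ⟨M, R, B, A, h1, h2, fun β => ?_, h4, h5, h6⟩
    rw [hD]
    refine Finset.sum_eq_zero fun j _ => ?_
    have h7 : e j (coeff β R) = 0 := by
      have h8 := h3 β
      generalize coeff β R = c at h8
      induction h8 using Algebra.adjoin_induction with
      | mem x hx =>
        obtain ⟨i, rfl⟩ := hx
        exact heφ j i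
      | algebraMap r => exact (e j).map_algebraMap r
      | add x y _ _ hx hy => rw [map_add, hx, hy, add_zero]
      | mul x y _ _ hx hy => rw [Derivation.leibniz, hx, hy, smul_zero, smul_zero, add_zero]
    rw [h7, map_zero, mul_zero]
  choose M R B A hRM hR0 hRD hRe hB hA using hdep
  have hβ : ∀ I, ∃ β, β ∈ (R I).support := fun I => by
    obtain ⟨β, hβ⟩ := ne_zero_iff.1 (hR0 I)
    exact ⟨β, mem_support_iff.2 hβ⟩
  choose β hβ using hβ
  -- a minor
  obtain ⟨μ, hμ⟩ := exists_minorP (rows_liP hadj hei)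
  set Gm : MvPolynomial (PVr N d) ℂ := (Matrix.of fun j l : Fin d => (X (Sum.inr (j, μ l)) : MvPolynomial (PVr N d) ℂ)).det with hGm
  have hGm0 : ∀ {F' : Type} [CommRing F'] [Algebra ℂ F'] (y : PVr N d → F'), aeval y Gm = (Matrix.of fun j l : Fin d => y (Sum.inr (j, μ l))).det := by
    intro F' _ _ y
    rw [hGm]
    refine ((aeval y : MvPolynomial (PVr N d) ℂ →ₐ[ℂ] F').toRingHom.map_det _).trans ?_
    congr 1
    ext j l
    simp
  set G : MvPolynomial (PVr N d) ℂ := Gm * (rename Sum.inl q * ∏ I, (rename Sum.inl (B I) * rename Sum.inl (A I (β I)))) with hGdef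
  have hren : ∀ (p : MvPolynomial (Fin (N + 1)) ℂ), aeval y₀ (rename Sum.inl p) = aeval x p := fun p => by
    rw [aeval_rename]
    rfl
  have hGne : aeval y₀ G ≠ 0 := by
    rw [hGdef, map_mul, map_mul, map_prod, hGm0, hren]
    refine mul_ne_zero hμ (mul_ne_zero ?_ (Finset.prod_ne_zero_iff.2 fun I _ => ?_))
    · intro h
      exact hqP ((Pool.Agent.H17R.gen_eq_zero_iff hac hq).1 h)
    · rw [map_mul, hren, hren, ← hA I _ (hβ I)]
      exact mul_ne_zero (hB I) (mul_ne_zero (mem_support_iff.1 (hβ I)) (hB I))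
  obtain ⟨w, hw, hwA⟩ := plane_transfer y₀ hGne
  rw [hGdef, map_mul, map_mul, map_prod] at hw
  have hwm := left_ne_zero_of_mul hw
  have hwq := left_ne_zero_of_mul (right_ne_zero_of_mul hw)
  have hwI := fun I => right_ne_zero_of_mul ((map_mul (eval w) _ _) ▸ Finset.prod_ne_zero_iff.1 (right_ne_zero_of_mul (right_ne_zero_of_mul hw)) I (Finset.mem_univ I))
  have hren' : ∀ p : MvPolynomial (Fin (N + 1)) ℂ, eval w (rename Sum.inl p) = eval (fun b => w (Sum.inl b)) p := fun p => by
    rw [eval_rename]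
    rfl
  have hrenp : ∀ (p : MvPolynomial (Fin (N + 1)) ℂ) (v : Fin (N + 1) → ℂ), eval (pt (fun b => w (Sum.inl b)) v) (rename Sum.inl p) = eval (fun b => w (Sum.inl b)) p :=
    fun p v => by
      rw [eval_rename]
      rfl
  set x₀ : Fin (N + 1) → ℂ := fun b => w (Sum.inl b) with hx₀
  set u : Fin d → Fin (N + 1) → ℂ := fun j b => w (Sum.inr (j, b)) with hu
  have hzero : ∀ A : MvPolynomial (Ph N) ℂ, aeval y A = 0 → ∀ t : Fin d → ℂ, eval (pt x₀ (∑ j, t j • u j)) A = 0 := by
    intro A hA' t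
    refine hwA A ?_ t
    rw [← htv]
    rw [hy] at hA'
    exact hιi _ hA'
  have hsingle : ∀ j, (∑ i, (Pi.single j (1 : ℂ) : Fin d → ℂ) i • u i) = u j := fun j => by
    rw [Finset.sum_eq_single j]
    · rw [Pi.single_eq_same, one_smul]
    · intro i _ hi
      rw [Pi.single_eq_of_ne hi, zero_smul]
    · intro h
      exact absurd (Finset.mem_univ j) h
  have hxa : x₀ a = 1 := by
    have h := hzero (X (Sum.inl a) - 1) (by
      rw [hy, map_sub, aeval_X, e1, map_one, sub_self, map_zero]) 0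
    rw [map_sub, eval_X, map_one, sub_eq_zero] at h
    exact h
  refine ⟨a, d, x₀, u, hd1, ⟨fun h => ?_, fun p hp => ?_⟩, hxa, ?_, fun j => ⟨fun p hp => ?_, ?_⟩, ?_, fun K l n t => ?_, fun I => ?_⟩
  · rw [h] at hxa
    exact zero_ne_one hxa
  · have h := hzero (rename Sum.inl p) (by rw [hy, e3 p hp, map_zero]) 0
    rwa [hrenp] at h
  · rw [← hren']
    exact hwq
  · have h := hzero (∑ b, rename Sum.inl (pderiv b p) * X (Sum.inr b)) (by rw [hy, e4 p hp, map_zero]) (Pi.single j 1)
    rw [hsingle, map_sum] at h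
    rw [← h]
    refine Finset.sum_congr rfl fun i _ => ?_
    rw [map_mul, hrenp, eval_X, mul_comm]
    rfl
  · have h := hzero (X (Sum.inr a)) (by rw [hy, aeval_X, e2, map_zero]) (Pi.single j 1)
    rwa [hsingle, eval_X] at h
  · -- independence
    have h1 : (Matrix.of fun j l : Fin d => u j (μ l)).det ≠ 0 := by
      have h2 := hGm0 w
      have h3 : aeval w Gm = eval w Gm := rfl
      rw [h3] at h2
      rw [h2] at hwm
      exact hwm
    have h2 : LinearIndependent ℂ (Matrix.of fun j l : Fin d => u j (μ l)).row := by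
      rw [Matrix.linearIndependent_rows_iff_isUnit, Matrix.isUnit_iff_isUnit_det]
      exact isUnit_iff_ne_zero.2 h1
    rw [Fintype.linearIndependent_iff] at h2 ⊢
    intro g hg
    refine h2 g ?_
    funext l
    have h3 := congrFun hg (μ l)
    rw [Finset.sum_apply] at h3 ⊢
    exact h3
  · exact hzero _ (aeval_iter (gfam f a) K D hx hG l n) t
  · refine ⟨M I, ∑ b ∈ (R I).support, monomial b (eval x₀ (A I b)), ?_, ?_, fun K n t => ?_⟩
    · refine IsHomogeneous.sum _ _ _ fun b hb => isHomogeneous_monomial _ ?_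
      have h := hRM I (mem_support_iff.1 hb)
      rw [← h, Finsupp.degree_eq_weight_one]
      rfl
    · intro h0
      have h1 := congrArg (coeff (β I)) h0
      rw [coeff_sum, coeff_zero, Finset.sum_eq_single (β I)] at h1
      · rw [coeff_monomial, if_pos rfl] at h1
        exact hwI I (by rw [hren']; exact h1)
      · intro b _ hb
        rw [coeff_monomial, if_neg hb]
      · intro h
        exact absurd (hβ I) h
    · set pI : (Fin (d + 2) →₀ ℕ) → MvPolynomial (Ph N) ℂ := fun b => rename (fun i => (Sum.inl (I i) : Ph N)) (monomial b 1) with hpI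
      have h1 : rename (fun i => (Sum.inl (I i) : Ph N)) (∑ b ∈ (R I).support, monomial b (eval x₀ (A I b))) =
          ∑ b ∈ (R I).support, eval x₀ (A I b) • pI b := by
        rw [map_sum]
        refine Finset.sum_congr rfl fun b _ => ?_
        have h2 : (monomial b (eval x₀ (A I b)) : MvPolynomial (Fin (d + 2)) ℂ) = eval x₀ (A I b) • monomial b 1 := by
          rw [smul_monomial, smul_eq_mul, mul_one]
        rw [h2, map_smul]
      rw [h1, iter_sum, map_sum]
      have h2 := hzero (∑ b ∈ (R I).support, rename Sum.inl (A I b) * (⇑(Dt (gfam f a) K))^[n] (pI b)) ?_ t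
      · rw [map_sum] at h2
        rw [← h2]
        refine Finset.sum_congr rfl fun b _ => ?_
        rw [map_mul, hrenp, smul_eval]
      · have hyren : ∀ p : MvPolynomial (Fin (N + 1)) ℂ, aeval y (rename Sum.inl p) = algebraMap (FunField P) _ (aeval x p) := fun p => by
          rw [aeval_rename, ← MvPolynomial.aeval_algebraMap_apply]
          congr 1
        have h3 : ∑ b ∈ (R I).support, algebraMap (FunField P) (FractionRing (MvPolynomial (Fin d) (FunField P))) (coeff b (R I)) * aeval y (pI b) = 0 := by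
          have h4 := congrArg (algebraMap (FunField P) (FractionRing (MvPolynomial (Fin d) (FunField P)))) (hRe I)
          rw [map_zero, eval_eq, map_sum] at h4
          rw [← h4]
          refine Finset.sum_congr rfl fun b _ => ?_
          rw [map_mul, map_prod]
          congr 1
          rw [hpI]
          show aeval y (rename _ (monomial b 1)) = _
          rw [aeval_rename, aeval_monomial, map_one, one_mul, Finsupp.prod]
          refine Finset.prod_congr rfl fun i _ => ?_
          rw [map_pow]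
          congr 1
        have h5 := rel_iter (gfam f a) K D hx hG (R I).support (fun b => algebraMap (FunField P) _ (coeff b (R I))) (fun b _ => hRD I b) pI h3 n
        rw [map_sum]
        have h6 : ∑ b ∈ (R I).support, aeval y (rename Sum.inl (A I b) * (⇑(Dt (gfam f a) K))^[n] (pI b)) =
            algebraMap (FunField P) (FractionRing (MvPolynomial (Fin d) (FunField P))) (aeval x (B I)) *
              ∑ b ∈ (R I).support, algebraMap (FunField P) _ (coeff b (R I)) * aeval y ((⇑(Dt (gfam f a) K))^[n] (pI b)) := by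
          rw [Finset.mul_sum]
          refine Finset.sum_congr rfl fun b hb => ?_
          rw [map_mul, hyren, ← hA I b hb, map_mul]
          ring
        rw [h6, h5, mul_zero]

end Pool.Agent.GV
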