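import Pool.Agent.GV.Defs

/-!
# GV Uniq: equal frames give a period

PROOF.  For `w ≠ 0` the curves `z ↦ E (a + z w)`, `z ↦ E (b + z w)` are arcs with `θ = c w` (`flat`) and have the same point and velocity at `z = 0`: in a chart they are `ArcV (gfam f α)`, with the same initial vector, so equal near `0` (`exists_row`, `exists_Flow` and `Flow.uniq`), and
everywhere (`arc_unique`).  At `z = 1`: `E (a + w) = E (b + w)` for all `w`.
-/

set_option autoImplicit false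

open MvPolynomial Topology Filter Metric
open Pool.Agent.H13.SM (conTan cone)
open Pool.Agent.H17 (PN VanishesAt)
open Pool.Agent.H17EF (projVar)
open Pool.Agent.H17LG.Variety (FunField ratio IsLogGeneralType)
open Pool.Agent.H62.FC (Homog closureIn)
open Pool.Agent.H66.Lang (HolomorphicIntoPN)
open Pool.Agent.GG Pool.Agent.GB

namespace Pool.Agent.GV

variable {N : ℕ} {P Q : Ideal (MvPolynomial (Fin (N + 1)) ℂ)} {J m : ℕ} {θ : Fin J → SymSec P m} {d : ℕ}

/-- the line -/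
private theorem uniq_line (a w : Fin d → ℂ) (z : ℂ) : HasDerivAt (fun z : ℂ => a + z • w) w z ∧ AnalyticAt ℂ (fun z : ℂ => a + z • w) z := by
  constructor
  · have h := ((hasDerivAt_id z).smul_const w).const_add a
    simpa using h
  · fun_prop

/-- a representative along a line -/
private theorem uniq_rep {E : (Fin d → ℂ) → PN N} {a w : Fin d → ℂ} {z : ℂ} {F : (Fin d → ℂ) → Fin (N + 1) → ℂ} (hF : Hl E F (a + z • w)) :
    AnalyticAt ℂ (fun z : ℂ => F (a + z • w)) z ∧ Rep (fun z => E (a + z • w)) (fun z => F (a + z • w)) z ∧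
      ∀ᶠ z' in 𝓝 z, Hl E F (a + z' • w) ∧ deriv (fun z : ℂ => F (a + z • w)) z' = fderiv ℂ F (a + z' • w) w := by
  have hc : Tendsto (fun z : ℂ => a + z • w) (𝓝 z) (𝓝 (a + z • w)) := (uniq_line a w z).2.continuousAt
  refine ⟨AnalyticAt.comp_of_eq (f := fun z : ℂ => a + z • w) hF.1 (uniq_line a w z).2 rfl, hc.eventually hF.2, ?_⟩
  filter_upwards [hc.eventually (hF.1.eventually_analyticAt), hc.eventually hF.2.eventually_nhds] with z' h1 h2
  refine ⟨⟨h1, h2⟩, ?_⟩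
  exact (h1.differentiableAt.hasFDerivAt.comp_hasDerivAt z' (uniq_line a w z').1).deriv

/-- the lines are arcs -/
private theorem uniq_arc (hP : Homog P) {c : (Fin d → ℂ) → Fin J → ℂ} {E : (Fin d → ℂ) → PN N} (hE : IsFlat (m := fun _ => m) θ c E) (a w : Fin d → ℂ)
    (z : ℂ) : ArcAt (m := fun _ => m) θ (c w) (fun z => E (a + z • w)) z := by
  obtain ⟨F, hF⟩ := hE.hol (a + z • w)
  obtain ⟨h1, h2, h3⟩ := uniq_rep hF
  refine ⟨_, h1, h2, ?_⟩
  filter_upwards [h2, h3] with z' h4 h5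
  obtain ⟨h6, h7⟩ := h4
  refine ⟨?_, fun k => ?_⟩
  · have h8 := hE.mem (a + z' • w)
    have h9 : E (a + z' • w) = Projectivization.mk ℂ (F (a + z' • w)) h6 := h7
    rw [h9] at h8
    exact (Pool.Agent.H17EF.mk_mem_projVar hP h6).1 h8
  · have h8 := hE.flat (a + z' • w) w F h5.1 k
    rw [h5.2]
    exact h8

/-- the normalised representatives have the same value and the same derivative -/
private theorem uniq_norm {x y : ℂ → Fin (N + 1) → ℂ} {α : Fin (N + 1)} (hx : DifferentiableAt ℂ x 0) (hy : DifferentiableAt ℂ y 0) (h0 : x 0 = y 0)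
    (hα : x 0 α ≠ 0) (h1 : deriv x 0 - deriv y 0 ∈ Submodule.span ℂ {x 0}) :
    deriv (fun w => (x w α)⁻¹ • x w) 0 = deriv (fun w => (y w α)⁻¹ • y w) 0 := by
  obtain ⟨s, hs⟩ := Submodule.mem_span_singleton.1 h1
  have key : ∀ {x : ℂ → Fin (N + 1) → ℂ}, DifferentiableAt ℂ x 0 → x 0 α ≠ 0 →
      deriv (fun w => (x w α)⁻¹ • x w) 0 = (x 0 α)⁻¹ • deriv x 0 + (-(deriv x 0 α) / (x 0 α) ^ 2) • x 0 := by
    intro x hx hα
    have h2 : HasDerivAt (fun w => x w α) (deriv x 0 α) 0 := hasDerivAt_pi.1 hx.hasDerivAt α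
    have h3 := (h2.inv hα).smul hx.hasDerivAt
    exact h3.deriv
  have hyα : y 0 α ≠ 0 := h0 ▸ hα
  rw [key hx hα, key hy hyα]
  have h2 : deriv x 0 = deriv y 0 + s • x 0 := by rw [hs, add_sub_cancel]
  rw [h2, ← h0]
  funext i
  simp only [Pi.add_apply, Pi.smul_apply, smul_eq_mul]
  field_simp
  ring

/-- uniqueness of arcs -/
private theorem uniq_arcs (hP : Homog P) (hθ : Polar (m := fun _ => m) θ) (hm : 1 ≤ m) (f : Frame (m := fun _ => m) θ) {c : Fin J → ℂ} (hc : c ≠ 0)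
    {g₁ g₂ : ℂ → PN N} (h₁ : ∀ z, ArcAt (m := fun _ => m) θ c g₁ z) (h₂ : ∀ z, ArcAt (m := fun _ => m) θ c g₂ z) {x y : ℂ → Fin (N + 1) → ℂ}
    (hx : AnalyticAt ℂ x 0) (hy : AnalyticAt ℂ y 0) (hrx : Rep g₁ x 0) (hry : Rep g₂ y 0) (h0 : x 0 = y 0)
    (h1 : deriv x 0 - deriv y 0 ∈ Submodule.span ℂ {x 0}) (z : ℂ) : g₁ z = g₂ z := by
  -- a coordinate
  have hx0 : x 0 ≠ 0 := hrx.self_of_nhds.1
  obtain ⟨α, hα⟩ : ∃ α, x 0 α ≠ 0 := by
    by_contra hcon
    push Not at hcon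
    exact hx0 (funext hcon)
  have hyα : y 0 α ≠ 0 := h0 ▸ hα
  obtain ⟨n1, r1⟩ := nArc_of_lift (a := α) hP (h₁ 0) hx hrx hα
  obtain ⟨n2, r2⟩ := nArc_of_lift (a := α) hP (h₂ 0) hy hry hyα
  have hd := uniq_norm hx.differentiableAt hy.differentiableAt h0 hα h1
  have he : (x 0 α)⁻¹ • x 0 = (y 0 α)⁻¹ • y 0 := by rw [h0]
  obtain ⟨X, hX⟩ : ∃ X : ℂ → Fin (N + 1) → ℂ, X = fun w => (x w α)⁻¹ • x w := ⟨_, rfl⟩
  obtain ⟨Y, hY⟩ : ∃ Y : ℂ → Fin (N + 1) → ℂ, Y = fun w => (y w α)⁻¹ • y w := ⟨_, rfl⟩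
  rw [← hX] at n1 r1 hd
  rw [← hY] at n2 r2 hd
  have he' : X 0 = Y 0 := by rw [hX, hY]; exact he
  obtain ⟨v1, t1⟩ := arcV_of_nArc f n1
  obtain ⟨v2, t2⟩ := arcV_of_nArc f n2
  -- the velocity is not zero
  have hv : deriv X 0 ≠ 0 := by
    intro h
    apply hc
    funext k
    have h3 := t1.2.2.2.2 k
    rw [h] at h3
    have h4 := (θ k).smul (X 0) t1.1 0 (Submodule.zero_mem _) 0
    rw [zero_smul, zero_pow (by omega), zero_mul] at h4
    rw [← h3]
    exact h4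
  obtain ⟨I, hI⟩ := exists_row hθ f t1 hv
  obtain ⟨r, hr, K, H, hH⟩ := exists_Flow hI
  have hpt : pt (X 0) (deriv X 0) = pt (Y 0) (deriv Y 0) := by rw [he', hd]
  have e1 := hH.uniq X 0 v1 (mem_ball_self hr)
  have e2 := hH.uniq Y 0 v2 (by rw [← hpt]; exact mem_ball_self hr)
  have hnear : ∀ᶠ z in 𝓝 (0 : ℂ), g₁ z = g₂ z := by
    filter_upwards [e1, e2, r1, r2] with s h1 h2 h3 h4
    obtain ⟨h5, h6⟩ := h3
    obtain ⟨h7, h8⟩ := h4
    rw [h6, h8]
    congr 1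
    rw [h1, h2, hpt]
  exact arc_unique (θ := θ) isOpen_univ isPreconnected_univ (fun z _ => h₁ z) (fun z _ => h₂ z) (Set.mem_univ (0 : ℂ)) hnear z (Set.mem_univ z)

theorem period_of_sameFrame (hP : Homog P) (hθ : Polar (m := fun _ => m) θ) (hm : 1 ≤ m) (f : Frame (m := fun _ => m) θ) {c : (Fin d → ℂ) → Fin J → ℂ} {E : (Fin d → ℂ) → PN N}
    (hE : IsFlat (m := fun _ => m) θ c E) {a b : Fin d → ℂ} (h : SameFrame E a b) : a - b ∈ periods E := by
  obtain ⟨F, G, hF, hG, h0, hd⟩ := h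
  have key : ∀ w : Fin d → ℂ, E (a + w) = E (b + w) := by
    intro w
    rcases eq_or_ne w 0 with rfl | hw
    · rw [add_zero, add_zero]
      obtain ⟨h1, h2⟩ := hF.2.self_of_nhds
      obtain ⟨h3, h4⟩ := hG.2.self_of_nhds
      rw [h2, h4]
      simp only [h0]
    · have hF' : Hl E F (a + (0 : ℂ) • w) := by rwa [zero_smul, add_zero]
      have hG' : Hl E G (b + (0 : ℂ) • w) := by rwa [zero_smul, add_zero]
      obtain ⟨f1, f2, f3⟩ := uniq_rep hF'
      obtain ⟨g1, g2, g3⟩ := uniq_rep hG'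
      have h1 := uniq_arcs hP hθ hm f (hE.ne w hw) (uniq_arc hP hE a w) (uniq_arc hP hE b w) f1 g1 f2 g2
        (by rw [zero_smul, add_zero, add_zero]; exact h0)
        (by
          rw [f3.self_of_nhds.2, g3.self_of_nhds.2, zero_smul, add_zero, add_zero]
          exact hd w) 1
      simpa only [one_smul] using h1
  intro t
  have h1 := key (t - b)
  rw [add_sub_cancel] at h1
  rw [← h1]
  congr 1
  abel

end Pool.Agent.GV
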